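import Mathlib

set_option autoImplicit false

open Topology Filter Set

namespace Pool.Agent.H76R3.LB

/-- The local estimate: if, below the node `s`, the closures of the sets of norming points always
meet a fixed finite set, then the oscillation is at most half the Lipschitz constant. -/
lemma local_lb {K : Type*} [TopologicalSpace K] {M : Type} [PseudoMetricSpace M]
    (x y z : List ℕ → M) (P : List ℕ → Prop)
    (f : M → BoundedContinuousFunction K ℝ) (A : ℝ) (hA : 0 ≤ A)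
    (hf : ∀ p q, dist (f p) (f q) ≤ A * dist p q)
    (C : ℝ) (hz : ∀ s s', dist (z s) (z s') ≤ C)
    (t : List ℕ → K) (c : ℝ)
    (ht : ∀ v, P v → c ≤ |f (x v) (t v) - f (y v) (t v)|)
    (hx : ∀ s m v, P v → s ++ [m] <+: v → dist (x v) (z (s ++ [m])) ≤ 1/4)
    (hy : ∀ s m m' v, P v → m < m' → s ++ [m, m'] <+: v → dist (y v) (z (s ++ [m'])) ≤ 1/4)
    (s : List ℕ) (Γ : Finset K)
    (hΓ : ∀ m m', m < m' → ∃ γ ∈ Γ, γ ∈ closure (t '' {v | P v ∧ s ++ [m, m'] <+: v})) :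
    c ≤ A / 2 := by
  have key : ∀ ε : ℝ, 0 < ε → c ≤ A / 2 + 3 * ε := by
    intro ε hε
    -- the sequence of vectors of values at the points of `Γ`
    let u : ℕ → (Γ → ℝ) := fun m γ => f (z (s ++ [m])) γ.1
    have hcoord : ∀ p q τ, |f p τ - f q τ| ≤ A * dist p q := by
      intro p q τ
      rw [← Real.dist_eq]
      exact (BoundedContinuousFunction.dist_coe_le_dist τ).trans (hf p q)
    have hub : ∀ m, u m ∈ Metric.closedBall (u 0) (A * C) := by
      intro m
      have hC : 0 ≤ C := dist_nonneg.trans (hz [] [])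
      rw [Metric.mem_closedBall, dist_pi_le_iff (by positivity)]
      intro γ
      rw [Real.dist_eq]
      exact (hcoord _ _ _).trans (mul_le_mul_of_nonneg_left (hz _ _) hA)
    obtain ⟨a, -, φ, hφ, hlim⟩ := tendsto_subseq_of_bounded Metric.isBounded_closedBall hub
    obtain ⟨N, hN⟩ := (Metric.tendsto_atTop.1 hlim) (ε / 2) (by positivity)
    have hm : φ N < φ (N + 1) := hφ (Nat.lt_succ_self N)
    have hclose : ∀ γ : Γ, |f (z (s ++ [φ N])) γ.1 - f (z (s ++ [φ (N+1)])) γ.1| ≤ ε := by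
      intro γ
      have h1 := hN N le_rfl
      have h2 := hN (N+1) (Nat.le_succ N)
      have h3 : dist (u (φ N)) (u (φ (N+1))) ≤ ε := by
        have := dist_triangle_right (u (φ N)) (u (φ (N+1))) a
        simp only [Function.comp] at h1 h2
        linarith
      have h4 := (dist_le_pi_dist (u (φ N)) (u (φ (N+1))) γ).trans h3
      rw [Real.dist_eq] at h4
      exact h4
    obtain ⟨γ, hγ, hcl⟩ := hΓ _ _ hm
    set z1 := z (s ++ [φ N]) with hz1
    set z2 := z (s ++ [φ (N+1)]) with hz2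
    have hU : {τ | |f z1 τ - f z1 γ| < ε ∧ |f z2 τ - f z2 γ| < ε} ∈ 𝓝 γ := by
      have h1 : Tendsto (fun τ => |f z1 τ - f z1 γ|) (𝓝 γ) (𝓝 |f z1 γ - f z1 γ|) :=
        (((f z1).continuous.tendsto γ).sub_const _).abs
      have h2 : Tendsto (fun τ => |f z2 τ - f z2 γ|) (𝓝 γ) (𝓝 |f z2 γ - f z2 γ|) :=
        (((f z2).continuous.tendsto γ).sub_const _).abs
      rw [sub_self, abs_zero] at h1 h2
      exact (h1.eventually_lt_const hε).and (h2.eventually_lt_const hε)
    obtain ⟨τ, ⟨hτ1, hτ2⟩, ⟨v, ⟨hPv, hv⟩, rfl⟩⟩ := mem_closure_iff_nhds.1 hcl _ hU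
    have e1 : |f (x v) (t v) - f z1 (t v)| ≤ A * (1/4) := by
      refine (hcoord _ _ _).trans (mul_le_mul_of_nonneg_left (hx s (φ N) v hPv ?_) hA)
      refine List.IsPrefix.trans ?_ hv
      exact ⟨[φ (N+1)], by simp⟩
    have e2 : |f z2 (t v) - f (y v) (t v)| ≤ A * (1/4) := by
      rw [abs_sub_comm]
      exact (hcoord _ _ _).trans (mul_le_mul_of_nonneg_left (hy s _ _ v hPv hm hv) hA)
    have e3 := hclose ⟨γ, hγ⟩
    have e0 := ht v hPv
    have hsplit : f (x v) (t v) - f (y v) (t v) = (f (x v) (t v) - f z1 (t v))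
        + (f z1 (t v) - f z1 γ) + (f z1 γ - f z2 γ) - (f z2 (t v) - f z2 γ)
        + (f z2 (t v) - f (y v) (t v)) := by ring
    rw [hsplit] at e0
    have a1 := abs_le.1 e1
    have a2 := abs_le.1 e2
    have a3 := abs_le.1 e3
    have a4 := abs_lt.1 hτ1
    have a5 := abs_lt.1 hτ2
    refine e0.trans (abs_le.2 ⟨?_, ?_⟩) <;> linarith [a1.1, a1.2, a2.1, a2.2, a3.1, a3.2, a4.1, a4.2, a5.1, a5.2]
  by_contra hcon
  rw [not_le] at hcon
  have := key ((c - A / 2) / 6) (by linarith)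
  linarith

/-- preliminary facts on a map with Lipschitz constants `A` and `B`. -/
lemma exists_norming {K : Type*} [TopologicalSpace K] {M : Type} [PseudoMetricSpace M]
    (x y : M) (f : M → BoundedContinuousFunction K ℝ) (B : ℝ) (hB : 0 < B)
    (hf : ∀ p q, dist p q ≤ B * dist (f p) (f q)) (hxy : 1 ≤ dist x y)
    (c : ℝ) (hc0 : 0 ≤ c) (hc : c < 1 / B) : ∃ τ : K, c ≤ |f x τ - f y τ| := by
  by_contra hcon
  push Not at hcon
  have h1 : dist (f x) (f y) ≤ c := by
    rw [BoundedContinuousFunction.dist_le hc0]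
    intro τ
    rw [Real.dist_eq]
    exact (hcon τ).le
  have h2 := hf x y
  have h3 : (1:ℝ) ≤ B * c := by
    calc (1:ℝ) ≤ dist x y := hxy
      _ ≤ B * dist (f x) (f y) := h2
      _ ≤ B * c := by gcongr
  have h4 : B * c < B * (1 / B) := by gcongr
  have h5 : B * (1 / B) = 1 := by field_simp
  linarith

/-- The points and the distances used for the lower bounds. -/
structure Conf {M : Type} [PseudoMetricSpace M] (P : List ℕ → Prop) (x y z : List ℕ → M) : Prop where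
  bdd : ∃ C : ℝ, ∀ s s', dist (z s) (z s') ≤ C
  hx : ∀ s m v, P v → s ++ [m] <+: v → dist (x v) (z (s ++ [m])) ≤ 1/4
  hy : ∀ s m m' v, P v → m < m' → s ++ [m, m'] <+: v → dist (y v) (z (s ++ [m'])) ≤ 1/4
  hxy : ∀ v, P v → 1 ≤ dist (x v) (y v)

/-- The general scheme: reduces the lower bound to the production of a finite set. -/
lemma scheme {K : Type*} [TopologicalSpace K] [Nonempty K] {M : Type} [PseudoMetricSpace M]
    {P : List ℕ → Prop} (hP : ∃ v, P v) {x y z : List ℕ → M} (hM : Conf P x y z)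
    (f : M → BoundedContinuousFunction K ℝ) (A B : ℝ)
    (hA : ∀ p q, dist (f p) (f q) ≤ A * dist p q)
    (hB : ∀ p q, dist p q ≤ B * dist (f p) (f q))
    (hK : ∀ t : List ℕ → K, ∃ s : List ℕ, ∃ Γ : Finset K, ∀ m m', m < m' → ∃ γ ∈ Γ,
      γ ∈ closure (t '' {v | P v ∧ s ++ [m, m'] <+: v})) :
    2 ≤ A * B := by
  classical
  obtain ⟨v0, hv0⟩ := hP
  obtain ⟨C, hC⟩ := hM.bdd
  have hd := hM.hxy v0 hv0
  have hA0 : 0 ≤ A := by
    have h1 := (dist_nonneg (x := f (x v0)) (y := f (y v0))).trans (hA (x v0) (y v0))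
    by_contra hneg
    rw [not_le] at hneg
    nlinarith
  have hB0 : 0 < B := by
    by_contra hneg
    rw [not_lt] at hneg
    have h1 := hB (x v0) (y v0)
    have h2 : B * dist (f (x v0)) (f (y v0)) ≤ 0 := mul_nonpos_of_nonpos_of_nonneg hneg dist_nonneg
    linarith
  have hmain : ∀ c : ℝ, 0 ≤ c → c < 1 / B → c ≤ A / 2 := by
    intro c hc0 hc
    have hex : ∀ v, ∃ τ : K, P v → c ≤ |f (x v) τ - f (y v) τ| := by
      intro v
      by_cases hv : P v
      · obtain ⟨τ, hτ⟩ := exists_norming (x v) (y v) f B hB0 hB (hM.hxy v hv) c hc0 hc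
        exact ⟨τ, fun _ => hτ⟩
      · exact ⟨Classical.arbitrary K, fun h => absurd h hv⟩
    choose t ht using hex
    obtain ⟨s, Γ, hΓ⟩ := hK t
    exact local_lb x y z P f A hA0 hA C hC t c ht hM.hx hM.hy s Γ hΓ
  have h1 : 1 / B ≤ A / 2 := by
    apply le_of_forall_lt_imp_le_of_dense
    intro c hc
    by_cases hc0 : 0 ≤ c
    · exact hmain c hc0 hc
    · linarith
  rw [div_le_div_iff₀ hB0 (by norm_num)] at h1
  linarith

/-- Lower bound for all ordinal intervals, from a configuration indexed by all finite sequences. -/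
theorem lb_all (κ : Ordinal.{0}) {M : Type} [PseudoMetricSpace M]
    {x y z : List ℕ → M} (hM : Conf (fun _ => True) x y z)
    (f : M → BoundedContinuousFunction (Set.Iic κ) ℝ) (A B : ℝ)
    (hA : ∀ p q, dist (f p) (f q) ≤ A * dist p q)
    (hB : ∀ p q, dist p q ≤ B * dist (f p) (f q)) :
    2 ≤ A * B := by
  have : Nonempty (Set.Iic κ) := ⟨⟨κ, le_refl κ⟩⟩
  have : CompactSpace (Set.Iic κ) := by
    rw [← isCompact_iff_compactSpace, ← Set.Icc_bot]
    exact isCompact_Icc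
  refine scheme ⟨[], trivial⟩ hM f A B hA hB ?_
  intro t
  have hgr : ∀ s : List ℕ, ∃ g : Set.Iic κ, IsGreatest (closure (t '' {v | True ∧ s <+: v})) g := by
    intro s
    apply isClosed_closure.isCompact.exists_isGreatest
    exact ⟨t s, subset_closure ⟨s, ⟨trivial, List.prefix_refl s⟩, rfl⟩⟩
  choose g hg using hgr
  -- a node minimising the top point
  obtain ⟨γ, ⟨s, hs⟩, hmin⟩ := WellFounded.has_min (wellFounded_lt (α := Ordinal.{0}))
    (Set.range (fun s => (g s : Ordinal.{0}))) ⟨_, ⟨[], rfl⟩⟩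
  refine ⟨s, {g s}, fun m m' _ => ⟨g s, Finset.mem_singleton_self _, ?_⟩⟩
  have hsub : closure (t '' {v | True ∧ s ++ [m, m'] <+: v}) ⊆ closure (t '' {v | True ∧ s <+: v}) := by
    apply closure_mono
    apply Set.image_mono
    rintro v ⟨-, hv⟩
    exact ⟨trivial, (List.prefix_append s _).trans hv⟩
  have h1 : g (s ++ [m, m']) ≤ g s := (hg s).2 (hsub (hg _).1)
  have h2 : ¬ ((g (s ++ [m, m']) : Ordinal.{0}) < γ) := hmin _ ⟨_, rfl⟩
  have h3 : g (s ++ [m, m']) = g s := by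
    apply le_antisymm h1
    rw [← Subtype.coe_le_coe]
    simp only at hs
    rw [hs]
    exact not_lt.1 h2
  rw [← h3]
  exact (hg _).1

/-- nonzero multiples of `ω ^ j` (all ordinals for `j = 0`) -/
def DD (j : ℕ) (τ : Ordinal.{0}) : Prop := j = 0 ∨ (τ ≠ 0 ∧ (Ordinal.omega0 : Ordinal.{0}) ^ j ∣ τ)

lemma dvd_of_acc (j : ℕ) (τ : Ordinal.{0}) (h0 : τ ≠ 0)
    (h : ∀ β < τ, ∃ e : Ordinal.{0}, β < Ordinal.omega0 ^ j * e ∧ Ordinal.omega0 ^ j * e < τ) :
    (Ordinal.omega0 : Ordinal.{0}) ^ (j + 1) ∣ τ := by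
  set W : Ordinal.{0} := Ordinal.omega0 ^ j with hW
  have hW0 : W ≠ 0 := pow_ne_zero _ Ordinal.omega0_ne_zero
  have hWpos : 0 < W := pos_iff_ne_zero.2 hW0
  have hdm := Ordinal.div_add_mod τ W
  have hmod : τ % W = 0 := by
    by_contra hne
    have hlt : W * (τ / W) < τ := by
      conv_rhs => rw [← hdm]
      exact lt_add_of_pos_right _ (pos_iff_ne_zero.2 hne)
    obtain ⟨e, he1, he2⟩ := h _ hlt
    have h1 : τ / W < e := (mul_lt_mul_iff_right₀ hWpos).1 he1
    have h2 : W * (τ / W + 1) ≤ W * e := by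
      gcongr
      exact Order.add_one_le_iff.2 h1
    have h3 : τ < W * (τ / W + 1) := by
      rw [mul_add, mul_one]
      conv_lhs => rw [← hdm]
      exact (add_lt_add_iff_left _).2 (Ordinal.mod_lt τ hW0)
    exact absurd (h3.trans_le (h2.trans he2.le)) (lt_irrefl _)
  rw [hmod, add_zero] at hdm
  have hq0 : τ / W ≠ 0 := by
    intro hq
    rw [hq, mul_zero] at hdm
    exact h0 hdm.symm
  have hlim : Order.IsSuccLimit (τ / W) := by
    refine ⟨fun hmin => hq0 ?_, ?_⟩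
    · exact le_antisymm (hmin zero_le) zero_le
    · intro a ha
      have h1 : W * a < τ := by
        rw [← hdm]
        exact (mul_lt_mul_iff_right₀ hWpos).2 ha.1
      obtain ⟨e, he1, he2⟩ := h _ h1
      rw [← hdm] at he2
      exact ha.2 ((mul_lt_mul_iff_right₀ hWpos).1 he1) ((mul_lt_mul_iff_right₀ hWpos).1 he2)
  obtain ⟨c, hc⟩ := Ordinal.isSuccPrelimit_iff_omega0_dvd.1 hlim.isSuccPrelimit
  rw [← hdm, hc, pow_succ]
  exact mul_dvd_mul_left _ (Dvd.intro _ rfl)

lemma dd_finite (κ : Ordinal.{0}) (F : Set (Set.Iic κ)) (hF : IsClosed F) (j : ℕ)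
    (h : ∀ τ ∈ F, ¬ DD (j + 1) (τ : Set.Iic κ).1) :
    {τ : Set.Iic κ | τ ∈ F ∧ DD j τ.1}.Finite := by
  have : CompactSpace (Set.Iic κ) := by
    rw [← isCompact_iff_compactSpace, ← Set.Icc_bot]
    exact isCompact_Icc
  by_contra hinf
  obtain ⟨τ, hτF, hacc⟩ := Set.Infinite.exists_accPt_of_subset_isCompact hinf hF.isCompact
    (fun τ hτ => hτ.1)
  rw [accPt_iff_nhds] at hacc
  have hle : {σ : Set.Iic κ | σ.1 ≤ τ.1} ∈ 𝓝 τ := by
    have h1 : IsOpen {σ : Set.Iic κ | σ.1 < Order.succ τ.1} :=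
      isOpen_Iio.preimage continuous_subtype_val
    have h2 : {σ : Set.Iic κ | σ.1 ≤ τ.1} = {σ : Set.Iic κ | σ.1 < Order.succ τ.1} := by
      ext σ
      simp
    rw [h2]
    exact h1.mem_nhds (Order.lt_succ τ.1)
  have hlt : ∀ β < τ.1, {σ : Set.Iic κ | β < σ.1} ∈ 𝓝 τ := by
    intro β hβ
    exact (isOpen_Ioi.preimage continuous_subtype_val).mem_nhds hβ
  have h0 : τ.1 ≠ 0 := by
    intro h0
    obtain ⟨σ, ⟨hσ, -⟩, hne⟩ := hacc _ hle
    apply hne
    apply Subtype.ext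
    apply le_antisymm hσ
    rw [h0]
    exact zero_le
  refine h τ hτF (Or.inr ⟨h0, dvd_of_acc j τ.1 h0 ?_⟩)
  intro β hβ
  obtain ⟨σ, ⟨⟨hσ1, hσ2⟩, hσ3⟩, hne⟩ := hacc _ (inter_mem hle (hlt β hβ))
  have hlt' : σ.1 < τ.1 := lt_of_le_of_ne hσ1 (fun hh => hne (Subtype.ext hh))
  rcases hσ3.2 with hj | ⟨-, hj⟩
  · refine ⟨σ.1, ?_, ?_⟩
    · rw [hj, pow_zero, one_mul]; exact hσ2
    · rw [hj, pow_zero, one_mul]; exact hlt'
  · obtain ⟨e, he⟩ := hj
    refine ⟨e, ?_, ?_⟩
    · rw [← he]; exact hσ2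
    · rw [← he]; exact hlt'

/-- Lower bound for `[0, ω ^ k]`, from a configuration indexed by all finite sequences of length
`2 (k + 1)`. -/
theorem lb_finite (k : ℕ) {M : Type} [PseudoMetricSpace M]
    {x y z : List ℕ → M} (hM : Conf (fun v => v.length = 2 * (k + 1)) x y z)
    (f : M → BoundedContinuousFunction (Set.Iic ((Ordinal.omega0 : Ordinal.{0}) ^ k)) ℝ) (A B : ℝ)
    (hA : ∀ p q, dist (f p) (f q) ≤ A * dist p q)
    (hB : ∀ p q, dist p q ≤ B * dist (f p) (f q)) :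
    2 ≤ A * B := by
  classical
  have : Nonempty (Set.Iic ((Ordinal.omega0 : Ordinal.{0}) ^ k)) :=
    ⟨⟨(Ordinal.omega0 : Ordinal.{0}) ^ k, Set.mem_Iic.2 le_rfl⟩⟩
  refine scheme ⟨List.replicate (2 * (k + 1)) 0, by simp⟩ hM f A B hA hB ?_
  intro t
  by_contra hno
  have hind : ∀ j : ℕ, ∀ s : List ℕ, s.length + 2 * j = 2 * (k + 1) →
      ∃ τ ∈ closure (t '' {v | v.length = 2 * (k + 1) ∧ s <+: v}), DD j τ.1 := by
    intro j
    induction j with
    | zero =>
      intro s hs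
      exact ⟨t s, subset_closure ⟨s, ⟨by simpa using hs, List.prefix_refl s⟩, rfl⟩, Or.inl rfl⟩
    | succ j ih =>
      intro s hs
      by_contra hcon
      push Not at hcon
      have hfin := dd_finite _ _ isClosed_closure j hcon
      apply hno
      refine ⟨s, hfin.toFinset, ?_⟩
      intro m m' hm
      obtain ⟨τ, hτ, hd⟩ := ih (s ++ [m, m']) (by simp; omega)
      refine ⟨τ, ?_, hτ⟩
      rw [Set.Finite.mem_toFinset]
      refine ⟨?_, hd⟩
      refine closure_mono (Set.image_mono ?_) hτ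
      rintro v ⟨hv1, hv2⟩
      exact ⟨hv1, (List.prefix_append s _).trans hv2⟩
  obtain ⟨τ, -, hd⟩ := hind (k + 1) [] (by simp)
  rcases hd with hd | ⟨h0, hd⟩
  · omega
  · have h1 := Ordinal.le_of_dvd h0 hd
    have h2 : (Ordinal.omega0 : Ordinal.{0}) ^ k < Ordinal.omega0 ^ (k + 1) := by
      rw [pow_succ]
      conv_lhs => rw [← mul_one (Ordinal.omega0 ^ k : Ordinal.{0})]
      exact (mul_lt_mul_iff_right₀ (pos_iff_ne_zero.2 (pow_ne_zero _ Ordinal.omega0_ne_zero))).2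
        Ordinal.one_lt_omega0
    exact absurd (h2.trans_le (h1.trans τ.2)) (lt_irrefl _)

end Pool.Agent.H76R3.LB
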