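import Mathlib

set_option autoImplicit false

open Topology Filter Set
open scoped InnerProductSpace

namespace Pool.Agent.H76R3.JH

/-- a nonprincipal ultrafilter on the natural numbers -/
noncomputable abbrev UU : Ultrafilter ℕ := Filter.hyperfilter ℕ

lemma ev_gt (N : ℕ) : ∀ᶠ n in (UU : Filter ℕ), N < n := by
  have h : (UU : Filter ℕ) ≤ cofinite := Filter.hyperfilter_le_cofinite
  apply h
  rw [Nat.cofinite_eq_atTop]
  exact eventually_gt_atTop N

lemma exists_ulim {a : ℕ → ℝ} {C : ℝ} (h : ∀ n, |a n| ≤ C) :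
    ∃ x, Tendsto a (UU : Filter ℕ) (𝓝 x) := by
  have hc : IsCompact (Set.Icc (-C) C) := isCompact_Icc
  have hle : (↑(UU.map a) : Filter ℝ) ≤ 𝓟 (Set.Icc (-C) C) := by
    rw [le_principal_iff]
    change a ⁻¹' _ ∈ (UU : Filter ℕ)
    apply Filter.univ_mem'
    intro n
    exact abs_le.1 (h n)
  obtain ⟨x, -, hx⟩ := hc.ultrafilter_le_nhds _ hle
  exact ⟨x, hx⟩

variable {H : Type} [NormedAddCommGroup H] [InnerProductSpace ℝ H]

/-- weak convergence along the ultrafilter -/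
def WT (x : ℕ → H) (v : H) : Prop :=
  ∀ g : H, Tendsto (fun n => ⟪g, x n⟫_ℝ) (UU : Filter ℕ) (𝓝 ⟪g, v⟫_ℝ)

lemma WT.sub {x y : ℕ → H} {v w : H} (hx : WT x v) (hy : WT y w) :
    WT (fun n => x n - y n) (v - w) := by
  intro g
  simp only [inner_sub_right]
  exact (hx g).sub (hy g)

lemma WT.const (v : H) : WT (fun _ => v) v := fun _ => tendsto_const_nhds

lemma WT.congr {x y : ℕ → H} {v : H} (hx : WT x v) (h : ∀ᶠ n in (UU : Filter ℕ), x n = y n) :
    WT y v := by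
  intro g
  apply (hx g).congr'
  filter_upwards [h] with n hn
  rw [hn]

lemma WT.le_sum {ι : Type} (s : Finset ι) {x : ι → ℕ → H} {v : ι → H} (hx : ∀ i, WT (x i) (v i))
    {c : ℝ} (h : ∀ᶠ n in (UU : Filter ℕ), ∑ i ∈ s, ‖x i n‖ ^ 2 ≤ c) :
    ∑ i ∈ s, ‖v i‖ ^ 2 ≤ c := by
  have h1 : Tendsto (fun n => ∑ i ∈ s, 2 * ⟪v i, x i n⟫_ℝ) (UU : Filter ℕ)
      (𝓝 (∑ i ∈ s, 2 * ⟪v i, v i⟫_ℝ)) :=
    tendsto_finsetSum _ (fun i _ => (hx i (v i)).const_mul 2)
  have h2 : ∀ᶠ n in (UU : Filter ℕ), ∑ i ∈ s, 2 * ⟪v i, x i n⟫_ℝ ≤ (∑ i ∈ s, ‖v i‖ ^ 2) + c := by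
    filter_upwards [h] with n hn
    calc ∑ i ∈ s, 2 * ⟪v i, x i n⟫_ℝ ≤ ∑ i ∈ s, (‖v i‖ ^ 2 + ‖x i n‖ ^ 2) := by
          apply Finset.sum_le_sum
          intro i _
          have := real_inner_le_norm (v i) (x i n)
          nlinarith [sq_nonneg (‖v i‖ - ‖x i n‖)]
      _ = (∑ i ∈ s, ‖v i‖ ^ 2) + ∑ i ∈ s, ‖x i n‖ ^ 2 := Finset.sum_add_distrib
      _ ≤ _ := by linarith
  have h3 := le_of_tendsto h1 h2
  have h4 : ∑ i ∈ s, 2 * ⟪v i, v i⟫_ℝ = 2 * ∑ i ∈ s, ‖v i‖ ^ 2 := by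
    rw [Finset.mul_sum]
    apply Finset.sum_congr rfl
    intro i _
    rw [real_inner_self_eq_norm_sq]
  rw [h4] at h3
  linarith

lemma WT.norm_le {x : ℕ → H} {v : H} (hx : WT x v) {c : ℝ} (hc : 0 ≤ c)
    (h : ∀ᶠ n in (UU : Filter ℕ), ‖x n‖ ≤ c) : ‖v‖ ≤ c := by
  have := WT.le_sum (Finset.univ : Finset Unit) (x := fun _ => x) (v := fun _ => v) (fun _ => hx)
    (c := c ^ 2) (by
      filter_upwards [h] with n hn
      simp only [Finset.univ_unique, Finset.sum_singleton]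
      gcongr)
  simp only [Finset.univ_unique, Finset.sum_singleton] at this
  exact abs_le_of_sq_le_sq' this hc |>.2

variable [CompleteSpace H]

lemma exists_WT {x : ℕ → H} {C : ℝ} (h : ∀ n, ‖x n‖ ≤ C) : ∃ v, WT x v := by
  have hC : 0 ≤ C := (norm_nonneg _).trans (h 0)
  have hb : ∀ g : H, ∀ n, |⟪g, x n⟫_ℝ| ≤ ‖g‖ * C := by
    intro g n
    apply (abs_real_inner_le_norm g (x n)).trans
    gcongr
    exact h n
  choose φ hφ using fun g : H => exists_ulim (hb g)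
  have hadd : ∀ g g', φ (g + g') = φ g + φ g' := by
    intro g g'
    apply tendsto_nhds_unique (hφ (g + g'))
    simp only [inner_add_left]
    exact (hφ g).add (hφ g')
  have hsmul : ∀ (c : ℝ) g, φ (c • g) = c * φ g := by
    intro c g
    apply tendsto_nhds_unique (hφ (c • g))
    simp only [inner_smul_left]
    exact (hφ g).const_mul c
  have hbd : ∀ g, ‖φ g‖ ≤ C * ‖g‖ := by
    intro g
    rw [Real.norm_eq_abs, mul_comm]
    apply le_of_tendsto ((hφ g).abs)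
    exact Filter.Eventually.of_forall (hb g)
  let ℓ : H →L[ℝ] ℝ := LinearMap.mkContinuous
    { toFun := φ, map_add' := hadd, map_smul' := by intro c g; simpa using hsmul c g } C hbd
  refine ⟨(InnerProductSpace.toDual ℝ H).symm ℓ, fun g => ?_⟩
  have h1 : ⟪g, (InnerProductSpace.toDual ℝ H).symm ℓ⟫_ℝ = φ g := by
    rw [real_inner_comm, InnerProductSpace.toDual_symm_apply]
    rfl
  rw [h1]
  exact hφ g

open Classical in
/-- the weak limit along the ultrafilter -/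
noncomputable def wl (x : ℕ → H) : H := if h : ∃ v, WT x v then h.choose else 0

lemma wl_spec {x : ℕ → H} {C : ℝ} (h : ∀ n, ‖x n‖ ≤ C) : WT x (wl x) := by
  have := exists_WT h
  rw [wl, dif_pos this]
  exact this.choose_spec

lemma wl_norm_le {x : ℕ → H} {C : ℝ} (h : ∀ n, ‖x n‖ ≤ C) : ‖wl x‖ ≤ C :=
  (wl_spec h).norm_le ((norm_nonneg _).trans (h 0)) (Filter.Eventually.of_forall h)

end Pool.Agent.H76R3.JH
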