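import Mathlib
import Pool.Agent.H76R3.ULim

set_option autoImplicit false

open Topology Filter Set
open scoped InnerProductSpace

namespace Pool.Agent.H76R3.JH

variable {H : Type} [NormedAddCommGroup H] [InnerProductSpace ℝ H]

/-- partial energies of `x` along `p` -/
noncomputable def Ep (x : ℕ → H) (p : ℕ → ℕ) (m : ℕ) : ℝ :=
  ∑ i ∈ Finset.range m, ‖x (p (i + 1)) - x (p i)‖ ^ 2

/-- the 2-variation energy of `x` is at most `c` -/
def En (x : ℕ → H) (c : ℝ) : Prop := ∀ p : ℕ → ℕ, StrictMono p → ∀ m, Ep x p m ≤ c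

/-- the sup norm of `x` is at most `c` -/
def Sp (x : ℕ → H) (c : ℝ) : Prop := ∀ s, ‖x s‖ ≤ c

lemma Ep_nonneg (x : ℕ → H) (p : ℕ → ℕ) (m : ℕ) : 0 ≤ Ep x p m :=
  Finset.sum_nonneg (fun _ _ => by positivity)

lemma En.nonneg {x : ℕ → H} {c : ℝ} (h : En x c) : 0 ≤ c := by
  have := h id strictMono_id 0
  simpa [Ep] using this

lemma En.mono {x : ℕ → H} {c c' : ℝ} (h : En x c) (hc : c ≤ c') : En x c' :=
  fun p hp m => (h p hp m).trans hc

lemma En.limit {X : ℕ → ℕ → H} {x : ℕ → H} (hX : ∀ s, WT (fun n => X n s) (x s)) {c : ℝ}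
    (h : ∀ᶠ n in (UU : Filter ℕ), En (X n) c) : En x c := by
  intro p hp m
  apply WT.le_sum (Finset.range m) (x := fun i n => X n (p (i + 1)) - X n (p i))
    (v := fun i => x (p (i + 1)) - x (p i))
  · intro i
    exact (hX _).sub (hX _)
  · filter_upwards [h] with n hn
    exact hn p hp m

lemma Sp.limit {X : ℕ → ℕ → H} {x : ℕ → H} (hX : ∀ s, WT (fun n => X n s) (x s)) {c : ℝ}
    (hc : 0 ≤ c) (h : ∀ᶠ n in (UU : Filter ℕ), Sp (X n) c) : Sp x c := by
  intro s
  apply (hX s).norm_le hc
  filter_upwards [h] with n hn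
  exact hn s

/-- `‖a + b‖² ≤ 2‖a‖² + 2‖b‖²` form of the energy of a difference -/
lemma En.sub {x y : ℕ → H} {L : ℝ} (hx : En x (L ^ 2)) (hy : En y (L ^ 2)) :
    En (fun s => x s - y s) (4 * L ^ 2) := by
  intro p hp m
  have h1 := hx p hp m
  have h2 := hy p hp m
  have : Ep (fun s => x s - y s) p m ≤ 2 * Ep x p m + 2 * Ep y p m := by
    unfold Ep
    rw [Finset.mul_sum, Finset.mul_sum, ← Finset.sum_add_distrib]
    apply Finset.sum_le_sum
    intro i _
    have e : (x (p (i + 1)) - y (p (i + 1))) - (x (p i) - y (p i))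
      = (x (p (i + 1)) - x (p i)) - (y (p (i + 1)) - y (p i)) := by abel
    rw [e]
    have := norm_sub_le (x (p (i + 1)) - x (p i)) (y (p (i + 1)) - y (p i))
    have h0 := norm_nonneg ((x (p (i + 1)) - x (p i)) - (y (p (i + 1)) - y (p i)))
    nlinarith [sq_nonneg (‖x (p (i + 1)) - x (p i)‖ - ‖y (p (i + 1)) - y (p i)‖)]
  linarith

/-- Tails of bounded energy are small. -/
lemma En.tail {x : ℕ → H} {A : ℝ} (h : En x A) :
    ∃ S : ℕ, ∀ p : ℕ → ℕ, StrictMono p → S ≤ p 0 → ∀ m, Ep x p m ≤ 1 := by
  set T : Set ℝ := {e | ∃ p : ℕ → ℕ, StrictMono p ∧ ∃ m, e = Ep x p m} with hT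
  have hbdd : BddAbove T := ⟨A, by rintro e ⟨p, hp, m, rfl⟩; exact h p hp m⟩
  have hne : T.Nonempty := ⟨_, id, strictMono_id, 0, rfl⟩
  obtain ⟨e, ⟨p, hp, m, rfl⟩, he⟩ := exists_lt_of_lt_csSup hne (sub_one_lt (sSup T))
  refine ⟨p m + 1, fun q hq hq0 m' => ?_⟩
  -- concatenation
  set r : ℕ → ℕ := fun i => if i ≤ m then p i else q (i - m - 1) with hr
  have hrm : StrictMono r := by
    apply strictMono_nat_of_lt_succ
    intro i
    simp only [hr]
    split_ifs with h1 h2 h2
    · exact hp (Nat.lt_succ_self i)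
    · have him : i = m := by omega
      subst him
      have : q 0 ≤ q (i + 1 - i - 1) := hq.monotone (Nat.zero_le _)
      omega
    · omega
    · apply hq
      omega
  have hsum : Ep x r (m + 1 + m') = Ep x p m + ‖x (q 0) - x (p m)‖ ^ 2 + Ep x q m' := by
    unfold Ep
    rw [Finset.sum_range_add, Finset.sum_range_succ]
    congr 1
    · congr 1
      · apply Finset.sum_congr rfl
        intro i hi
        have hi' := Finset.mem_range.1 hi
        simp only [hr]
        rw [if_pos (by omega), if_pos (by omega)]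
      · simp only [hr]
        rw [if_neg (by omega), if_pos le_rfl]
        congr 3
        simp
    · apply Finset.sum_congr rfl
      intro i _
      simp only [hr]
      rw [if_neg (by omega), if_neg (by omega)]
      congr 3
      · congr 1
        congr 1
        omega
      · congr 1
        congr 1
        omega
  have h1 : Ep x r (m + 1 + m') ≤ sSup T := le_csSup hbdd ⟨r, hrm, _, rfl⟩
  have h2 : 0 ≤ ‖x (q 0) - x (p m)‖ ^ 2 := by positivity
  linarith

/-- Energy increment for one step. -/
lemma step_energy {D Δ : ℕ → H} {A L b δ : ℝ} {S : ℕ} (hL : 1 ≤ L) (hA : En D A)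
    (hΔ : En Δ (4 * L ^ 2)) (hb : Sp D b) (hΔs : Sp Δ (2 * L))
    (htail : ∀ p : ℕ → ℕ, StrictMono p → S ≤ p 0 → ∀ m, Ep D p m ≤ 1)
    (hδ : 4 * δ * S ≤ 1) (hδ0 : 0 ≤ δ)
    (hort : ∀ s ≤ S, ∀ t ≤ S, |⟪D s, Δ t⟫_ℝ| ≤ δ) :
    En (fun s => D s + Δ s) (A + 11 * L ^ 2 + 16 * L * b) := by
  intro p hp m
  have hb0 : 0 ≤ b := (norm_nonneg _).trans (hb 0)
  set c : ℕ → ℝ := fun i => ⟪D (p (i + 1)) - D (p i), Δ (p (i + 1)) - Δ (p i)⟫_ℝ with hc
  have hexp : Ep (fun s => D s + Δ s) p m
      = Ep D p m + Ep Δ p m + 2 * ∑ i ∈ Finset.range m, c i := by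
    unfold Ep
    rw [Finset.mul_sum, ← Finset.sum_add_distrib, ← Finset.sum_add_distrib]
    apply Finset.sum_congr rfl
    intro i _
    have e : (D (p (i + 1)) + Δ (p (i + 1))) - (D (p i) + Δ (p i))
      = (D (p (i + 1)) - D (p i)) + (Δ (p (i + 1)) - Δ (p i)) := by abel
    rw [e, norm_add_sq_real]
    ring
  -- split the cross terms
  have hsplit : ∑ i ∈ Finset.range m, c i ≤
      (∑ i ∈ (Finset.range m).filter (fun i => p (i + 1) ≤ S), |c i|)
      + ((∑ i ∈ (Finset.range m).filter (fun i => S ≤ p i), |c i|)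
      + (∑ i ∈ (Finset.range m).filter (fun i => p i < S ∧ S < p (i + 1)), |c i|)) := by
    calc ∑ i ∈ Finset.range m, c i ≤ ∑ i ∈ Finset.range m,
          ((if p (i + 1) ≤ S then |c i| else 0) + ((if S ≤ p i then |c i| else 0)
            + (if p i < S ∧ S < p (i + 1) then |c i| else 0))) := by
          apply Finset.sum_le_sum
          intro i _
          have h0 := abs_nonneg (c i)
          have h1 := le_abs_self (c i)
          split_ifs <;> first | linarith | (exfalso; omega)
      _ = _ := by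
          rw [Finset.sum_add_distrib, Finset.sum_add_distrib, Finset.sum_filter,
            Finset.sum_filter, Finset.sum_filter]
  have hpi : ∀ i, i ≤ p i := fun i => hp.id_le i
  have part1 : (∑ i ∈ (Finset.range m).filter (fun i => p (i + 1) ≤ S), |c i|) ≤ 1 := by
    have h1 : ∀ i ∈ (Finset.range m).filter (fun i => p (i + 1) ≤ S), |c i| ≤ 4 * δ := by
      intro i hi
      have hi2 := (Finset.mem_filter.1 hi).2
      have hi3 : p i ≤ S := (hp (Nat.lt_succ_self i)).le.trans hi2
      have a1 := abs_le.1 (hort _ hi2 _ hi2)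
      have a2 := abs_le.1 (hort _ hi2 _ hi3)
      have a3 := abs_le.1 (hort _ hi3 _ hi2)
      have a4 := abs_le.1 (hort _ hi3 _ hi3)
      simp only [hc, inner_sub_left, inner_sub_right]
      rw [abs_le]
      constructor <;> linarith [a1.1, a1.2, a2.1, a2.2, a3.1, a3.2, a4.1, a4.2]
    have h2 : (Finset.range m).filter (fun i => p (i + 1) ≤ S) ⊆ Finset.range S := by
      intro i hi
      have hi2 := (Finset.mem_filter.1 hi).2
      have := hpi (i + 1)
      rw [Finset.mem_range]
      omega
    calc (∑ i ∈ (Finset.range m).filter (fun i => p (i + 1) ≤ S), |c i|)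
        ≤ ∑ i ∈ (Finset.range m).filter (fun i => p (i + 1) ≤ S), 4 * δ := Finset.sum_le_sum h1
      _ = (((Finset.range m).filter (fun i => p (i + 1) ≤ S)).card : ℝ) * (4 * δ) := by
          rw [Finset.sum_const, nsmul_eq_mul]
      _ ≤ (S : ℝ) * (4 * δ) := by
          gcongr
          have := Finset.card_le_card h2
          rwa [Finset.card_range] at this
      _ ≤ 1 := by linarith
  have part2 : (∑ i ∈ (Finset.range m).filter (fun i => S ≤ p i), |c i|) ≤ (5 / 2) * L ^ 2 := by
    -- first index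
    have hL2 : 1 ≤ L ^ 2 := by nlinarith
    by_cases hne : ∃ i, S ≤ p i
    · classical
      set i0 := Nat.find hne with hi0
      have hi0s : S ≤ p i0 := Nat.find_spec hne
      have hsub : (Finset.range m).filter (fun i => S ≤ p i) ⊆
          (Finset.range (m - i0)).map (addLeftEmbedding i0) := by
        intro i hi
        rw [Finset.mem_filter, Finset.mem_range] at hi
        have : i0 ≤ i := Nat.find_min' hne hi.2
        rw [Finset.mem_map]
        refine ⟨i - i0, ?_, ?_⟩
        · rw [Finset.mem_range]; omega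
        · simp only [addLeftEmbedding_apply]; omega
      have hq : StrictMono (fun i => p (i0 + i)) := fun a b hab => hp (by omega)
      have t1 := htail (fun i => p (i0 + i)) hq (by simpa using hi0s) (m - i0)
      have t2 := hΔ (fun i => p (i0 + i)) hq (m - i0)
      calc (∑ i ∈ (Finset.range m).filter (fun i => S ≤ p i), |c i|)
          ≤ ∑ i ∈ (Finset.range (m - i0)).map (addLeftEmbedding i0), |c i| :=
            Finset.sum_le_sum_of_subset_of_nonneg hsub (fun _ _ _ => abs_nonneg _)
        _ = ∑ i ∈ Finset.range (m - i0), |c (i0 + i)| := by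
            rw [Finset.sum_map]
            rfl
        _ ≤ ∑ i ∈ Finset.range (m - i0), ((1 / 2) * ‖D (p (i0 + (i + 1))) - D (p (i0 + i))‖ ^ 2
              + (1 / 2) * ‖Δ (p (i0 + (i + 1))) - Δ (p (i0 + i))‖ ^ 2) := by
            apply Finset.sum_le_sum
            intro i _
            simp only [hc]
            apply (abs_real_inner_le_norm _ _).trans
            rw [show i0 + i + 1 = i0 + (i + 1) by ring]
            nlinarith [sq_nonneg (‖D (p (i0 + (i + 1))) - D (p (i0 + i))‖
              - ‖Δ (p (i0 + (i + 1))) - Δ (p (i0 + i))‖)]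
        _ = (1 / 2) * Ep D (fun i => p (i0 + i)) (m - i0)
            + (1 / 2) * Ep Δ (fun i => p (i0 + i)) (m - i0) := by
            unfold Ep
            rw [Finset.mul_sum, Finset.mul_sum, ← Finset.sum_add_distrib]
        _ ≤ (1 / 2) * 1 + (1 / 2) * (4 * L ^ 2) := by gcongr
        _ ≤ (5 / 2) * L ^ 2 := by linarith
    · have : (Finset.range m).filter (fun i => S ≤ p i) = ∅ := by
        apply Finset.filter_eq_empty_iff.2
        intro i _ h
        exact hne ⟨i, h⟩
      rw [this, Finset.sum_empty]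
      positivity
  have part3 : (∑ i ∈ (Finset.range m).filter (fun i => p i < S ∧ S < p (i + 1)), |c i|)
      ≤ 8 * L * b := by
    have h1 : ∀ i ∈ (Finset.range m).filter (fun i => p i < S ∧ S < p (i + 1)),
        |c i| ≤ 8 * L * b := by
      intro i _
      simp only [hc]
      apply (abs_real_inner_le_norm _ _).trans
      have e1 := norm_sub_le (D (p (i + 1))) (D (p i))
      have e2 := norm_sub_le (Δ (p (i + 1))) (Δ (p i))
      have e3 := hb (p (i + 1))
      have e4 := hb (p i)
      have e5 := hΔs (p (i + 1))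
      have e6 := hΔs (p i)
      calc ‖D (p (i + 1)) - D (p i)‖ * ‖Δ (p (i + 1)) - Δ (p i)‖ ≤ (2 * b) * (4 * L) := by
            apply mul_le_mul (by linarith) (by linarith) (norm_nonneg _) (by linarith)
        _ = 8 * L * b := by ring
    have hcard : ((Finset.range m).filter (fun i => p i < S ∧ S < p (i + 1))).card ≤ 1 := by
      rw [Finset.card_le_one]
      intro i hi j hj
      rw [Finset.mem_filter] at hi hj
      by_contra hne
      rcases lt_or_gt_of_ne hne with hlt | hlt
      · have := hp.monotone (show i + 1 ≤ j by omega)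
        omega
      · have := hp.monotone (show j + 1 ≤ i by omega)
        omega
    calc (∑ i ∈ (Finset.range m).filter (fun i => p i < S ∧ S < p (i + 1)), |c i|)
        ≤ ∑ i ∈ (Finset.range m).filter (fun i => p i < S ∧ S < p (i + 1)), 8 * L * b :=
          Finset.sum_le_sum h1
      _ = (((Finset.range m).filter (fun i => p i < S ∧ S < p (i + 1))).card : ℝ)
            * (8 * L * b) := by
          rw [Finset.sum_const, nsmul_eq_mul]
      _ ≤ 1 * (8 * L * b) := by
          gcongr
          exact_mod_cast hcard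
      _ = 8 * L * b := one_mul _
  have hL2 : 1 ≤ L ^ 2 := by nlinarith
  have e1 := hA p hp m
  have e2 := hΔ p hp m
  rw [hexp]
  nlinarith

end Pool.Agent.H76R3.JH
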