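import Mathlib
import Pool.Agent.H76R3.Energy

set_option autoImplicit false

open Topology Filter Set
open scoped InnerProductSpace

namespace Pool.Agent.H76R3.JH

/-- strictly increasing lists -/
def SL (l : List ℕ) : Prop := l.Pairwise (· < ·)

/-- lists differing in one entry -/
def D1 (l l' : List ℕ) : Prop := ∃ (a : List ℕ) (x y : ℕ) (b : List ℕ), l = a ++ x :: b ∧ l' = a ++ y :: b

lemma SL.snoc {l : List ℕ} (h : SL l) {n : ℕ} (hn : ∀ a ∈ l, a < n) : SL (l ++ [n]) := by
  unfold SL
  rw [List.pairwise_append]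
  refine ⟨h, List.pairwise_singleton _ _, ?_⟩
  intro a ha b hb
  rw [List.mem_singleton] at hb
  subst hb
  exact hn a ha

lemma ev_list (l : List ℕ) : ∀ᶠ n in (UU : Filter ℕ), ∀ a ∈ l, a < n := by
  filter_upwards [ev_gt l.sum] with n hn a ha
  exact lt_of_le_of_lt (List.le_sum_of_mem ha) hn

lemma D1.snoc {l l' : List ℕ} (h : D1 l l') (n : ℕ) : D1 (l ++ [n]) (l' ++ [n]) := by
  obtain ⟨a, x, y, b, rfl, rfl⟩ := h
  exact ⟨a, x, y, b ++ [n], by simp, by simp⟩

lemma D1_last (l : List ℕ) (n m : ℕ) : D1 (l ++ [n]) (l ++ [m]) := ⟨l, n, m, [], rfl, rfl⟩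

variable {H : Type} [NormedAddCommGroup H] [InnerProductSpace ℝ H] [CompleteSpace H]

/-- iterated weak limits -/
noncomputable def It (φ : List ℕ → H) : ℕ → List ℕ → H
  | 0 => φ
  | r + 1 => fun l => wl (fun n => It φ r (l ++ [n]))

lemma It_bound {φ : List ℕ → H} {C : ℝ} (h : ∀ l, ‖φ l‖ ≤ C) (r : ℕ) (l : List ℕ) :
    ‖It φ r l‖ ≤ C := by
  induction r generalizing l with
  | zero => exact h l
  | succ r ih => exact wl_norm_le (fun n => ih _)

lemma It_WT {φ : List ℕ → H} {C : ℝ} (h : ∀ l, ‖φ l‖ ≤ C) (r : ℕ) (l : List ℕ) :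
    WT (fun n => It φ r (l ++ [n])) (It φ (r + 1) l) :=
  wl_spec (fun n => It_bound h r _)

/-- one-coordinate Lipschitz property at length `j` -/
def LipAt (φ : List ℕ → H) (j : ℕ) (L : ℝ) : Prop :=
  ∀ l l', l.length = j → l'.length = j → SL l → SL l' → D1 l l' → ‖φ l - φ l'‖ ≤ L

lemma LipAt.It {φ : List ℕ → H} {C L : ℝ} (hL : 0 ≤ L) (h : ∀ l, ‖φ l‖ ≤ C) {r j : ℕ}
    (hφ : LipAt φ (j + r) L) : LipAt (It φ r) j L := by
  induction r generalizing j with
  | zero => exact hφ
  | succ r ih =>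
    have ih' : LipAt (JH.It φ r) (j + 1) L := ih (by rwa [Nat.add_right_comm])
    intro l l' hl hl' hs hs' hd
    apply ((It_WT h r l).sub (It_WT h r l')).norm_le hL
    filter_upwards [ev_list l, ev_list l'] with n hn hn'
    exact ih' _ _ (by simp [hl]) (by simp [hl']) (hs.snoc hn) (hs'.snoc hn') (hd.snoc n)

lemma LipAt.inc {φ : List ℕ → H} {C L : ℝ} (hL : 0 ≤ L) (h : ∀ l, ‖φ l‖ ≤ C) {r j : ℕ}
    (hφ : LipAt φ (j + 1 + r) L) (l : List ℕ) (hl : l.length = j) (hs : SL l) (n : ℕ)
    (hn : ∀ a ∈ l, a < n) : ‖JH.It φ r (l ++ [n]) - JH.It φ (r + 1) l‖ ≤ L := by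
  have h1 : LipAt (JH.It φ r) (j + 1) L := LipAt.It hL h hφ
  apply ((WT.const _).sub (It_WT h r l)).norm_le hL
  filter_upwards [ev_list l] with m hm
  exact h1 _ _ (by simp [hl]) (by simp [hl]) (hs.snoc hn) (hs.snoc hm) (D1_last l n m)

/-- iterated weak limits of function-valued maps -/
noncomputable def Fr (f : List ℕ → ℕ → H) (r : ℕ) (l : List ℕ) (s : ℕ) : H :=
  It (fun l => f l s) r l

section main

variable {f : List ℕ → ℕ → H} {K : ℕ} {C L : ℝ} (hL : 1 ≤ L)
  (hC : ∀ l s, ‖f l s‖ ≤ C)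
  (hEn : ∀ l l', l.length = K → l'.length = K → SL l → SL l' → D1 l l' →
    En (fun s => f l s - f l' s) (L ^ 2))
  (hSp : ∀ l l', l.length = K → l'.length = K → SL l → SL l' → D1 l l' →
    Sp (fun s => f l s - f l' s) L)

include hC in
lemma Fr_bound (r : ℕ) (l : List ℕ) (s : ℕ) : ‖Fr f r l s‖ ≤ C :=
  It_bound (fun l => hC l s) r l

include hC in
lemma Fr_WT (r : ℕ) (l : List ℕ) (s : ℕ) :
    WT (fun n => Fr f r (l ++ [n]) s) (Fr f (r + 1) l s) :=
  It_WT (fun l => hC l s) r l

include hL hC hSp in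
lemma Fr_Sp {r j : ℕ} (hj : j + r = K) (l l' : List ℕ) (hl : l.length = j) (hl' : l'.length = j)
    (hs : SL l) (hs' : SL l') (hd : D1 l l') : Sp (fun s => Fr f r l s - Fr f r l' s) L := by
  intro s
  have h1 : LipAt (fun l => f l s) (j + r) L := by
    rw [hj]
    intro l l' h1 h2 h3 h4 h5
    exact hSp l l' h1 h2 h3 h4 h5 s
  exact LipAt.It (by linarith) (fun l => hC l s) h1 l l' hl hl' hs hs' hd

include hL hC hSp in
lemma Fr_Sp_inc {r j : ℕ} (hj : j + 1 + r = K) (l : List ℕ) (hl : l.length = j)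
    (hs : SL l) (n : ℕ) (hn : ∀ a ∈ l, a < n) :
    Sp (fun s => Fr f r (l ++ [n]) s - Fr f (r + 1) l s) L := by
  intro s
  have h1 : LipAt (fun l => f l s) (j + 1 + r) L := by
    rw [hj]
    intro l l' h1 h2 h3 h4 h5
    exact hSp l l' h1 h2 h3 h4 h5 s
  exact LipAt.inc (by linarith) (fun l => hC l s) h1 l hl hs n hn

include hC hEn in
lemma Fr_En {r j : ℕ} (hj : j + r = K) (l l' : List ℕ) (hl : l.length = j) (hl' : l'.length = j)
    (hs : SL l) (hs' : SL l') (hd : D1 l l') :
    En (fun s => Fr f r l s - Fr f r l' s) (L ^ 2) := by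
  induction r generalizing j l l' with
  | zero => exact hEn l l' (by omega) (by omega) hs hs' hd
  | succ r ih =>
    apply En.limit (X := fun n s => Fr f r (l ++ [n]) s - Fr f r (l' ++ [n]) s)
    · intro s
      exact (Fr_WT hC r l s).sub (Fr_WT hC r l' s)
    · filter_upwards [ev_list l, ev_list l'] with n hn hn'
      exact ih (j := j + 1) (by omega) _ _ (by simp [hl]) (by simp [hl']) (hs.snoc hn)
        (hs'.snoc hn') (hd.snoc n)

include hC hEn in
lemma Fr_En_inc {r j : ℕ} (hj : j + 1 + r = K) (l : List ℕ) (hl : l.length = j)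
    (hs : SL l) (n : ℕ) (hn : ∀ a ∈ l, a < n) :
    En (fun s => Fr f r (l ++ [n]) s - Fr f (r + 1) l s) (L ^ 2) := by
  apply En.limit (X := fun m s => Fr f r (l ++ [n]) s - Fr f r (l ++ [m]) s)
  · intro s
    exact (WT.const _).sub (Fr_WT hC r l s)
  · filter_upwards [ev_list l] with m hm
    exact Fr_En hC hEn (j := j + 1) (by omega) _ _ (by simp [hl]) (by simp [hl]) (hs.snoc hn)
      (hs.snoc hm) (D1_last l n m)

variable (f) in
/-- weak limit at infinity of the iterated limits -/
noncomputable def lam (r : ℕ) (l : List ℕ) : H := wl (fun s => Fr f r l s)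

include hC in
lemma lam_bound (r : ℕ) (l : List ℕ) : ‖lam f r l‖ ≤ C :=
  wl_norm_le (fun s => Fr_bound hC r l s)

include hC in
lemma lam_WT (r : ℕ) (l : List ℕ) : WT (fun s => Fr f r l s) (lam f r l) :=
  wl_spec (fun s => Fr_bound hC r l s)

include hL hC hSp in
lemma lam_Lip {r j : ℕ} (hj : j + r = K) : LipAt (lam f r) j L := by
  intro l l' hl hl' hs hs' hd
  apply ((lam_WT hC r l).sub (lam_WT hC r l')).norm_le (by linarith)
  exact Filter.Eventually.of_forall (Fr_Sp hL hC hSp hj l l' hl hl' hs hs' hd)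

variable (f K L) in
/-- generic lists -/
def Good (l : List ℕ) : Prop :=
  SL l ∧ ∀ r q, r + q + l.length = K →
    ‖It (lam f r) q l - It (lam f r) (q + l.length) []‖ ^ 2 ≤ l.length * (L ^ 2 + 1)

lemma Good_nil : Good f K L [] := by
  refine ⟨List.Pairwise.nil, ?_⟩
  intro r q _
  simp

include hL hC hSp in
lemma Good_snoc {l : List ℕ} (hl : Good f K L l) :
    ∀ᶠ n in (UU : Filter ℕ), Good f K L (l ++ [n]) := by
  have key : ∀ r ∈ Finset.range (K + 1), ∀ᶠ n in (UU : Filter ℕ), ∀ q, r + q + (l.length + 1) = K →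
      2 * ⟪It (lam f r) (q + 1) l - It (lam f r) (q + (l.length + 1)) [],
        It (lam f r) q (l ++ [n]) - It (lam f r) (q + 1) l⟫_ℝ ≤ 1 := by
    intro r _
    by_cases hr : ∃ q, r + q + (l.length + 1) = K
    · obtain ⟨q, hq⟩ := hr
      have h1 : WT (fun n => It (lam f r) q (l ++ [n]) - It (lam f r) (q + 1) l)
          (It (lam f r) (q + 1) l - It (lam f r) (q + 1) l) :=
        (It_WT (fun l => lam_bound hC r l) q l).sub (WT.const _)
      rw [sub_self] at h1
      have h2 := (h1 (It (lam f r) (q + 1) l - It (lam f r) (q + (l.length + 1)) [])).const_mul 2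
      rw [inner_zero_right, mul_zero] at h2
      filter_upwards [h2.eventually (gt_mem_nhds zero_lt_one)] with n hn q' hq'
      have : q' = q := by omega
      subst this
      exact hn.le
    · apply Filter.Eventually.of_forall
      intro n q hq
      exact absurd ⟨q, hq⟩ hr
  have key2 := (Filter.eventually_all_finset (Finset.range (K + 1))).2 key
  filter_upwards [key2, ev_list l] with n h1 hn
  refine ⟨hl.1.snoc hn, ?_⟩
  intro r q hrq
  rw [List.length_append, List.length_singleton] at hrq ⊢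
  have h2 := h1 r (Finset.mem_range.2 (by omega)) q hrq
  have h3 := hl.2 r (q + 1) (by omega)
  have e : q + 1 + l.length = q + (l.length + 1) := by ring
  rw [e] at h3
  have h4 : ‖It (lam f r) q (l ++ [n]) - It (lam f r) (q + 1) l‖ ≤ L :=
    LipAt.inc (by linarith) (fun l => lam_bound hC r l)
      (lam_Lip hL hC hSp (j := l.length + 1 + q) (by omega)) l rfl hl.1 n hn
  have h5 : ‖It (lam f r) q (l ++ [n]) - It (lam f r) (q + 1) l‖ ^ 2 ≤ L ^ 2 := by
    gcongr
  have h6 : It (lam f r) q (l ++ [n]) - It (lam f r) (q + (l.length + 1)) []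
      = (It (lam f r) (q + 1) l - It (lam f r) (q + (l.length + 1)) [])
        + (It (lam f r) q (l ++ [n]) - It (lam f r) (q + 1) l) := by abel
  rw [h6, norm_add_sq_real]
  push_cast
  linarith

include hL hC hEn hSp in
/-- One step of the construction of the interlaced pair. -/
lemma step_pair {l l' : List ℕ} {i : ℕ} (hi : l.length = i) (hi' : l'.length = i) (hiK : i < K)
    (hG : Good f K L l) (hG' : Good f K L l') {r : ℕ} (hr : i + 1 + r = K) {A b b' : ℝ}
    (hA : En (fun s => Fr f (r + 1) l s - Fr f (r + 1) l' s) A)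
    (hb : Sp (fun s => Fr f (r + 1) l s - Fr f (r + 1) l' s) b)
    (hb1 : b ^ 2 + 6 * L ^ 2 ≤ b' ^ 2) (hb2 : 6 * Real.sqrt K * L ≤ b') :
    ∃ n m, (∀ a ∈ l, a < n) ∧ (∀ a ∈ l', a < n) ∧ n < m ∧ Good f K L (l ++ [n]) ∧
      Good f K L (l' ++ [m]) ∧
      En (fun s => Fr f r (l ++ [n]) s - Fr f r (l' ++ [m]) s) (A + 11 * L ^ 2 + 16 * L * b) ∧
      Sp (fun s => Fr f r (l ++ [n]) s - Fr f r (l' ++ [m]) s) b' := by
  set D : ℕ → H := fun s => Fr f (r + 1) l s - Fr f (r + 1) l' s with hD
  obtain ⟨S, hS⟩ := hA.tail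
  set δ : ℝ := 1 / (4 * (S + 1)) with hδ
  have hδ0 : 0 < δ := by positivity
  have hδ1 : 4 * δ * S ≤ 1 := by
    rw [hδ]
    have : 4 * (1 / (4 * ((S : ℝ) + 1))) * S = S / (S + 1) := by field_simp
    rw [this, div_le_one (by positivity)]
    linarith
  have hδ2 : δ ≤ 1 := by
    rw [hδ, div_le_one (by positivity)]
    have : (0 : ℝ) ≤ S := by positivity
    linarith
  have hK1 : (1 : ℝ) ≤ K := by
    have : 1 ≤ K := by omega
    exact_mod_cast this
  have hsK : 1 ≤ Real.sqrt K := by
    rw [Real.one_le_sqrt]; exact hK1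
  -- weak smallness of the increments
  have wsmall : ∀ l0 : List ℕ, ∀ᶠ n in (UU : Filter ℕ), ∀ s ∈ Finset.range (S + 1),
      ∀ t ∈ Finset.range (S + 1),
      |⟪D s, Fr f r (l0 ++ [n]) t - Fr f (r + 1) l0 t⟫_ℝ| < δ / 2 := by
    intro l0
    rw [Filter.eventually_all_finset]
    intro s _
    rw [Filter.eventually_all_finset]
    intro t _
    have h1 : WT (fun n => Fr f r (l0 ++ [n]) t - Fr f (r + 1) l0 t)
        (Fr f (r + 1) l0 t - Fr f (r + 1) l0 t) := (Fr_WT hC r l0 t).sub (WT.const _)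
    rw [sub_self] at h1
    have h2 := (h1 (D s)).abs
    rw [inner_zero_right, abs_zero] at h2
    exact h2.eventually (gt_mem_nhds (by positivity))
  obtain ⟨n, hn1, hn2, hn3, hn4⟩ := ((ev_list l).and ((ev_list l').and
    ((Good_snoc hL hC hSp hG).and (wsmall l)))).exists
  obtain ⟨m, hm1, hm2, hm3, hm4⟩ := ((ev_list l').and ((ev_gt n).and
    ((Good_snoc hL hC hSp hG').and (wsmall l')))).exists
  set u : ℕ → H := fun s => Fr f r (l ++ [n]) s - Fr f (r + 1) l s with hu
  set v : ℕ → H := fun s => Fr f r (l' ++ [m]) s - Fr f (r + 1) l' s with hv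
  have hEu : En u (L ^ 2) := Fr_En_inc hC hEn hr l hi hG.1 n hn1
  have hEv : En v (L ^ 2) := Fr_En_inc hC hEn hr l' hi' hG'.1 m hm1
  have hSu : Sp u L := Fr_Sp_inc hL hC hSp hr l hi hG.1 n hn1
  have hSv : Sp v L := Fr_Sp_inc hL hC hSp hr l' hi' hG'.1 m hm1
  have hEΔ : En (fun s => u s - v s) (4 * L ^ 2) := hEu.sub hEv
  have hSΔ : Sp (fun s => u s - v s) (2 * L) := by
    intro s
    have := norm_sub_le (u s) (v s)
    linarith [hSu s, hSv s]
  have hort : ∀ s ≤ S, ∀ t ≤ S, |⟪D s, u t - v t⟫_ℝ| ≤ δ := by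
    intro s hs t ht
    have h1 := hn4 s (Finset.mem_range.2 (by omega)) t (Finset.mem_range.2 (by omega))
    have h2 := hm4 s (Finset.mem_range.2 (by omega)) t (Finset.mem_range.2 (by omega))
    rw [inner_sub_right]
    have h1' := abs_lt.1 h1
    have h2' := abs_lt.1 h2
    rw [abs_le]
    constructor
    · have e1 := h1'.1; have e2 := h2'.2
      simp only [hu, hv]
      linarith
    · have e1 := h1'.2; have e2 := h2'.1
      simp only [hu, hv]
      linarith
  have hsum : (fun s => Fr f r (l ++ [n]) s - Fr f r (l' ++ [m]) s)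
      = fun s => D s + (u s - v s) := by
    funext s
    simp only [hD, hu, hv]
    abel
  refine ⟨n, m, hn1, hn2, hm2, hn3, hm3, ?_, ?_⟩
  · rw [hsum]
    exact step_energy hL hA hEΔ hb hSΔ hS hδ1 hδ0.le hort
  · rw [hsum]
    intro s
    have hb0 : 0 ≤ b' := le_trans (by positivity) hb2
    by_cases hsS : s ≤ S
    · have h1 := abs_le.1 (hort s hsS s hsS)
      have h2 := hSΔ s
      have h3 := hb s
      have h2' : ‖u s - v s‖ ^ 2 ≤ (2 * L) ^ 2 := by gcongr
      have h3' : ‖D s‖ ^ 2 ≤ b ^ 2 := by gcongr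
      have h4 : ‖D s + (u s - v s)‖ ^ 2 ≤ b' ^ 2 := by
        rw [norm_add_sq_real]
        nlinarith [h1.2]
      exact (abs_le_of_sq_le_sq' h4 hb0).2
    · -- far coordinates
      have hΛ : WT (fun s => D s) (lam f (r + 1) l - lam f (r + 1) l') :=
        (lam_WT hC (r + 1) l).sub (lam_WT hC (r + 1) l')
      have h1 : ‖D s - (lam f (r + 1) l - lam f (r + 1) l')‖ ≤ 1 := by
        apply ((WT.const (D s)).sub hΛ).norm_le zero_le_one
        filter_upwards [ev_gt s] with t ht
        have h3 := hS (fun i => if i = 0 then s else t + (i - 1)) (by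
          apply strictMono_nat_of_lt_succ
          intro i
          by_cases h0 : i = 0
          · simp [h0]; omega
          · simp only [h0, if_false, Nat.succ_ne_zero]
            omega) (by simp; omega) 1
        simp only [Ep, Finset.range_one, Finset.sum_singleton, zero_add, if_true, one_ne_zero,
          if_false, Nat.sub_self, add_zero] at h3
        rw [norm_sub_rev]
        have h4 : ‖D t - D s‖ ^ 2 ≤ 1 ^ 2 := by simpa using h3
        exact (abs_le_of_sq_le_sq' h4 zero_le_one).2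
      have hgen : ∀ l0 : List ℕ, l0.length = i → Good f K L l0 →
          ‖lam f (r + 1) l0 - It (lam f (r + 1)) i []‖ ≤ (3 / 2) * Real.sqrt K * L := by
        intro l0 hl0 hG0
        have h2 := hG0.2 (r + 1) 0 (by omega)
        rw [hl0, zero_add] at h2
        change ‖lam f (r + 1) l0 - It (lam f (r + 1)) i []‖ ^ 2 ≤ _ at h2
        have h3 : (i : ℝ) * (L ^ 2 + 1) ≤ ((3 / 2) * Real.sqrt K * L) ^ 2 := by
          have e1 : (Real.sqrt K) ^ 2 = K := Real.sq_sqrt (by positivity)
          have e2 : ((3 / 2) * Real.sqrt K * L) ^ 2 = (9 / 4) * (Real.sqrt K) ^ 2 * L ^ 2 := by ring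
          rw [e2, e1]
          have e3 : (i : ℝ) ≤ K := by exact_mod_cast hiK.le
          have e4 : 1 ≤ L ^ 2 := by nlinarith
          have e5 : (i : ℝ) * (L ^ 2 + 1) ≤ K * (2 * L ^ 2) := by
            apply mul_le_mul e3 (by linarith) (by positivity) (by positivity)
          nlinarith
        exact (abs_le_of_sq_le_sq' (h2.trans h3) (by positivity)).2
      have h2 := hgen l hi hG
      have h3 := hgen l' hi' hG'
      have h4 : ‖lam f (r + 1) l - lam f (r + 1) l'‖ ≤ 3 * Real.sqrt K * L := by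
        have e : lam f (r + 1) l - lam f (r + 1) l'
          = (lam f (r + 1) l - It (lam f (r + 1)) i [])
            - (lam f (r + 1) l' - It (lam f (r + 1)) i []) := by abel
        rw [e]
        have := norm_sub_le (lam f (r + 1) l - It (lam f (r + 1)) i [])
          (lam f (r + 1) l' - It (lam f (r + 1)) i [])
        linarith
      have h5 : ‖D s + (u s - v s)‖ ≤ ‖D s - (lam f (r + 1) l - lam f (r + 1) l')‖
          + ‖lam f (r + 1) l - lam f (r + 1) l'‖ + ‖u s - v s‖ := by
        have e : D s + (u s - v s) = (D s - (lam f (r + 1) l - lam f (r + 1) l'))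
          + (lam f (r + 1) l - lam f (r + 1) l') + (u s - v s) := by abel
        conv_lhs => rw [e]
        exact norm_add₃_le
      have h6 := hSΔ s
      have h7 : L ≤ Real.sqrt K * L := by nlinarith
      have h8 : ‖D s + (u s - v s)‖ ≤ 6 * Real.sqrt K * L := by
        calc ‖D s + (u s - v s)‖ ≤ 1 + 3 * Real.sqrt K * L + 2 * L := by linarith
          _ ≤ 6 * Real.sqrt K * L := by nlinarith
      exact h8.trans hb2

include hL hC hEn hSp in
/-- Concentration for interlaced pairs. -/
theorem concentration (hK : 1 ≤ K) :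
    ∃ l l' : List ℕ, l.length = K ∧ l'.length = K ∧ SL l ∧ SL l' ∧ (∀ a ∈ l, a ∉ l') ∧
      En (fun s => f l s - f l' s) (K * (123 * L ^ 2 * Real.sqrt K)) := by
  have hK1 : (1 : ℝ) ≤ K := by exact_mod_cast hK
  have hsK : 1 ≤ Real.sqrt K := by
    rw [Real.one_le_sqrt]; exact hK1
  have hsq : (Real.sqrt K) ^ 2 = K := Real.sq_sqrt (by positivity)
  have key : ∀ i, ∀ r, i + r = K → ∃ l l' : List ℕ, l.length = i ∧ l'.length = i ∧
      Good f K L l ∧ Good f K L l' ∧ (∀ a ∈ l, a ∉ l') ∧
      En (fun s => Fr f r l s - Fr f r l' s) (i * (123 * L ^ 2 * Real.sqrt K)) ∧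
      Sp (fun s => Fr f r l s - Fr f r l' s) (L * Real.sqrt (36 * K + 6 * i)) := by
    intro i
    induction i with
    | zero =>
      intro r hr
      refine ⟨[], [], rfl, rfl, Good_nil, Good_nil, by simp, ?_, ?_⟩
      · intro p _ m
        simp [Ep]
      · intro s
        simp only [sub_self, norm_zero]
        positivity
    | succ i ih =>
      intro r hr
      obtain ⟨l, l', h1, h2, h3, h4, h5, h6, h7⟩ := ih (r + 1) (by omega)
      have hpos : (0 : ℝ) ≤ 36 * K + 6 * i := by positivity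
      have hpos' : (0 : ℝ) ≤ 36 * K + 6 * ((i + 1 : ℕ) : ℝ) := by positivity
      obtain ⟨n, m, g1, g2, g3, g4, g5, g6, g7⟩ := step_pair hL hC hEn hSp h1 h2 (by omega) h3 h4
        (by omega : i + 1 + r = K) h6 h7 (b' := L * Real.sqrt (36 * K + 6 * ((i + 1 : ℕ) : ℝ)))
        (by
          rw [mul_pow, mul_pow, Real.sq_sqrt hpos, Real.sq_sqrt hpos']
          push_cast
          nlinarith)
        (by
          have e1 : 6 * Real.sqrt K = Real.sqrt (36 * K) := by
            rw [Real.sqrt_mul (by norm_num)]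
            congr 1
            rw [show (36 : ℝ) = 6 ^ 2 by norm_num, Real.sqrt_sq (by norm_num)]
          rw [e1, mul_comm]
          gcongr
          linarith [show (0 : ℝ) ≤ 6 * ((i + 1 : ℕ) : ℝ) by positivity])
      refine ⟨l ++ [n], l' ++ [m], by simp [h1], by simp [h2], g4, g5, ?_, ?_, g7⟩
      · intro a ha
        rw [List.mem_append, List.mem_singleton] at ha ⊢
        rintro (ha' | ha')
        · rcases ha with ha | ha
          · exact h5 a ha ha'
          · have := g2 a ha'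
            omega
        · rcases ha with ha | ha
          · have := g1 a ha
            omega
          · omega
      · apply g6.mono
        push_cast
        have e1 : Real.sqrt (36 * K + 6 * i) ≤ 7 * Real.sqrt K := by
          rw [show (7 : ℝ) * Real.sqrt K = Real.sqrt (49 * K) by
            rw [Real.sqrt_mul (by norm_num)]
            congr 1
            rw [show (49 : ℝ) = 7 ^ 2 by norm_num, Real.sqrt_sq (by norm_num)]]
          apply Real.sqrt_le_sqrt
          have : (i : ℝ) ≤ K := by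
            have : i ≤ K := by omega
            exact_mod_cast this
          linarith
        have e2 : 16 * L * (L * Real.sqrt (36 * K + 6 * i)) ≤ 112 * L ^ 2 * Real.sqrt K := by
          calc 16 * L * (L * Real.sqrt (36 * K + 6 * i))
              ≤ 16 * L * (L * (7 * Real.sqrt K)) := by gcongr
            _ = 112 * L ^ 2 * Real.sqrt K := by ring
        have e3 : 11 * L ^ 2 ≤ 11 * L ^ 2 * Real.sqrt K := by
          nlinarith [sq_nonneg L]
        nlinarith
  obtain ⟨l, l', h1, h2, h3, h4, h5, h6, -⟩ := key K 0 (by omega)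
  exact ⟨l, l', h1, h2, h3.1, h4.1, h5, h6⟩

end main

end Pool.Agent.H76R3.JH
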