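import Mathlib
import Pool.Agent.H76R3.IterLim

set_option autoImplicit false

open Topology Filter Set
open scoped InnerProductSpace ENNReal

namespace Pool.Agent.H76R3.JH

variable {H : Type} [NormedAddCommGroup H] [InnerProductSpace ℝ H] [CompleteSpace H]

/-- index set: strictly increasing sequences -/
abbrev II : Type := {p : ℕ → ℕ // StrictMono p}

variable (H) in
/-- ambient space -/
abbrev Amb : Type := lp (fun _ : II => lp (fun _ : ℕ => H) 2) ∞

lemma exists_supp (w : ℕ →₀ H) : ∃ M : ℕ, ∀ s, M ≤ s → w s = 0 := by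
  refine ⟨w.support.sup id + 1, fun s hs => ?_⟩
  by_contra hne
  have h1 : s ∈ w.support := Finsupp.mem_support_iff.2 hne
  have h2 : s ≤ w.support.sup id := Finset.le_sup (f := id) h1
  omega

lemma tp_mem (w : ℕ →₀ H) (p : II) :
    Memℓp (fun i : ℕ => w (p.1 (i + 1)) - w (p.1 i)) 2 := by
  obtain ⟨M, hM⟩ := exists_supp w
  apply Memℓp.of_exponent_ge (q := 0) _ (zero_le)
  apply memℓp_zero
  apply (Set.finite_Iio M).subset
  intro i hi
  by_contra hcon
  rw [mem_Iio, not_lt] at hcon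
  apply hi
  have h1 : i ≤ p.1 i := p.2.id_le i
  have h2 : i + 1 ≤ p.1 (i + 1) := p.2.id_le (i + 1)
  rw [hM _ (by omega), hM _ (by omega), sub_zero]

/-- the increments of `w` along `p` -/
noncomputable def tp (w : ℕ →₀ H) (p : II) : lp (fun _ : ℕ => H) 2 :=
  ⟨fun i : ℕ => w (p.1 (i + 1)) - w (p.1 i), tp_mem w p⟩

lemma tp_apply (w : ℕ →₀ H) (p : II) (i : ℕ) : tp w p i = w (p.1 (i + 1)) - w (p.1 i) := rfl

lemma tp_norm_le (w : ℕ →₀ H) (p : II) {c : ℝ} (hc : 0 ≤ c) (h : ∀ m, Ep w p.1 m ≤ c ^ 2) :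
    ‖tp w p‖ ≤ c := by
  apply lp.norm_le_of_forall_sum_le (p := 2) (by norm_num) hc
  intro s
  simp only [ENNReal.toReal_ofNat, Real.rpow_ofNat]
  calc ∑ i ∈ s, ‖tp w p i‖ ^ 2 ≤ ∑ i ∈ Finset.range (s.sup id + 1), ‖tp w p i‖ ^ 2 := by
        apply Finset.sum_le_sum_of_subset_of_nonneg
        · intro i hi
          have : i ≤ s.sup id := Finset.le_sup (f := id) hi
          rw [Finset.mem_range]; omega
        · intro _ _ _; positivity
    _ ≤ c ^ 2 := h _

lemma Ep_le_tp (w : ℕ →₀ H) (p : II) (m : ℕ) : Ep w p.1 m ≤ ‖tp w p‖ ^ 2 := by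
  have := lp.sum_rpow_le_norm_rpow (p := 2) (by norm_num) (tp w p) (Finset.range m)
  simp only [ENNReal.toReal_ofNat, Real.rpow_ofNat] at this
  exact this

lemma exists_bound (w : ℕ →₀ H) : ∃ c : ℝ, 0 ≤ c ∧ ∀ p : II, ‖tp w p‖ ≤ c := by
  obtain ⟨M, hM⟩ := exists_supp w
  obtain ⟨B, hB⟩ : ∃ B : ℝ, ∀ s, ‖w s‖ ≤ B := by
    refine ⟨∑ s ∈ w.support, ‖w s‖, fun s => ?_⟩
    by_cases hs : s ∈ w.support
    · exact Finset.single_le_sum (f := fun s => ‖w s‖) (fun _ _ => norm_nonneg _) hs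
    · rw [Finsupp.notMem_support_iff.1 hs, norm_zero]
      exact Finset.sum_nonneg (fun _ _ => norm_nonneg _)
  have hB0 : 0 ≤ B := (norm_nonneg _).trans (hB 0)
  refine ⟨2 * B * M, by positivity, fun p => ?_⟩
  apply tp_norm_le w p (by positivity)
  intro m
  have h1 : Ep w p.1 m ≤ ∑ i ∈ Finset.range M, ‖w (p.1 (i + 1)) - w (p.1 i)‖ ^ 2 := by
    unfold Ep
    rw [← Finset.sum_filter_add_sum_filter_not (Finset.range m) (fun i => i < M)]
    have h2 : ∑ i ∈ (Finset.range m).filter (fun i => ¬ i < M),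
        ‖w (p.1 (i + 1)) - w (p.1 i)‖ ^ 2 = 0 := by
      apply Finset.sum_eq_zero
      intro i hi
      have h3 := (Finset.mem_filter.1 hi).2
      have h4 : i ≤ p.1 i := p.2.id_le i
      have h5 : i + 1 ≤ p.1 (i + 1) := p.2.id_le (i + 1)
      rw [hM _ (by omega), hM _ (by omega), sub_zero, norm_zero]
      norm_num
    rw [h2, add_zero]
    apply Finset.sum_le_sum_of_subset_of_nonneg
    · intro i hi
      exact Finset.mem_range.2 (Finset.mem_filter.1 hi).2
    · intro _ _ _; positivity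
  have h2 : ∑ i ∈ Finset.range M, ‖w (p.1 (i + 1)) - w (p.1 i)‖ ^ 2 ≤ M * (2 * B) ^ 2 := by
    calc ∑ i ∈ Finset.range M, ‖w (p.1 (i + 1)) - w (p.1 i)‖ ^ 2
        ≤ ∑ i ∈ Finset.range M, (2 * B) ^ 2 := by
          apply Finset.sum_le_sum
          intro i _
          have := norm_sub_le (w (p.1 (i + 1))) (w (p.1 i))
          have h3 := hB (p.1 (i + 1))
          have h4 := hB (p.1 i)
          gcongr
          linarith
      _ = M * (2 * B) ^ 2 := by rw [Finset.sum_const, Finset.card_range, nsmul_eq_mul]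
  have h3 : (M : ℝ) * (2 * B) ^ 2 ≤ (2 * B * M) ^ 2 := by
    have : (M : ℝ) ≤ (M : ℝ) ^ 2 := by
      have : M ≤ M ^ 2 := Nat.le_self_pow (by norm_num) M
      exact_mod_cast this
    nlinarith [sq_nonneg (2 * B)]
  linarith

variable (H) in
/-- the embedding of finitely supported sequences into the ambient space -/
noncomputable def TT : (ℕ →₀ H) →ₗ[ℝ] Amb H where
  toFun w := ⟨fun p => tp w p, by
    obtain ⟨c, -, hc⟩ := exists_bound w
    exact memℓp_infty (E := fun _ : II => lp (fun _ : ℕ => H) 2) (f := fun p => tp w p)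
      ⟨c, by rintro _ ⟨p, rfl⟩; exact hc p⟩⟩
  map_add' x y := by
    ext p i
    change (x + y) (p.1 (i + 1)) - (x + y) (p.1 i)
      = (x (p.1 (i + 1)) - x (p.1 i)) + (y (p.1 (i + 1)) - y (p.1 i))
    rw [Finsupp.add_apply, Finsupp.add_apply]
    abel
  map_smul' c x := by
    ext p i
    change (c • x) (p.1 (i + 1)) - (c • x) (p.1 i) = c • (x (p.1 (i + 1)) - x (p.1 i))
    rw [Finsupp.smul_apply, Finsupp.smul_apply, smul_sub]

lemma TT_apply (w : ℕ →₀ H) (p : II) : TT H w p = tp w p := rfl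

lemma tp_le_TT (w : ℕ →₀ H) (p : II) : ‖tp w p‖ ≤ ‖TT H w‖ :=
  lp.norm_apply_le_norm (p := ∞) (by norm_num) (TT H w) p

lemma TT_En (w : ℕ →₀ H) : En w (‖TT H w‖ ^ 2) := by
  intro p hp m
  have h1 := Ep_le_tp w ⟨p, hp⟩ m
  have h2 := tp_le_TT w ⟨p, hp⟩
  calc Ep w p m ≤ ‖tp w ⟨p, hp⟩‖ ^ 2 := h1
    _ ≤ ‖TT H w‖ ^ 2 := by gcongr

lemma TT_norm_le {w : ℕ →₀ H} {c : ℝ} (hc : 0 ≤ c) (h : En w (c ^ 2)) : ‖TT H w‖ ≤ c := by
  apply lp.norm_le_of_forall_le hc
  intro p
  rw [TT_apply]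
  exact tp_norm_le w p hc (fun m => h p.1 p.2 m)

/-- the sequence `n, n+m+1, n+m+2, ...` -/
def pnm (n m : ℕ) : II := ⟨fun i => if i = 0 then n else n + m + i, by
  apply strictMono_nat_of_lt_succ
  intro i
  by_cases h : i = 0 <;> simp [h] <;> omega⟩

lemma TT_Sp (w : ℕ →₀ H) : Sp w ‖TT H w‖ := by
  intro s
  obtain ⟨M, hM⟩ := exists_supp w
  have h1 := tp_le_TT w (pnm s M)
  have h2 := lp.norm_apply_le_norm (p := 2) (by norm_num) (tp w (pnm s M)) 0
  rw [tp_apply] at h2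
  simp only [pnm, zero_add, one_ne_zero, if_false, if_true] at h2
  rw [hM (s + M + 1) (by omega), zero_sub, norm_neg] at h2
  exact h2.trans h1

variable (H) in
/-- the James-type space of `H`-valued sequences -/
def XX : Type := ↥((LinearMap.range (TT H)).topologicalClosure)

noncomputable instance : NormedAddCommGroup (XX H) :=
  inferInstanceAs (NormedAddCommGroup ↥((LinearMap.range (TT H)).topologicalClosure))

noncomputable instance : NormedSpace ℝ (XX H) :=
  inferInstanceAs (NormedSpace ℝ ↥((LinearMap.range (TT H)).topologicalClosure))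

instance : CompleteSpace (XX H) :=
  inferInstanceAs (CompleteSpace ↥((LinearMap.range (TT H)).topologicalClosure))

variable (H) in
/-- the inclusion in the ambient space -/
noncomputable def vl : XX H →ₗᵢ[ℝ] Amb H :=
  ((LinearMap.range (TT H)).topologicalClosure).subtypeₗᵢ

/-- the element of the space given by a finitely supported sequence -/
noncomputable def el (w : ℕ →₀ H) : XX H :=
  ⟨TT H w, Submodule.le_topologicalClosure _ (LinearMap.mem_range_self _ w)⟩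

lemma vl_el (w : ℕ →₀ H) : vl H (el w) = TT H w := rfl

lemma el_norm (w : ℕ →₀ H) : ‖el w‖ = ‖TT H w‖ := rfl

lemma el_sub (w w' : ℕ →₀ H) : el (w - w') = el w - el w' := by
  apply Subtype.ext
  change TT H (w - w') = TT H w - TT H w'
  rw [map_sub]

lemma el_dense (x : XX H) {ε : ℝ} (hε : 0 < ε) : ∃ w : ℕ →₀ H, ‖x - el w‖ < ε := by
  have hx : vl H x ∈ closure ((LinearMap.range (TT H) : Submodule ℝ (Amb H)) : Set (Amb H)) :=
    x.2
  obtain ⟨y, ⟨w, rfl⟩, hy⟩ := Metric.mem_closure_iff.1 hx ε hε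
  refine ⟨w, ?_⟩
  rw [dist_eq_norm, ← vl_el, ← map_sub, LinearIsometry.norm_map] at hy
  exact hy

section dual

/-- ultralimits of bounded real sequences -/
noncomputable def ulim (a : ℕ → ℝ) : ℝ := limUnder (UU : Filter ℕ) a

lemma ulim_spec {a : ℕ → ℝ} {C : ℝ} (h : ∀ n, |a n| ≤ C) :
    Tendsto a (UU : Filter ℕ) (𝓝 (ulim a)) :=
  tendsto_nhds_limUnder (exists_ulim h)

lemma ulim_eq {a : ℕ → ℝ} {x : ℝ} (h : Tendsto a (UU : Filter ℕ) (𝓝 x)) : ulim a = x :=
  h.limUnder_eq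

lemma ulim_abs_le {a : ℕ → ℝ} {C : ℝ} (h : ∀ n, |a n| ≤ C) : |ulim a| ≤ C :=
  le_of_tendsto ((ulim_spec h).abs) (Filter.Eventually.of_forall h)

lemma cf_bound (n : ℕ) (g : H) (y : XX H) (m : ℕ) :
    |(-⟪g, vl H y (pnm n m) 0⟫_ℝ)| ≤ ‖g‖ * ‖y‖ := by
  rw [abs_neg]
  apply (abs_real_inner_le_norm _ _).trans
  gcongr
  have h1 := lp.norm_apply_le_norm (p := 2) (by norm_num) (vl H y (pnm n m)) 0
  have h2 := lp.norm_apply_le_norm (p := ∞) (by norm_num) (vl H y) (pnm n m)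
  rw [LinearIsometry.norm_map] at h2
  exact h1.trans h2

/-- coordinate functionals -/
noncomputable def cf (n : ℕ) (g : H) : XX H →L[ℝ] ℝ :=
  LinearMap.mkContinuous
    { toFun := fun y => ulim (fun m => -⟪g, vl H y (pnm n m) 0⟫_ℝ)
      map_add' := by
        intro x y
        apply ulim_eq
        have := (ulim_spec (cf_bound n g x)).add (ulim_spec (cf_bound n g y))
        apply this.congr
        intro m
        change -⟪g, vl H x (pnm n m) 0⟫_ℝ + -⟪g, vl H y (pnm n m) 0⟫_ℝ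
          = -⟪g, vl H x (pnm n m) 0 + vl H y (pnm n m) 0⟫_ℝ
        rw [inner_add_right]
        ring
      map_smul' := by
        intro c x
        apply ulim_eq
        have := (ulim_spec (cf_bound n g x)).const_mul c
        apply this.congr
        intro m
        change c * -⟪g, vl H x (pnm n m) 0⟫_ℝ = -⟪g, c • vl H x (pnm n m) 0⟫_ℝ
        rw [inner_smul_right]
        ring }
    ‖g‖ (fun y => ulim_abs_le (cf_bound n g y))

lemma cf_apply (n : ℕ) (g : H) (y : XX H) :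
    cf n g y = ulim (fun m => -⟪g, vl H y (pnm n m) 0⟫_ℝ) := rfl

lemma cf_norm (n : ℕ) (g : H) : ‖cf n g‖ ≤ ‖g‖ := LinearMap.mkContinuous_norm_le _ (norm_nonneg _) _

lemma cf_el (n : ℕ) (g : H) (w : ℕ →₀ H) : cf n g (el w) = ⟪g, w n⟫_ℝ := by
  rw [cf_apply]
  apply ulim_eq
  obtain ⟨M, hM⟩ := exists_supp w
  apply tendsto_const_nhds.congr'
  filter_upwards [ev_gt M] with m hm
  change _ = -⟪g, w ((pnm n m).1 (0 + 1)) - w ((pnm n m).1 0)⟫_ℝ
  simp only [pnm, zero_add, one_ne_zero, if_false, if_true]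
  rw [hM (n + m + 1) (by omega), zero_sub, inner_neg_right, neg_neg]

lemma cf_lim (g : H) (x : XX H) : Tendsto (fun n => cf n g x) atTop (𝓝 0) := by
  rw [Metric.tendsto_atTop]
  intro ε hε
  obtain ⟨w, hw⟩ := el_dense x (show 0 < ε / (‖g‖ + 1) by positivity)
  obtain ⟨M, hM⟩ := exists_supp w
  refine ⟨M, fun n hn => ?_⟩
  rw [Real.dist_eq, sub_zero]
  have h1 : cf n g x = cf n g (x - el w) := by
    rw [map_sub, cf_el, hM n hn, inner_zero_right, sub_zero]
  rw [h1]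
  have h2 := (cf n g).le_opNorm (x - el w)
  have h3 := cf_norm n g
  calc |cf n g (x - el w)| ≤ ‖cf n g‖ * ‖x - el w‖ := h2
    _ ≤ ‖g‖ * ‖x - el w‖ := by gcongr
    _ ≤ (‖g‖ + 1) * ‖x - el w‖ := by
        gcongr
        linarith
    _ < (‖g‖ + 1) * (ε / (‖g‖ + 1)) := by
        apply mul_lt_mul_of_pos_left hw
        positivity
    _ = ε := by field_simp

/-- the additive map `Φ ↦ (g ↦ lim Φ(cf n g))` -/
lemma Q_bound (Φ : (XX H →L[ℝ] ℝ) →L[ℝ] ℝ) (g : H) (n : ℕ) : |Φ (cf n g)| ≤ ‖Φ‖ * ‖g‖ := by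
  have h1 := Φ.le_opNorm (cf n g)
  have h2 := cf_norm n g
  calc |Φ (cf n g)| ≤ ‖Φ‖ * ‖cf n g‖ := h1
    _ ≤ ‖Φ‖ * ‖g‖ := by gcongr

/-- detection map -/
noncomputable def QQ : ((XX H →L[ℝ] ℝ) →L[ℝ] ℝ) →ₗ[ℝ] (H → ℝ) where
  toFun Φ := fun g => ulim (fun n => Φ (cf n g))
  map_add' Φ Ψ := by
    funext g
    apply ulim_eq
    exact (ulim_spec (Q_bound Φ g)).add (ulim_spec (Q_bound Ψ g))
  map_smul' c Φ := by
    funext g
    apply ulim_eq
    exact (ulim_spec (Q_bound Φ g)).const_mul c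

lemma QQ_apply (Φ : (XX H →L[ℝ] ℝ) →L[ℝ] ℝ) (g : H) : QQ Φ g = ulim (fun n => Φ (cf n g)) := rfl

lemma QQ_canon (Φ : (XX H →L[ℝ] ℝ) →L[ℝ] ℝ) (x : XX H) (h : ∀ φ, Φ φ = φ x) : QQ Φ = 0 := by
  funext g
  rw [QQ_apply]
  apply ulim_eq
  simp only [h]
  have h1 : (UU : Filter ℕ) ≤ atTop := by
    have h2 : (UU : Filter ℕ) ≤ cofinite := Filter.hyperfilter_le_cofinite
    rwa [Nat.cofinite_eq_atTop] at h2
  exact (cf_lim g x).mono_left h1

/-- `h` repeated `m` times -/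
noncomputable def rep (m : ℕ) (h : H) : ℕ →₀ H := ∑ s ∈ Finset.range m, Finsupp.single s h

lemma rep_apply (m : ℕ) (h : H) (s : ℕ) : rep m h s = if s < m then h else 0 := by
  unfold rep
  rw [Finsupp.finsetSum_apply]
  simp only [Finsupp.single_apply]
  rw [Finset.sum_ite_eq' (Finset.range m) s (fun _ => h)]
  simp

lemma rep_norm (m : ℕ) (h : H) : ‖el (rep m h)‖ ≤ ‖h‖ := by
  rw [el_norm]
  apply TT_norm_le (norm_nonneg _)
  intro p hp k
  unfold Ep
  have h1 : ∀ i, ‖rep m h (p (i + 1)) - rep m h (p i)‖ ^ 2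
      = if p i < m ∧ m ≤ p (i + 1) then ‖h‖ ^ 2 else 0 := by
    intro i
    have hlt : p i < p (i + 1) := hp (Nat.lt_succ_self i)
    rw [rep_apply, rep_apply]
    by_cases h2 : p i < m
    · by_cases h3 : m ≤ p (i + 1)
      · rw [if_neg (by omega), if_pos h2, if_pos ⟨h2, h3⟩, zero_sub, norm_neg]
      · rw [if_pos (by omega), if_pos h2, if_neg (by omega), sub_self, norm_zero]
        norm_num
    · rw [if_neg (by omega), if_neg h2, if_neg (by omega), sub_self, norm_zero]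
      norm_num
  rw [Finset.sum_congr rfl (fun i _ => h1 i), ← Finset.sum_filter, Finset.sum_const,
    nsmul_eq_mul]
  have hcard : ((Finset.range k).filter (fun i => p i < m ∧ m ≤ p (i + 1))).card ≤ 1 := by
    rw [Finset.card_le_one]
    intro i hi j hj
    rw [Finset.mem_filter] at hi hj
    by_contra hne
    rcases lt_or_gt_of_ne hne with hlt | hlt
    · have := hp.monotone (show i + 1 ≤ j by omega)
      omega
    · have := hp.monotone (show j + 1 ≤ i by omega)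
      omega
  calc (((Finset.range k).filter (fun i => p i < m ∧ m ≤ p (i + 1))).card : ℝ) * ‖h‖ ^ 2
      ≤ 1 * ‖h‖ ^ 2 := by
        gcongr
        exact_mod_cast hcard
    _ = ‖h‖ ^ 2 := one_mul _

lemma xi_bound (h : H) (φ : XX H →L[ℝ] ℝ) (m : ℕ) : |φ (el (rep m h))| ≤ ‖h‖ * ‖φ‖ := by
  have h1 := φ.le_opNorm (el (rep m h))
  have h2 := rep_norm m h
  calc |φ (el (rep m h))| ≤ ‖φ‖ * ‖el (rep m h)‖ := h1
    _ ≤ ‖φ‖ * ‖h‖ := by gcongr
    _ = ‖h‖ * ‖φ‖ := mul_comm _ _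

/-- the bidual elements -/
noncomputable def xi (h : H) : (XX H →L[ℝ] ℝ) →L[ℝ] ℝ :=
  LinearMap.mkContinuous
    { toFun := fun φ => ulim (fun m => φ (el (rep m h)))
      map_add' := by
        intro φ ψ
        apply ulim_eq
        exact (ulim_spec (xi_bound h φ)).add (ulim_spec (xi_bound h ψ))
      map_smul' := by
        intro c φ
        apply ulim_eq
        exact (ulim_spec (xi_bound h φ)).const_mul c }
    ‖h‖ (fun φ => ulim_abs_le (xi_bound h φ))

lemma xi_apply (h : H) (φ : XX H →L[ℝ] ℝ) : xi h φ = ulim (fun m => φ (el (rep m h))) := rfl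

lemma QQ_xi (h g : H) : QQ (xi h) g = ⟪g, h⟫_ℝ := by
  rw [QQ_apply]
  have : ∀ n, xi h (cf n g) = ⟪g, h⟫_ℝ := by
    intro n
    rw [xi_apply]
    apply ulim_eq
    apply tendsto_const_nhds.congr'
    filter_upwards [ev_gt n] with m hm
    rw [cf_el, rep_apply, if_pos hm]
  simp only [this]
  exact ulim_eq tendsto_const_nhds

/-- The space is far from quasi-reflexive. -/
theorem not_quasi (hH : ¬ FiniteDimensional ℝ H) :
    ∀ s : Finset ((XX H →L[ℝ] ℝ) →L[ℝ] ℝ), ∃ φ : (XX H →L[ℝ] ℝ) →L[ℝ] ℝ,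
      φ ∉ Submodule.span ℝ
        ((↑s : Set ((XX H →L[ℝ] ℝ) →L[ℝ] ℝ)) ∪
          {ψ : (XX H →L[ℝ] ℝ) →L[ℝ] ℝ | ∃ x : XX H, ∀ g : XX H →L[ℝ] ℝ, ψ g = g x}) := by
  intro s
  by_contra hcon
  push Not at hcon
  set W : Submodule ℝ (H → ℝ) := Submodule.span ℝ (QQ '' (s : Set ((XX H →L[ℝ] ℝ) →L[ℝ] ℝ)))
    with hW
  have hfin : FiniteDimensional ℝ W :=
    FiniteDimensional.span_of_finite ℝ (s.finite_toSet.image _)
  have hmem : ∀ φ : (XX H →L[ℝ] ℝ) →L[ℝ] ℝ, QQ φ ∈ W := by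
    intro φ
    have h1 := hcon φ
    have h2 : Submodule.span ℝ ((↑s : Set ((XX H →L[ℝ] ℝ) →L[ℝ] ℝ)) ∪
        {ψ : (XX H →L[ℝ] ℝ) →L[ℝ] ℝ | ∃ x : XX H, ∀ g : XX H →L[ℝ] ℝ, ψ g = g x})
        ≤ W.comap QQ := by
      rw [Submodule.span_le]
      rintro ψ (hψ | ⟨x, hx⟩)
      · exact Submodule.subset_span ⟨ψ, hψ, rfl⟩
      · change QQ ψ ∈ W
        rw [QQ_canon ψ x hx]
        exact Submodule.zero_mem _
    exact h2 h1
  let J : H →ₗ[ℝ] W :=
    { toFun := fun h => ⟨fun g => ⟪g, h⟫_ℝ, by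
        have h1 := hmem (xi h)
        have h2 : QQ (xi h) = fun g => ⟪g, h⟫_ℝ := funext (fun g => QQ_xi h g)
        rwa [h2] at h1⟩
      map_add' := by
        intro x y
        apply Subtype.ext
        funext g
        exact inner_add_right g x y
      map_smul' := by
        intro c x
        apply Subtype.ext
        funext g
        exact real_inner_smul_right g x c }
  have hinj : Function.Injective J := by
    intro x y hxy
    have h1 : ∀ g, ⟪g, x⟫_ℝ = ⟪g, y⟫_ℝ := by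
      intro g
      exact congrFun (congrArg Subtype.val hxy) g
    exact ext_inner_left ℝ h1
  exact hH (FiniteDimensional.of_injective J hinj)

end dual

lemma l2_inf : ¬ FiniteDimensional ℝ (lp (fun _ : ℕ => ℝ) 2) := by
  intro hfin
  have hli : LinearIndependent ℝ (fun i : ℕ => (lp.single 2 i (1 : ℝ) : lp (fun _ : ℕ => ℝ) 2)) := by
    apply Orthonormal.linearIndependent
    rw [orthonormal_iff_ite]
    intro i j
    rw [lp.inner_single_left]
    rw [lp.single_apply]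
    by_cases h : i = j
    · subst h; simp
    · rw [if_neg h, Pi.single_eq_of_ne h]
      simp
  exact Module.Finite.not_linearIndependent_of_infinite _ hli

end Pool.Agent.H76R3.JH
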