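import Mathlib
import Pool.Agent.H76R3.JSpace

set_option autoImplicit false

open Topology Filter Set
open scoped InnerProductSpace ENNReal

namespace Pool.Agent.H76R3.JH

/-- the function associated with a list -/
def toF (K : ℕ) (l : List ℕ) : Fin K → ℕ := fun i => l.getD i.val 0

lemma toF_strictMono {K : ℕ} {l : List ℕ} (hl : l.length = K) (hs : SL l) :
    StrictMono (toF K l) := by
  intro i j hij
  unfold toF
  have hi : i.val < l.length := by rw [hl]; exact i.2
  have hj : j.val < l.length := by rw [hl]; exact j.2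
  rw [List.getD_eq_getElem _ _ hi, List.getD_eq_getElem _ _ hj]
  exact List.pairwise_iff_getElem.1 hs i.val j.val hi hj hij

lemma toF_mem {K : ℕ} {l : List ℕ} (hl : l.length = K) (i : Fin K) : toF K l i ∈ l := by
  unfold toF
  have hi : i.val < l.length := by rw [hl]; exact i.2
  rw [List.getD_eq_getElem _ _ hi]
  exact List.getElem_mem hi

lemma toF_hamming {K : ℕ} {l l' : List ℕ} (h : D1 l l') :
    hammingDist (toF K l) (toF K l') ≤ 1 := by
  obtain ⟨a, x, y, b, rfl, rfl⟩ := h
  unfold hammingDist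
  rw [Finset.card_le_one]
  have key : ∀ i : Fin K, toF K (a ++ x :: b) i ≠ toF K (a ++ y :: b) i → i.val = a.length := by
    intro i hi
    by_contra hne
    apply hi
    unfold toF
    rcases lt_or_gt_of_ne hne with hlt | hgt
    · rw [List.getD_append _ _ _ _ hlt, List.getD_append _ _ _ _ hlt]
    · rw [List.getD_append_right _ _ _ _ hgt.le, List.getD_append_right _ _ _ _ hgt.le]
      obtain ⟨k, hk⟩ : ∃ k, i.val - a.length = k + 1 := ⟨i.val - a.length - 1, by omega⟩
      rw [hk]
      simp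
  intro i hi j hj
  rw [Finset.mem_filter] at hi hj
  apply Fin.ext
  rw [key i hi.2, key j hj.2]

theorem main_neg (H : Type) [NormedAddCommGroup H] [InnerProductSpace ℝ H] [CompleteSpace H]
    (ℓ : ℕ) (hℓ : 1 ≤ ℓ) (L : ℝ) (hL : 0 < L)
    (hf : ∀ k : ℕ, ∃ f : (Fin (ℓ * k) → ℕ) → XX H,
      ∀ x y : Fin (ℓ * k) → ℕ, StrictMono x → StrictMono y →
        ((symmDiff ((Finset.univ.filter (fun i : Fin (ℓ * k) => i.val < k)).image x)
            ((Finset.univ.filter (fun i : Fin (ℓ * k) => i.val < k)).image y)).card : ℝ) / 2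
          ≤ ‖f x - f y‖ ∧
        ‖f x - f y‖ ≤ L * (hammingDist x y : ℝ)) : False := by
  classical
  set L' : ℝ := L + 2 with hL'
  have hL'1 : 1 ≤ L' := by linarith
  obtain ⟨t, ht⟩ := exists_nat_gt (max 2 (492 * L' ^ 2 * (ℓ : ℝ) ^ 2))
  have ht2 : (2 : ℝ) < t := lt_of_le_of_lt (le_max_left _ _) ht
  have ht3 : 492 * L' ^ 2 * (ℓ : ℝ) ^ 2 < t := lt_of_le_of_lt (le_max_right _ _) ht
  have ht0 : 1 ≤ t := by
    have : (1 : ℝ) ≤ t := by linarith
    exact_mod_cast this
  set k : ℕ := t ^ 2 with hk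
  set K : ℕ := ℓ * k with hKdef
  have hk1 : 1 ≤ k := Nat.one_le_pow _ _ ht0
  have hK1 : 1 ≤ K := Nat.one_le_iff_ne_zero.2 (Nat.mul_ne_zero (by omega) (by omega))
  have hkK : k ≤ K := Nat.le_mul_of_pos_left k (by omega)
  obtain ⟨f, hfxy⟩ := hf k
  choose w hw using fun x : Fin K → ℕ => el_dense (f x) (show (0 : ℝ) < 1 by norm_num)
  have hdist : ∀ x y, ‖TT H (w x - w y)‖ ≤ ‖f x - f y‖ + 2 := by
    intro x y
    rw [← el_norm, el_sub]
    have e : el (w x) - el (w y) = (f x - f y) - (f x - el (w x)) + (f y - el (w y)) := by abel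
    rw [e]
    have h1 := norm_add_le ((f x - f y) - (f x - el (w x))) (f y - el (w y))
    have h2 := norm_sub_le (f x - f y) (f x - el (w x))
    linarith [hw x, hw y]
  have hdist2 : ∀ x y, ‖f x - f y‖ ≤ ‖TT H (w x - w y)‖ + 2 := by
    intro x y
    rw [← el_norm, el_sub]
    have e : f x - f y = (el (w x) - el (w y)) + (f x - el (w x)) - (f y - el (w y)) := by abel
    rw [e]
    have h1 := norm_sub_le ((el (w x) - el (w y)) + (f x - el (w x))) (f y - el (w y))
    have h2 := norm_add_le (el (w x) - el (w y)) (f x - el (w x))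
    linarith [hw x, hw y]
  set x0 : Fin K → ℕ := fun i => i.val with hx0
  have hx0m : StrictMono x0 := fun i j h => h
  set fl : List ℕ → ℕ → H := fun l s =>
    if l.length = K ∧ SL l then (w (toF K l) - w x0) s else 0 with hfl
  have hfl1 : ∀ l, l.length = K → SL l → ∀ s, fl l s = (w (toF K l) - w x0) s := by
    intro l h1 h2 s
    simp only [hfl]
    rw [if_pos ⟨h1, h2⟩]
  have hflsub : ∀ l l', l.length = K → l'.length = K → SL l → SL l' →
      (fun s => fl l s - fl l' s) = fun s => (w (toF K l) - w (toF K l')) s := by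
    intro l l' h1 h2 h3 h4
    funext s
    rw [hfl1 l h1 h3, hfl1 l' h2 h4]
    simp only [Finsupp.sub_apply]
    abel
  have hC : ∀ l s, ‖fl l s‖ ≤ L * K + 2 := by
    intro l s
    by_cases h : l.length = K ∧ SL l
    · rw [hfl1 l h.1 h.2]
      apply (TT_Sp _ s).trans
      apply (hdist _ _).trans
      have h1 := (hfxy (toF K l) x0 (toF_strictMono h.1 h.2) hx0m).2
      have h2 : (hammingDist (toF K l) x0 : ℝ) ≤ K := by
        have := hammingDist_le_card_fintype (x := toF K l) (y := x0)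
        rw [Fintype.card_fin] at this
        exact_mod_cast this
      have h3 : L * (hammingDist (toF K l) x0 : ℝ) ≤ L * K := by gcongr
      linarith
    · simp only [hfl]
      rw [if_neg h, norm_zero]
      positivity
  have hone : ∀ l l', l.length = K → l'.length = K → SL l → SL l' → D1 l l' →
      ‖TT H (w (toF K l) - w (toF K l'))‖ ≤ L' := by
    intro l l' h1 h2 h3 h4 h5
    apply (hdist _ _).trans
    have h6 := (hfxy (toF K l) (toF K l') (toF_strictMono h1 h3) (toF_strictMono h2 h4)).2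
    have h7 : (hammingDist (toF K l) (toF K l') : ℝ) ≤ 1 := by
      exact_mod_cast toF_hamming h5
    have h8 : L * (hammingDist (toF K l) (toF K l') : ℝ) ≤ L * 1 := by gcongr
    linarith
  have hEn : ∀ l l', l.length = K → l'.length = K → SL l → SL l' → D1 l l' →
      En (fun s => fl l s - fl l' s) (L' ^ 2) := by
    intro l l' h1 h2 h3 h4 h5
    rw [hflsub l l' h1 h2 h3 h4]
    apply (TT_En (w (toF K l) - w (toF K l'))).mono
    have := hone l l' h1 h2 h3 h4 h5
    gcongr
  have hSp : ∀ l l', l.length = K → l'.length = K → SL l → SL l' → D1 l l' →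
      Sp (fun s => fl l s - fl l' s) L' := by
    intro l l' h1 h2 h3 h4 h5
    rw [hflsub l l' h1 h2 h3 h4]
    intro s
    exact (TT_Sp (w (toF K l) - w (toF K l')) s).trans (hone l l' h1 h2 h3 h4 h5)
  obtain ⟨l, l', h1, h2, h3, h4, h5, h6⟩ := concentration hL'1 hC hEn hSp hK1
  rw [hflsub l l' h1 h2 h3 h4] at h6
  have hx := toF_strictMono h1 h3
  have hy := toF_strictMono h2 h4
  set x := toF K l with hxdef
  set y := toF K l' with hydef
  -- upper bound
  set A : ℝ := K * (123 * L' ^ 2 * Real.sqrt K) with hA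
  have hA0 : 0 ≤ A := by positivity
  have hup : ‖TT H (w x - w y)‖ ≤ Real.sqrt A := by
    apply TT_norm_le (Real.sqrt_nonneg _)
    rw [Real.sq_sqrt hA0]
    exact h6
  -- lower bound
  have hlow := (hfxy x y hx hy).1
  have hcard : (symmDiff ((Finset.univ.filter (fun i : Fin K => i.val < k)).image x)
      ((Finset.univ.filter (fun i : Fin K => i.val < k)).image y)).card = 2 * k := by
    have hdisj : Disjoint ((Finset.univ.filter (fun i : Fin K => i.val < k)).image x)
        ((Finset.univ.filter (fun i : Fin K => i.val < k)).image y) := by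
      rw [Finset.disjoint_left]
      intro a ha hb
      rw [Finset.mem_image] at ha hb
      obtain ⟨i, -, rfl⟩ := ha
      obtain ⟨j, -, hj⟩ := hb
      apply h5 (x i) (toF_mem h1 i)
      rw [← hj]
      exact toF_mem h2 j
    have hc : (Finset.univ.filter (fun i : Fin K => i.val < k)).card = k := by
      have : (Finset.univ.filter (fun i : Fin K => i.val < k))
          = (Finset.univ : Finset (Fin k)).map (Fin.castLEEmb hkK) := by
        ext i
        simp only [Finset.mem_filter, Finset.mem_univ, true_and, Finset.mem_map,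
          Fin.castLEEmb_apply]
        constructor
        · intro hi
          exact ⟨⟨i.val, hi⟩, rfl⟩
        · rintro ⟨j, rfl⟩
          exact j.2
      rw [this, Finset.card_map, Finset.card_univ, Fintype.card_fin]
    have hsd : symmDiff ((Finset.univ.filter (fun i : Fin K => i.val < k)).image x)
        ((Finset.univ.filter (fun i : Fin K => i.val < k)).image y)
        = ((Finset.univ.filter (fun i : Fin K => i.val < k)).image x)
          ∪ ((Finset.univ.filter (fun i : Fin K => i.val < k)).image y) :=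
      hdisj.symmDiff_eq_sup
    rw [hsd, Finset.card_union_of_disjoint hdisj, Finset.card_image_of_injective _ hx.injective,
      Finset.card_image_of_injective _ hy.injective, hc]
    ring
  rw [hcard] at hlow
  push_cast at hlow
  have hfin : (k : ℝ) ≤ Real.sqrt A + 2 + 2 - 2 := by
    have := hdist2 x y
    linarith
  -- numerics
  have hkt : (k : ℝ) = (t : ℝ) ^ 2 := by rw [hk]; push_cast; ring
  have hKt : (K : ℝ) = ℓ * (t : ℝ) ^ 2 := by rw [hKdef, hk]; push_cast; ring
  have hℓ1 : (1 : ℝ) ≤ ℓ := by exact_mod_cast hℓ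
  have hsqrtK : Real.sqrt K ≤ ℓ * t := by
    rw [Real.sqrt_le_left (by positivity), hKt]
    have : (ℓ : ℝ) * (t : ℝ) ^ 2 ≤ (ℓ : ℝ) * (ℓ * (t : ℝ) ^ 2) := by
      have h0 : 0 ≤ (ℓ : ℝ) * (t : ℝ) ^ 2 := by positivity
      nlinarith
    nlinarith
  have hAle : A ≤ 123 * L' ^ 2 * (ℓ : ℝ) ^ 2 * (t : ℝ) ^ 3 := by
    rw [hA]
    calc (K : ℝ) * (123 * L' ^ 2 * Real.sqrt K) ≤ K * (123 * L' ^ 2 * (ℓ * t)) := by gcongr
      _ = 123 * L' ^ 2 * (ℓ : ℝ) ^ 2 * (t : ℝ) ^ 3 := by rw [hKt]; ring
  have h7 : (t : ℝ) ^ 2 / 2 ≤ Real.sqrt A := by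
    rw [hkt] at hfin
    nlinarith
  have h8 : ((t : ℝ) ^ 2 / 2) ^ 2 ≤ A := by
    have := Real.sq_sqrt hA0
    rw [← this]
    gcongr
  have h9 : (t : ℝ) ^ 4 / 4 ≤ 123 * L' ^ 2 * (ℓ : ℝ) ^ 2 * (t : ℝ) ^ 3 := by
    calc (t : ℝ) ^ 4 / 4 = ((t : ℝ) ^ 2 / 2) ^ 2 := by ring
      _ ≤ A := h8
      _ ≤ _ := hAle
  have h10 : (0 : ℝ) < (t : ℝ) ^ 3 := by positivity
  have h11 : 123 * L' ^ 2 * (ℓ : ℝ) ^ 2 * (t : ℝ) ^ 3 < (t : ℝ) ^ 4 / 4 := by
    have : 492 * L' ^ 2 * (ℓ : ℝ) ^ 2 * (t : ℝ) ^ 3 < t * (t : ℝ) ^ 3 :=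
      mul_lt_mul_of_pos_right ht3 h10
    nlinarith
  linarith

end Pool.Agent.H76R3.JH
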