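import Pool.Agent.H76R3.JTType
import Pool.Agent.H76R3.CoreLB

set_option autoImplicit false

open Topology Filter Set
open scoped Classical

namespace Pool.Agent.H76R3.JT

open Pool.Agent.H76R3.TC Pool.Agent.H76R3.LB

/-! lexicographic order on lists -/

lemma nil_le' (s : List ℕ) : ([] : List ℕ) ≤ s := by
  cases s with
  | nil => exact le_rfl
  | cons a s => exact le_of_lt List.Lex.nil

lemma lex_le_append (s t : List ℕ) : s ≤ s ++ t := by
  induction s with
  | nil => exact nil_le' _
  | cons a s ih =>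
    rw [List.cons_append]
    rcases ih.lt_or_eq with h | h
    · exact le_of_lt (List.Lex.cons h)
    · rw [← h]

lemma lex_le_of_prefix {s v : List ℕ} (h : s <+: v) : s ≤ v := by
  obtain ⟨t, rfl⟩ := h
  exact lex_le_append s t

lemma lex_lt_append (s : List ℕ) {m m' : ℕ} (hm : m < m') (t : List ℕ) :
    s ++ (m :: t) < s ++ [m'] := by
  induction s with
  | nil => exact List.Lex.rel hm
  | cons a s ih =>
    rw [List.cons_append, List.cons_append]
    exact List.Lex.cons ih

lemma lex_sibling {s v : List ℕ} {m m' : ℕ} (hm : m < m') (h : s ++ [m, m'] <+: v) :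
    v < s ++ [m'] := by
  obtain ⟨t, rfl⟩ := h
  have := lex_lt_append s hm ([m'] ++ t)
  simpa using this

lemma lex_succ {v w : List ℕ} (h : v < w) : v ++ [0] ≤ w := by
  induction v generalizing w with
  | nil =>
    cases w with
    | nil => exact absurd h (lt_irrefl _)
    | cons b w =>
      rcases Nat.eq_zero_or_pos b with hb | hb
      · subst hb
        exact lex_le_append [0] w
      · exact le_of_lt (List.Lex.rel hb)
  | cons a v ih =>
    cases w with
    | nil => exact absurd h (not_lt.2 (nil_le' _))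
    | cons b w =>
      rw [List.cons_append]
      cases h with
      | rel hab => exact le_of_lt (List.Lex.rel hab)
      | cons h' =>
        have h2 : v ++ [0] ≤ w := ih h'
        rcases h2.lt_or_eq with h3 | h3
        · exact le_of_lt (List.Lex.cons h3)
        · rw [h3]

lemma lex_lt_succ (v : List ℕ) : v < v ++ [0] := by
  apply lt_of_le_of_ne (lex_le_append v [0])
  intro h
  have := congrArg List.length h
  simp at this

/-- the index order -/
abbrev II : Type := WithBot (List ℕ)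

section Inst

lemma K1_mul : (4 : ENNReal) * K1 ≤ 5 := by
  have h1 : K1 = ENNReal.ofReal (8/7) := by
    unfold K1
    have h8 : (8⁻¹ : ENNReal) = ENNReal.ofReal (1/8) := by
      rw [one_div, ENNReal.ofReal_inv_of_pos (by norm_num)]
      norm_num
    have h2 : ∀ k : ℕ, (8⁻¹ : ENNReal) ^ k = ENNReal.ofReal ((1/8) ^ k) := by
      intro k
      rw [h8, ← ENNReal.ofReal_pow (by norm_num)]
    simp_rw [h2]
    rw [← ENNReal.ofReal_tsum_of_nonneg (fun k => by positivity)
      (summable_geometric_of_lt_one (by norm_num) (by norm_num)),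
      tsum_geometric_of_lt_one (by norm_num) (by norm_num)]
    norm_num
  rw [h1, show (4 : ENNReal) = ENNReal.ofReal 4 by norm_num,
    show (5 : ENNReal) = ENNReal.ofReal 5 by norm_num, ← ENNReal.ofReal_mul (by norm_num)]
  exact ENNReal.ofReal_le_ofReal (by norm_num)

lemma inS_of_const {ι : Type} [LinearOrder ι] [OrderBot ι] (F : ι → ℝ) (D : Finset ι)
    (hD : D.card ≤ 4) (hc : ∀ a b, (∀ d ∈ D, (d ≤ a ↔ d ≤ b)) → F a = F b)
    (hb : ∀ a, |F a| ≤ 1) (h0 : F ⊥ = 0) : InS F := by
  refine ⟨h0, hb, fun _ => D, ?_, ?_⟩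
  · intro j a b hab
    rw [hc a b hab, sub_self, abs_zero]
    positivity
  · rw [ENNReal.tsum_mul_right]
    calc (∑' j, (8⁻¹ : ENNReal) ^ j) * (D.card : ENNReal) ≤ K1 * 4 := by
          unfold K1
          gcongr
          exact_mod_cast hD
      _ = 4 * K1 := mul_comm _ _
      _ ≤ 5 := K1_mul

/-- tree functions -/
noncomputable def zf (s : List ℕ) (a : II) : ℝ :=
  if (s : II) ≤ a then 1/4 else if (([] : List ℕ) : II) ≤ a then -(1/4) else 0

/-- leaf functions -/
noncomputable def uf (v : List ℕ) (a : II) : ℝ :=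
  if (v : II) ≤ a ∧ ¬ ((v ++ [0] : List ℕ) : II) ≤ a then 1/2 else 0

lemma zf_abs (s : List ℕ) (a : II) : |zf s a| ≤ 1/4 := by
  unfold zf
  split_ifs <;> norm_num [abs_le]

lemma uf_abs (v : List ℕ) (a : II) : |uf v a| ≤ 1/2 := by
  unfold uf
  split_ifs <;> norm_num [abs_le]

lemma zf_bot (s : List ℕ) : zf s ⊥ = 0 := by
  unfold zf
  rw [if_neg (by simp), if_neg (by simp)]

lemma uf_bot (s : List ℕ) : uf s ⊥ = 0 := by
  unfold uf
  rw [if_neg (by simp)]

lemma nil_le_of {s : List ℕ} {a : II} (h : (s : II) ≤ a) : (([] : List ℕ) : II) ≤ a :=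
  le_trans (WithBot.coe_le_coe.2 (nil_le' s)) h

lemma inS_zf (s : List ℕ) : InS (zf s) := by
  apply inS_of_const (zf s) {(s : II), (([] : List ℕ) : II)}
  · exact (Finset.card_le_two).trans (by norm_num)
  · intro a b hab
    have h1 := hab (s : II) (by simp)
    have h2 := hab (([] : List ℕ) : II) (by simp)
    unfold zf
    rw [if_congr h1 rfl (if_congr h2 rfl rfl)]
  · intro a
    exact (zf_abs s a).trans (by norm_num)
  · exact zf_bot s

lemma uf_congr {v : List ℕ} {a b : II} (h1 : (v : II) ≤ a ↔ (v : II) ≤ b)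
    (h2 : ((v ++ [0] : List ℕ) : II) ≤ a ↔ ((v ++ [0] : List ℕ) : II) ≤ b) : uf v a = uf v b := by
  unfold uf
  rw [if_congr (and_congr h1 (not_congr h2)) rfl rfl]

lemma inS_uf (v : List ℕ) : InS (uf v) := by
  apply inS_of_const (uf v) {(v : II), ((v ++ [0] : List ℕ) : II)}
  · exact (Finset.card_le_two).trans (by norm_num)
  · intro a b hab
    exact uf_congr (hab _ (by simp)) (hab _ (by simp))
  · intro a
    exact (uf_abs v a).trans (by norm_num)
  · exact uf_bot v

lemma zf_congr {s : List ℕ} {a b : II} (h1 : (s : II) ≤ a ↔ (s : II) ≤ b)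
    (h2 : (([] : List ℕ) : II) ≤ a ↔ (([] : List ℕ) : II) ≤ b) : zf s a = zf s b := by
  unfold zf
  rw [if_congr h1 rfl (if_congr h2 rfl rfl)]

lemma inS_E1 {v s : List ℕ} (h : s ≤ v) : InS (fun a => 4 * (uf v a - zf s a)) := by
  apply inS_of_const _ {(v : II), ((v ++ [0] : List ℕ) : II), (s : II), (([] : List ℕ) : II)}
  · exact Finset.card_le_four
  · intro a b hab
    rw [uf_congr (hab _ (by simp)) (hab _ (by simp)), zf_congr (hab _ (by simp)) (hab _ (by simp))]
  · intro a
    by_cases h1 : (v : II) ≤ a ∧ ¬ ((v ++ [0] : List ℕ) : II) ≤ a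
    · have h2 : (s : II) ≤ a := le_trans (WithBot.coe_le_coe.2 h) h1.1
      have h3 : uf v a = 1/2 := by unfold uf; rw [if_pos h1]
      have h4 : zf s a = 1/4 := by unfold zf; rw [if_pos h2]
      rw [h3, h4]
      norm_num
    · have h3 : uf v a = 0 := by unfold uf; rw [if_neg h1]
      rw [h3, zero_sub, abs_mul, abs_neg]
      have := zf_abs s a
      rw [abs_of_pos (by norm_num : (0:ℝ) < 4)]
      linarith
  · rw [uf_bot, zf_bot]
    norm_num

lemma inS_E2 {v s : List ℕ} (h : v < s) : InS (fun a => 4 * (-uf v a - zf s a)) := by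
  apply inS_of_const _ {(v : II), ((v ++ [0] : List ℕ) : II), (s : II), (([] : List ℕ) : II)}
  · exact Finset.card_le_four
  · intro a b hab
    rw [uf_congr (hab _ (by simp)) (hab _ (by simp)), zf_congr (hab _ (by simp)) (hab _ (by simp))]
  · intro a
    by_cases h1 : (v : II) ≤ a ∧ ¬ ((v ++ [0] : List ℕ) : II) ≤ a
    · have h2 : ¬ (s : II) ≤ a := by
        intro hs
        exact h1.2 (le_trans (WithBot.coe_le_coe.2 (lex_succ h)) hs)
      have h3 : uf v a = 1/2 := by unfold uf; rw [if_pos h1]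
      have h4 : zf s a = -(1/4) := by unfold zf; rw [if_neg h2, if_pos (nil_le_of h1.1)]
      rw [h3, h4]
      norm_num
    · have h3 : uf v a = 0 := by unfold uf; rw [if_neg h1]
      rw [h3, neg_zero, zero_sub, abs_mul, abs_neg]
      have := zf_abs s a
      rw [abs_of_pos (by norm_num : (0:ℝ) < 4)]
      linarith
  · rw [uf_bot, zf_bot]
    norm_num

/-- the vectors in the big space -/
noncomputable def ZZ (s : List ℕ) : XX II := ge ⟨zf s, inS_zf s⟩

noncomputable def UU (v : List ℕ) : XX II := ge ⟨uf v, inS_uf v⟩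

lemma dist1 {v s : List ℕ} (h : s ≤ v) : ‖UU v - ZZ s‖ ≤ 1/4 := by
  have h1 := ge_rel (n := 2) ![(1:ℝ), -1] ![⟨uf v, inS_uf v⟩, ⟨zf s, inS_zf s⟩] (1/4)
    ⟨_, inS_E1 h⟩ (by
      funext a
      simp
      ring)
  have h2 : UU v - ZZ s = (1/4 : ℝ) • ge ⟨_, inS_E1 h⟩ := by
    rw [← h1]
    simp [UU, ZZ, sub_eq_add_neg]
  rw [h2, norm_smul]
  have := norm_ge (⟨_, inS_E1 h⟩ : SS II)
  rw [Real.norm_of_nonneg (by norm_num)]
  linarith

lemma dist2 {v s : List ℕ} (h : v < s) : ‖-UU v - ZZ s‖ ≤ 1/4 := by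
  have h1 := ge_rel (n := 2) ![(-1:ℝ), -1] ![⟨uf v, inS_uf v⟩, ⟨zf s, inS_zf s⟩] (1/4)
    ⟨_, inS_E2 h⟩ (by
      funext a
      simp
      ring)
  have h2 : -UU v - ZZ s = (1/4 : ℝ) • ge ⟨_, inS_E2 h⟩ := by
    rw [← h1]
    simp [UU, ZZ, sub_eq_add_neg]
  rw [h2, norm_smul]
  have := norm_ge (⟨_, inS_E2 h⟩ : SS II)
  rw [Real.norm_of_nonneg (by norm_num)]
  linarith

lemma dist3 (v : List ℕ) : 1 ≤ ‖UU v - -UU v‖ := by
  have h1 := ge_eval (n := 1) ![(2:ℝ)] ![⟨uf v, inS_uf v⟩] ((v : List ℕ) : II)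
  have h2 : uf v ((v : List ℕ) : II) = 1/2 := by
    unfold uf
    rw [if_pos]
    refine ⟨le_rfl, ?_⟩
    rw [WithBot.coe_le_coe, not_le]
    exact lex_lt_succ v
  simp only [Finset.univ_unique, Fin.default_eq_zero, Matrix.cons_val_fin_one,
    Finset.sum_const, Finset.card_singleton, one_smul] at h1
  rw [h2] at h1
  have h3 : UU v - -UU v = (2:ℝ) • ge (⟨uf v, inS_uf v⟩ : SS II) := by
    rw [sub_neg_eq_add, two_smul]
    rfl
  rw [h3]
  refine le_trans ?_ h1
  norm_num

/-- the generating family -/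
noncomputable def GG : Set (XX II) := Set.range ZZ ∪ Set.range UU

/-- the space -/
noncomputable def WW : Submodule ℝ (XX II) := (Submodule.span ℝ GG).topologicalClosure

lemma ZZ_mem (s : List ℕ) : ZZ s ∈ WW :=
  Submodule.le_topologicalClosure _ (Submodule.subset_span (Or.inl ⟨s, rfl⟩))

lemma UU_mem (s : List ℕ) : UU s ∈ WW :=
  Submodule.le_topologicalClosure _ (Submodule.subset_span (Or.inr ⟨s, rfl⟩))

lemma hasType_sub {E : Type} [NormedAddCommGroup E] [NormedSpace ℝ E] (W : Submodule ℝ E) {p : ℝ}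
    (h : HasType E p) : HasType W p := by
  obtain ⟨C, hC⟩ := h
  refine ⟨C, fun n x => ?_⟩
  have h1 := hC n (fun i => (x i : E))
  have h2 : ∀ ε : Fin n → Bool, ssum ε (fun i => (x i : E)) = ((ssum ε x : W) : E) := by
    intro ε
    exact (map_ssum W.subtypeL ε x).symm
  simp only [h2] at h1
  exact h1

end Inst

/-- The example with nontrivial type. -/
theorem exists_type :
    ∃ (Y : Type) (_ : NormedAddCommGroup Y) (_ : NormedSpace ℝ Y) (_ : CompleteSpace Y)
      (_ : TopologicalSpace.SeparableSpace Y), HasType Y (32/31) ∧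
      ∃ x y z : List ℕ → Y, Conf (fun _ => True) x y z := by
  have hcl : IsClosed (WW : Set (XX II)) := Submodule.isClosed_topologicalClosure _
  have hcomp : CompleteSpace WW := hcl.completeSpace_coe
  have hsep : TopologicalSpace.SeparableSpace WW := by
    have h1 : TopologicalSpace.IsSeparable GG :=
      ((Set.countable_range _).union (Set.countable_range _)).isSeparable
    have h2 : TopologicalSpace.IsSeparable (WW : Set (XX II)) := by
      have := (h1.span (R := ℝ)).closure
      exact this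
    exact h2.separableSpace
  refine ⟨WW, inferInstance, inferInstance, hcomp, hsep,
    hasType_sub _ (hasType_of_eq eqType), fun v => ⟨UU v, UU_mem v⟩,
    fun v => ⟨-UU v, WW.neg_mem (UU_mem v)⟩, fun s => ⟨ZZ s, ZZ_mem s⟩, ?_⟩
  refine ⟨⟨2, ?_⟩, ?_, ?_, ?_⟩
  · intro s s'
    rw [Subtype.dist_eq, dist_eq_norm]
    have h1 := norm_ge (⟨zf s, inS_zf s⟩ : SS II)
    have h2 := norm_ge (⟨zf s', inS_zf s'⟩ : SS II)
    refine (norm_sub_le _ _).trans ?_
    unfold ZZ
    linarith
  · intro s m v _ h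
    rw [Subtype.dist_eq, dist_eq_norm]
    exact dist1 (lex_le_of_prefix h)
  · intro s m m' v _ hm h
    rw [Subtype.dist_eq, dist_eq_norm]
    exact dist2 (lex_sibling hm h)
  · intro v _
    rw [Subtype.dist_eq, dist_eq_norm]
    exact dist3 v

end Pool.Agent.H76R3.JT
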