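import Pool.Agent.H76R3.TC

set_option autoImplicit false

open Topology Filter Set ENNReal
open scoped Classical

namespace Pool.Agent.H76R3.JT

open Pool.Agent.H76R3.TC

variable {ι : Type} [LinearOrder ι] [OrderBot ι]

/-- `F` varies by at most `μ` on each piece cut out by `D`. -/
def Cut (D : Set ι) (μ : ℝ) (F : ι → ℝ) : Prop :=
  ∀ a b, (∀ d ∈ D, (d ≤ a ↔ d ≤ b)) → |F a - F b| ≤ μ

/-- The generating set of the unit ball. -/
structure InS (F : ι → ℝ) : Prop where
  bot : F ⊥ = 0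
  bdd : ∀ a, |F a| ≤ 1
  cuts : ∃ D : ℕ → Finset ι, (∀ j, Cut (D j : Set ι) ((1/2)^j) F) ∧
    ∑' j, (8⁻¹ : ℝ≥0∞) ^ j * ((D j).card : ℝ≥0∞) ≤ 5

lemma Cut.mono {D D' : Set ι} (h : D ⊆ D') {μ : ℝ} {F : ι → ℝ} (hc : Cut D μ F) : Cut D' μ F :=
  fun a b hab => hc a b fun d hd => hab d (h hd)

/-- the last cut point up to `a` -/
noncomputable def rep (D : Finset ι) (a : ι) : ι := (D.filter (· ≤ a)).sup id

/-- the last cut point before `c` -/
noncomputable def repl (D : Finset ι) (c : ι) : ι := (D.filter (· < c)).sup id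

lemma rep_le (D : Finset ι) (a : ι) : rep D a ≤ a := by
  apply Finset.sup_le
  intro d hd
  exact (Finset.mem_filter.1 hd).2

lemma le_rep {D : Finset ι} {a d : ι} (hd : d ∈ D) (h : d ≤ a) : d ≤ rep D a :=
  Finset.le_sup (f := id) (Finset.mem_filter.2 ⟨hd, h⟩)

lemma rep_mem {D : Finset ι} {a c : ι} (hc : c ∈ D) (h : c ≤ a) : rep D a ∈ D := by
  have hne : (D.filter (· ≤ a)).Nonempty := ⟨c, Finset.mem_filter.2 ⟨hc, h⟩⟩
  obtain ⟨x, hx, hx2⟩ := Finset.exists_mem_eq_sup _ hne id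
  unfold rep
  rw [hx2]
  exact (Finset.mem_filter.1 hx).1

lemma rep_same (D : Finset ι) (a : ι) : ∀ d ∈ (D : Set ι), (d ≤ a ↔ d ≤ rep D a) :=
  fun _ hd => ⟨fun h => le_rep hd h, fun h => h.trans (rep_le D a)⟩

lemma rep_rep {D D' : Finset ι} (h : D ⊆ D') (a : ι) : rep D (rep D' a) = rep D a := by
  unfold rep
  congr 1
  apply Finset.filter_congr
  intro d hd
  exact (rep_same D' a d (h hd)).symm

lemma rep_congr {D : Finset ι} {a b : ι} (h : ∀ d ∈ D, (d ≤ a ↔ d ≤ b)) : rep D a = rep D b := by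
  unfold rep
  congr 1
  exact Finset.filter_congr h

lemma repl_eq {D : Finset ι} {a c : ι} (hac : a < c) (h : ∀ d ∈ D, d < c → d ≤ a) :
    repl D c = rep D a := by
  unfold rep repl
  congr 1
  apply Finset.filter_congr
  intro d hd
  exact ⟨fun h1 => h d hd h1, fun h1 => h1.trans_lt hac⟩

lemma ssum_apply {n : ℕ} (ε : Fin n → Bool) (F : Fin n → ι → ℝ) (a : ι) :
    ssum ε F a = ssum ε (fun i => F i a) := by
  simp only [ssum, Finset.sum_apply]
  refine Finset.sum_congr rfl fun i _ => ?_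
  split_ifs <;> simp

lemma ssum_sub {n : ℕ} (ε : Fin n → Bool) (c c' : Fin n → ℝ) :
    ssum ε c - ssum ε c' = ssum ε (fun i => c i - c' i) := by
  simp only [ssum, ← Finset.sum_sub_distrib]
  refine Finset.sum_congr rfl fun i _ => ?_
  split_ifs <;> ring

lemma abs_ssum_le {n : ℕ} (ε : Fin n → Bool) (c : Fin n → ℝ) : |ssum ε c| ≤ ∑ i, |c i| := by
  unfold ssum
  refine (Finset.abs_sum_le_sum_abs _ _).trans ?_
  refine Finset.sum_le_sum fun i _ => ?_
  split_ifs <;> simp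

/-- Markov's inequality with fourth moments, for signs. -/
lemma markov {n : ℕ} (c : Fin n → ℝ) (θ M : ℝ) (hθ : 0 < θ) (hM : ∑ i, (c i) ^ 2 ≤ M) :
    ((Finset.univ.filter (fun ε : Fin n → Bool => θ < |ssum ε c|)).card : ℝ)
      ≤ 2 ^ n * (3 * M ^ 2 / θ ^ 4) := by
  have hs0 : 0 ≤ ∑ i, (c i) ^ 2 := Finset.sum_nonneg fun i _ => sq_nonneg _
  have h1 : ((Finset.univ.filter (fun ε : Fin n → Bool => θ < |ssum ε c|)).card : ℝ) * θ ^ 4
      ≤ ∑ ε : Fin n → Bool, (ssum ε c) ^ 4 := by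
    calc ((Finset.univ.filter (fun ε : Fin n → Bool => θ < |ssum ε c|)).card : ℝ) * θ ^ 4
        = ∑ _ε ∈ Finset.univ.filter (fun ε : Fin n → Bool => θ < |ssum ε c|), θ ^ 4 := by
          rw [Finset.sum_const, nsmul_eq_mul]
      _ ≤ ∑ ε ∈ Finset.univ.filter (fun ε : Fin n → Bool => θ < |ssum ε c|), (ssum ε c) ^ 4 := by
          refine Finset.sum_le_sum fun ε hε => ?_
          have h2 := (Finset.mem_filter.1 hε).2
          calc θ ^ 4 ≤ |ssum ε c| ^ 4 := by gcongr
            _ = (ssum ε c) ^ 4 := by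
              rw [← abs_pow]
              exact abs_of_nonneg (by positivity)
      _ ≤ ∑ ε : Fin n → Bool, (ssum ε c) ^ 4 :=
          Finset.sum_le_sum_of_subset_of_nonneg (Finset.filter_subset _ _)
            (fun ε _ _ => by positivity)
  have h2 := avg_four c
  unfold avg at h2
  rw [div_le_iff₀ (by positivity)] at h2
  have h3 : 3 * (∑ i, (c i) ^ 2) ^ 2 ≤ 3 * M ^ 2 := by gcongr
  have h4 : (0:ℝ) < 2 ^ n := by positivity
  rw [← mul_div_assoc, le_div_iff₀ (by positivity)]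
  calc _ ≤ ∑ ε : Fin n → Bool, (ssum ε c) ^ 4 := h1
    _ ≤ 3 * (∑ i, (c i) ^ 2) ^ 2 * 2 ^ n := h2
    _ ≤ 3 * M ^ 2 * 2 ^ n := by gcongr
    _ = _ := by ring

section Main

variable {n : ℕ} (F : Fin n → ι → ℝ) (I : Finset (Fin n)) (e : ℕ)
  (D : Fin n → ℕ → Finset ι)

/-- shifted cut sets -/
noncomputable def Dsh (i : Fin n) (k : ℕ) : Finset ι := if i ∈ I ∧ 3 * e ≤ k then D i (k - 3 * e) else ∅

/-- the common refinement at level `k` -/
noncomputable def DD (k : ℕ) : Finset ι :=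
  Finset.univ.biUnion fun i => (Finset.range (k + 1)).biUnion fun k' => Dsh I e D i k'

lemma DD_mono {k k' : ℕ} (h : k ≤ k') : DD I e D k ⊆ DD I e D k' := by
  unfold DD
  apply Finset.biUnion_mono
  intro i _
  apply Finset.biUnion_subset_biUnion_of_subset_left
  intro x hx
  rw [Finset.mem_range] at hx ⊢
  omega

lemma Dsh_sub (i : Fin n) (k : ℕ) : Dsh I e D i k ⊆ DD I e D k := by
  intro x hx
  unfold DD
  rw [Finset.mem_biUnion]
  exact ⟨i, Finset.mem_univ _, Finset.mem_biUnion.2 ⟨k, Finset.mem_range.2 (Nat.lt_succ_self k), hx⟩⟩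

/-- the scale of level `k` -/
noncomputable def rho (k : ℕ) : ℝ := 8 ^ e * (1/2) ^ k

/-- the target scales -/
noncomputable def lam (j : ℕ) : ℝ := 128 ^ e * (1/2) ^ j

/-- thresholds -/
noncomputable def th (j k : ℕ) : ℝ := lam e j * (7/8) ^ k / 16

lemma cutDD (hF : ∀ i ∈ I, (∀ a, |F i a| ≤ 1) ∧ ∀ j, Cut (D i j : Set ι) ((1/2)^j) (F i))
    (h0 : ∀ i ∉ I, F i = 0) (k : ℕ) (i : Fin n) : Cut (DD I e D k : Set ι) (rho e k) (F i) := by
  have hr0 : 0 < rho e k := by unfold rho; positivity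
  by_cases hi : i ∈ I
  · by_cases hk : 3 * e ≤ k
    · have h1 := (hF i hi).2 (k - 3 * e)
      have h2 : Dsh I e D i k = D i (k - 3 * e) := by
        unfold Dsh
        rw [if_pos ⟨hi, hk⟩]
      rw [← h2] at h1
      have h3 : ((1:ℝ)/2)^(k - 3 * e) = rho e k := by
        unfold rho
        have : (8:ℝ) ^ e = 2 ^ (3 * e) := by rw [pow_mul]; norm_num
        rw [this, one_div_pow, one_div_pow]
        have h4 : (2:ℝ) ^ k = 2 ^ (k - 3 * e) * 2 ^ (3 * e) := by rw [← pow_add]; congr 1; omega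
        rw [h4]
        field_simp
      rw [h3] at h1
      exact h1.mono (Dsh_sub I e D i k)
    · intro a b _
      have h1 := (hF i hi).1 a
      have h2 := (hF i hi).1 b
      have h3 : (2:ℝ) ≤ rho e k := by
        unfold rho
        have : (8:ℝ) ^ e = 2 ^ (3 * e) := by rw [pow_mul]; norm_num
        rw [this, one_div_pow]
        have h4 : (2:ℝ) ^ (3 * e) = 2 ^ (3 * e - k) * 2 ^ k := by rw [← pow_add]; congr 1; omega
        rw [h4]
        have h5 : (2:ℝ) ^ 1 ≤ 2 ^ (3 * e - k) := pow_le_pow_right₀ (by norm_num) (by omega)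
        have h6 : (2:ℝ) ^ (3 * e - k) * 2 ^ k * (1 / 2 ^ k) = 2 ^ (3 * e - k) := by
          field_simp
        rw [h6]
        linarith
      rw [abs_le] at h1 h2 ⊢
      constructor <;> linarith [h1.1, h1.2, h2.1, h2.2]
  · intro a b _
    rw [h0 i hi]
    simpa using hr0.le

/-- a bad increment -/
def Bad (ε : Fin n → Bool) (j k : ℕ) (p : ι) : Prop :=
  th e j k < |ssum ε F p - ssum ε F (rep (DD I e D (j + k)) p)|

/-- the cut set of the random sum -/
def De (ε : Fin n → Bool) (j : ℕ) : Set ι :=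
  {c | c ∈ DD I e D j ∨ ∃ k, c ∈ DD I e D (j + k + 1) ∧
    (Bad F I e D ε j k c ∨ Bad F I e D ε j k (repl (DD I e D (j + k + 1)) c))}

lemma cutDe (hF : ∀ i ∈ I, (∀ a, |F i a| ≤ 1) ∧ ∀ j, Cut (D i j : Set ι) ((1/2)^j) (F i))
    (h0 : ∀ i ∉ I, F i = 0) (ε : Fin n → Bool) (j : ℕ) :
    Cut (De F I e D ε j) (lam e j) (ssum ε F) := by
  have hl0 : 0 < lam e j := by unfold lam; positivity
  -- it suffices to treat `a ≤ b`
  suffices H : ∀ a b, a ≤ b → (∀ d ∈ De F I e D ε j, (d ≤ a ↔ d ≤ b)) →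
      |ssum ε F a - ssum ε F b| ≤ lam e j by
    intro a b hab
    rcases le_total a b with h | h
    · exact H a b h hab
    · rw [abs_sub_comm]
      exact H b a h fun d hd => (hab d hd).symm
  intro a b hab hsame
  set G := ssum ε F with hG
  -- increments
  have hstep : ∀ k, |(G (rep (DD I e D (j + k + 1)) a) - G (rep (DD I e D (j + k + 1)) b))
      - (G (rep (DD I e D (j + k)) a) - G (rep (DD I e D (j + k)) b))| ≤ 2 * th e j k := by
    intro k
    have hsub : DD I e D (j + k) ⊆ DD I e D (j + k + 1) := DD_mono I e D (Nat.le_succ _)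
    by_cases hsep : ∀ d ∈ DD I e D (j + k + 1), (d ≤ a ↔ d ≤ b)
    · rw [rep_congr hsep, rep_congr (fun d hd => hsep d (hsub hd))]
      have : 0 ≤ th e j k := by unfold th; positivity
      simpa using this
    · push Not at hsep
      obtain ⟨c, hc, hcc⟩ := hsep
      have hc1 : a < c ∧ c ≤ b := by
        rcases hcc with ⟨h1, h2⟩ | ⟨h1, h2⟩
        · exact absurd (h1.trans hab) (not_le.2 h2)
        · exact ⟨h1, h2⟩
      -- the piece of `b`
      have hb : |G (rep (DD I e D (j + k + 1)) b) - G (rep (DD I e D (j + k)) b)| ≤ th e j k := by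
        set p := rep (DD I e D (j + k + 1)) b with hp
        have hpm : p ∈ DD I e D (j + k + 1) := rep_mem hc hc1.2
        have hpa : a < p := hc1.1.trans_le (le_rep hc hc1.2)
        have hpn : p ∉ De F I e D ε j := by
          intro hmem
          exact absurd ((hsame p hmem).2 (rep_le _ _)) (not_le.2 hpa)
        by_contra hbad
        rw [not_le] at hbad
        apply hpn
        refine Or.inr ⟨k, hpm, Or.inl ?_⟩
        unfold Bad
        rw [← hG, rep_rep hsub]
        exact hbad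
      -- the piece of `a`
      have ha : |G (rep (DD I e D (j + k + 1)) a) - G (rep (DD I e D (j + k)) a)| ≤ th e j k := by
        have hne : ((DD I e D (j + k + 1)).filter (fun d => a < d)).Nonempty :=
          ⟨c, Finset.mem_filter.2 ⟨hc, hc1.1⟩⟩
        set c' := ((DD I e D (j + k + 1)).filter (fun d => a < d)).min' hne with hc'
        have hc'm := Finset.min'_mem _ hne
        rw [← hc', Finset.mem_filter] at hc'm
        have hc'le : c' ≤ c := Finset.min'_le _ _ (Finset.mem_filter.2 ⟨hc, hc1.1⟩)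
        have hrep : repl (DD I e D (j + k + 1)) c' = rep (DD I e D (j + k + 1)) a := by
          apply repl_eq hc'm.2
          intro d hd hdc
          by_contra hda
          rw [not_le] at hda
          exact absurd (Finset.min'_le _ d (Finset.mem_filter.2 ⟨hd, hda⟩)) (not_le.2 hdc)
        have hpn : c' ∉ De F I e D ε j := by
          intro hmem
          exact absurd ((hsame c' hmem).2 (hc'le.trans hc1.2)) (not_le.2 hc'm.2)
        by_contra hbad
        rw [not_le] at hbad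
        apply hpn
        refine Or.inr ⟨k, hc'm.1, Or.inr ?_⟩
        unfold Bad
        rw [← hG, hrep, rep_rep hsub]
        exact hbad
      have e1 := abs_le.1 ha
      have e2 := abs_le.1 hb
      rw [abs_le]
      constructor <;> linarith [e1.1, e1.2, e2.1, e2.2]
  have hgk : ∀ k, |G (rep (DD I e D (j + k)) a) - G (rep (DD I e D (j + k)) b)|
      ≤ lam e j * (1 - (7/8) ^ k) := by
    intro k
    induction k with
    | zero =>
      have : rep (DD I e D (j + 0)) a = rep (DD I e D (j + 0)) b :=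
        rep_congr fun d hd => hsame d (Or.inl hd)
      rw [this]
      simp
    | succ k ih =>
      have h1 := hstep k
      have h2 : 2 * th e j k = lam e j * ((1/8) * (7/8) ^ k) := by unfold th; ring
      rw [h2] at h1
      have h3 : (1 - (7/8 : ℝ) ^ (k+1)) = (1 - (7/8) ^ k) + (1/8) * (7/8) ^ k := by
        rw [pow_succ]; ring
      rw [h3, mul_add]
      have e1 := abs_le.1 h1
      have e2 := abs_le.1 ih
      rw [← add_assoc, abs_le]
      constructor <;> linarith [e1.1, e1.2, e2.1, e2.2]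
  -- error at the level `j + k`
  have herr : ∀ (x : ι) (k : ℕ), |G x - G (rep (DD I e D (j + k)) x)| ≤ n * rho e (j + k) := by
    intro x k
    rw [hG, ssum_apply, ssum_apply, ssum_sub]
    refine (abs_ssum_le _ _).trans ?_
    calc ∑ i, |F i x - F i (rep (DD I e D (j + k)) x)| ≤ ∑ _i : Fin n, rho e (j + k) := by
          refine Finset.sum_le_sum fun i _ => ?_
          exact cutDD F I e D hF h0 (j + k) i _ _ (rep_same _ _)
      _ = n * rho e (j + k) := by simp
  have hall : ∀ k, |G a - G b| ≤ lam e j + 2 * (n * rho e (j + k)) := by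
    intro k
    have e1 := abs_le.1 (herr a k)
    have e2 := abs_le.1 (herr b k)
    have e3 := abs_le.1 (hgk k)
    have e4 : lam e j * (1 - (7/8) ^ k) ≤ lam e j := by
      have : 0 ≤ lam e j * (7/8) ^ k := by positivity
      linarith
    rw [abs_le]
    constructor <;> linarith [e1.1, e1.2, e2.1, e2.2, e3.1, e3.2]
  have hlim : Tendsto (fun k : ℕ => lam e j + 2 * (n * rho e (j + k))) atTop (𝓝 (lam e j + 2 * (n * 0))) := by
    apply Filter.Tendsto.const_add
    apply Filter.Tendsto.const_mul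
    apply Filter.Tendsto.const_mul
    have h1 : (fun k : ℕ => rho e (j + k)) = fun k => (8 ^ e * (1/2) ^ j) * (1/2 : ℝ) ^ k := by
      funext k
      unfold rho
      rw [pow_add]
      ring
    rw [h1]
    have := (tendsto_pow_atTop_nhds_zero_of_lt_one (r := (1/2 : ℝ)) (by norm_num) (by norm_num)).const_mul
      ((8:ℝ) ^ e * (1/2) ^ j)
    simpa using this
  have := ge_of_tendsto' hlim hall
  simpa using this

/-- number of elements, as a sum -/
noncomputable def cnt (A : Set ι) : ℝ≥0∞ := ∑' d, if d ∈ A then 1 else 0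

/-- the weight of the cut sets of the random sum -/
noncomputable def Psi (ε : Fin n → Bool) : ℝ≥0∞ := ∑' j, (8⁻¹ : ℝ≥0∞) ^ j * cnt (De F I e D ε j)

omit [OrderBot ι] in
lemma tsum_ite_mem (s : Finset ι) (f : ι → ℝ≥0∞) :
    ∑' d, (if d ∈ s then f d else 0) = ∑ d ∈ s, f d := by
  rw [tsum_eq_sum (s := s)]
  · exact Finset.sum_congr rfl fun d hd => if_pos hd
  · intro d hd
    exact if_neg hd

lemma cnt_le (ε : Fin n → Bool) (j : ℕ) : cnt (De F I e D ε j) ≤ ((DD I e D j).card : ℝ≥0∞)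
    + ∑' k, ∑ d ∈ DD I e D (j + k + 1), ((if Bad F I e D ε j k d then 1 else 0)
      + (if Bad F I e D ε j k (repl (DD I e D (j + k + 1)) d) then 1 else 0)) := by
  have h1 : ((DD I e D j).card : ℝ≥0∞) = ∑' d, if d ∈ DD I e D j then 1 else 0 := by
    rw [tsum_ite_mem]; simp
  simp_rw [← tsum_ite_mem]
  rw [h1, ENNReal.tsum_comm, ← ENNReal.tsum_add]
  unfold cnt
  apply ENNReal.tsum_le_tsum
  intro d
  by_cases hd : d ∈ De F I e D ε j
  · rw [if_pos hd]
    rcases hd with hd | ⟨k, hk, hd⟩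
    · rw [if_pos hd]
      exact le_self_add
    · refine le_trans ?_ le_add_self
      refine le_trans ?_ (ENNReal.le_tsum k)
      rw [if_pos hk]
      rcases hd with hd | hd
      · rw [if_pos hd]
        exact le_self_add
      · rw [if_pos hd]
        exact le_add_self
  · rw [if_neg hd]
    exact zero_le

lemma bad_count (hF : ∀ i ∈ I, (∀ a, |F i a| ≤ 1) ∧ ∀ j, Cut (D i j : Set ι) ((1/2)^j) (F i))
    (h0 : ∀ i ∉ I, F i = 0) (hI : I.card ≤ 256 ^ e) (j k : ℕ) (p : ι) :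
    ∑ ε : Fin n → Bool, (if Bad F I e D ε j k p then (1 : ℝ≥0∞) else 0)
      ≤ ENNReal.ofReal (2 ^ n * (196608 * (256/2401) ^ k)) := by
  have hth : 0 < th e j k := by unfold th lam; positivity
  set q := rep (DD I e D (j + k)) p with hq
  have hc : ∀ i, |F i p - F i q| ≤ rho e (j + k) := fun i =>
    cutDD F I e D hF h0 (j + k) i _ _ (rep_same _ _)
  have hM : ∑ i, (F i p - F i q) ^ 2 ≤ 256 ^ e * (rho e (j + k)) ^ 2 := by
    have h1 : ∑ i, (F i p - F i q) ^ 2 = ∑ i ∈ I, (F i p - F i q) ^ 2 := by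
      symm
      apply Finset.sum_subset (Finset.subset_univ _)
      intro i _ hi
      rw [h0 i hi]
      simp
    rw [h1]
    calc ∑ i ∈ I, (F i p - F i q) ^ 2 ≤ ∑ _i ∈ I, (rho e (j + k)) ^ 2 := by
          refine Finset.sum_le_sum fun i _ => ?_
          rw [← sq_abs]
          exact pow_le_pow_left₀ (abs_nonneg _) (hc i) 2
      _ = (I.card : ℝ) * (rho e (j + k)) ^ 2 := by rw [Finset.sum_const, nsmul_eq_mul]
      _ ≤ 256 ^ e * (rho e (j + k)) ^ 2 := by
          gcongr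
          exact_mod_cast hI
  have h2 := markov (fun i => F i p - F i q) (th e j k) _ hth hM
  have h3 : 3 * (256 ^ e * (rho e (j + k)) ^ 2) ^ 2 / th e j k ^ 4 = 196608 * (256/2401) ^ k := by
    have hx : (256:ℝ) ^ e * (8 ^ e) ^ 2 = (128 ^ e) ^ 2 := by
      rw [← pow_mul, ← pow_mul, mul_comm e 2, pow_mul, pow_mul, ← mul_pow]
      norm_num
    have h4 : (256:ℝ) ^ e * (rho e (j + k)) ^ 2 = (128 ^ e) ^ 2 * ((1/4) ^ j * (1/4) ^ k) := by
      have h41 : (((1:ℝ)/2) ^ (j + k)) ^ 2 = (1/4) ^ j * (1/4) ^ k := by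
        rw [← pow_mul, mul_comm (j + k) 2, pow_mul, pow_add]
        norm_num
      unfold rho
      rw [mul_pow, ← mul_assoc, hx, h41]
    rw [h4]
    unfold th lam
    have h5 : ((1:ℝ)/4) ^ j = ((1/2) ^ j) ^ 2 := by
      rw [← pow_mul, mul_comm j 2, pow_mul]; norm_num
    have h6 : ((256:ℝ)/2401) ^ k = ((1/4) ^ k) ^ 2 / ((7/8) ^ k) ^ 4 := by
      rw [← pow_mul, ← pow_mul, mul_comm k 2, mul_comm k 4, pow_mul, pow_mul, ← div_pow]
      norm_num
    rw [h5, h6]
    have hx1 : (0:ℝ) < 128 ^ e := by positivity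
    have hx2 : (0:ℝ) < (1/2) ^ j := by positivity
    have hx3 : (0:ℝ) < (7/8) ^ k := by positivity
    generalize (128:ℝ) ^ e = X at *
    generalize ((1:ℝ)/2) ^ j = Y at *
    generalize ((7:ℝ)/8) ^ k = Z at *
    generalize ((1:ℝ)/4) ^ k = W at *
    field_simp
    ring
  rw [h3] at h2
  have h7 : ∑ ε : Fin n → Bool, (if Bad F I e D ε j k p then (1 : ℝ≥0∞) else 0)
      = ((Finset.univ.filter (fun ε : Fin n → Bool =>
        th e j k < |ssum ε (fun i => F i p - F i q)|)).card : ℝ≥0∞) := by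
    rw [Finset.sum_ite]
    simp only [Finset.sum_const_zero, add_zero, Finset.sum_const, nsmul_eq_mul, mul_one]
    congr 2
    apply Finset.filter_congr
    intro ε _
    unfold Bad
    rw [← hq, ssum_apply, ssum_apply, ssum_sub]
  rw [h7, ← ENNReal.ofReal_natCast]
  exact ENNReal.ofReal_le_ofReal h2

/-- the constants -/
noncomputable def K1 : ℝ≥0∞ := ∑' k : ℕ, (8⁻¹ : ℝ≥0∞) ^ k

noncomputable def K2 : ℝ≥0∞ := ∑' k : ℕ, 2 * (8 ^ (k + 1) * ENNReal.ofReal (196608 * (256/2401) ^ k))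

lemma K1_ne : K1 ≠ ⊤ := by
  unfold K1
  rw [ENNReal.tsum_geometric]
  rw [ENNReal.inv_ne_top]
  intro h
  have h1 : (8⁻¹ : ℝ≥0∞) < 1 := by
    rw [ENNReal.inv_lt_one]
    norm_num
  exact absurd (tsub_eq_zero_iff_le.1 h) (not_le.2 h1)

lemma K2_ne : K2 ≠ ⊤ := by
  have h : ∀ k : ℕ, 2 * (8 ^ (k + 1) * ENNReal.ofReal (196608 * (256/2401) ^ k))
      = ENNReal.ofReal ((2 * 8 * 196608) * (2048/2401) ^ k) := by
    intro k
    have h2 : (2 : ℝ≥0∞) = ENNReal.ofReal 2 := by norm_num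
    have h8 : (8 : ℝ≥0∞) = ENNReal.ofReal 8 := by norm_num
    rw [h2, h8, ← ENNReal.ofReal_pow (by norm_num), ← ENNReal.ofReal_mul (by positivity),
      ← ENNReal.ofReal_mul (by positivity)]
    congr 1
    rw [pow_succ, show (2048/2401 : ℝ) = 8 * (256/2401) by norm_num, mul_pow]
    ring
  unfold K2
  simp_rw [h]
  apply Summable.tsum_ofReal_ne_top
  apply Summable.mul_left
  exact summable_geometric_of_lt_one (by norm_num) (by norm_num)

/-- the total weight of the refined cut sets -/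
noncomputable def AA : ℝ≥0∞ := ∑' k, (8⁻¹ : ℝ≥0∞) ^ k * ((DD I e D k).card : ℝ≥0∞)

lemma sum_Psi (hF : ∀ i ∈ I, (∀ a, |F i a| ≤ 1) ∧ ∀ j, Cut (D i j : Set ι) ((1/2)^j) (F i))
    (h0 : ∀ i ∉ I, F i = 0) (hI : I.card ≤ 256 ^ e) :
    ∑ ε : Fin n → Bool, Psi F I e D ε ≤ 2 ^ n * (AA I e D * (1 + K2)) := by
  have h8 : (8 : ℝ≥0∞) ≠ 0 := by norm_num
  have h8' : (8 : ℝ≥0∞) ≠ ⊤ := by norm_num
  have hstep : ∀ j, ∑ ε : Fin n → Bool, cnt (De F I e D ε j) ≤ 2 ^ n * ((DD I e D j).card : ℝ≥0∞)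
      + ∑' k, ((DD I e D (j + k + 1)).card : ℝ≥0∞) *
        (2 * ENNReal.ofReal (2 ^ n * (196608 * (256/2401) ^ k))) := by
    intro j
    calc ∑ ε : Fin n → Bool, cnt (De F I e D ε j)
        ≤ ∑ ε : Fin n → Bool, (((DD I e D j).card : ℝ≥0∞)
          + ∑' k, ∑ d ∈ DD I e D (j + k + 1), ((if Bad F I e D ε j k d then 1 else 0)
          + (if Bad F I e D ε j k (repl (DD I e D (j + k + 1)) d) then 1 else 0))) :=
          Finset.sum_le_sum fun ε _ => cnt_le F I e D ε j
      _ = 2 ^ n * ((DD I e D j).card : ℝ≥0∞) + ∑' k, ∑ d ∈ DD I e D (j + k + 1),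
          (∑ ε : Fin n → Bool, (if Bad F I e D ε j k d then 1 else 0)
          + ∑ ε : Fin n → Bool, (if Bad F I e D ε j k (repl (DD I e D (j + k + 1)) d) then 1 else 0)) := by
          rw [Finset.sum_add_distrib]
          congr 1
          · simp
          · rw [← Summable.tsum_finsetSum (fun i _ => ENNReal.summable)]
            refine tsum_congr fun k => ?_
            rw [Finset.sum_comm]
            refine Finset.sum_congr rfl fun d _ => ?_
            rw [Finset.sum_add_distrib]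
      _ ≤ _ := by
          gcongr with k
          rw [← nsmul_eq_mul]
          apply Finset.sum_le_card_nsmul
          intro d _
          rw [two_mul]
          exact add_le_add (bad_count F I e D hF h0 hI j k d) (bad_count F I e D hF h0 hI j k _)
  unfold Psi
  rw [← Summable.tsum_finsetSum (fun i _ => ENNReal.summable)]
  simp_rw [← Finset.mul_sum]
  calc ∑' j, (8⁻¹ : ℝ≥0∞) ^ j * ∑ ε : Fin n → Bool, cnt (De F I e D ε j)
      ≤ ∑' j, (8⁻¹ : ℝ≥0∞) ^ j * (2 ^ n * ((DD I e D j).card : ℝ≥0∞)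
      + ∑' k, ((DD I e D (j + k + 1)).card : ℝ≥0∞) *
        (2 * ENNReal.ofReal (2 ^ n * (196608 * (256/2401) ^ k)))) := by
        gcongr with j
        exact hstep j
    _ = 2 ^ n * AA I e D + ∑' k, (∑' j, (8⁻¹ : ℝ≥0∞) ^ (j + k + 1)
        * ((DD I e D (j + k + 1)).card : ℝ≥0∞)) *
        (8 ^ (k + 1) * (2 * ENNReal.ofReal (2 ^ n * (196608 * (256/2401) ^ k)))) := by
        simp_rw [mul_add]
        rw [ENNReal.tsum_add]
        congr 1
        · unfold AA
          rw [← ENNReal.tsum_mul_left]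
          refine tsum_congr fun j => ?_
          ring
        · simp_rw [← ENNReal.tsum_mul_left]
          rw [ENNReal.tsum_comm]
          refine tsum_congr fun k => ?_
          rw [← ENNReal.tsum_mul_right]
          refine tsum_congr fun j => ?_
          have : (8⁻¹ : ℝ≥0∞) ^ (j + k + 1) * 8 ^ (k + 1) = 8⁻¹ ^ j := by
            rw [add_assoc, pow_add, mul_assoc, ← mul_pow, ENNReal.inv_mul_cancel h8 h8', one_pow,
              mul_one]
          calc _ = (8⁻¹ : ℝ≥0∞) ^ j * (((DD I e D (j + k + 1)).card : ℝ≥0∞) *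
                (2 * ENNReal.ofReal (2 ^ n * (196608 * (256/2401) ^ k)))) := rfl
            _ = ((8⁻¹ : ℝ≥0∞) ^ (j + k + 1) * 8 ^ (k + 1)) * (((DD I e D (j + k + 1)).card : ℝ≥0∞) *
                (2 * ENNReal.ofReal (2 ^ n * (196608 * (256/2401) ^ k)))) := by rw [this]
            _ = _ := by ring
    _ ≤ 2 ^ n * AA I e D + ∑' k : ℕ, AA I e D *
        (8 ^ (k + 1) * (2 * ENNReal.ofReal (2 ^ n * (196608 * (256/2401) ^ k)))) := by
        gcongr with k
        unfold AA
        have hinj : Function.Injective (fun j : ℕ => j + k + 1) := fun a b h => by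
          simp only at h
          omega
        exact ENNReal.tsum_comp_le_tsum_of_injective hinj
          (fun k => (8⁻¹ : ℝ≥0∞) ^ k * ((DD I e D k).card : ℝ≥0∞))
    _ = 2 ^ n * (AA I e D * (1 + K2)) := by
        rw [mul_add, mul_one, mul_add]
        congr 1
        unfold K2
        rw [ENNReal.tsum_mul_left, mul_left_comm]
        congr 1
        rw [← ENNReal.tsum_mul_left]
        apply tsum_congr
        intro k
        rw [ENNReal.ofReal_mul (by positivity : (0:ℝ) ≤ 2 ^ n), ENNReal.ofReal_pow (by norm_num)]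
        have h2 : ENNReal.ofReal 2 = 2 := by norm_num
        rw [h2]
        ring

lemma tsum_shift (m : ℕ) (f : ℕ → ℝ≥0∞) :
    ∑' k, (if m ≤ k then f k else 0) = ∑' k, f (k + m) := by
  have h := (ENNReal.summable (f := fun k => (if m ≤ k + m then f (k + m) else 0))).sum_add_tsum_nat_add'
    (f := fun k => (if m ≤ k then f k else 0)) (k := m)
  rw [← h]
  have h1 : ∑ i ∈ Finset.range m, (if m ≤ i then f i else 0) = 0 := by
    apply Finset.sum_eq_zero
    intro i hi
    rw [Finset.mem_range] at hi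
    rw [if_neg (by omega)]
  rw [h1, zero_add]
  apply tsum_congr
  intro k
  rw [if_pos (by omega)]

lemma tsum_range_succ (c : ℕ → ℝ≥0∞) :
    ∑' k, (8⁻¹ : ℝ≥0∞) ^ k * ∑ k' ∈ Finset.range (k + 1), c k'
      = K1 * ∑' k, (8⁻¹ : ℝ≥0∞) ^ k * c k := by
  have h1 : ∀ k, (8⁻¹ : ℝ≥0∞) ^ k * ∑ k' ∈ Finset.range (k + 1), c k'
      = ∑' k', (if k' ≤ k then (8⁻¹ : ℝ≥0∞) ^ k * c k' else 0) := by
    intro k
    rw [tsum_eq_sum (s := Finset.range (k + 1)), Finset.mul_sum]
    · refine Finset.sum_congr rfl fun k' hk' => ?_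
      rw [Finset.mem_range] at hk'
      rw [if_pos (by omega)]
    · intro k' hk'
      rw [Finset.mem_range] at hk'
      rw [if_neg (by omega)]
  simp_rw [h1]
  rw [ENNReal.tsum_comm, ← ENNReal.tsum_mul_left]
  apply tsum_congr
  intro k'
  rw [tsum_shift k' (fun k => (8⁻¹ : ℝ≥0∞) ^ k * c k')]
  unfold K1
  rw [← ENNReal.tsum_mul_right]
  apply tsum_congr
  intro k
  rw [pow_add, mul_assoc]

lemma AA_le (hD : ∀ i ∈ I, ∑' j, (8⁻¹ : ℝ≥0∞) ^ j * ((D i j).card : ℝ≥0∞) ≤ 5)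
    (hI : I.card ≤ 256 ^ e) : AA I e D ≤ (5 * K1) * 2⁻¹ ^ e := by
  have hi : ∀ i, ∑' k, (8⁻¹ : ℝ≥0∞) ^ k * ((Dsh I e D i k).card : ℝ≥0∞)
      ≤ if i ∈ I then 8⁻¹ ^ (3 * e) * 5 else 0 := by
    intro i
    by_cases hiI : i ∈ I
    · rw [if_pos hiI]
      have h1 : ∀ k, (8⁻¹ : ℝ≥0∞) ^ k * ((Dsh I e D i k).card : ℝ≥0∞)
          = if 3 * e ≤ k then (8⁻¹ : ℝ≥0∞) ^ k * ((D i (k - 3 * e)).card : ℝ≥0∞) else 0 := by
        intro k
        unfold Dsh
        by_cases hk : 3 * e ≤ k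
        · rw [if_pos ⟨hiI, hk⟩, if_pos hk]
        · rw [if_neg (fun h => hk h.2), if_neg hk]
          simp
      simp_rw [h1]
      rw [tsum_shift (3 * e) (fun k => (8⁻¹ : ℝ≥0∞) ^ k * ((D i (k - 3 * e)).card : ℝ≥0∞))]
      simp only [Nat.add_sub_cancel]
      calc ∑' k, (8⁻¹ : ℝ≥0∞) ^ (k + 3 * e) * ((D i k).card : ℝ≥0∞)
          = 8⁻¹ ^ (3 * e) * ∑' k, (8⁻¹ : ℝ≥0∞) ^ k * ((D i k).card : ℝ≥0∞) := by
            rw [← ENNReal.tsum_mul_left]
            apply tsum_congr
            intro k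
            rw [pow_add]
            ring
        _ ≤ 8⁻¹ ^ (3 * e) * 5 := by
            gcongr
            exact hD i hiI
    · rw [if_neg hiI]
      have h1 : ∀ k, (8⁻¹ : ℝ≥0∞) ^ k * ((Dsh I e D i k).card : ℝ≥0∞) = 0 := by
        intro k
        unfold Dsh
        rw [if_neg (fun h => hiI h.1)]
        simp
      simp_rw [h1]
      simp
  have hcard : ∀ k, ((DD I e D k).card : ℝ≥0∞)
      ≤ ∑ i, ∑ k' ∈ Finset.range (k + 1), ((Dsh I e D i k').card : ℝ≥0∞) := by
    intro k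
    have h1 : (DD I e D k).card ≤ ∑ i, ∑ k' ∈ Finset.range (k + 1), (Dsh I e D i k').card := by
      unfold DD
      refine Finset.card_biUnion_le.trans ?_
      exact Finset.sum_le_sum fun i _ => Finset.card_biUnion_le
    exact_mod_cast h1
  have h8 : (256 : ℝ≥0∞) ^ e * 8⁻¹ ^ (3 * e) = 2⁻¹ ^ e := by
    rw [pow_mul, ← mul_pow]
    congr 1
    have h2 : (256 : ℝ≥0∞) = ENNReal.ofReal 256 := by norm_num
    have h3 : (8⁻¹ : ℝ≥0∞) = ENNReal.ofReal (1/8) := by
      rw [one_div, ENNReal.ofReal_inv_of_pos (by norm_num)]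
      norm_num
    have h4 : (2⁻¹ : ℝ≥0∞) = ENNReal.ofReal (1/2) := by
      rw [one_div, ENNReal.ofReal_inv_of_pos (by norm_num)]
      norm_num
    rw [h2, h3, h4, ← ENNReal.ofReal_pow (by norm_num), ← ENNReal.ofReal_mul (by norm_num)]
    congr 1
    norm_num
  calc AA I e D ≤ ∑' k, (8⁻¹ : ℝ≥0∞) ^ k *
        ∑ i, ∑ k' ∈ Finset.range (k + 1), ((Dsh I e D i k').card : ℝ≥0∞) := by
        unfold AA
        gcongr with k
        exact hcard k
    _ = ∑ i, K1 * ∑' k, (8⁻¹ : ℝ≥0∞) ^ k * ((Dsh I e D i k).card : ℝ≥0∞) := by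
        simp_rw [Finset.mul_sum]
        rw [Summable.tsum_finsetSum (fun i _ => ENNReal.summable)]
        refine Finset.sum_congr rfl fun i _ => ?_
        rw [← tsum_range_succ]
        simp_rw [Finset.mul_sum]
    _ ≤ ∑ i, K1 * (if i ∈ I then 8⁻¹ ^ (3 * e) * 5 else 0) := by
        gcongr with i
        exact hi i
    _ = (I.card : ℝ≥0∞) * (K1 * (8⁻¹ ^ (3 * e) * 5)) := by
        rw [← Finset.mul_sum, Finset.sum_ite_mem, Finset.univ_inter, Finset.sum_const, nsmul_eq_mul]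
        ring
    _ ≤ 256 ^ e * (K1 * (8⁻¹ ^ (3 * e) * 5)) := by
        gcongr
        exact_mod_cast hI
    _ = (5 * K1) * (256 ^ e * 8⁻¹ ^ (3 * e)) := by ring
    _ = (5 * K1) * 2⁻¹ ^ e := by rw [h8]

/-- small weight implies membership -/
lemma inS_of_Psi (hF : ∀ i ∈ I, (∀ a, |F i a| ≤ 1) ∧ ∀ j, Cut (D i j : Set ι) ((1/2)^j) (F i))
    (h0 : ∀ i ∉ I, F i = 0) (hb : ∀ i, F i ⊥ = 0) (ε : Fin n → Bool) (h : Psi F I e D ε < 1) :
    InS (((128 : ℝ) ^ e)⁻¹ • ssum ε F) := by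
  have hcut := cutDe F I e D hF h0 ε
  have hbot : ssum ε F ⊥ = 0 := by
    rw [ssum_apply]
    unfold ssum
    apply Finset.sum_eq_zero
    intro i _
    simp only [hb i]
    simp
  have hterm : ∀ j, (8⁻¹ : ℝ≥0∞) ^ j * cnt (De F I e D ε j) < 1 := fun j =>
    (ENNReal.le_tsum j).trans_lt h
  have hfin : ∀ j, (De F I e D ε j).Finite := by
    intro j
    have h1 : cnt (De F I e D ε j) ≠ ⊤ := by
      intro htop
      have := hterm j
      rw [htop, ENNReal.mul_top] at this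
      · simp at this
      · exact pow_ne_zero _ (by simp)
    have h2 := ENNReal.finite_const_le_of_tsum_ne_top h1 (ε := 1) one_ne_zero
    refine h2.subset ?_
    intro d hd
    simp only [mem_ofPred_eq]
    rw [if_pos hd]
  have hcnt : ∀ j, cnt (De F I e D ε j) = ((hfin j).toFinset.card : ℝ≥0∞) := by
    intro j
    unfold cnt
    have h1 := tsum_ite_mem (hfin j).toFinset (fun _ => (1 : ℝ≥0∞))
    simp only [Finite.mem_toFinset] at h1
    rw [h1]
    simp
  have hempty : De F I e D ε 0 = ∅ := by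
    by_contra hne
    obtain ⟨d, hd⟩ := nonempty_iff_ne_empty.2 hne
    have h1 : (1 : ℝ≥0∞) ≤ cnt (De F I e D ε 0) := by
      unfold cnt
      refine le_trans ?_ (ENNReal.le_tsum d)
      rw [if_pos hd]
    have h2 := hterm 0
    rw [pow_zero, one_mul] at h2
    exact absurd h2 (not_lt.2 h1)
  have hX : (0:ℝ) < 128 ^ e := by positivity
  refine ⟨?_, ?_, ⟨fun j => (hfin j).toFinset, ?_, ?_⟩⟩
  · rw [Pi.smul_apply, hbot, smul_zero]
  · intro a
    have h1 := hcut 0 a ⊥ (by rw [hempty]; intro d hd; exact absurd hd (Set.notMem_empty d))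
    rw [hbot, sub_zero] at h1
    unfold lam at h1
    rw [pow_zero, mul_one] at h1
    rw [Pi.smul_apply, smul_eq_mul, abs_mul, abs_of_pos (inv_pos.2 hX), inv_mul_le_iff₀ hX, mul_one]
    exact h1
  · intro j a b hab
    have h1 := hcut j a b (by
      intro d hd
      exact hab d (by simpa using hd))
    unfold lam at h1
    rw [Pi.smul_apply, Pi.smul_apply, smul_eq_mul, smul_eq_mul, ← mul_sub, abs_mul,
      abs_of_pos (inv_pos.2 hX), inv_mul_le_iff₀ hX]
    exact h1
  · calc ∑' j, (8⁻¹ : ℝ≥0∞) ^ j * (((hfin j).toFinset).card : ℝ≥0∞) = Psi F I e D ε := by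
          unfold Psi
          apply tsum_congr
          intro j
          rw [hcnt]
      _ ≤ 1 := h.le
      _ ≤ 5 := by norm_num

end Main

/-- The main probabilistic estimate. -/
theorem main_count : ∃ C : ℝ, 0 ≤ C ∧ ∀ (n : ℕ) (F : Fin n → ι → ℝ) (I : Finset (Fin n)) (e : ℕ),
    I.card ≤ 256 ^ e → (∀ i ∈ I, InS (F i)) → (∀ i ∉ I, F i = 0) →
    ((Finset.univ.filter (fun ε : Fin n → Bool => ¬ InS (((128 : ℝ) ^ e)⁻¹ • ssum ε F))).card : ℝ)
      ≤ 2 ^ n * (C * (1/2) ^ e) := by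
  refine ⟨((5 * K1) * (1 + K2)).toReal, ENNReal.toReal_nonneg, ?_⟩
  intro n F I e hI hF h0
  have hD : ∀ i, ∃ D : ℕ → Finset ι, i ∈ I → (∀ j, Cut (D j : Set ι) ((1/2)^j) (F i)) ∧
      ∑' j, (8⁻¹ : ℝ≥0∞) ^ j * ((D j).card : ℝ≥0∞) ≤ 5 := by
    intro i
    by_cases hi : i ∈ I
    · obtain ⟨D, hD⟩ := (hF i hi).cuts
      exact ⟨D, fun _ => hD⟩
    · exact ⟨fun _ => ∅, fun h => absurd h hi⟩
  choose D hD using hD
  have hF' : ∀ i ∈ I, (∀ a, |F i a| ≤ 1) ∧ ∀ j, Cut (D i j : Set ι) ((1/2)^j) (F i) :=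
    fun i hi => ⟨(hF i hi).bdd, (hD i hi).1⟩
  have hb : ∀ i, F i ⊥ = 0 := by
    intro i
    by_cases hi : i ∈ I
    · exact (hF i hi).bot
    · rw [h0 i hi]; rfl
  have h1 : ((Finset.univ.filter (fun ε : Fin n → Bool =>
      ¬ InS (((128 : ℝ) ^ e)⁻¹ • ssum ε F))).card : ℝ≥0∞) ≤ ∑ ε : Fin n → Bool, Psi F I e D ε := by
    calc ((Finset.univ.filter (fun ε : Fin n → Bool =>
      ¬ InS (((128 : ℝ) ^ e)⁻¹ • ssum ε F))).card : ℝ≥0∞)
        = ∑ ε : Fin n → Bool, (if ¬ InS (((128 : ℝ) ^ e)⁻¹ • ssum ε F) then 1 else 0) := by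
          rw [Finset.sum_boole]
      _ ≤ ∑ ε : Fin n → Bool, Psi F I e D ε := by
          refine Finset.sum_le_sum fun ε _ => ?_
          by_cases h : InS (((128 : ℝ) ^ e)⁻¹ • ssum ε F)
          · rw [if_neg (not_not.2 h)]
            exact zero_le
          · rw [if_pos h]
            by_contra hlt
            rw [not_le] at hlt
            exact h (inS_of_Psi F I e D hF' h0 hb ε hlt)
  have h2 := sum_Psi F I e D hF' h0 hI
  have h3 := AA_le I e D (fun i hi => (hD i hi).2) hI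
  have h4 : ((Finset.univ.filter (fun ε : Fin n → Bool =>
      ¬ InS (((128 : ℝ) ^ e)⁻¹ • ssum ε F))).card : ℝ≥0∞)
      ≤ 2 ^ n * (((5 * K1) * (1 + K2)) * 2⁻¹ ^ e) := by
    calc _ ≤ 2 ^ n * (AA I e D * (1 + K2)) := h1.trans h2
      _ ≤ 2 ^ n * (((5 * K1) * 2⁻¹ ^ e) * (1 + K2)) := by gcongr
      _ = _ := by ring
  have hfin : ((5 * K1) * (1 + K2)) ≠ ⊤ := by
    apply ENNReal.mul_ne_top
    · exact ENNReal.mul_ne_top (by norm_num) K1_ne
    · exact ENNReal.add_ne_top.2 ⟨by norm_num, K2_ne⟩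
  have h5 := ENNReal.toReal_mono (by
    apply ENNReal.mul_ne_top
    · simp
    · apply ENNReal.mul_ne_top hfin
      apply ENNReal.pow_ne_top
      simp) h4
  rw [ENNReal.toReal_natCast, ENNReal.toReal_mul, ENNReal.toReal_mul, ENNReal.toReal_pow,
    ENNReal.toReal_pow, ENNReal.toReal_inv] at h5
  simpa using h5

end Pool.Agent.H76R3.JT
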