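import Pool.Agent.H76R3.JTMain

set_option autoImplicit false

open Topology Filter Set
open scoped Classical

namespace Pool.Agent.H76R3.JT

open Pool.Agent.H76R3.TC

section Abstract
variable {E : Type} [NormedAddCommGroup E] [NormedSpace ℝ E]

lemma sum_mem_convexHull {T : Set E} (hneg : ∀ t ∈ T, -t ∈ T) (h0 : (0 : E) ∈ T) {ι : Type}
    (A : Finset ι) (c : ι → ℝ) (t : ι → E) (ht : ∀ i ∈ A, t i ∈ T) (hc : ∑ i ∈ A, |c i| ≤ 1) :
    ∑ i ∈ A, c i • t i ∈ convexHull ℝ T := by
  set C := convexHull ℝ T with hC
  have hconv : Convex ℝ C := convex_convexHull ℝ T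
  have h0C : (0 : E) ∈ C := subset_convexHull ℝ T h0
  set r := ∑ i ∈ A, |c i| with hr
  have hr0 : 0 ≤ r := Finset.sum_nonneg fun i _ => abs_nonneg _
  rcases hr0.eq_or_lt with h | hpos
  · have hz : ∀ i ∈ A, c i = 0 := by
      intro i hi
      have := (Finset.sum_eq_zero_iff_of_nonneg (fun i _ => abs_nonneg (c i))).1 (hr ▸ h.symm) i hi
      exact abs_eq_zero.1 this
    have : ∑ i ∈ A, c i • t i = 0 := by
      apply Finset.sum_eq_zero
      intro i hi
      rw [hz i hi, zero_smul]
    rw [this]
    exact h0C
  · have h1 : ∑ i ∈ A, (|c i| / r) • (if 0 ≤ c i then t i else - t i) ∈ C := by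
      apply hconv.sum_mem
      · intro i _
        positivity
      · rw [← Finset.sum_div]
        exact div_self hpos.ne'
      · intro i hi
        apply subset_convexHull
        split_ifs
        · exact ht i hi
        · exact hneg _ (ht i hi)
    have h2 : ∑ i ∈ A, c i • t i = r • (∑ i ∈ A, (|c i| / r) • (if 0 ≤ c i then t i else - t i))
        + (1 - r) • (0 : E) := by
      rw [smul_zero, add_zero, Finset.smul_sum]
      refine Finset.sum_congr rfl fun i _ => ?_
      rw [smul_smul, mul_div_cancel₀ _ hpos.ne']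
      split_ifs with h
      · rw [abs_of_nonneg h]
      · rw [abs_of_neg (not_le.1 h), smul_neg, neg_smul, neg_neg]
    rw [h2]
    exact hconv h1 h0C hpos.le (by linarith) (by ring)

lemma ssum_lin {n : ℕ} (ε : Fin n → Bool) (a b : ℝ) (x y : Fin n → E) :
    ssum ε (a • x + b • y) = a • ssum ε x + b • ssum ε y := by
  simp only [ssum, Finset.smul_sum, ← Finset.sum_add_distrib]
  refine Finset.sum_congr rfl fun i _ => ?_
  split_ifs
  · simp
  · simp only [Pi.add_apply, Pi.smul_apply, smul_neg]
    abel

/-- the quadratic average -/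
noncomputable def QQ {n : ℕ} (x : Fin n → E) : ℝ := avg (fun ε => ‖ssum ε x‖ ^ 2)

lemma QQ_cont {n : ℕ} : Continuous (QQ : (Fin n → E) → ℝ) := by
  unfold QQ avg ssum
  apply Continuous.div_const
  apply continuous_finset_sum
  intro ε _
  apply Continuous.pow
  apply Continuous.norm
  apply continuous_finset_sum
  intro i _
  by_cases h : ε i = true
  · simp only [h, if_true]
    exact continuous_apply i
  · simp only [h, if_false, Bool.false_eq_true]
    exact (continuous_apply i).neg

lemma QQ_convex {n : ℕ} (a b : ℝ) (ha : 0 ≤ a) (hb : 0 ≤ b) (hab : a + b = 1) (x y : Fin n → E) :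
    QQ (a • x + b • y) ≤ a * QQ x + b * QQ y := by
  unfold QQ
  rw [← avg_const_mul, ← avg_const_mul, ← avg_add]
  apply avg_mono
  intro ε
  rw [ssum_lin]
  have h1 : ‖a • ssum ε x + b • ssum ε y‖ ≤ a * ‖ssum ε x‖ + b * ‖ssum ε y‖ := by
    refine (norm_add_le _ _).trans ?_
    rw [norm_smul, norm_smul, Real.norm_of_nonneg ha, Real.norm_of_nonneg hb]
  have h2 : ‖a • ssum ε x + b • ssum ε y‖ ^ 2 ≤ (a * ‖ssum ε x‖ + b * ‖ssum ε y‖) ^ 2 := by
    gcongr
  refine h2.trans ?_
  have hb' : b = 1 - a := by linarith
  subst hb'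
  nlinarith [mul_nonneg ha hb, sq_nonneg (‖ssum ε x‖ - ‖ssum ε y‖),
    mul_nonneg (mul_nonneg ha hb) (sq_nonneg (‖ssum ε x‖ - ‖ssum ε y‖))]

lemma QQ_hull {n : ℕ} (T : Set E) (M : ℝ) (I : Finset (Fin n))
    (hT : ∀ t : Fin n → E, (∀ i ∈ I, t i ∈ T) → (∀ i ∉ I, t i = 0) → QQ t ≤ M) :
    ∀ x : Fin n → E, (∀ i ∈ I, x i ∈ closure (convexHull ℝ T)) → (∀ i ∉ I, x i = 0) → QQ x ≤ M := by
  have key : ∀ J : Finset (Fin n), J ⊆ I → ∀ x : Fin n → E,
      (∀ i ∈ J, x i ∈ closure (convexHull ℝ T)) → (∀ i ∈ I, i ∉ J → x i ∈ T) →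
      (∀ i ∉ I, x i = 0) → QQ x ≤ M := by
    intro J
    induction J using Finset.induction_on with
    | empty =>
      intro _ x _ h2 h3
      exact hT x (fun i hi => h2 i hi (Finset.notMem_empty i)) h3
    | insert i0 J hi0 ih =>
      intro hJ x h1 h2 h3
      have hi0I : i0 ∈ I := hJ (Finset.mem_insert_self _ _)
      have hJI : J ⊆ I := fun i hi => hJ (Finset.mem_insert_of_mem hi)
      set A : Set E := {y | QQ (Function.update x i0 y) ≤ M} with hA
      have hclosed : IsClosed A :=
        isClosed_le (QQ_cont.comp (continuous_const.update i0 continuous_id)) continuous_const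
      have hconv : Convex ℝ A := by
        intro y hy z hz a b ha hb hab
        have e : Function.update x i0 (a • y + b • z)
            = a • Function.update x i0 y + b • Function.update x i0 z := by
          funext i
          by_cases hi : i = i0
          · subst hi
            simp
          · simp only [Pi.add_apply, Pi.smul_apply, Function.update_of_ne hi]
            rw [← add_smul, hab, one_smul]
        change QQ (Function.update x i0 (a • y + b • z)) ≤ M
        rw [e]
        refine (QQ_convex a b ha hb hab _ _).trans ?_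
        have hy' : QQ (Function.update x i0 y) ≤ M := hy
        have hz' : QQ (Function.update x i0 z) ≤ M := hz
        calc a * QQ (Function.update x i0 y) + b * QQ (Function.update x i0 z) ≤ a * M + b * M := by
              gcongr
          _ = M := by rw [← add_mul, hab, one_mul]
      have hTA : T ⊆ A := by
        intro y hy
        apply ih hJI
        · intro i hi
          have hne : i ≠ i0 := fun h => hi0 (h ▸ hi)
          rw [Function.update_of_ne hne]
          exact h1 i (Finset.mem_insert_of_mem hi)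
        · intro i hi hiJ
          by_cases hne : i = i0
          · subst hne
            simpa using hy
          · rw [Function.update_of_ne hne]
            exact h2 i hi (by rw [Finset.mem_insert]; tauto)
        · intro i hi
          have hne : i ≠ i0 := fun h => hi (h ▸ hi0I)
          rw [Function.update_of_ne hne]
          exact h3 i hi
      have hBA : closure (convexHull ℝ T) ⊆ A :=
        closure_minimal (convexHull_min hTA hconv) hclosed
      have := hBA (h1 i0 (Finset.mem_insert_self _ _))
      simpa [hA] using this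
  intro x h1 h3
  exact key I subset_rfl x h1 (fun i hi hni => absurd hi hni) h3

end Abstract

section Space
variable (ι : Type) [LinearOrder ι] [OrderBot ι]

/-- index type of the generators -/
abbrev SS : Type := {F : ι → ℝ // InS F}

/-- the space `ℓ₁` over the generators -/
abbrev VV : Type := lp (fun _ : SS ι => ℝ) 1

variable {ι}

lemma summ (v : VV ι) : Summable (fun s => |v s|) := by
  have h2 := (lp.memℓp v).summable (p := 1) (by simp)
  simpa using h2

lemma norm_vv (v : VV ι) : ‖v‖ = ∑' s, |v s| := by
  have h1 := lp.norm_eq_tsum_rpow (p := 1) (by simp) v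
  simpa using h1

lemma summ_mul (a : ι) (v : VV ι) : Summable (fun s : SS ι => v s * s.1 a) := by
  apply Summable.of_norm_bounded (summ v)
  intro s
  rw [Real.norm_eq_abs, abs_mul]
  have := s.2.bdd a
  nlinarith [abs_nonneg (v s)]

/-- evaluation at `a` of the function represented by `v` -/
noncomputable def evl (a : ι) : VV ι →L[ℝ] ℝ :=
  LinearMap.mkContinuous
    { toFun := fun v => ∑' s : SS ι, v s * s.1 a
      map_add' := fun v w => by
        rw [← (summ_mul a v).tsum_add (summ_mul a w)]
        apply tsum_congr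
        intro s
        rw [lp.coeFn_add, Pi.add_apply, add_mul]
      map_smul' := fun c v => by
        rw [RingHom.id_apply, smul_eq_mul, ← tsum_mul_left]
        apply tsum_congr
        intro s
        rw [lp.coeFn_smul, Pi.smul_apply, smul_eq_mul, mul_assoc] } 1
    (fun v => by
      rw [one_mul, norm_vv]
      refine (norm_tsum_le_tsum_norm (summ_mul a v).norm).trans ?_
      apply (summ_mul a v).norm.tsum_le_tsum _ (summ v)
      intro s
      rw [Real.norm_eq_abs, abs_mul]
      have := s.2.bdd a
      nlinarith [abs_nonneg (v s)])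

lemma evl_apply (a : ι) (v : VV ι) : evl a v = ∑' s : SS ι, v s * s.1 a := rfl

/-- generators of `ℓ₁` -/
noncomputable def gen (s : SS ι) : VV ι := lp.single 1 s (1 : ℝ)

lemma evl_gen (a : ι) (s : SS ι) : evl a (gen s) = s.1 a := by
  rw [evl_apply, tsum_eq_single s]
  · simp [gen]
  · intro s' hs'
    rw [gen, lp.single_apply, Pi.single_eq_of_ne hs', zero_mul]

variable (ι)

/-- the kernel -/
noncomputable def KK : Submodule ℝ (VV ι) := ⨅ a, LinearMap.ker (evl (ι := ι) a).toLinearMap

lemma mem_KK {v : VV ι} : v ∈ KK ι ↔ ∀ a, evl a v = 0 := by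
  unfold KK
  simp [Submodule.mem_iInf]

instance KK_closed : IsClosed (KK ι : Set (VV ι)) := by
  have : (KK ι : Set (VV ι)) = ⋂ a, {v | evl a v = 0} := by
    ext v
    simp only [SetLike.mem_coe, mem_KK, mem_iInter, mem_ofPred_eq]
  rw [this]
  exact isClosed_iInter fun a => isClosed_eq (evl a).continuous continuous_const

/-- the big space -/
abbrev XX : Type := VV ι ⧸ KK ι

variable {ι}

/-- generators of the big space -/
noncomputable def ge (s : SS ι) : XX ι := Submodule.Quotient.mk (gen s)

lemma norm_ge (s : SS ι) : ‖ge s‖ ≤ 1 := by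
  refine (Submodule.Quotient.norm_mk_le _ _).trans ?_
  rw [gen, lp.norm_single (by norm_num)]
  simp

lemma ge_rel {n : ℕ} (c : Fin n → ℝ) (s : Fin n → SS ι) (c' : ℝ) (s' : SS ι)
    (h : ∑ i, c i • (s i).1 = c' • s'.1) : ∑ i, c i • ge (s i) = c' • ge s' := by
  have h1 : ∑ i, c i • ge (s i) = Submodule.Quotient.mk (p := KK ι) (∑ i, c i • gen (s i)) := by
    rw [← Submodule.mkQ_apply, map_sum]
    refine Finset.sum_congr rfl fun i _ => ?_
    rw [map_smul]
    rfl
  have h2 : c' • ge s' = Submodule.Quotient.mk (p := KK ι) (c' • gen s') := rfl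
  rw [h1, h2, Submodule.Quotient.eq, mem_KK]
  intro a
  rw [map_sub, map_sum, map_smul, evl_gen]
  simp only [map_smul, evl_gen, smul_eq_mul]
  have := congrFun h a
  simp only [Finset.sum_apply, Pi.smul_apply, smul_eq_mul] at this
  rw [this, sub_self]

/-- evaluation functionals on the big space: an upper bound for representable vectors -/
lemma ge_eval {n : ℕ} (c : Fin n → ℝ) (s : Fin n → SS ι) (a : ι) :
    |∑ i, c i * (s i).1 a| ≤ ‖∑ i, c i • ge (s i)‖ := by
  apply le_of_forall_pos_le_add
  intro δ hδ
  obtain ⟨v, hv, hn⟩ := Submodule.Quotient.norm_mk_lt (∑ i, c i • ge (s i)) hδ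
  have h1 : ∑ i, c i • ge (s i) = Submodule.Quotient.mk (p := KK ι) (∑ i, c i • gen (s i)) := by
    rw [← Submodule.mkQ_apply, map_sum]
    refine Finset.sum_congr rfl fun i _ => ?_
    rw [map_smul]
    rfl
  rw [h1, Submodule.Quotient.eq, mem_KK] at hv
  have h2 := hv a
  rw [map_sub, map_sum] at h2
  simp only [map_smul, evl_gen, smul_eq_mul] at h2
  have h3 : ∑ i, c i * (s i).1 a = evl a v := by linarith
  rw [h3]
  have h4 : ‖evl a v‖ ≤ 1 * ‖v‖ := ContinuousLinearMap.le_of_opNorm_le _
    (LinearMap.mkContinuous_norm_le _ zero_le_one _) v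
  rw [Real.norm_eq_abs] at h4
  linarith

end Space

end Pool.Agent.H76R3.JT
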