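import Pool.Agent.H76R3.JTSpace

set_option autoImplicit false

open Topology Filter Set
open scoped Classical

namespace Pool.Agent.H76R3.JT

open Pool.Agent.H76R3.TC

section
variable {ι : Type} [LinearOrder ι] [OrderBot ι]

lemma inS_zero : InS (0 : ι → ℝ) where
  bot := rfl
  bdd := fun a => by simp
  cuts := ⟨fun _ => ∅, fun j a b _ => by simp, by simp⟩

lemma InS.neg {F : ι → ℝ} (h : InS F) : InS (-F) where
  bot := by rw [Pi.neg_apply, h.bot, neg_zero]
  bdd := fun a => by rw [Pi.neg_apply, abs_neg]; exact h.bdd a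
  cuts := by
    obtain ⟨D, h1, h2⟩ := h.cuts
    refine ⟨D, fun j a b hab => ?_, h2⟩
    have := h1 j a b hab
    rw [Pi.neg_apply, Pi.neg_apply, neg_sub_neg, abs_sub_comm]
    exact this

lemma ge_zero (s : SS ι) (h : s.1 = 0) : ge s = 0 := by
  unfold ge
  rw [Submodule.Quotient.mk_eq_zero, mem_KK]
  intro a
  rw [evl_gen, h]
  rfl

lemma ge_neg (s : SS ι) : ge (⟨-s.1, s.2.neg⟩ : SS ι) = - ge s := by
  have h := ge_rel (n := 1) (fun _ => (1:ℝ)) (fun _ => (⟨-s.1, s.2.neg⟩ : SS ι)) (-1) s (by simp)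
  simpa using h

/-- the generators, as a set -/
noncomputable def TT : Set (XX ι) := Set.range (ge (ι := ι))

lemma TT_neg : ∀ t ∈ (TT : Set (XX ι)), -t ∈ (TT : Set (XX ι)) := by
  rintro _ ⟨s, rfl⟩
  exact ⟨⟨-s.1, s.2.neg⟩, ge_neg s⟩

lemma TT_zero : (0 : XX ι) ∈ (TT : Set (XX ι)) :=
  ⟨⟨0, inS_zero⟩, ge_zero _ rfl⟩

lemma ball_subset (x : XX ι) (hx : ‖x‖ < 1) : x ∈ closure (convexHull ℝ (TT : Set (XX ι))) := by
  obtain ⟨v, rfl, hv⟩ := Submodule.Quotient.norm_mk_lt x (show 0 < 1 - ‖x‖ by linarith)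
  have hv1 : ‖v‖ < 1 := by linarith
  have hs := lp.hasSum_single (p := 1) (by norm_num) v
  have hs2 : HasSum (fun s : SS ι => v s • ge s) (Submodule.Quotient.mk (p := KK ι) v) := by
    have h1 := hs.mapL ((KK ι).mkQL)
    have h2 : ∀ s : SS ι, (KK ι).mkQL (lp.single 1 s (v s)) = v s • ge s := by
      intro s
      have h3 : lp.single 1 s (v s) = v s • gen s := by
        rw [gen, ← lp.single_smul]
        simp
      rw [h3, map_smul]
      rfl
    simp only [h2] at h1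
    exact h1
  apply mem_closure_of_tendsto hs2
  apply Filter.Eventually.of_forall
  intro A
  apply sum_mem_convexHull TT_neg TT_zero A (fun s => v s) (fun s => ge s) (fun s _ => ⟨s, rfl⟩)
  have h4 := (summ v).sum_le_tsum A (fun s _ => abs_nonneg _)
  rw [← norm_vv] at h4
  linarith

lemma ssum_eq_smul {E : Type*} [AddCommGroup E] [Module ℝ E] {n : ℕ} (ε : Fin n → Bool)
    (x : Fin n → E) : ssum ε x = ∑ i, (if ε i then (1:ℝ) else -1) • x i := by
  unfold ssum
  refine Finset.sum_congr rfl fun i _ => ?_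
  split_ifs
  · rw [one_smul]
  · rw [neg_smul, one_smul]

lemma QQ_ge {C : ℝ} (hC : 0 ≤ C) (hmain : ∀ (n : ℕ) (F : Fin n → ι → ℝ) (I : Finset (Fin n)) (e : ℕ),
    I.card ≤ 256 ^ e → (∀ i ∈ I, InS (F i)) → (∀ i ∉ I, F i = 0) →
    ((Finset.univ.filter (fun ε : Fin n → Bool => ¬ InS (((128 : ℝ) ^ e)⁻¹ • ssum ε F))).card : ℝ)
      ≤ 2 ^ n * (C * (1/2) ^ e)) (n : ℕ) (s : Fin n → SS ι) (I : Finset (Fin n)) (e : ℕ)
    (hI : I.card ≤ 256 ^ e) (h0 : ∀ i ∉ I, (s i).1 = 0) :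
    QQ (fun i => ge (s i)) ≤ (1 + C) * 32768 ^ e := by
  set F : Fin n → ι → ℝ := fun i => (s i).1 with hF
  set B := Finset.univ.filter (fun ε : Fin n → Bool => ¬ InS (((128 : ℝ) ^ e)⁻¹ • ssum ε F)) with hB
  have hcount := hmain n F I e hI (fun i _ => (s i).2) h0
  rw [← hB] at hcount
  have hgood : ∀ ε ∉ B, ‖ssum ε (fun i => ge (s i))‖ ≤ 128 ^ e := by
    intro ε hε
    have hin : InS (((128 : ℝ) ^ e)⁻¹ • ssum ε F) := by
      by_contra h
      exact hε (Finset.mem_filter.2 ⟨Finset.mem_univ _, h⟩)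
    have h1 := ge_rel (fun i => if ε i then (1:ℝ) else -1) s (128 ^ e)
      ⟨((128 : ℝ) ^ e)⁻¹ • ssum ε F, hin⟩ (by
        change _ = (128:ℝ) ^ e • (((128 : ℝ) ^ e)⁻¹ • ssum ε F)
        rw [smul_smul, mul_inv_cancel₀ (by positivity), one_smul, ssum_eq_smul])
    rw [ssum_eq_smul, h1, norm_smul, Real.norm_of_nonneg (by positivity)]
    have := norm_ge (⟨((128 : ℝ) ^ e)⁻¹ • ssum ε F, hin⟩ : SS ι)
    have h3 : (0:ℝ) < 128 ^ e := by positivity
    nlinarith
  have hall : ∀ ε : Fin n → Bool, ‖ssum ε (fun i => ge (s i))‖ ≤ 256 ^ e := by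
    intro ε
    unfold ssum
    calc ‖∑ i, if ε i = true then ge (s i) else -ge (s i)‖
        ≤ ∑ i, ‖if ε i = true then ge (s i) else -ge (s i)‖ := norm_sum_le _ _
      _ ≤ ∑ i, (if i ∈ I then (1:ℝ) else 0) := by
          refine Finset.sum_le_sum fun i _ => ?_
          by_cases hi : i ∈ I
          · rw [if_pos hi]
            split_ifs
            · exact norm_ge _
            · rw [norm_neg]; exact norm_ge _
          · rw [if_neg hi, ge_zero _ (h0 i hi)]
            simp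
      _ = (I.card : ℝ) := by simp
      _ ≤ 256 ^ e := by exact_mod_cast hI
  unfold QQ avg
  rw [div_le_iff₀ (by positivity)]
  calc ∑ ε : Fin n → Bool, ‖ssum ε (fun i => ge (s i))‖ ^ 2
      ≤ ∑ ε : Fin n → Bool, ((128 ^ e) ^ 2 + (if ε ∈ B then ((256:ℝ) ^ e) ^ 2 else 0)) := by
        refine Finset.sum_le_sum fun ε _ => ?_
        by_cases hε : ε ∈ B
        · rw [if_pos hε]
          have h1 : ‖ssum ε (fun i => ge (s i))‖ ^ 2 ≤ (256 ^ e) ^ 2 := by
            gcongr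
            exact hall ε
          have h2 : (0:ℝ) ≤ (128 ^ e) ^ 2 := by positivity
          linarith
        · rw [if_neg hε, add_zero]
          gcongr
          exact hgood ε hε
    _ = 2 ^ n * (128 ^ e) ^ 2 + (B.card : ℝ) * (256 ^ e) ^ 2 := by
        rw [Finset.sum_add_distrib]
        congr 1
        · simp
        · rw [Finset.sum_ite_mem, Finset.univ_inter, Finset.sum_const, nsmul_eq_mul]
    _ ≤ 2 ^ n * (128 ^ e) ^ 2 + (2 ^ n * (C * (1/2) ^ e)) * (256 ^ e) ^ 2 := by gcongr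
    _ = 2 ^ n * ((128 ^ e) ^ 2 + C * ((1/2) ^ e * (256 ^ e) ^ 2)) := by ring
    _ ≤ 2 ^ n * (32768 ^ e + C * 32768 ^ e) := by
        have h1 : ((128:ℝ) ^ e) ^ 2 ≤ 32768 ^ e := by
          rw [← pow_mul, mul_comm e 2, pow_mul]
          gcongr
          norm_num
        have h2 : ((1:ℝ)/2) ^ e * (256 ^ e) ^ 2 = 32768 ^ e := by
          rw [← pow_mul, mul_comm e 2, pow_mul, ← mul_pow]
          norm_num
        rw [h2]
        gcongr
    _ = (1 + C) * 32768 ^ e * 2 ^ n := by ring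

/-- The equal-norm type estimate in the big space. -/
theorem eqType : ∃ C : ℝ, 0 ≤ C ∧ ∀ (n : ℕ) (x : Fin n → XX ι) (I : Finset (Fin n)) (e : ℕ),
    I.card ≤ 256 ^ e → (∀ i ∈ I, ‖x i‖ < 1) → (∀ i ∉ I, x i = 0) → QQ x ≤ C * 32768 ^ e := by
  obtain ⟨C, hC, hmain⟩ := main_count (ι := ι)
  refine ⟨1 + C, by positivity, ?_⟩
  intro n x I e hI h1 h0
  apply QQ_hull TT _ I _ x (fun i hi => ball_subset _ (h1 i hi)) h0
  intro t ht ht0
  have hex : ∀ i, ∃ s : SS ι, ge s = t i ∧ (i ∉ I → s.1 = 0) := by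
    intro i
    by_cases hi : i ∈ I
    · obtain ⟨s, hs⟩ := ht i hi
      exact ⟨s, hs, fun h => absurd hi h⟩
    · exact ⟨⟨0, inS_zero⟩, by rw [ge_zero _ rfl, ht0 i hi], fun _ => rfl⟩
  choose s hs hs0 using hex
  have : t = fun i => ge (s i) := by
    funext i
    exact (hs i).symm
  rw [this]
  exact QQ_ge hC hmain n s I e hI hs0

end

section TypeFromEq
variable {E : Type} [NormedAddCommGroup E] [NormedSpace ℝ E]

lemma sqrt_QQ_add {n : ℕ} (x y : Fin n → E) :
    Real.sqrt (QQ (x + y)) ≤ Real.sqrt (QQ x) + Real.sqrt (QQ y) := by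
  have hQ0 : ∀ z : Fin n → E, 0 ≤ QQ z := fun z => avg_nonneg fun ε => by positivity
  have hcs : avg (fun ε => ‖ssum ε x‖ * ‖ssum ε y‖) ≤ Real.sqrt (QQ x) * Real.sqrt (QQ y) := by
    unfold QQ avg
    have h1 := Real.sum_mul_le_sqrt_mul_sqrt Finset.univ (fun ε : Fin n → Bool => ‖ssum ε x‖)
      (fun ε => ‖ssum ε y‖)
    have h2 : (0:ℝ) < 2 ^ n := by positivity
    rw [Real.sqrt_div' _ h2.le, Real.sqrt_div' _ h2.le, div_mul_div_comm, Real.mul_self_sqrt h2.le]
    gcongr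
  have h3 : QQ (x + y) ≤ (Real.sqrt (QQ x) + Real.sqrt (QQ y)) ^ 2 := by
    have h4 : QQ (x + y) ≤ QQ x + (2 * avg (fun ε => ‖ssum ε x‖ * ‖ssum ε y‖) + QQ y) := by
      unfold QQ
      rw [← avg_const_mul, ← avg_add, ← avg_add]
      apply avg_mono
      intro ε
      have h5 := ssum_lin ε 1 1 x y
      rw [one_smul, one_smul, one_smul, one_smul] at h5
      rw [h5]
      have h6 := norm_add_le (ssum ε x) (ssum ε y)
      have h7 : ‖ssum ε x + ssum ε y‖ ^ 2 ≤ (‖ssum ε x‖ + ‖ssum ε y‖) ^ 2 := by gcongr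
      linarith
    have e1 := Real.sq_sqrt (hQ0 x)
    have e2 := Real.sq_sqrt (hQ0 y)
    nlinarith
  calc Real.sqrt (QQ (x + y)) ≤ Real.sqrt ((Real.sqrt (QQ x) + Real.sqrt (QQ y)) ^ 2) :=
        Real.sqrt_le_sqrt h3
    _ = _ := Real.sqrt_sq (by positivity)

lemma sqrt_QQ_sum {n : ℕ} {κ : Type} (A : Finset κ) (x : κ → Fin n → E) :
    Real.sqrt (QQ (∑ l ∈ A, x l)) ≤ ∑ l ∈ A, Real.sqrt (QQ (x l)) := by
  induction A using Finset.induction_on with
  | empty =>
    have : QQ (0 : Fin n → E) = 0 := by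
      unfold QQ ssum
      simp [avg]
    simp [this]
  | insert a A ha ih =>
    rw [Finset.sum_insert ha, Finset.sum_insert ha]
    exact (sqrt_QQ_add _ _).trans (by gcongr)

lemma QQ_smul {n : ℕ} (c : ℝ) (x : Fin n → E) : QQ (c • x) = c ^ 2 * QQ x := by
  unfold QQ
  rw [← avg_const_mul]
  congr 1
  funext ε
  have h5 := ssum_lin ε c 0 x 0
  rw [smul_zero, add_zero, zero_smul, add_zero] at h5
  rw [h5, norm_smul, mul_pow, Real.norm_eq_abs, sq_abs]

/-- from the equal-norm estimate to type `32/31` -/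
theorem hasType_of_eq (h : ∃ C : ℝ, 0 ≤ C ∧ ∀ (n : ℕ) (x : Fin n → E) (I : Finset (Fin n)) (e : ℕ),
    I.card ≤ 256 ^ e → (∀ i ∈ I, ‖x i‖ < 1) → (∀ i ∉ I, x i = 0) → QQ x ≤ C * 32768 ^ e) :
    HasType E (32/31) := by
  obtain ⟨C, hC, h⟩ := h
  refine ⟨2 * (Real.sqrt C * 2 ^ 32), ?_⟩
  intro n x
  -- normalised case
  suffices H : ∀ x : Fin n → E, (∑ i, ‖x i‖ ^ (32/31 : ℝ)) ≤ 1 →
      Real.sqrt (QQ x) ≤ 2 * (Real.sqrt C * 2 ^ 32) by
    set S := ∑ i, ‖x i‖ ^ (32/31 : ℝ) with hS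
    have hS0 : 0 ≤ S := Finset.sum_nonneg fun i _ => Real.rpow_nonneg (norm_nonneg _) _
    set N := S ^ (1 / (32/31 : ℝ)) with hN
    rcases hS0.eq_or_lt with h0 | hpos
    · have hx : x = 0 := by
        funext i
        have h1 := (Finset.sum_eq_zero_iff_of_nonneg
          (fun i _ => Real.rpow_nonneg (norm_nonneg (x i)) (32/31 : ℝ))).1 (hS ▸ h0.symm) i
          (Finset.mem_univ i)
        have h2 := (Real.rpow_eq_zero (norm_nonneg _) (by norm_num)).1 h1
        exact norm_eq_zero.1 h2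
      have : QQ x = 0 := by
        rw [hx]
        unfold QQ ssum
        simp [avg]
      change Real.sqrt (QQ x) ≤ _
      rw [this, Real.sqrt_zero]
      positivity
    · have hNpos : 0 < N := Real.rpow_pos_of_pos hpos _
      have h1 := H (N⁻¹ • x) (by
        have e1 : ∀ i, ‖(N⁻¹ • x) i‖ ^ (32/31 : ℝ) = S⁻¹ * ‖x i‖ ^ (32/31 : ℝ) := by
          intro i
          rw [Pi.smul_apply, norm_smul, Real.norm_of_nonneg (by positivity),
            Real.mul_rpow (by positivity) (norm_nonneg _), Real.inv_rpow hNpos.le, hN,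
            ← Real.rpow_mul hS0]
          norm_num
        simp only [e1]
        rw [← Finset.mul_sum, ← hS, inv_mul_cancel₀ hpos.ne'])
      rw [QQ_smul, Real.sqrt_mul (by positivity), Real.sqrt_sq (by positivity),
        inv_mul_le_iff₀ hNpos] at h1
      change Real.sqrt (QQ x) ≤ _
      linarith
  clear x
  intro x hx
  have hle1 : ∀ i, ‖x i‖ ≤ 1 := by
    intro i
    have h1 : ‖x i‖ ^ (32/31 : ℝ) ≤ 1 := (Finset.single_le_sum
      (f := fun i => ‖x i‖ ^ (32/31 : ℝ)) (fun i _ => Real.rpow_nonneg (norm_nonneg _) _)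
      (Finset.mem_univ i)).trans hx
    by_contra hcon
    rw [not_le] at hcon
    exact absurd h1 (not_le.2 (Real.one_lt_rpow hcon (by norm_num)))
  -- the blocks
  set b : ℝ := 2 ^ 31 with hb
  have hb1 : 1 < b := by rw [hb]; norm_num
  have hb0 : 0 < b := by linarith
  have hlev : ∀ i, ∃ l : ℕ, x i ≠ 0 → (b⁻¹ ^ (l + 1) < ‖x i‖ ∧ ‖x i‖ ≤ b⁻¹ ^ l) := by
    intro i
    by_cases hxi : x i = 0
    · exact ⟨0, fun h => absurd hxi h⟩
    · obtain ⟨l, h1, h2⟩ := exists_nat_pow_near_of_lt_one (norm_pos_iff.2 hxi) (hle1 i)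
        (inv_pos.2 hb0) (inv_lt_one_of_one_lt₀ hb1)
      exact ⟨l, fun _ => ⟨h1, h2⟩⟩
  choose lev hlev using hlev
  set K := (Finset.univ.sup lev) + 1 with hK
  let blk : ℕ → Fin n → E := fun l i => if lev i = l then x i else 0
  have hsum : x = ∑ l ∈ Finset.range K, blk l := by
    funext i
    rw [Finset.sum_apply]
    simp only [blk]
    rw [Finset.sum_ite_eq]
    rw [if_pos]
    rw [Finset.mem_range, hK]
    exact Nat.lt_succ_of_le (Finset.le_sup (f := lev) (Finset.mem_univ i))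
  have hblk : ∀ l, Real.sqrt (QQ (blk l)) ≤ (Real.sqrt C * 2 ^ 31 * 2) * (1/2) ^ l := by
    intro l
    set I := Finset.univ.filter (fun i => lev i = l ∧ x i ≠ 0) with hI
    have hcard : (I.card : ℝ) ≤ 256 ^ (4 * (l + 1)) := by
      have h1 : (I.card : ℝ) * (b⁻¹ ^ (l + 1)) ^ (32/31 : ℝ) ≤ 1 := by
        calc (I.card : ℝ) * (b⁻¹ ^ (l + 1)) ^ (32/31 : ℝ)
            = ∑ _i ∈ I, (b⁻¹ ^ (l + 1)) ^ (32/31 : ℝ) := by
              rw [Finset.sum_const, nsmul_eq_mul]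
          _ ≤ ∑ i ∈ I, ‖x i‖ ^ (32/31 : ℝ) := by
              refine Finset.sum_le_sum fun i hi => ?_
              rw [hI, Finset.mem_filter] at hi
              have h2 := (hlev i hi.2.2).1
              rw [hi.2.1] at h2
              exact Real.rpow_le_rpow (by positivity) h2.le (by norm_num)
          _ ≤ ∑ i, ‖x i‖ ^ (32/31 : ℝ) :=
              Finset.sum_le_sum_of_subset_of_nonneg (Finset.subset_univ _)
                (fun i _ _ => Real.rpow_nonneg (norm_nonneg _) _)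
          _ ≤ 1 := hx
      have h2 : (b⁻¹ ^ (l + 1)) ^ (32/31 : ℝ) = ((256:ℝ) ^ (4 * (l + 1)))⁻¹ := by
        have h3 : (b⁻¹ ^ (l + 1) : ℝ) = (2⁻¹ : ℝ) ^ (31 * (l + 1)) := by
          rw [hb, pow_mul, inv_pow (2:ℝ) 31]
        rw [h3, ← Real.rpow_natCast (2⁻¹ : ℝ) (31 * (l + 1)), ← Real.rpow_mul (by norm_num)]
        have h4 : (((31 * (l + 1) : ℕ) : ℝ) * (32/31)) = ((32 * (l + 1) : ℕ) : ℝ) := by
          push_cast
          ring
        rw [h4, Real.rpow_natCast, inv_pow]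
        congr 1
        rw [pow_mul, pow_mul]
        norm_num
      rw [h2, mul_inv_le_iff₀ (by positivity), one_mul] at h1
      exact h1
    have hbl : 0 < b⁻¹ ^ l := by positivity
    have h3 := h n ((2 * b⁻¹ ^ l)⁻¹ • blk l) I (4 * (l + 1)) (by exact_mod_cast hcard) (by
        intro i hi
        rw [hI, Finset.mem_filter] at hi
        have h4 := (hlev i hi.2.2).2
        rw [hi.2.1] at h4
        rw [Pi.smul_apply, norm_smul, Real.norm_of_nonneg (by positivity)]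
        simp only [blk]
        rw [if_pos hi.2.1, inv_mul_lt_iff₀ (by positivity)]
        linarith) (by
        intro i hi
        rw [hI, Finset.mem_filter] at hi
        rw [Pi.smul_apply]
        simp only [blk]
        by_cases hl : lev i = l
        · rw [if_pos hl]
          have : x i = 0 := by
            by_contra hne
            exact hi ⟨Finset.mem_univ _, hl, hne⟩
          rw [this, smul_zero]
        · rw [if_neg hl, smul_zero])
    rw [QQ_smul] at h3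
    have h4 : QQ (blk l) ≤ (2 * b⁻¹ ^ l) ^ 2 * (C * 32768 ^ (4 * (l + 1))) := by
      have h5 : (0:ℝ) < (2 * b⁻¹ ^ l) ^ 2 := by positivity
      calc QQ (blk l) = (2 * b⁻¹ ^ l) ^ 2 * (((2 * b⁻¹ ^ l)⁻¹) ^ 2 * QQ (blk l)) := by
            rw [← mul_assoc, ← mul_pow, mul_inv_cancel₀ (by positivity), one_pow, one_mul]
        _ ≤ _ := by gcongr
    have h6 : (2 * b⁻¹ ^ l) ^ 2 * (C * 32768 ^ (4 * (l + 1)))
        = (Real.sqrt C * 2 ^ 31 * (1/2) ^ l) ^ 2 := by
      rw [mul_pow (Real.sqrt C * 2 ^ 31), mul_pow (Real.sqrt C), Real.sq_sqrt hC]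
      have h7 : (32768:ℝ) ^ (4 * (l + 1)) = (2 ^ 30) ^ 2 * ((2 ^ 30) ^ l) ^ 2 := by
        rw [← pow_mul, ← pow_mul, ← pow_mul, ← pow_add,
          show (32768:ℝ) = 2 ^ 15 by norm_num, ← pow_mul]
        congr 1
        ring
      have h8 : (b⁻¹ ^ l : ℝ) = ((2 ^ 30) ^ l)⁻¹ * (1/2) ^ l := by
        rw [hb, inv_pow, one_div, inv_pow, ← mul_inv, ← mul_pow]
        norm_num
      rw [h7, h8]
      have h9 : (0:ℝ) < (2 ^ 30) ^ l := by positivity
      field_simp
    rw [h6] at h4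
    calc Real.sqrt (QQ (blk l)) ≤ Real.sqrt ((Real.sqrt C * 2 ^ 31 * (1/2) ^ l) ^ 2) :=
          Real.sqrt_le_sqrt h4
      _ = Real.sqrt C * 2 ^ 31 * (1/2) ^ l := Real.sqrt_sq (by positivity)
      _ ≤ _ := by
        have : 0 ≤ Real.sqrt C * 2 ^ 31 * (1/2) ^ l := by positivity
        linarith
  calc Real.sqrt (QQ x) = Real.sqrt (QQ (∑ l ∈ Finset.range K, blk l)) := by rw [← hsum]
    _ ≤ ∑ l ∈ Finset.range K, Real.sqrt (QQ (blk l)) := sqrt_QQ_sum _ _
    _ ≤ ∑ l ∈ Finset.range K, (Real.sqrt C * 2 ^ 31 * 2) * (1/2) ^ l :=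
        Finset.sum_le_sum fun l _ => hblk l
    _ ≤ (Real.sqrt C * 2 ^ 31 * 2) * 2 := by
        rw [← Finset.mul_sum]
        gcongr
        have h1 : ∑ l ∈ Finset.range K, ((1:ℝ)/2) ^ l ≤ ∑' l : ℕ, ((1:ℝ)/2) ^ l :=
          (summable_geometric_two).sum_le_tsum _ (fun l _ => by positivity)
        rw [tsum_geometric_two] at h1
        exact h1
    _ = 2 * (Real.sqrt C * 2 ^ 32) := by ring

end TypeFromEq

end Pool.Agent.H76R3.JT
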