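import Mathlib

set_option autoImplicit false

open Topology Filter Set Ordinal

namespace Pool.Agent.H76R3.OrdWalk

/-- natural powers of omega -/
noncomputable abbrev W (n : ℕ) : Ordinal.{0} := (Ordinal.omega0 : Ordinal.{0}) ^ n

lemma W_pos (n : ℕ) : 0 < W n := by
  have : (Ordinal.omega0 : Ordinal.{0}) ≠ 0 := Ordinal.omega0_ne_zero
  exact pos_iff_ne_zero.2 (pow_ne_zero n this)

lemma W_succ (n : ℕ) : W (n + 1) = W n * Ordinal.omega0 := pow_succ _ _

lemma W_le (n : ℕ) : W n ≤ (Ordinal.omega0 : Ordinal.{0}) ^ (Ordinal.omega0 : Ordinal.{0}) := by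
  have h : W n = (Ordinal.omega0 : Ordinal.{0}) ^ (n : Ordinal.{0}) := by
    rw [Ordinal.opow_natCast]
  rw [h]
  exact Ordinal.opow_le_opow_right Ordinal.omega0_pos (Ordinal.natCast_lt_omega0 n).le

lemma lt_W_succ_iff (n : ℕ) (t : Ordinal.{0}) : t < W (n + 1) ↔ ∃ i : ℕ, t < W n * i := by
  rw [W_succ, Ordinal.lt_mul_iff_of_isSuccLimit Ordinal.isSuccLimit_omega0]
  constructor
  · rintro ⟨c, hc, h⟩
    obtain ⟨i, rfl⟩ := Ordinal.lt_omega0.1 hc
    exact ⟨i, h⟩
  · rintro ⟨i, h⟩
    exact ⟨i, Ordinal.natCast_lt_omega0 i, h⟩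

/-- the index of the block of length `W n` containing `t` -/
noncomputable def blk (n : ℕ) (t : Ordinal.{0}) : ℕ := sInf {i : ℕ | t ≤ W n * ((i + 1 : ℕ) : Ordinal.{0})}

lemma mul_cast_succ (n i : ℕ) :
    W n * ((i + 1 : ℕ) : Ordinal.{0}) = W n * (i : Ordinal.{0}) + W n := by
  rw [Nat.cast_succ, mul_add, mul_one]

lemma blk_eq {n i : ℕ} {t : Ordinal.{0}} (h1 : W n * (i : Ordinal.{0}) < t)
    (h2 : t ≤ W n * ((i + 1 : ℕ) : Ordinal.{0})) : blk n t = i := by
  apply le_antisymm
  · exact Nat.sInf_le h2
  · apply le_csInf ⟨i, h2⟩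
    intro j hj
    by_contra hlt
    rw [not_le] at hlt
    have h3 : W n * ((j + 1 : ℕ) : Ordinal.{0}) ≤ W n * (i : Ordinal.{0}) := by
      gcongr
      exact hlt
    exact absurd (lt_of_lt_of_le h1 (le_trans hj h3)) (lt_irrefl _)

lemma blk_spec {n : ℕ} {t : Ordinal.{0}} (h0 : t ≠ 0) (h : t < W (n + 1)) :
    W n * (blk n t : Ordinal.{0}) < t ∧ t ≤ W n * ((blk n t + 1 : ℕ) : Ordinal.{0}) := by
  have hne : {i : ℕ | t ≤ W n * ((i + 1 : ℕ) : Ordinal.{0})}.Nonempty := by
    obtain ⟨i, hi⟩ := (lt_W_succ_iff n t).1 h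
    refine ⟨i, ?_⟩
    change t ≤ _
    apply hi.le.trans
    gcongr
    omega
  refine ⟨?_, Nat.sInf_mem hne⟩
  rcases hb : blk n t with _ | k
  · simpa using pos_iff_ne_zero.2 h0
  · by_contra hcon
    rw [not_lt] at hcon
    have : blk n t ≤ k := Nat.sInf_le hcon
    omega

section walk

variable {S : Type} {ι : Type} (child : S → ι → Option S)

/-- reachability -/
def Reach : S → S → Prop := Relation.ReflTransGen (fun s s' => ∃ j, child s j = some s')

/-- reachability in at most `n` steps -/
def RS : ℕ → S → S → Prop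
  | 0, s, d => d = s
  | n + 1, s, d => d = s ∨ ∃ j s', child s j = some s' ∧ RS n s' d

lemma RS_refl (n : ℕ) (s : S) : RS child n s s := by
  cases n
  · rfl
  · exact Or.inl rfl

lemma RS_succ {n : ℕ} {s d : S} (h : RS child n s d) : RS child (n + 1) s d := by
  induction n generalizing s with
  | zero => exact Or.inl h
  | succ n ih =>
    rcases h with h | ⟨j, s', h1, h2⟩
    · exact Or.inl h
    · exact Or.inr ⟨j, s', h1, ih h2⟩

lemma RS_snoc {n : ℕ} {s d d' : S} (h : RS child n s d) {j : ι} (hj : child d j = some d') :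
    RS child (n + 1) s d' := by
  induction n generalizing s with
  | zero =>
    have h' : d = s := h
    subst h'
    exact Or.inr ⟨j, d', hj, rfl⟩
  | succ n ih =>
    rcases h with h | ⟨j', s', h1, h2⟩
    · subst h
      exact Or.inr ⟨j, d', hj, RS_refl child _ _⟩
    · exact Or.inr ⟨j', s', h1, ih h2⟩

variable [Encodable ι]

/-- The walk encoded by an ordinal. -/
noncomputable def walk : ℕ → S → Ordinal.{0} → S
  | 0, s, _ => s
  | n + 1, s, t =>
    open Classical in
    if t = 0 ∨ W (n + 1) ≤ t then s else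
      match (Encodable.decode₂ ι (blk n t)).bind (child s) with
      | none => s
      | some s' => walk n s' (t - W n * (blk n t : Ordinal.{0}))

lemma walk_top {n : ℕ} {s : S} {t : Ordinal.{0}} (h : t = 0 ∨ W (n + 1) ≤ t) :
    walk child (n + 1) s t = s := by
  rw [walk, if_pos h]

lemma walk_none {n : ℕ} {s : S} {t : Ordinal.{0}} (h : ¬ (t = 0 ∨ W (n + 1) ≤ t))
    (h2 : (Encodable.decode₂ ι (blk n t)).bind (child s) = none) :
    walk child (n + 1) s t = s := by
  rw [walk, if_neg h, h2]

lemma walk_some {n : ℕ} {s s' : S} {t : Ordinal.{0}} (h : ¬ (t = 0 ∨ W (n + 1) ≤ t))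
    (h2 : (Encodable.decode₂ ι (blk n t)).bind (child s) = some s') :
    walk child (n + 1) s t = walk child n s' (t - W n * (blk n t : Ordinal.{0})) := by
  rw [walk, if_neg h, h2]

lemma reach_walk (n : ℕ) (s : S) (t : Ordinal.{0}) : Reach child s (walk child n s t) := by
  induction n generalizing s t with
  | zero => exact Relation.ReflTransGen.refl
  | succ n ih =>
    by_cases h : t = 0 ∨ W (n + 1) ≤ t
    · rw [walk_top child h]; exact Relation.ReflTransGen.refl
    · rcases h2 : (Encodable.decode₂ ι (blk n t)).bind (child s) with _ | s'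
      · rw [walk_none child h h2]; exact Relation.ReflTransGen.refl
      · rw [walk_some child h h2]
        obtain ⟨j, -, hj⟩ := Option.bind_eq_some_iff.1 h2
        exact Relation.ReflTransGen.head ⟨j, hj⟩ (ih _ _)

lemma exists_walk {n : ℕ} {s d : S} (h : RS child n s d) :
    ∃ t : Ordinal.{0}, 0 < t ∧ t ≤ W n ∧ walk child n s t = d := by
  induction n generalizing s with
  | zero => exact ⟨1, zero_lt_one, by simp [W], h.symm⟩
  | succ n ih =>
    rcases h with h | ⟨j, s', h1, h2⟩
    · exact ⟨W (n + 1), W_pos _, le_rfl, by rw [walk_top child (Or.inr le_rfl)]; exact h.symm⟩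
    · obtain ⟨t', h0, hle, hw⟩ := ih h2
      set i := Encodable.encode j with hi
      have hlt : W n * (i : Ordinal.{0}) + t' < W (n + 1) := by
        rw [lt_W_succ_iff]
        refine ⟨i + 2, ?_⟩
        have e1 : W n * ((i + 2 : ℕ) : Ordinal.{0}) = W n * (i : Ordinal.{0}) + W n + W n := by
          rw [show i + 2 = (i + 1) + 1 from rfl, mul_cast_succ, mul_cast_succ]
        rw [e1, add_assoc]
        apply add_lt_add_right
        calc t' ≤ W n := hle
          _ < W n + W n := by
            conv_lhs => rw [← add_zero (W n)]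
            exact add_lt_add_right (W_pos n) _
      have hpos : 0 < W n * (i : Ordinal.{0}) + t' := lt_of_lt_of_le h0 (le_add_self)
      have hb : blk n (W n * (i : Ordinal.{0}) + t') = i := by
        apply blk_eq
        · conv_lhs => rw [← add_zero (W n * (i : Ordinal.{0}))]
          exact add_lt_add_right h0 _
        · rw [mul_cast_succ]
          gcongr
      refine ⟨W n * (i : Ordinal.{0}) + t', hpos, hlt.le, ?_⟩
      have hneg : ¬ (W n * (i : Ordinal.{0}) + t' = 0 ∨ W (n + 1) ≤ W n * (i : Ordinal.{0}) + t') := by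
        rintro (h | h)
        · exact hpos.ne' h
        · exact absurd hlt (not_lt.2 h)
      rw [walk_some child hneg (s' := s') (by rw [hb, hi, Encodable.encodek₂]; exact h1), hb,
        Ordinal.add_sub_cancel]
      exact hw

/-- Continuity criterion at a nonzero ordinal. -/
lemma contAt_of {X : Type} [TopologicalSpace X] (F : Ordinal.{0} → X) (t : Ordinal.{0})
    (_ : t ≠ 0) (h : ∀ U ∈ 𝓝 (F t), ∃ b < t, ∀ s, b < s → s ≤ t → F s ∈ U) :
    ContinuousAt F t := by
  intro U hU
  obtain ⟨b, hb, h2⟩ := h U hU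
  rw [Filter.mem_map]
  have : Ioo b (Order.succ t) ∈ 𝓝 t := Ioo_mem_nhds hb (Order.lt_succ t)
  filter_upwards [this] with s hs
  exact h2 s hs.1 (Order.lt_succ_iff.1 hs.2)

lemma contAt_zero {X : Type} [TopologicalSpace X] (F : Ordinal.{0} → X) : ContinuousAt F 0 := by
  intro U hU
  rw [Filter.mem_map]
  have : Iio (1 : Ordinal.{0}) ∈ 𝓝 (0 : Ordinal.{0}) := Iio_mem_nhds zero_lt_one
  filter_upwards [this] with s hs
  have : s = 0 := by
    have hs' : s < 1 := hs
    rwa [Order.lt_one_iff] at hs'
  rw [mem_preimage, this]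
  exact mem_of_mem_nhds hU

lemma exists_of_contAt {X : Type} [TopologicalSpace X] (F : Ordinal.{0} → X) (t : Ordinal.{0})
    (ht : t ≠ 0) (h : ContinuousAt F t) (U : Set X) (hU : U ∈ 𝓝 (F t)) :
    ∃ b < t, ∀ s, b < s → s ≤ t → F s ∈ U := by
  have h1 : F ⁻¹' U ∈ 𝓝 t := h hU
  obtain ⟨b, hb, hsub⟩ := exists_Ioc_subset_of_mem_nhds h1 ⟨0, pos_iff_ne_zero.2 ht⟩
  exact ⟨b, hb, fun s h1 h2 => hsub ⟨h1, h2⟩⟩

theorem continuous_walk (V : S → ℝ)
    (H : ∀ s : S, ∀ ε > 0, {j : ι | ∃ s', child s j = some s' ∧ ∃ d, Reach child s' d ∧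
      ε ≤ |V d - V s|}.Finite) (n : ℕ) (s : S) :
    Continuous (fun t : Ordinal.{0} => V (walk child n s t)) := by
  induction n generalizing s with
  | zero => exact (continuous_const : Continuous (fun _ : Ordinal.{0} => V s))
  | succ n ih =>
    rw [continuous_iff_continuousAt]
    intro t
    by_cases ht0 : t = 0
    · subst ht0; exact contAt_zero (fun t : Ordinal.{0} => V (walk child (n + 1) s t))
    apply contAt_of (fun t : Ordinal.{0} => V (walk child (n + 1) s t)) t ht0
    intro U hU
    rcases lt_trichotomy t (W (n + 1)) with hlt | heq | hgt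
    · -- inside a block
      obtain ⟨hb1, hb2⟩ := blk_spec ht0 hlt
      set i := blk n t with hi
      have hblk : ∀ r, W n * (i : Ordinal.{0}) < r → r ≤ t → blk n r = i := fun r h1 h2 =>
        blk_eq h1 (h2.trans hb2)
      have hneg : ∀ r, W n * (i : Ordinal.{0}) < r → r ≤ t → ¬ (r = 0 ∨ W (n + 1) ≤ r) := by
        intro r h1 h2
        rintro (h | h)
        · rw [h] at h1; exact not_lt_zero h1
        · exact absurd (lt_of_le_of_lt (h.trans h2) hlt) (lt_irrefl _)
      rcases h2 : (Encodable.decode₂ ι i).bind (child s) with _ | s'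
      · refine ⟨_, hb1, fun r h3 h4 => ?_⟩
        have e1 : walk child (n + 1) s r = s :=
          walk_none child (hneg r h3 h4) (by rw [hblk r h3 h4]; exact h2)
        have e2 : walk child (n + 1) s t = s :=
          walk_none child (hneg t hb1 le_rfl) (by rw [hblk t hb1 le_rfl]; exact h2)
        simp only [e1]
        simp only [e2] at hU
        exact mem_of_mem_nhds hU
      · have hw : ∀ r, W n * (i : Ordinal.{0}) < r → r ≤ t → walk child (n + 1) s r
            = walk child n s' (r - W n * (i : Ordinal.{0})) := by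
          intro r h3 h4
          have := walk_some child (hneg r h3 h4) (s' := s') (by rw [hblk r h3 h4]; exact h2)
          rw [this, hblk r h3 h4]
        have hne : t - W n * (i : Ordinal.{0}) ≠ 0 := by
          have : 0 < t - W n * (i : Ordinal.{0}) := by
            rw [Ordinal.lt_sub, add_zero]; exact hb1
          exact this.ne'
        have hU' : U ∈ 𝓝 (V (walk child n s' (t - W n * (i : Ordinal.{0})))) := by
          simp only [hw t hb1 le_rfl] at hU
          exact hU
        obtain ⟨b, hb, hcont⟩ := exists_of_contAt _ _ hne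
          ((ih s').continuousAt (x := t - W n * (i : Ordinal.{0}))) U hU'
        refine ⟨W n * (i : Ordinal.{0}) + b, ?_, fun r h3 h4 => ?_⟩
        · rw [Ordinal.lt_sub] at hb; exact hb
        · have h5 : W n * (i : Ordinal.{0}) < r := lt_of_le_of_lt (le_add_right le_rfl) h3
          simp only [hw r h5 h4]
          apply hcont
          · rw [Ordinal.lt_sub]; exact h3
          · have h6 : W n * (i : Ordinal.{0}) + (r - W n * (i : Ordinal.{0}))
                ≤ W n * (i : Ordinal.{0}) + (t - W n * (i : Ordinal.{0})) := by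
              rw [Ordinal.add_sub_cancel_of_le h5.le, Ordinal.add_sub_cancel_of_le hb1.le]
              exact h4
            exact (add_le_add_iff_left _).1 h6
    · -- the top point
      have e1 : walk child (n + 1) s t = s := walk_top child (Or.inr heq.ge)
      simp only [e1] at hU
      obtain ⟨ε, hε, hball⟩ := Metric.mem_nhds_iff.1 hU
      obtain ⟨N, hN⟩ := ((H s ε hε).image (Encodable.encode)).bddAbove
      refine ⟨W n * ((N + 1 : ℕ) : Ordinal.{0}), ?_, fun r h3 h4 => ?_⟩
      · rw [heq, lt_W_succ_iff]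
        refine ⟨N + 2, ?_⟩
        rw [show N + 2 = (N + 1) + 1 from rfl, mul_cast_succ n (N + 1)]
        conv_lhs => rw [← add_zero (W n * ((N + 1 : ℕ) : Ordinal.{0}))]
        exact add_lt_add_right (W_pos n) _
      · rcases h4.lt_or_eq with h5 | h5
        · have hr0 : r ≠ 0 := by
            rintro rfl
            exact not_lt_zero h3
          have hneg : ¬ (r = 0 ∨ W (n + 1) ≤ r) := by
            rintro (h | h)
            · exact hr0 h
            · exact absurd (lt_of_lt_of_le h5 (heq.le.trans h)) (lt_irrefl _)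
          have hbN : N < blk n r := by
            by_contra hcon
            rw [not_lt] at hcon
            have h6 := (blk_spec hr0 (h5.trans_le heq.le)).2
            have h7 : W n * ((blk n r + 1 : ℕ) : Ordinal.{0}) ≤ W n * ((N + 1 : ℕ) : Ordinal.{0}) := by
              gcongr
            exact absurd (lt_of_lt_of_le h3 (h6.trans h7)) (lt_irrefl _)
          rcases h2 : (Encodable.decode₂ ι (blk n r)).bind (child s) with _ | s'
          · simp only [walk_none child hneg h2]
            exact mem_of_mem_nhds hU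
          · simp only [walk_some child hneg h2]
            apply hball
            rw [Metric.mem_ball, Real.dist_eq]
            by_contra hcon
            rw [not_lt] at hcon
            obtain ⟨j, hj1, hj2⟩ := Option.bind_eq_some_iff.1 h2
            have hmem : j ∈ {j : ι | ∃ s', child s j = some s' ∧ ∃ d, Reach child s' d ∧
                ε ≤ |V d - V s|} := ⟨s', hj2, _, reach_walk child n s' _, hcon⟩
            have h8 := hN (Set.mem_image_of_mem _ hmem)
            have h9 : Encodable.encode j = blk n r := Encodable.mem_decode₂.1 hj1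
            rw [h9] at h8
            omega
        · rw [h5]
          simp only [e1]
          exact mem_of_mem_nhds hU
    · refine ⟨W (n + 1), hgt, fun r h3 h4 => ?_⟩
      have e1 : walk child (n + 1) s t = s := walk_top child (Or.inr hgt.le)
      have e2 : walk child (n + 1) s r = s := walk_top child (Or.inr h3.le)
      simp only [e2]
      simp only [e1] at hU
      exact mem_of_mem_nhds hU

end walk

end Pool.Agent.H76R3.OrdWalk
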