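import Mathlib
import Pool.Agent.H76R3.OrdWalk

set_option autoImplicit false

open Topology Filter Set

namespace Pool.Agent.H76R3.KL

variable {M : Type} [PseudoMetricSpace M]

/-- one-Lipschitz real functions -/
def L1 (f : M → ℝ) : Prop := ∀ x y, f x ≤ f y + dist x y

lemma L1.max {f g : M → ℝ} (hf : L1 f) (hg : L1 g) : L1 (fun z => max (f z) (g z)) := by
  intro x y
  apply max_le
  · exact (hf x y).trans (add_le_add_left (le_max_left _ _) _)
  · exact (hg x y).trans (add_le_add_left (le_max_right _ _) _)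

lemma L1.min {f g : M → ℝ} (hf : L1 f) (hg : L1 g) : L1 (fun z => min (f z) (g z)) := by
  intro x y
  simp only
  rw [← min_add_add_right]
  exact min_le_min (hf x y) (hg x y)

lemma L1.const (c : ℝ) : L1 (fun _ : M => c) := by
  intro x y
  have := dist_nonneg (x := x) (y := y)
  simp only
  linarith

lemma L1.add_const {f : M → ℝ} (hf : L1 f) (c : ℝ) : L1 (fun z => f z + c) := by
  intro x y
  have := hf x y
  simp only
  linarith

lemma L1.neg {f : M → ℝ} (hf : L1 f) : L1 (fun z => - f z) := by
  intro x y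
  have := hf y x
  rw [dist_comm] at this
  simp only
  linarith

lemma L1.dist (a : M) : L1 (fun z => dist z a) := by
  intro x y
  have := dist_triangle x y a
  simp only
  linarith

lemma L1.abs_sub_le {f : M → ℝ} (hf : L1 f) (x y : M) : |f x - f y| ≤ Dist.dist x y := by
  rw [abs_le]
  constructor
  · have := hf y x
    rw [dist_comm] at this
    linarith
  · have := hf x y
    linarith

/-- distance to the first `n + 1` points -/
noncomputable def rho (u : ℕ → M) (n : ℕ) (z : M) : ℝ :=
  (Finset.range (n + 1)).inf' ⟨0, by simp⟩ (fun i => dist z (u i))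

lemma rho_L1 (u : ℕ → M) (n : ℕ) : L1 (rho u n) := by
  intro x y
  obtain ⟨i, hi, h⟩ := Finset.exists_mem_eq_inf' (s := Finset.range (n + 1)) ⟨0, by simp⟩
    (fun i => dist y (u i))
  unfold rho
  rw [h]
  refine (Finset.inf'_le _ hi).trans ?_
  have := dist_triangle x y (u i)
  linarith

lemma rho_le (u : ℕ → M) {n i : ℕ} (hi : i ≤ n) (z : M) : rho u n z ≤ dist z (u i) :=
  Finset.inf'_le _ (Finset.mem_range.2 (by omega))

lemma rho_exists (u : ℕ → M) (n : ℕ) (z : M) : ∃ i ≤ n, dist z (u i) = rho u n z := by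
  obtain ⟨i, hi, h⟩ := Finset.exists_mem_eq_inf' (s := Finset.range (n + 1)) ⟨0, by simp⟩
    (fun i => dist z (u i))
  exact ⟨i, by have := Finset.mem_range.1 hi; omega, h.symm⟩

lemma rho_nonneg (u : ℕ → M) (n : ℕ) (z : M) : 0 ≤ rho u n z := by
  obtain ⟨i, -, h⟩ := rho_exists u n z
  rw [← h]
  exact dist_nonneg

/-- the parameters of a pair -/
noncomputable def par (u : ℕ → M) (n : ℕ) (a b : M) (K : ℝ) (x y : M) : Fin 7 → ℝ :=
  ![dist x a, dist y b, min (rho u n x) K, min (rho u n y) K, dist x b, dist y a, dist x y]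

/-- pairs treated at stage `n + 1` with nearest points `u i`, `u j` -/
def Stage (u : ℕ → M) (n : ℕ) (i j : ℕ) (x y : M) : Prop :=
  0 < dist x y ∧ dist x y ≤ 2 * (rho u n x + rho u n y) ∧ 2 * (dist x (u i) + dist y (u j)) ≤ dist x y

/-- the separating function of a pair with parameters `p` -/
noncomputable def sepf (u : ℕ → M) (n : ℕ) (a b : M) (K θ : ℝ) (p : Fin 7 → ℝ) (z : M) : ℝ :=
  max ((p 6 / 2 - 2 * θ - (p 3 - θ))
      - max (dist z a - (p 0 + θ)) (max ((p 2 - θ) - min (rho u n z) K) ((p 4 - θ) - dist z b)))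
    (min 0 (max (dist z b - (p 1 + θ)) (max ((p 3 - θ) - min (rho u n z) K) ((p 5 - θ) - dist z a))
      - (p 3 - θ)))

lemma sepf_L1 (u : ℕ → M) (n : ℕ) (a b : M) (K θ : ℝ) (p : Fin 7 → ℝ) :
    L1 (sepf u n a b K θ p) := by
  have hA : L1 (fun z => max (dist z a - (p 0 + θ))
      (max ((p 2 - θ) - min (rho u n z) K) ((p 4 - θ) - dist z b))) := by
    apply L1.max
    · exact (L1.dist a).add_const (-(p 0 + θ))
    · apply L1.max
      · have := (((rho_L1 u n).min (L1.const K)).neg).add_const (p 2 - θ)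
        intro x y
        have h := this x y
        simp only at h ⊢
        linarith
      · have := ((L1.dist b).neg).add_const (p 4 - θ)
        intro x y
        have h := this x y
        simp only at h ⊢
        linarith
  have hB : L1 (fun z => max (dist z b - (p 1 + θ))
      (max ((p 3 - θ) - min (rho u n z) K) ((p 5 - θ) - dist z a))) := by
    apply L1.max
    · exact (L1.dist b).add_const (-(p 1 + θ))
    · apply L1.max
      · have := (((rho_L1 u n).min (L1.const K)).neg).add_const (p 3 - θ)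
        intro x y
        have h := this x y
        simp only at h ⊢
        linarith
      · have := ((L1.dist a).neg).add_const (p 5 - θ)
        intro x y
        have h := this x y
        simp only at h ⊢
        linarith
  unfold sepf
  apply L1.max
  · have := (hA.neg).add_const (p 6 / 2 - 2 * θ - (p 3 - θ))
    intro x y
    have h := this x y
    simp only at h ⊢
    linarith
  · apply L1.min (L1.const 0)
    exact hB.add_const (-(p 3 - θ))

/-- The function vanishes on the first points. -/
lemma sepf_zero (u : ℕ → M) (n : ℕ) (a b : M) (K θ : ℝ) (hK : 0 ≤ K) (p : Fin 7 → ℝ)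
    (hp : p 6 / 2 ≤ p 2 + p 3) {i : ℕ} (hi : i ≤ n) : sepf u n a b K θ p (u i) = 0 := by
  have h0 : rho u n (u i) = 0 := by
    apply le_antisymm _ (rho_nonneg u n _)
    have := rho_le u hi (u i)
    rwa [dist_self] at this
  have hm : min (rho u n (u i)) K = 0 := by rw [h0]; exact min_eq_left hK
  unfold sepf
  rw [hm]
  have h1 : p 2 - θ ≤ max (dist (u i) a - (p 0 + θ)) (max ((p 2 - θ) - 0) ((p 4 - θ) - dist (u i) b)) := by
    apply le_max_of_le_right
    apply le_max_of_le_left
    linarith
  have h2 : p 3 - θ ≤ max (dist (u i) b - (p 1 + θ)) (max ((p 3 - θ) - 0) ((p 5 - θ) - dist (u i) a)) := by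
    apply le_max_of_le_right
    apply le_max_of_le_left
    linarith
  apply le_antisymm
  · apply max_le
    · linarith
    · exact min_le_left _ _
  · apply le_max_of_le_right
    apply le_min le_rfl
    linarith

/-- The function separates nearby pairs. -/
lemma sepf_sep (u : ℕ → M) (n : ℕ) (a b : M) (K θ : ℝ) (p : Fin 7 → ℝ)
    (h4 : p 6 ≤ p 4 + p 1) (h5 : p 6 ≤ p 5 + p 0) (h01 : 2 * (p 0 + p 1) ≤ p 6)
    (x y : M) (h : ∀ k, |par u n a b K x y k - p k| ≤ θ) :
    p 6 / 2 - 2 * θ ≤ sepf u n a b K θ p x - sepf u n a b K θ p y := by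
  have e0 := abs_le.1 (h 0)
  have e1 := abs_le.1 (h 1)
  have e2 := abs_le.1 (h 2)
  have e3 := abs_le.1 (h 3)
  have e4 := abs_le.1 (h 4)
  have e5 := abs_le.1 (h 5)
  simp only [par, Matrix.cons_val_zero, Matrix.cons_val_one, Matrix.cons_val] at e0 e1 e2 e3 e4 e5
  have hx : p 6 / 2 - 2 * θ - (p 3 - θ) ≤ sepf u n a b K θ p x := by
    unfold sepf
    apply le_max_of_le_left
    have : max (dist x a - (p 0 + θ)) (max ((p 2 - θ) - min (rho u n x) K) ((p 4 - θ) - dist x b)) ≤ 0 := by
      apply max_le
      · linarith [e0.2]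
      · apply max_le
        · linarith [e2.1]
        · linarith [e4.1]
    linarith
  have hy : sepf u n a b K θ p y ≤ -(p 3 - θ) := by
    unfold sepf
    apply max_le
    · -- the first function is far from `y`
      rcases le_total (p 0) (p 1) with h01' | h01'
      · have : p 6 / 2 - 2 * θ ≤ max (dist y a - (p 0 + θ)) (max ((p 2 - θ) - min (rho u n y) K) ((p 4 - θ) - dist y b)) := by
          apply le_max_of_le_left
          linarith [e5.1]
        linarith
      · have : p 6 / 2 - 2 * θ ≤ max (dist y a - (p 0 + θ)) (max ((p 2 - θ) - min (rho u n y) K) ((p 4 - θ) - dist y b)) := by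
          apply le_max_of_le_right
          apply le_max_of_le_right
          linarith [e1.2]
        linarith
    · apply (min_le_right _ _).trans
      have : max (dist y b - (p 1 + θ)) (max ((p 3 - θ) - min (rho u n y) K) ((p 5 - θ) - dist y a)) ≤ 0 := by
        apply max_le
        · linarith [e1.2]
        · apply max_le
          · linarith [e3.1]
          · linarith [e5.1]
      linarith
  linarith

/-- finitely many functions suffice at each stage -/
lemma exists_stage (u : ℕ → M) (n i j : ℕ) (κ : ℝ) (hκ : 0 < κ) :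
    ∃ L : List (M → ℝ), (∀ f ∈ L, L1 f ∧ ∀ k ≤ n, f (u k) = 0) ∧
      ∀ x y, Stage u n i j x y → ∃ f ∈ L, (1/2 - κ) * dist x y ≤ f x - f y := by
  classical
  set a := u i with ha
  set b := u j with hb
  set D := dist a b with hD
  set K := 2 * D with hK
  have hD0 : 0 ≤ D := dist_nonneg
  rcases hD0.eq_or_lt with hz | hpos
  · refine ⟨[], by simp, ?_⟩
    rintro x y ⟨h1, h2, h3⟩
    exfalso
    have h4 := dist_triangle x a y
    have h5 := dist_triangle a b y
    rw [dist_comm b y, ← hD, ← hz] at h5
    linarith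
  -- the set of parameters
  set θ := κ * D / 12 with hθ
  have hθ0 : 0 < θ := by positivity
  let P : Set (Fin 7 → ℝ) := {p | ∃ x y, Stage u n i j x y ∧ p = par u n a b K x y}
  have hfacts : ∀ x y, Stage u n i j x y → dist x y ≤ 2 * D ∧ 2 * D ≤ 3 * dist x y ∧
      dist x a ≤ D ∧ dist y b ≤ D ∧ dist x b ≤ 2 * D ∧ dist y a ≤ 2 * D := by
    rintro x y ⟨h1, h2, h3⟩
    have t1 := dist_triangle x a y
    have t2 := dist_triangle a b y
    have t3 := dist_triangle a x b
    have t4 := dist_triangle x y b
    have t5 := dist_triangle x a b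
    have t6 := dist_triangle y b a
    rw [dist_comm b y] at t2
    rw [dist_comm a x] at t3
    rw [dist_comm b a] at t6
    have p1 := dist_nonneg (x := x) (y := a)
    have p2 := dist_nonneg (x := y) (y := b)
    refine ⟨?_, ?_, ?_, ?_, ?_, ?_⟩ <;> linarith
  have hPb : P ⊆ Metric.closedBall 0 (2 * D) := by
    rintro _ ⟨x, y, hs, rfl⟩
    obtain ⟨f1, f2, f3, f4, f5, f6⟩ := hfacts x y hs
    rw [mem_closedBall_zero_iff, pi_norm_le_iff_of_nonneg (by positivity)]
    have r1 : 0 ≤ min (rho u n x) K := le_min (rho_nonneg _ _ _) (by positivity)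
    have r2 : 0 ≤ min (rho u n y) K := le_min (rho_nonneg _ _ _) (by positivity)
    have r3 : min (rho u n x) K ≤ 2 * D := min_le_right _ _
    have r4 : min (rho u n y) K ≤ 2 * D := min_le_right _ _
    intro k
    rw [Real.norm_eq_abs, abs_le]
    fin_cases k <;> simp only [par, Fin.zero_eta, Fin.mk_one, Fin.reduceFinMk, Matrix.cons_val_zero, Matrix.cons_val_one, Matrix.cons_val] <;>
      constructor <;> linarith [dist_nonneg (x := x) (y := a), dist_nonneg (x := y) (y := b), dist_nonneg (x := x) (y := b), dist_nonneg (x := y) (y := a), dist_nonneg (x := x) (y := y)]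
  have htb : TotallyBounded P :=
    (isCompact_closedBall (0 : Fin 7 → ℝ) (2 * D)).totallyBounded.subset hPb
  obtain ⟨T, hTP, hTfin, hT⟩ := htb.exists_subset (Metric.dist_mem_uniformity hθ0)
  refine ⟨(hTfin.toFinset.toList).map (fun p => sepf u n a b K θ p), ?_, ?_⟩
  · intro f hf
    rw [List.mem_map] at hf
    obtain ⟨p, hp, rfl⟩ := hf
    rw [Finset.mem_toList, hTfin.mem_toFinset] at hp
    obtain ⟨x, y, hs, rfl⟩ := hTP hp
    refine ⟨sepf_L1 _ _ _ _ _ _ _, fun k hk => sepf_zero u n a b K θ (by positivity) _ ?_ hk⟩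
    obtain ⟨f1, f2, f3, f4, f5, f6⟩ := hfacts x y hs
    obtain ⟨h1, h2, h3⟩ := hs
    simp only [par, Matrix.cons_val_zero, Matrix.cons_val_one, Matrix.cons_val]
    have q1 := rho_nonneg u n x
    have q2 := rho_nonneg u n y
    rcases min_cases (rho u n x) K with h | h <;> rcases min_cases (rho u n y) K with h' | h' <;>
      rw [h.1, h'.1] <;> linarith
  · intro x y hs
    have hmem : par u n a b K x y ∈ P := ⟨x, y, hs, rfl⟩
    obtain ⟨p, hp, hpd⟩ := mem_iUnion₂.1 (hT hmem)
    have hclose : ∀ k, |par u n a b K x y k - p k| ≤ θ := by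
      intro k
      have h1 : dist (par u n a b K x y) p < θ := hpd
      rw [← Real.dist_eq]
      exact ((dist_le_pi_dist _ _ k).trans h1.le)
    refine ⟨sepf u n a b K θ p, List.mem_map.2 ⟨p, by rw [Finset.mem_toList, hTfin.mem_toFinset]; exact hp, rfl⟩, ?_⟩
    obtain ⟨x0, y0, hs0, hp0⟩ := hTP hp
    obtain ⟨f1, f2, f3, f4, f5, f6⟩ := hfacts x y hs
    have hs0' := hs0
    obtain ⟨h1, h2, h3⟩ := hs0'
    have g4 : p 6 ≤ p 4 + p 1 := by
      rw [hp0]
      simp only [par, Matrix.cons_val_zero, Matrix.cons_val_one, Matrix.cons_val]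
      have := dist_triangle x0 b y0
      rw [dist_comm b y0] at this
      linarith
    have g5 : p 6 ≤ p 5 + p 0 := by
      rw [hp0]
      simp only [par, Matrix.cons_val_zero, Matrix.cons_val_one, Matrix.cons_val]
      have := dist_triangle x0 a y0
      rw [dist_comm a y0] at this
      linarith
    have g01 : 2 * (p 0 + p 1) ≤ p 6 := by
      rw [hp0]
      simp only [par, Matrix.cons_val_zero, Matrix.cons_val_one, Matrix.cons_val]
      exact h3
    have hsep := sepf_sep u n a b K θ p g4 g5 g01 x y hclose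
    have h6 := (abs_le.1 (hclose 6)).2
    simp only [par, Matrix.cons_val] at h6
    have hθD : 3 * θ ≤ κ * dist x y := by
      rw [hθ]
      nlinarith
    linarith

open Pool.Agent.H76R3.OrdWalk

section embed

variable (L : ℕ → ℕ → ℕ → List (M → ℝ))

/-- labels: stage, two indices, position in the list -/
abbrev Lb : Type := ℕ × ℕ × ℕ × ℕ

/-- the function with a given label -/
noncomputable def fl (l : Lb) (x : M) : ℝ :=
  if l.2.1 ≤ l.1 + 1 ∧ l.2.2.1 ≤ l.1 + 1 then
    (((L l.1 l.2.1 l.2.2.1)[l.2.2.2]?).getD (fun _ => 0)) x else 0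

/-- the one-step tree -/
def chd : Option Lb → Lb → Option (Option Lb)
  | none, l => some (some l)
  | some _, _ => none

/-- values -/
noncomputable def vl (x : M) : Option Lb → ℝ
  | none => 0
  | some l => fl L l x

lemma fl_abs {u : ℕ → M} (hL : ∀ n i j, ∀ f ∈ L n i j, L1 f ∧ ∀ k ≤ n, f (u k) = 0)
    (l : Lb) (x : M) : |fl L l x| ≤ rho u l.1 x := by
  unfold fl
  split_ifs with h
  · rcases hg : (L l.1 l.2.1 l.2.2.1)[l.2.2.2]? with _ | f
    · simpa using rho_nonneg u l.1 x
    · have hm : f ∈ L l.1 l.2.1 l.2.2.1 := List.mem_of_getElem? hg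
      obtain ⟨h1, h2⟩ := hL _ _ _ f hm
      obtain ⟨i, hi, hr⟩ := rho_exists u l.1 x
      have h3 := h1.abs_sub_le x (u i)
      rw [h2 i hi, sub_zero, hr] at h3
      exact h3
  · simpa using rho_nonneg u l.1 x

lemma fl_lip {u : ℕ → M} (hL : ∀ n i j, ∀ f ∈ L n i j, L1 f ∧ ∀ k ≤ n, f (u k) = 0)
    (l : Lb) (x y : M) : |fl L l x - fl L l y| ≤ dist x y := by
  unfold fl
  split_ifs with h
  · rcases hg : (L l.1 l.2.1 l.2.2.1)[l.2.2.2]? with _ | f
    · simp
    · have hm : f ∈ L l.1 l.2.1 l.2.2.1 := List.mem_of_getElem? hg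
      exact (hL _ _ _ f hm).1.abs_sub_le x y
  · simp

lemma rho_tendsto {u : ℕ → M} (hu : DenseRange u) (x : M) :
    ∀ ε > 0, ∃ N, ∀ n ≥ N, rho u n x < ε := by
  intro ε hε
  obtain ⟨_, hy, ⟨N, rfl⟩⟩ := Metric.dense_iff.1 hu x ε hε
  refine ⟨N, fun n hn => ?_⟩
  refine (rho_le u hn x).trans_lt ?_
  rw [Metric.mem_ball, dist_comm] at hy
  exact hy

lemma reach_some {l : Lb} {d : Option Lb} (h : Reach chd (some l) d) : d = some l := by
  induction h with
  | refl => rfl
  | tail _ h2 ih =>
    obtain ⟨j, hj⟩ := h2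
    rw [ih] at hj
    simp [chd] at hj

lemma finite_fl {u : ℕ → M} (hu : DenseRange u)
    (hL : ∀ n i j, ∀ f ∈ L n i j, L1 f ∧ ∀ k ≤ n, f (u k) = 0) (x : M) (s : Option Lb) (ε : ℝ)
    (hε : 0 < ε) : {j : Lb | ∃ s', chd s j = some s' ∧ ∃ d, Reach chd s' d ∧
      ε ≤ |vl L x d - vl L x s|}.Finite := by
  rcases s with _ | l
  · obtain ⟨N, hN⟩ := rho_tendsto hu x ε hε
    have hfin : (⋃ n ∈ Set.Iio N, ⋃ i ∈ Set.Iic (n + 1), ⋃ j ∈ Set.Iic (n + 1),
        (fun k => ((n, i, j, k) : Lb)) '' (Set.Iio (L n i j).length)).Finite := by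
      apply Set.Finite.biUnion (Set.finite_Iio N)
      intro n _
      apply Set.Finite.biUnion (Set.finite_Iic _)
      intro i _
      apply Set.Finite.biUnion (Set.finite_Iic _)
      intro j _
      exact (Set.finite_Iio _).image _
    apply hfin.subset
    rintro ⟨n, i, j, k⟩ ⟨s', h1, d, h2, h3⟩
    simp only [chd, Option.some.injEq] at h1
    subst h1
    rw [reach_some h2] at h3
    simp only [vl, sub_zero] at h3
    have h4 := fl_abs L hL (n, i, j, k) x
    simp only at h4
    have hn : n < N := by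
      by_contra hcon
      rw [not_lt] at hcon
      exact absurd (h3.trans h4) (not_le.2 (hN n hcon))
    unfold fl at h3
    simp only at h3
    split_ifs at h3 with hij
    · have hk : k < (L n i j).length := by
        by_contra hcon
        rw [not_lt] at hcon
        rw [List.getElem?_eq_none hcon] at h3
        simp at h3
        linarith
      simp only [mem_iUnion, mem_Iio, mem_Iic, mem_image, exists_prop]
      exact ⟨n, hn, i, hij.1, j, hij.2, k, hk, rfl⟩
    · simp at h3
      linarith
  · convert Set.finite_empty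
    ext j
    simp [chd]

end embed

/-- The upper bound of Kalton and Lancien (up to an arbitrarily small loss). -/
theorem kl (M : Type) [MetricSpace M] [TopologicalSpace.SeparableSpace M] [Nonempty M]
    (κ0 : ℝ) (hκ0 : 0 < κ0) (κ : Ordinal.{0}) (hκ : Ordinal.omega0 ≤ κ) :
    ∃ f : M → BoundedContinuousFunction (Set.Iic κ) ℝ, (∀ x y, dist (f x) (f y) ≤ dist x y) ∧
      (∀ x y, (1/2 - κ0) * dist x y ≤ dist (f x) (f y)) := by
  set u := TopologicalSpace.denseSeq M with hu'
  have hu : DenseRange u := TopologicalSpace.denseRange_denseSeq M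
  choose L hL1 hL2 using fun n i j => exists_stage u n i j κ0 hκ0
  set F : M → Ordinal.{0} → ℝ := fun x t => vl L x (walk chd 1 none t) with hF
  have hcont : ∀ x, Continuous (F x) := fun x =>
    continuous_walk chd (fun s => vl L x s) (fun s ε hε => finite_fl L hu hL1 x s ε hε) 1 none
  have hvb : ∀ x s, |vl L x s| ≤ rho u 0 x := by
    intro x s
    rcases s with _ | l
    · simpa [vl] using rho_nonneg u 0 x
    · refine (fl_abs L hL1 l x).trans ?_
      obtain ⟨i, hi, hr⟩ := rho_exists u 0 x
      rw [← hr]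
      exact rho_le u (by omega) x
  have hvl : ∀ x y s, |vl L x s - vl L y s| ≤ dist x y := by
    intro x y s
    rcases s with _ | l
    · simp [vl]
    · exact fl_lip L hL1 l x y
  set f : M → BoundedContinuousFunction (Set.Iic κ) ℝ := fun x =>
    BoundedContinuousFunction.ofNormedAddCommGroup (fun t : Set.Iic κ => F x t.1)
      ((hcont x).comp continuous_subtype_val) (rho u 0 x) (fun t => hvb x _) with hf
  refine ⟨f, ?_, ?_⟩
  · intro x y
    rw [BoundedContinuousFunction.dist_le dist_nonneg]
    intro t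
    rw [Real.dist_eq]
    exact hvl x y _
  · intro x y
    by_cases hxy : x = y
    · subst hxy
      simp
    have hpos : 0 < dist x y := dist_pos.2 hxy
    classical
    have hex : ∃ n, 2 * (rho u n x + rho u n y) ≤ dist x y := by
      obtain ⟨N1, h1⟩ := rho_tendsto hu x (dist x y / 4) (by positivity)
      obtain ⟨N2, h2⟩ := rho_tendsto hu y (dist x y / 4) (by positivity)
      refine ⟨max N1 N2, ?_⟩
      have e1 := h1 (max N1 N2) (le_max_left _ _)
      have e2 := h2 (max N1 N2) (le_max_right _ _)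
      linarith
    set m := Nat.find hex with hm
    have hms : 2 * (rho u m x + rho u m y) ≤ dist x y := Nat.find_spec hex
    have hm0 : m ≠ 0 := by
      intro h0
      rw [h0] at hms
      obtain ⟨i, hi, hr⟩ := rho_exists u 0 x
      obtain ⟨j, hj, hr'⟩ := rho_exists u 0 y
      rw [← hr, ← hr'] at hms
      have hi0 : i = 0 := by omega
      have hj0 : j = 0 := by omega
      subst hi0
      subst hj0
      have := dist_triangle_right x y (u 0)
      linarith
    obtain ⟨n, hn⟩ := Nat.exists_eq_succ_of_ne_zero hm0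
    have hlt : dist x y < 2 * (rho u n x + rho u n y) := by
      have := Nat.find_min hex (m := n) (by omega)
      exact not_le.1 this
    obtain ⟨i, hi, hr⟩ := rho_exists u m x
    obtain ⟨j, hj, hr'⟩ := rho_exists u m y
    have hst : Stage u n i j x y := ⟨hpos, hlt.le, by rw [hr, hr']; exact hms⟩
    obtain ⟨g, hg, hsep⟩ := hL2 n i j x y hst
    obtain ⟨k, hk, hk2⟩ := List.getElem_of_mem hg
    have hfl : ∀ z, fl L (n, i, j, k) z = g z := by
      intro z
      unfold fl
      simp only
      rw [if_pos ⟨by omega, by omega⟩, List.getElem?_eq_getElem hk, hk2]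
      rfl
    obtain ⟨t, -, ht, hw⟩ := exists_walk chd (n := 1) (s := none) (d := some (n, i, j, k))
      (Or.inr ⟨(n, i, j, k), some (n, i, j, k), rfl, rfl⟩)
    have ht' : t ≤ κ := by
      refine ht.trans (le_trans ?_ hκ)
      simp [W]
    have h1 := BoundedContinuousFunction.dist_coe_le_dist (f := f x) (g := f y) ⟨t, ht'⟩
    have h2 : f x ⟨t, ht'⟩ = g x := by
      change vl L x (walk chd 1 none t) = g x
      rw [hw]
      exact hfl x
    have h3 : f y ⟨t, ht'⟩ = g y := by
      change vl L y (walk chd 1 none t) = g y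
      rw [hw]
      exact hfl y
    rw [h2, h3, Real.dist_eq] at h1
    exact (hsep.trans (le_abs_self _)).trans h1

end Pool.Agent.H76R3.KL
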