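import Mathlib
import Pool.Agent.H76R3.OrdWalk

set_option autoImplicit false

open Topology Filter Set

namespace Pool.Agent.H76R3.StepFun

open Pool.Agent.H76R3.OrdWalk

variable {E : Type} [NormedAddCommGroup E]

/-- one-Lipschitz functions vanishing at the origin -/
def Lip1 (f : E → ℝ) : Prop := (∀ x y, f x ≤ f y + ‖x - y‖) ∧ f 0 = 0

lemma Lip1.abs_le {f : E → ℝ} (h : Lip1 f) (x y : E) : |f x - f y| ≤ ‖x - y‖ := by
  rw [_root_.abs_le]
  constructor
  · have := h.1 y x
    rw [norm_sub_rev] at this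
    linarith
  · have := h.1 x y
    linarith

lemma Lip1.abs_le_norm {f : E → ℝ} (h : Lip1 f) (x : E) : |f x| ≤ ‖x‖ := by
  have := h.abs_le x 0
  rwa [h.2, sub_zero, sub_zero] at this

/-- The abstract properties of the coordinate projections of `l1`. -/
structure ProjSys (P : ℕ → E →+ E) : Prop where
  norm_add : ∀ p x, ‖P p x‖ + ‖x - P p x‖ = ‖x‖
  zero : ∀ x, P 0 x = 0
  le : ∀ p q x, p ≤ q → P p (P q x) = P p x
  ge : ∀ p q x, q ≤ p → P p (P q x) = P q x
  lim : ∀ x, Tendsto (fun p => P p x) atTop (𝓝 x)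
  net : ∀ (p : ℕ) (R θ : ℝ), 0 < θ → ∃ A : Finset E, ∀ x, ‖x‖ ≤ R → ∃ a ∈ A, ‖P p x - a‖ ≤ θ

variable {P : ℕ → E →+ E}

lemma ProjSys.norm_sub (h : ProjSys P) (p : ℕ) (x y : E) :
    ‖P p x - P p y‖ + ‖(x - P p x) - (y - P p y)‖ = ‖x - y‖ := by
  have := h.norm_add p (x - y)
  rw [map_sub] at this
  rw [← this]
  congr 2
  abel

lemma ProjSys.norm_le (h : ProjSys P) (p : ℕ) (x : E) : ‖P p x‖ ≤ ‖x‖ := by
  have := h.norm_add p x
  have h2 := norm_nonneg (x - P p x)
  linarith

lemma ProjSys.norm_le' (h : ProjSys P) (p : ℕ) (x : E) : ‖x - P p x‖ ≤ ‖x‖ := by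
  have := h.norm_add p x
  have h2 := norm_nonneg (P p x)
  linarith

variable (P) in
/-- The basic step. -/
noncomputable def step (f : E → ℝ) (p : ℕ) (a : E) (c : ℝ) : E → ℝ := fun w =>
  max (f (P p w) - ‖w - P p w‖) (min (c - ‖P (p + 1) w - a‖) (f (P p w) + ‖w - P p w‖))

lemma max_le_add {a b a' b' D : ℝ} (h1 : a ≤ a' + D) (h2 : b ≤ b' + D) :
    max a b ≤ max a' b' + D := by
  apply max_le
  · exact h1.trans (add_le_add_left (le_max_left _ _) _)
  · exact h2.trans (add_le_add_left (le_max_right _ _) _)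

lemma min_le_add {a b a' b' D : ℝ} (h1 : a ≤ a' + D) (h2 : b ≤ b' + D) :
    min a b ≤ min a' b' + D := by
  rw [← min_add_add_right]
  exact min_le_min h1 h2

lemma step_lip (hP : ProjSys P) {f : E → ℝ} (hf : Lip1 f) (p : ℕ) (a : E) (c : ℝ) :
    Lip1 (step P f p a c) := by
  constructor
  · intro x y
    have e1 := hP.norm_sub p x y
    have e2 := hf.1 (P p x) (P p y)
    have e3 : ‖x - P p x‖ ≤ ‖y - P p y‖ + ‖(x - P p x) - (y - P p y)‖ := by
      have := norm_add_le (y - P p y) ((x - P p x) - (y - P p y))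
      simpa using this
    have e4 : ‖y - P p y‖ ≤ ‖x - P p x‖ + ‖(x - P p x) - (y - P p y)‖ := by
      have := norm_sub_le (x - P p x) ((x - P p x) - (y - P p y))
      simpa using this
    have e5 : ‖P (p + 1) y - a‖ ≤ ‖P (p + 1) x - a‖ + ‖x - y‖ := by
      have h1 := hP.norm_sub (p + 1) x y
      have h2 := norm_nonneg ((x - P (p + 1) x) - (y - P (p + 1) y))
      have h3 : ‖P (p + 1) y - a‖ ≤ ‖P (p + 1) x - a‖ + ‖P (p + 1) x - P (p + 1) y‖ := by
        have := norm_sub_le (P (p + 1) x - a) (P (p + 1) x - P (p + 1) y)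
        simpa using this
      linarith
    unfold step
    apply max_le_add
    · linarith
    · apply min_le_add
      · linarith
      · linarith
  · unfold step
    simp [hf.2]

/-- The step does not change the function on the range of `P p`. -/
lemma step_eq {f : E → ℝ} (p : ℕ) (a : E) (c : ℝ) (x : E) (hx : P p x = x) :
    step P f p a c x = f x := by
  unfold step
  rw [hx]
  simp

/-- Main estimate for one step. -/
lemma step_gain {f : E → ℝ} (p : ℕ) (a : E) (c θ : ℝ) (x y : E)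
    (ha : ‖P (p + 1) x - a‖ ≤ θ) (hc : |f (P p x) + ‖x - P p x‖ - c| ≤ θ) (D : ℝ)
    (h1 : D ≤ ‖P (p + 1) x - P (p + 1) y‖)
    (h2 : D ≤ f (P p x) - f (P p y) + ‖(x - P p x) - (y - P p y)‖) :
    D - 4 * θ ≤ step P f p a c x - step P f p a c y := by
  have hθ : 0 ≤ θ := (norm_nonneg _).trans ha
  have hc' := abs_le.1 hc
  have hX := norm_nonneg (x - P p x)
  have hY := norm_nonneg (y - P p y)
  have hXY := norm_sub_le (x - P p x) (y - P p y)
  have e1 : f (P p x) + ‖x - P p x‖ - 2 * θ ≤ step P f p a c x := by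
    unfold step
    apply le_max_of_le_right
    apply le_min
    · linarith [hc'.1, hc'.2]
    · linarith
  have e2 : ‖P (p + 1) x - P (p + 1) y‖ - θ ≤ ‖P (p + 1) y - a‖ := by
    have := norm_sub_le (P (p + 1) x - a) (P (p + 1) y - a)
    have h3 : (P (p + 1) x - a) - (P (p + 1) y - a) = P (p + 1) x - P (p + 1) y := by abel
    rw [h3] at this
    linarith
  have e3 : step P f p a c y ≤ max (f (P p y) - ‖y - P p y‖)
      (f (P p x) + ‖x - P p x‖ + 2 * θ - ‖P (p + 1) x - P (p + 1) y‖) := by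
    unfold step
    apply max_le_max le_rfl
    apply (min_le_left _ _).trans
    linarith [hc'.1, hc'.2]
  rcases max_cases (f (P p y) - ‖y - P p y‖)
      (f (P p x) + ‖x - P p x‖ + 2 * θ - ‖P (p + 1) x - P (p + 1) y‖) with h | h
  · rw [h.1] at e3
    linarith
  · rw [h.1] at e3
    linarith

/-! ### The tree of functionals -/

/-- parameters: scale, size, offset -/
abbrev T : Type := ℤ × ℕ × ℤ

/-- states -/
inductive St (E : Type) [NormedAddCommGroup E] : Type
  | root : St E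
  | node (τ : T) (f : {f : E → ℝ // Lip1 f}) (q : ℕ) : St E

/-- labels -/
abbrev Lab : Type := T ⊕ (ℕ × ℕ)

/-- zero function -/
def zf : {f : E → ℝ // Lip1 f} := ⟨fun _ => 0, fun _ _ => by simp, rfl⟩

/-- admissible parameters -/
def adm (τ : T) : Prop :=
  (τ.2.1 = 0 → τ.2.2 = 0) ∧ |τ.2.2| ≤ 64 * 2 ^ τ.2.1

section tree

variable (hP : ProjSys P) (net : ℤ → ℕ → ℕ → List (E × ℝ)) (η : ℝ)

open Classical in
/-- children -/
noncomputable def child : St E → Lab → Option (St E)
  | St.root, Sum.inl τ => if adm τ then some (St.node τ zf 0) else none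
  | St.root, Sum.inr _ => none
  | St.node _ _ _, Sum.inl _ => none
  | St.node τ f q, Sum.inr (p, j) =>
      if q ≤ p then
        ((net τ.1 τ.2.1 p)[j]?).map
          (fun ac => St.node τ ⟨step P f.1 p ac.1 ac.2, step_lip hP f.2 p ac.1 ac.2⟩ p)
      else none

/-- truncation level -/
noncomputable def bB (τ : T) : ℝ := if τ.2.1 = 0 then 64 * (2 : ℝ) ^ τ.1 else 4 * (2 : ℝ) ^ τ.1

/-- cut level -/
noncomputable def bK (τ : T) : ℝ :=
  if τ.2.1 = 0 then η * (2 : ℝ) ^ τ.1 else 8 * 2 ^ τ.2.1 * (2 : ℝ) ^ τ.1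

/-- the cutting function -/
noncomputable def cut (κ B : ℝ) (w : E) (u : ℝ) : ℝ :=
  max (-(max (‖w‖ - κ) 0)) (min (max (-B) (min u B)) (max (‖w‖ - κ) 0))

/-- the final value -/
noncomputable def val : St E → E → ℝ
  | St.root, _ => 0
  | St.node τ f _, w => cut (bK η τ) (bB τ) w (f.1 w - (τ.2.2 : ℝ) * (2 : ℝ) ^ τ.1)

lemma cut_sub {κ B : ℝ} {w : E} (u v : ℝ) : |cut κ B w u - cut κ B w v| ≤ |u - v| := by
  have key : ∀ u v : ℝ, cut κ B w u ≤ cut κ B w v + |u - v| := by
    intro u v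
    have h0 := abs_nonneg (u - v)
    have h1 := le_abs_self (u - v)
    unfold cut
    apply max_le_add (by linarith)
    apply min_le_add _ (by linarith)
    apply max_le_add (by linarith)
    apply min_le_add (by linarith) (by linarith)
  rw [abs_le]
  constructor
  · have := key v u
    rw [abs_sub_comm] at this
    linarith
  · have := key u v
    linarith

lemma cut_le_B {κ B : ℝ} (hB : 0 ≤ B) (w : E) (u : ℝ) : |cut κ B w u| ≤ B := by
  rw [abs_le]
  have h0 : 0 ≤ max (‖w‖ - κ) 0 := le_max_right _ _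
  unfold cut
  constructor
  · apply le_max_of_le_right
    apply le_min
    · exact le_max_left _ _
    · linarith
  · apply max_le
    · linarith
    · apply (min_le_left _ _).trans
      apply max_le
      · linarith
      · exact min_le_right _ _

lemma cut_le_chi {κ B : ℝ} (w : E) (u : ℝ) : |cut κ B w u| ≤ max (‖w‖ - κ) 0 := by
  rw [abs_le]
  have h0 : 0 ≤ max (‖w‖ - κ) 0 := le_max_right _ _
  unfold cut
  constructor
  · exact le_max_left _ _
  · apply max_le
    · linarith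
    · exact min_le_right _ _

lemma cut_lip {κ B : ℝ} (w w' : E) (u u' : ℝ) (h : |u - u'| ≤ ‖w - w'‖) :
    |cut κ B w u - cut κ B w' u'| ≤ ‖w - w'‖ := by
  have key : ∀ (w w' : E) (u u' : ℝ), |u - u'| ≤ ‖w - w'‖ →
      cut κ B w u ≤ cut κ B w' u' + ‖w - w'‖ := by
    intro w w' u u' h
    have h0 := norm_nonneg (w - w')
    have h1 := (le_abs_self (u - u')).trans h
    have h2 : ‖w‖ ≤ ‖w'‖ + ‖w - w'‖ := by
      have := norm_add_le w' (w - w')
      simpa using this
    have h3 : ‖w'‖ ≤ ‖w‖ + ‖w - w'‖ := by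
      have := norm_sub_le w (w - w')
      simpa using this
    have h4 : max (‖w‖ - κ) 0 ≤ max (‖w'‖ - κ) 0 + ‖w - w'‖ :=
      max_le_add (by linarith) (by linarith)
    have h5 : max (‖w'‖ - κ) 0 ≤ max (‖w‖ - κ) 0 + ‖w - w'‖ :=
      max_le_add (by linarith) (by linarith)
    unfold cut
    apply max_le_add (by linarith)
    apply min_le_add _ (by linarith)
    apply max_le_add (by linarith)
    apply min_le_add (by linarith) (by linarith)
  rw [abs_le]
  constructor
  · have := key w' w u' u (by rw [abs_sub_comm, norm_sub_rev]; exact h)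
    rw [norm_sub_rev] at this
    linarith
  · have := key w w' u u' h
    linarith

lemma cut_eq {κ B : ℝ} (w : E) (u : ℝ) (h1 : |u| ≤ B) (h2 : |u| ≤ ‖w‖ - κ) :
    cut κ B w u = u := by
  rw [abs_le] at h1 h2
  have h3 : u ≤ max (‖w‖ - κ) 0 := h2.2.trans (le_max_left _ _)
  have h4 : -(max (‖w‖ - κ) 0) ≤ u := by
    have := le_max_left (‖w‖ - κ) 0
    linarith [h2.1]
  unfold cut
  rw [min_eq_left h1.2, max_eq_right h1.1, min_eq_left h3, max_eq_right h4]

lemma cut_near {κ B : ℝ} (w : E) (u : ℝ) (hκ : 0 ≤ κ) (h1 : |u| ≤ B) (h2 : |u| ≤ ‖w‖) :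
    |cut κ B w u - u| ≤ κ := by
  rw [abs_le] at h1 h2
  have h0 : 0 ≤ max (‖w‖ - κ) 0 := le_max_right _ _
  have h3 : u - κ ≤ max (‖w‖ - κ) 0 := by
    have := le_max_left (‖w‖ - κ) 0
    linarith [h2.2]
  have h4 : -(max (‖w‖ - κ) 0) ≤ u + κ := by
    have := le_max_left (‖w‖ - κ) 0
    linarith [h2.1]
  unfold cut
  rw [min_eq_left h1.2, max_eq_right h1.1]
  rw [abs_le]
  constructor
  · have : u - κ ≤ min u (max (‖w‖ - κ) 0) := le_min (by linarith) h3
    have := this.trans (le_max_right (-(max (‖w‖ - κ) 0)) _)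
    linarith
  · have : max (-(max (‖w‖ - κ) 0)) (min u (max (‖w‖ - κ) 0)) ≤ u + κ :=
      max_le h4 ((min_le_left _ _).trans (by linarith))
    linarith

lemma val_lip (s : St E) (w w' : E) : |val η s w - val η s w'| ≤ ‖w - w'‖ := by
  rcases s with _ | ⟨τ, f, q⟩
  · simp [val]
  · apply cut_lip
    have := f.2.abs_le w w'
    have e : f.1 w - (τ.2.2 : ℝ) * (2 : ℝ) ^ τ.1 - (f.1 w' - (τ.2.2 : ℝ) * (2 : ℝ) ^ τ.1)
      = f.1 w - f.1 w' := by ring
    rw [e]
    exact this

lemma bK_nonneg (hη : 0 ≤ η) (τ : T) : 0 ≤ bK η τ := by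
  unfold bK
  split_ifs <;> positivity

lemma bB_pos (τ : T) : 0 < bB τ := by
  unfold bB
  split_ifs <;> positivity

lemma val_norm (hη : 0 ≤ η) (s : St E) (w : E) : |val η s w| ≤ ‖w‖ := by
  rcases s with _ | ⟨τ, f, q⟩
  · simp [val]
  · apply (cut_le_chi w _).trans
    apply max_le
    · linarith [bK_nonneg η hη τ]
    · exact norm_nonneg _

/-- Invariants along the tree. -/
lemma reach_node {τ : T} {f : {f : E → ℝ // Lip1 f}} {q : ℕ} {d : St E}
    (h : Reach (child hP net) (St.node τ f q) d) :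
    ∃ g q', d = St.node τ g q' ∧ q ≤ q' ∧ ∀ x, P q x = x → g.1 x = f.1 x := by
  induction h with
  | refl => exact ⟨f, q, rfl, le_rfl, fun x _ => rfl⟩
  | tail _ h2 ih =>
    obtain ⟨g, q', rfl, hq, hx⟩ := ih
    obtain ⟨j, hj⟩ := h2
    rcases j with τ' | ⟨p, j⟩
    · simp [child] at hj
    · simp only [child] at hj
      split_ifs at hj with hqp
      obtain ⟨ac, -, hac⟩ := Option.map_eq_some_iff.1 hj
      refine ⟨_, p, hac.symm, hq.trans hqp, fun x hx' => ?_⟩
      have hpx : P p x = x := by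
        have h3 := hP.ge p q x (hq.trans hqp)
        rw [hx'] at h3
        exact h3
      change step P g.1 p ac.1 ac.2 x = f.1 x
      rw [step_eq p _ _ x hpx, hx x hx']

lemma dev_bound {f g : {f : E → ℝ // Lip1 f}} {p : ℕ} (h : ∀ x, P p x = x → g.1 x = f.1 x)
    (hP : ProjSys P) (w : E) : |g.1 w - f.1 w| ≤ 2 * ‖w - P p w‖ := by
  have h1 := g.2.abs_le w (P p w)
  have h2 := f.2.abs_le w (P p w)
  have h3 := h (P p w) (hP.ge p p w le_rfl)
  rw [abs_le] at h1 h2 ⊢
  constructor <;> linarith [h1.1, h1.2, h2.1, h2.2]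

/-- lower bounds for exponents -/
lemma zlow {x : ℝ} (hx : 0 < x) : ∃ m : ℤ, ∀ j : ℤ, x ≤ (2 : ℝ) ^ j → m ≤ j := by
  obtain ⟨m, hm, -⟩ := exists_mem_Ico_zpow hx (by norm_num : (1 : ℝ) < 2)
  exact ⟨m, fun j hj => (zpow_le_zpow_iff_right₀ (by norm_num : (1 : ℝ) < 2)).1 (hm.trans hj)⟩

lemma zupp (X : ℝ) : ∃ m : ℤ, ∀ j : ℤ, (2 : ℝ) ^ j < X → j ≤ m := by
  by_cases hX : 0 < X
  · obtain ⟨m, -, hm⟩ := exists_mem_Ico_zpow hX (by norm_num : (1 : ℝ) < 2)
    refine ⟨m, fun j hj => ?_⟩
    have := (zpow_lt_zpow_iff_right₀ (by norm_num : (1 : ℝ) < 2)).1 (hj.trans hm)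
    omega
  · refine ⟨0, fun j hj => ?_⟩
    have : (0 : ℝ) < (2 : ℝ) ^ j := by positivity
    linarith

lemma finite_params (hη : 0 < η) {ε : ℝ} (hε : 0 < ε) (X : ℝ) :
    {τ : T | adm τ ∧ ε ≤ bB τ ∧ bK η τ < X}.Finite := by
  obtain ⟨j0, hj0⟩ := zlow (show 0 < ε / 64 by positivity)
  obtain ⟨j1, hj1⟩ := zupp (X / (min η 1))
  have hc0 : 0 < min η 1 := lt_min hη one_pos
  obtain ⟨K, hK⟩ := exists_nat_gt (X / (2 : ℝ) ^ j0)
  apply Set.Finite.subset (((Set.finite_Icc j0 j1).prod ((Set.finite_Iic K).prod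
    (Set.finite_Icc (-(64 * 2 ^ K : ℤ)) (64 * 2 ^ K)))))
  rintro ⟨j, k, b⟩ ⟨⟨ha1, ha2⟩, hB, hKX⟩
  simp only [bB, bK] at hB hKX ha1 ha2
  have hr : (0 : ℝ) < (2 : ℝ) ^ j := by positivity
  have h1 : j0 ≤ j := by
    apply hj0
    split_ifs at hB <;> linarith
  have h2 : j ≤ j1 := by
    apply hj1
    rw [lt_div_iff₀ hc0]
    split_ifs at hKX with hk
    · calc (2 : ℝ) ^ j * min η 1 ≤ (2 : ℝ) ^ j * η := by
            gcongr; exact min_le_left _ _
        _ = η * (2 : ℝ) ^ j := by ring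
        _ < X := hKX
    · calc (2 : ℝ) ^ j * min η 1 ≤ (2 : ℝ) ^ j * 1 := by
            gcongr; exact min_le_right _ _
        _ = 1 * (2 : ℝ) ^ j := by ring
        _ ≤ (8 * 2 ^ k) * (2 : ℝ) ^ j := by
            gcongr
            have : (1 : ℝ) ≤ 2 ^ k := one_le_pow₀ (by norm_num)
            linarith
        _ < X := hKX
  have h3 : k ≤ K := by
    split_ifs at hKX with hk
    · omega
    · by_contra hcon
      rw [not_le] at hcon
      have h4 : (K : ℝ) < 2 ^ k := by
        calc (K : ℝ) < k := by exact_mod_cast hcon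
          _ ≤ 2 ^ k := by exact_mod_cast (Nat.lt_two_pow_self (n := k)).le
      have h5 : (2 : ℝ) ^ j0 ≤ (2 : ℝ) ^ j := zpow_le_zpow_right₀ (by norm_num) h1
      have h6 : X < K * (2 : ℝ) ^ j0 := by
        rwa [div_lt_iff₀ (by positivity)] at hK
      have h7 : (K : ℝ) * (2 : ℝ) ^ j0 ≤ 2 ^ k * (2 : ℝ) ^ j := by
        gcongr
      have h8 : (2 : ℝ) ^ k * (2 : ℝ) ^ j ≤ 8 * 2 ^ k * (2 : ℝ) ^ j := by
        have : 0 ≤ (2 : ℝ) ^ k * (2 : ℝ) ^ j := by positivity
        linarith
      linarith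
  refine ⟨⟨h1, h2⟩, h3, ?_⟩
  have h4 : (64 * 2 ^ k : ℤ) ≤ 64 * 2 ^ K := by
    gcongr
    norm_num
  exact abs_le.1 (ha2.trans h4)

theorem finite_dev (hη : 0 < η) (w : E) (s : St E) (ε : ℝ) (hε : 0 < ε) :
    {j : Lab | ∃ s', child hP net s j = some s' ∧ ∃ d, Reach (child hP net) s' d ∧
      ε ≤ |val η d w - val η s w|}.Finite := by
  rcases s with _ | ⟨τ, f, q⟩
  · apply Set.Finite.subset ((finite_params η hη hε ‖w‖).image Sum.inl)
    rintro (τ | pj) ⟨s', h1, d, h2, h3⟩
    · simp only [child] at h1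
      split_ifs at h1 with hadm
      have h1' : s' = St.node τ zf 0 := by simpa using h1.symm
      subst h1'
      obtain ⟨g, q', rfl, -, -⟩ := reach_node hP net h2
      refine ⟨τ, ⟨hadm, ?_, ?_⟩, rfl⟩
      · simp only [val, sub_zero] at h3
        exact h3.trans (cut_le_B (bB_pos τ).le _ _)
      · simp only [val, sub_zero] at h3
        have h4 := h3.trans (cut_le_chi _ _)
        rcases le_max_iff.1 h4 with h5 | h5
        · linarith
        · linarith
    · simp [child] at h1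
  · have hlim : Tendsto (fun p => 2 * ‖w - P p w‖) atTop (𝓝 0) := by
      have h1 : Tendsto (fun p => w - P p w) atTop (𝓝 (w - w)) :=
        tendsto_const_nhds.sub (hP.lim w)
      have h2 := (h1.norm).const_mul 2
      simpa using h2
    obtain ⟨M, hM⟩ := eventually_atTop.1 (hlim.eventually (gt_mem_nhds hε))
    apply Set.Finite.subset (((Set.finite_Iio M).biUnion (fun p _ =>
      (Set.finite_Iio (net τ.1 τ.2.1 p).length).image
        (fun j => (Sum.inr (p, j) : Lab)))))
    rintro (τ' | ⟨p, j⟩) ⟨s', h1, d, h2, h3⟩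
    · simp [child] at h1
    · simp only [child] at h1
      split_ifs at h1 with hqp
      obtain ⟨ac, hac1, hac⟩ := Option.map_eq_some_iff.1 h1
      rw [← hac] at h2
      obtain ⟨g, q', rfl, -, hg⟩ := reach_node hP net h2
      have hdev : ∀ x, P p x = x → g.1 x = f.1 x := by
        intro x hx
        rw [hg x hx]
        exact step_eq p _ _ x hx
      have h4 := dev_bound hdev hP w
      have h5 : |val η (St.node τ g q') w - val η (St.node τ f q) w| ≤ |g.1 w - f.1 w| := by
        simp only [val]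
        apply (cut_sub _ _).trans
        have : g.1 w - (τ.2.2 : ℝ) * (2 : ℝ) ^ τ.1 - (f.1 w - (τ.2.2 : ℝ) * (2 : ℝ) ^ τ.1)
          = g.1 w - f.1 w := by ring
        rw [this]
      have hp : p < M := by
        by_contra hcon
        rw [not_lt] at hcon
        have := hM p hcon
        linarith
      have hj : j < (net τ.1 τ.2.1 p).length := by
        rw [List.getElem?_eq_some_iff] at hac1
        exact hac1.1
      simp only [mem_iUnion, mem_image, mem_Iio, exists_prop]
      exact ⟨p, hp, j, hj, rfl⟩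

/-- The main combinatorial claim. -/
theorem claim (j : ℤ) (k : ℕ) (σ θ R : ℝ) (hσ : 0 < σ) (hθ : 0 ≤ θ)
    (hnet : ∀ (p : ℕ) (x : E) (c : ℝ), ‖x‖ ≤ R → |c| ≤ 2 * R →
      ∃ ac ∈ net j k p, ‖P (p + 1) x - ac.1‖ ≤ θ ∧ |c - ac.2| ≤ θ) :
    ∀ (n N : ℕ) (x y : E), P N x = x → P N y = y → ‖x‖ ≤ R → ‖y‖ ≤ R →
      ‖x - y‖ ≤ (n + 1) * σ →
      ∃ (f : {f : E → ℝ // Lip1 f}) (q : ℕ), q ≤ N ∧
        (∀ b : ℤ, RS (child hP net) n (St.node (j, k, b) zf 0) (St.node (j, k, b) f q)) ∧
        ‖x - y‖ - σ - 4 * n * θ ≤ f.1 x - f.1 y := by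
  intro n
  induction n with
  | zero =>
    intro N x y _ _ _ _ hxy
    refine ⟨zf, 0, Nat.zero_le _, fun b => RS_refl _ _ _, ?_⟩
    simp only [zf, Nat.cast_zero] at hxy ⊢
    linarith
  | succ n ih =>
    intro N x y hx hy hxR hyR hxy
    by_cases hsmall : ‖x - y‖ ≤ (n + 1) * σ
    · obtain ⟨f, q, h1, h2, h3⟩ := ih N x y hx hy hxR hyR hsmall
      refine ⟨f, q, h1, fun b => RS_succ _ (h2 b), ?_⟩
      push_cast
      linarith
    · rw [not_le] at hsmall
      have hex : ∃ p, (n + 1) * σ < ‖P (p + 1) x - P (p + 1) y‖ := by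
        refine ⟨N, ?_⟩
        have e1 : P (N + 1) x = x := by
          have := hP.ge (N + 1) N x (Nat.le_succ N)
          rwa [hx] at this
        have e2 : P (N + 1) y = y := by
          have := hP.ge (N + 1) N y (Nat.le_succ N)
          rwa [hy] at this
        rw [e1, e2]
        exact hsmall
      classical
      set p := Nat.find hex with hp
      have hp1 : (n + 1) * σ < ‖P (p + 1) x - P (p + 1) y‖ := Nat.find_spec hex
      have hp2 : ‖P p x - P p y‖ ≤ (n + 1) * σ := by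
        rcases hp0 : p with _ | p'
        · rw [hP.zero, hP.zero, sub_zero, norm_zero]
          positivity
        · have : p' < Nat.find hex := by omega
          exact not_lt.1 (Nat.find_min hex this)
      have hpN : p < N := by
        rcases N with _ | N'
        · exfalso
          have e1 : x = 0 := by rw [← hx, hP.zero]
          have e2 : y = 0 := by rw [← hy, hP.zero]
          rw [e1, e2, sub_zero, norm_zero] at hsmall
          have : 0 ≤ ((n : ℝ) + 1) * σ := by positivity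
          linarith
        · have : p ≤ N' := by
            apply Nat.find_min'
            rw [hx, hy]
            exact hsmall
          omega
      obtain ⟨f, q, h1, h2, h3⟩ := ih p (P p x) (P p y) (hP.ge p p x le_rfl) (hP.ge p p y le_rfl)
        ((hP.norm_le p x).trans hxR) ((hP.norm_le p y).trans hyR) hp2
      have hc : |f.1 (P p x) + ‖x - P p x‖| ≤ 2 * R := by
        have e1 := f.2.abs_le_norm (P p x)
        have e2 := hP.norm_le p x
        have e3 := hP.norm_le' p x
        have e4 := norm_nonneg (x - P p x)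
        rw [abs_le] at e1 ⊢
        constructor <;> linarith [e1.1, e1.2]
      obtain ⟨ac, hac, ha, hc'⟩ := hnet p x _ hxR hc
      obtain ⟨i, hi, hi2⟩ := List.getElem_of_mem hac
      refine ⟨⟨step P f.1 p ac.1 ac.2, step_lip hP f.2 p ac.1 ac.2⟩, p, hpN.le, fun b => ?_, ?_⟩
      · apply RS_snoc _ (h2 b) (j := Sum.inr (p, i))
        simp only [child]
        rw [if_pos h1, List.getElem?_eq_getElem hi, hi2]
        rfl
      · have e1 := hP.norm_sub p x y
        have key := step_gain (P := P) (f := f.1) p ac.1 ac.2 θ x y ha hc'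
          (‖x - y‖ - σ - 4 * n * θ) ?_ ?_
        · push_cast
          change _ ≤ step P f.1 p ac.1 ac.2 x - step P f.1 p ac.1 ac.2 y
          linarith
        · push_cast at hxy
          have : 0 ≤ 4 * (n : ℝ) * θ := by positivity
          linarith
        · linarith

end tree

end Pool.Agent.H76R3.StepFun
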