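import Mathlib
import Pool.Agent.H76R3.StepFun

set_option autoImplicit false

open Topology Filter Set

namespace Pool.Agent.H76R3.StepFun

open Pool.Agent.H76R3.OrdWalk

variable {E : Type} [NormedAddCommGroup E] {P : ℕ → E →+ E}

theorem exists_net (hP : ProjSys P) (δ : ℝ) (hδ : 0 < δ) :
    ∃ net : ℤ → ℕ → ℕ → List (E × ℝ), ∀ (j : ℤ) (k : ℕ) (p : ℕ) (x : E) (c : ℝ),
      ‖x‖ ≤ 32 * 2 ^ k * (2 : ℝ) ^ j → |c| ≤ 2 * (32 * 2 ^ k * (2 : ℝ) ^ j) →
      ∃ ac ∈ net j k p, ‖P (p + 1) x - ac.1‖ ≤ δ * (2 : ℝ) ^ j ∧ |c - ac.2| ≤ δ * (2 : ℝ) ^ j := by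
  have key : ∀ (j : ℤ) (k : ℕ) (p : ℕ), ∃ L : List (E × ℝ), ∀ (x : E) (c : ℝ),
      ‖x‖ ≤ 32 * 2 ^ k * (2 : ℝ) ^ j → |c| ≤ 2 * (32 * 2 ^ k * (2 : ℝ) ^ j) →
      ∃ ac ∈ L, ‖P (p + 1) x - ac.1‖ ≤ δ * (2 : ℝ) ^ j ∧ |c - ac.2| ≤ δ * (2 : ℝ) ^ j := by
    intro j k p
    have hr : 0 < δ * (2 : ℝ) ^ j := by positivity
    obtain ⟨A, hA⟩ := hP.net (p + 1) (32 * 2 ^ k * (2 : ℝ) ^ j) _ hr
    have hcomp : IsCompact (Set.Icc (-(2 * (32 * 2 ^ k * (2 : ℝ) ^ j)))
      (2 * (32 * 2 ^ k * (2 : ℝ) ^ j))) := isCompact_Icc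
    obtain ⟨C, -, hCfin, hC⟩ := hcomp.finite_cover_balls hr
    refine ⟨(A ×ˢ hCfin.toFinset).toList, fun x c hx hc => ?_⟩
    obtain ⟨a, ha, ha2⟩ := hA x hx
    have hc2 : c ∈ Set.Icc (-(2 * (32 * 2 ^ k * (2 : ℝ) ^ j)))
      (2 * (32 * 2 ^ k * (2 : ℝ) ^ j)) := abs_le.1 hc
    obtain ⟨c', hc', hcc⟩ := mem_iUnion₂.1 (hC hc2)
    refine ⟨(a, c'), ?_, ha2, ?_⟩
    · rw [Finset.mem_toList, Finset.mem_product]
      exact ⟨ha, hCfin.mem_toFinset.2 hc'⟩
    · rw [Metric.mem_ball, Real.dist_eq] at hcc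
      exact hcc.le
  choose net hnet using key
  exact ⟨net, hnet⟩

theorem main (hP : ProjSys P) (ε : ℝ) (hε : 0 < ε) :
    ∃ F : E → Ordinal.{0} → ℝ, (∀ w, Continuous (F w)) ∧ (∀ w t, |F w t| ≤ ‖w‖) ∧
      (∀ w w' t, |F w t - F w' t| ≤ ‖w - w'‖) ∧
      ∀ N x y, P N x = x → P N y = y → x ≠ y →
        ∃ t ≤ (Ordinal.omega0 : Ordinal.{0}) ^ (Ordinal.omega0 : Ordinal.{0}),
          (1 - ε) * ‖x - y‖ ≤ |F x t - F y t| := by
  obtain ⟨n, hn⟩ := exists_nat_gt (6 / ε)
  have hn' : (0 : ℝ) < (n : ℝ) + 1 := by positivity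
  set δ : ℝ := ε / (12 * (n + 1)) with hδ
  have hδ0 : 0 < δ := by positivity
  set η : ℝ := ε / 6 with hη
  have hη0 : 0 < η := by positivity
  obtain ⟨net, hnet⟩ := exists_net hP δ hδ0
  refine ⟨fun w t => val η (walk (child hP net) (n + 1) St.root t) w, ?_, ?_, ?_, ?_⟩
  · intro w
    exact continuous_walk (child hP net) (fun s => val η s w)
      (fun s ε hε => finite_dev hP net η hη0 w s ε hε) (n + 1) St.root
  · intro w t
    exact val_norm η hη0.le _ w
  · intro w w' t
    exact val_lip η _ w w'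
  · intro N x y hx hy hxy
    have hpos : 0 < ‖x - y‖ := norm_pos_iff.2 (sub_ne_zero.2 hxy)
    obtain ⟨j, hj1, hj2⟩ := exists_mem_Ico_zpow hpos (by norm_num : (1 : ℝ) < 2)
    have hr : (0 : ℝ) < (2 : ℝ) ^ j := by positivity
    have hj3 : ‖x - y‖ < 2 * (2 : ℝ) ^ j := by
      rw [zpow_add_one₀ (by norm_num)] at hj2
      linarith
    set r : ℝ := (2 : ℝ) ^ j with hrdef
    -- choice of k
    have hk : ∃ k : ℕ, ‖x‖ ≤ 32 * 2 ^ k * r ∧ ‖y‖ ≤ 32 * 2 ^ k * r ∧
        (k ≠ 0 → 16 * 2 ^ k * r < max ‖x‖ ‖y‖) := by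
      have hex : ∃ k : ℕ, max ‖x‖ ‖y‖ ≤ 32 * 2 ^ k * r := by
        obtain ⟨m, hm⟩ := exists_nat_gt (max ‖x‖ ‖y‖ / r)
        refine ⟨m, ?_⟩
        rw [div_lt_iff₀ hr] at hm
        have h1 : (m : ℝ) ≤ 2 ^ m := by exact_mod_cast (Nat.lt_two_pow_self (n := m)).le
        calc max ‖x‖ ‖y‖ ≤ m * r := hm.le
          _ ≤ (32 * 2 ^ m) * r := by
              gcongr
              have : (0 : ℝ) ≤ 2 ^ m := by positivity
              linarith
      classical
      refine ⟨Nat.find hex, ?_, ?_, ?_⟩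
      · exact (le_max_left _ _).trans (Nat.find_spec hex)
      · exact (le_max_right _ _).trans (Nat.find_spec hex)
      · intro hk0
        obtain ⟨k', hk'⟩ := Nat.exists_eq_succ_of_ne_zero hk0
        have hlt : k' < Nat.find hex := by omega
        have := not_le.1 (Nat.find_min hex hlt)
        rw [hk', Nat.succ_eq_add_one, pow_succ]
        calc 16 * (2 ^ k' * 2) * r = 32 * 2 ^ k' * r := by ring
          _ < _ := this
    obtain ⟨k, hxk, hyk, hkk⟩ := hk
    -- apply the claim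
    obtain ⟨f, q, -, hRS, hf⟩ := claim hP net j k (2 * r / (n + 1)) (δ * r) (32 * 2 ^ k * r)
      (by positivity) (by positivity) (fun p x c h1 h2 => hnet j k p x c h1 h2) n N x y hx hy
      hxk hyk (by
        have : ((n : ℝ) + 1) * (2 * r / (n + 1)) = 2 * r := by field_simp
        rw [this]; exact hj3.le)
    have hloss1 : 2 * r / ((n : ℝ) + 1) ≤ ε / 3 * r := by
      rw [div_le_iff₀ hn']
      have h1 : 6 < ε * n := by
        rw [div_lt_iff₀ hε] at hn
        linarith
      nlinarith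
    have hloss2 : 4 * (n : ℝ) * (δ * r) ≤ ε / 3 * r := by
      have h1 : 4 * (n : ℝ) * δ ≤ ε / 3 := by
        rw [hδ]
        have : 4 * (n : ℝ) * (ε / (12 * (n + 1))) = (ε / 3) * (n / (n + 1)) := by
          field_simp
          ring
        rw [this]
        have h2 : (n : ℝ) / (n + 1) ≤ 1 := by
          rw [div_le_one hn']
          linarith
        have h3 : 0 ≤ ε / 3 := by positivity
        nlinarith
      calc 4 * (n : ℝ) * (δ * r) = 4 * (n : ℝ) * δ * r := by ring
        _ ≤ ε / 3 * r := by gcongr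
    have hgoal : (1 - ε) * ‖x - y‖ ≤ ‖x - y‖ - ε * r := by
      nlinarith
    have hfinal : ∃ b : ℤ, adm (j, k, b) ∧ f.1 x - f.1 y - ε / 3 * r
        ≤ |val η (St.node (j, k, b) f q) x - val η (St.node (j, k, b) f q) y| := by
      by_cases hk0 : k = 0
      · subst hk0
        refine ⟨0, ⟨fun _ => rfl, by simp⟩, ?_⟩
        have hB : bB ((j, 0, 0) : T) = 64 * r := by simp [bB, hrdef]
        have hK : bK η ((j, 0, 0) : T) = η * r := by simp [bK, hrdef]
        simp only [val, hB, hK, Int.cast_zero, zero_mul, sub_zero]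
        have h1 : |f.1 x| ≤ ‖x‖ := f.2.abs_le_norm x
        have h2 : |f.1 y| ≤ ‖y‖ := f.2.abs_le_norm y
        have hx' : ‖x‖ ≤ 32 * r := by simpa using hxk
        have hy' : ‖y‖ ≤ 32 * r := by simpa using hyk
        have e1 := cut_near (κ := η * r) (B := 64 * r) x (f.1 x) (by positivity) (by linarith) h1
        have e2 := cut_near (κ := η * r) (B := 64 * r) y (f.1 y) (by positivity) (by linarith) h2
        rw [abs_le] at e1 e2
        have h3 : η * r = ε / 6 * r := by rw [hη]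
        refine le_trans ?_ (le_abs_self _)
        linarith [e1.1, e1.2, e2.1, e2.2]
      · set b : ℤ := ⌊f.1 x / r⌋ with hb
        have hb1 : (b : ℝ) * r ≤ f.1 x := by
          have := Int.floor_le (f.1 x / r)
          rwa [le_div_iff₀ hr] at this
        have hb2 : f.1 x < (b : ℝ) * r + r := by
          have := Int.lt_floor_add_one (f.1 x / r)
          rw [div_lt_iff₀ hr] at this
          linarith
        have h1 : |f.1 x| ≤ ‖x‖ := f.2.abs_le_norm x
        have hpow : (1 : ℝ) ≤ 2 ^ k := one_le_pow₀ (by norm_num)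
        have hpow2 : (2 : ℝ) ≤ 2 ^ k := by
          calc (2 : ℝ) = 2 ^ 1 := by norm_num
            _ ≤ 2 ^ k := pow_le_pow_right₀ (by norm_num) (Nat.one_le_iff_ne_zero.2 hk0)
        have hadm : adm (j, k, b) := by
          refine ⟨fun h => absurd h hk0, ?_⟩
          have h4 := abs_le.1 (h1.trans hxk)
          have h5 : ((|b| : ℤ) : ℝ) ≤ ((64 * 2 ^ k : ℤ) : ℝ) := by
            push_cast
            rw [abs_le]
            constructor
            · by_contra hcon
              rw [not_le] at hcon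
              have : ((b : ℝ) + 1) * r < (-(64 * 2 ^ k) + 1) * r := by
                apply mul_lt_mul_of_pos_right _ hr
                linarith
              nlinarith [h4.1]
            · by_contra hcon
              rw [not_le] at hcon
              have : (64 * 2 ^ k) * r < (b : ℝ) * r := mul_lt_mul_of_pos_right hcon hr
              nlinarith [h4.2]
          exact_mod_cast h5
        refine ⟨b, hadm, ?_⟩
        have hB : bB ((j, k, b) : T) = 4 * r := by simp [bB, hk0, hrdef]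
        have hK : bK η ((j, k, b) : T) = 8 * 2 ^ k * r := by simp [bK, hk0, hrdef]
        simp only [val, hB, hK]
        have hmax := hkk hk0
        have hxy1 : ‖x‖ ≤ ‖y‖ + ‖x - y‖ := by
          have := norm_add_le y (x - y)
          simpa using this
        have hxy2 : ‖y‖ ≤ ‖x‖ + ‖x - y‖ := by
          have := norm_sub_le x (x - y)
          simpa using this
        have hxbig : 16 * 2 ^ k * r - 2 * r ≤ ‖x‖ := by
          rcases max_cases ‖x‖ ‖y‖ with h | h
          · rw [h.1] at hmax; linarith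
          · rw [h.1] at hmax; linarith
        have hybig : 16 * 2 ^ k * r - 2 * r ≤ ‖y‖ := by
          rcases max_cases ‖x‖ ‖y‖ with h | h
          · rw [h.1] at hmax; linarith
          · rw [h.1] at hmax; linarith
        have hkr : 2 * r ≤ 2 ^ k * r := by gcongr
        have hfxy := abs_le.1 (f.2.abs_le x y)
        have hux : |f.1 x - (b : ℝ) * r| ≤ 4 * r := by
          rw [abs_le]; constructor <;> linarith
        have huy : |f.1 y - (b : ℝ) * r| ≤ 4 * r := by
          rw [abs_le]; constructor <;> linarith [hfxy.1, hfxy.2]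
        rw [cut_eq x _ hux (by linarith), cut_eq y _ huy (by linarith)]
        refine le_trans ?_ (le_abs_self _)
        have : 0 ≤ ε / 3 * r := by positivity
        linarith
    obtain ⟨b, hadm, hb⟩ := hfinal
    have hRS' : RS (child hP net) (n + 1) St.root (St.node (j, k, b) f q) := by
      refine Or.inr ⟨Sum.inl (j, k, b), St.node (j, k, b) zf 0, ?_, hRS b⟩
      simp only [child]
      rw [if_pos hadm]
    obtain ⟨t, -, ht, hw⟩ := exists_walk (child hP net) hRS'
    refine ⟨t, ht.trans (W_le _), ?_⟩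
    simp only [hw]
    linarith

end Pool.Agent.H76R3.StepFun
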