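import Mathlib
import Pool.Agent.H76R3.L1Main

set_option autoImplicit false

open Topology Filter Set

namespace Pool.Agent.H76R3.StepFun

/-- the space `l1` -/
abbrev L1 : Type := lp (fun _ : ℕ => ℝ) 1

/-- the coordinate projection -/
noncomputable def PL (p : ℕ) : L1 →+ L1 where
  toFun x := ∑ i ∈ Finset.range p, lp.single 1 i (x i)
  map_zero' := by simp
  map_add' x y := by
    rw [← Finset.sum_add_distrib]
    apply Finset.sum_congr rfl
    intro i _
    rw [← lp.single_add]
    rfl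

lemma PL_apply (p : ℕ) (x : L1) : PL p x = ∑ i ∈ Finset.range p, lp.single 1 i (x i) := rfl

lemma PL_coord (p : ℕ) (x : L1) (i : ℕ) : (PL p x) i = if i < p then x i else 0 := by
  rw [PL_apply, lp.coeFn_sum, Finset.sum_apply]
  simp only [lp.coeFn_single]
  rw [Finset.sum_pi_single]
  simp

lemma PL_norm_add (p : ℕ) (x : L1) : ‖PL p x‖ + ‖x - PL p x‖ = ‖x‖ := by
  have h1 := lp.norm_sum_single (p := 1) (E := fun _ : ℕ => ℝ) (by norm_num)
    (fun i => x i) (Finset.range p)
  have h2 := lp.norm_compl_sum_single (p := 1) (E := fun _ : ℕ => ℝ) (by norm_num)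
    x (Finset.range p)
  simp only [ENNReal.toReal_one, Real.rpow_one] at h1 h2
  rw [PL_apply, h1, h2]
  ring

lemma PL_net (p : ℕ) (R θ : ℝ) (hθ : 0 < θ) :
    ∃ A : Finset L1, ∀ x : L1, ‖x‖ ≤ R → ∃ a ∈ A, ‖PL p x - a‖ ≤ θ := by
  have hcont : Continuous (fun g : Fin p → ℝ => ∑ i : Fin p, lp.single (E := fun _ : ℕ => ℝ) 1
      (i : ℕ) (g i)) := by
    apply continuous_finsetSum
    intro i _
    exact (lp.isometry_single (E := fun _ : ℕ => ℝ) (p := 1) (i : ℕ)).continuous.comp
      (continuous_apply i)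
  have hcomp : IsCompact ((fun g : Fin p → ℝ => ∑ i : Fin p, lp.single (E := fun _ : ℕ => ℝ) 1
      (i : ℕ) (g i)) '' (Set.pi Set.univ (fun _ => Set.Icc (-R) R))) :=
    (isCompact_univ_pi (fun _ => isCompact_Icc)).image hcont
  obtain ⟨C, -, hCfin, hC⟩ := hcomp.finite_cover_balls hθ
  refine ⟨hCfin.toFinset, fun x hx => ?_⟩
  have hmem : PL p x ∈ ((fun g : Fin p → ℝ => ∑ i : Fin p, lp.single (E := fun _ : ℕ => ℝ) 1
      (i : ℕ) (g i)) '' (Set.pi Set.univ (fun _ => Set.Icc (-R) R))) := by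
    refine ⟨fun i => x i, ?_, ?_⟩
    · intro i _
      have := lp.norm_apply_le_norm (p := 1) (by norm_num) x (i : ℕ)
      rw [Real.norm_eq_abs] at this
      exact abs_le.1 (this.trans hx)
    · rw [PL_apply, Finset.sum_range]
  obtain ⟨a, ha, ha2⟩ := mem_iUnion₂.1 (hC hmem)
  refine ⟨a, hCfin.mem_toFinset.2 ha, ?_⟩
  rw [Metric.mem_ball, dist_eq_norm] at ha2
  exact ha2.le

lemma projSys : ProjSys (E := L1) PL where
  norm_add := PL_norm_add
  zero := fun x => by rw [PL_apply]; simp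
  le := by
    intro p q x hpq
    ext i
    simp only [PL_coord]
    split_ifs <;> first | rfl | omega
  ge := by
    intro p q x hpq
    ext i
    simp only [PL_coord]
    split_ifs <;> first | rfl | omega
  lim := fun x => (lp.hasSum_single (p := 1) (by norm_num) x).tendsto_sum_nat
  net := PL_net

end Pool.Agent.H76R3.StepFun
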