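import Pool.Agent.H76R3.Renorm

set_option autoImplicit false

open Topology Filter Set

namespace Pool.Agent.H76R3.LB

/-- coding of the index set -/
def code (i : Option (List ℕ ⊕ List ℕ)) : ℕ := Encodable.encode i

lemma code_inj {i j : Option (List ℕ ⊕ List ℕ)} (h : code i = code j) : i = j :=
  Encodable.encode_injective h

/-- nonempty prefixes -/
def pre (v : List ℕ) : Finset (List ℕ) := v.inits.toFinset.erase []

lemma mem_pre {v s : List ℕ} : s ∈ pre v ↔ s ≠ [] ∧ s <+: v := by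
  simp [pre, List.mem_inits]

lemma card_pre (v : List ℕ) : (pre v).card ≤ v.length + 1 := by
  have h1 : (pre v).card ≤ v.inits.toFinset.card := Finset.card_le_card (Finset.erase_subset _ _)
  have h2 := List.toFinset_card_le v.inits
  rw [List.length_inits] at h2
  exact h1.trans h2

section
variable (p : ENNReal) [Fact (1 ≤ p)]

/-- coordinate functionals -/
noncomputable def cL (i : Option (List ℕ ⊕ List ℕ)) : lp (fun _ : ℕ => ℝ) p →L[ℝ] ℝ :=
  lp.evalCLM ℝ (fun _ : ℕ => ℝ) p (code i)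

/-- basis vectors -/
noncomputable def bv (i : Option (List ℕ ⊕ List ℕ)) : lp (fun _ : ℕ => ℝ) p :=
  lp.single p (code i) (1 : ℝ)

lemma cL_apply (i : Option (List ℕ ⊕ List ℕ)) (a : lp (fun _ : ℕ => ℝ) p) :
    cL p i a = a (code i) := rfl

lemma cL_bv (i j : Option (List ℕ ⊕ List ℕ)) : cL p i (bv p j) = if i = j then 1 else 0 := by
  rw [cL_apply, bv, lp.single_apply]
  by_cases h : i = j
  · subst h
    simp
  · rw [if_neg h, Pi.single_eq_of_ne]
    exact fun hh => h (code_inj hh)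

lemma norm_cL (i : Option (List ℕ ⊕ List ℕ)) : ‖cL p i‖ ≤ 1 := by
  apply ContinuousLinearMap.opNorm_le_bound _ zero_le_one
  intro a
  have hp : p ≠ 0 := (zero_lt_one.trans_le Fact.out).ne'
  rw [one_mul]
  exact lp.norm_apply_le_norm hp a (code i)

lemma norm_bv (i : Option (List ℕ ⊕ List ℕ)) : ‖bv p i‖ = 1 := by
  have hp : 0 < p := zero_lt_one.trans_le Fact.out
  rw [bv, lp.norm_single hp]
  simp

/-- tree vectors -/
noncomputable def zz (s : List ℕ) : lp (fun _ : ℕ => ℝ) p := bv p none + bv p (some (Sum.inl s))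

/-- leaf vectors -/
noncomputable def uu (v : List ℕ) : lp (fun _ : ℕ => ℝ) p := bv p (some (Sum.inr v))

/-- branch functionals -/
noncomputable def hh (v : List ℕ) : lp (fun _ : ℕ => ℝ) p →L[ℝ] ℝ :=
  (-(1/4 : ℝ)) • cL p none + (1/2 : ℝ) • (∑ s ∈ pre v, cL p (some (Sum.inl s)))
    + (1/2 : ℝ) • cL p (some (Sum.inr v))

lemma hh_apply (v : List ℕ) (a : lp (fun _ : ℕ => ℝ) p) :
    hh p v a = -(1/4) * cL p none a + 1/2 * (∑ s ∈ pre v, cL p (some (Sum.inl s)) a)
      + 1/2 * cL p (some (Sum.inr v)) a := by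
  simp [hh]

lemma hh_zz (v s : List ℕ) : hh p v (zz p s) = -(1/4) + 1/2 * (if s ∈ pre v then 1 else 0) := by
  rw [hh_apply]
  simp only [zz, map_add, cL_bv]
  simp

lemma hh_uu (v v' : List ℕ) : hh p v (uu p v') = 1/2 * (if v = v' then 1 else 0) := by
  rw [hh_apply]
  simp only [uu, cL_bv]
  simp

lemma lconf (P : List ℕ → Prop) (C : ℝ) (hC : 0 < C) (hb : ∀ v, P v → ‖hh p v‖ ≤ C) :
    LConf P (uu p) (zz p) (hh p) C 2 where
  hC := hC
  hE := by norm_num
  bh := hb
  bu := fun v => by rw [uu, norm_bv]; norm_num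
  bz := fun s => (norm_add_le _ _).trans (by rw [norm_bv, norm_bv]; norm_num)
  uu := fun v _ => by rw [hh_uu]; simp
  uv := fun v v' _ _ hne => by rw [hh_uu]; simp [hne]
  zle := fun v s _ => by
    rw [hh_zz]
    split_ifs <;> norm_num [abs_le]
  z1 := fun v s m _ h => by
    rw [hh_zz, if_pos]
    · norm_num
    · rw [mem_pre]
      exact ⟨by simp, h⟩
  z2 := fun v s m m' _ hm h => by
    rw [hh_zz, if_neg]
    · norm_num
    · rw [mem_pre]
      rintro ⟨-, h2⟩
      have h1 : s ++ [m] <+: v := by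
        refine List.IsPrefix.trans ?_ h
        exact ⟨[m'], by simp⟩
      have h3 : s ++ [m] <+: s ++ [m'] := List.prefix_of_prefix_length_le h1 h2 (by simp)
      have h4 : s ++ [m] = s ++ [m'] := h3.eq_of_length (by simp)
      have h5 : [m] = [m'] := List.append_cancel_left h4
      simp at h5
      omega

lemma norm_hh_le (v : List ℕ) : ‖hh p v‖ ≤ 1/4 + 1/2 * (v.length + 1) + 1/2 := by
  unfold hh
  refine (norm_add_le _ _).trans ?_
  refine (add_le_add (norm_add_le _ _) le_rfl).trans ?_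
  rw [norm_smul, norm_smul, norm_smul]
  have h1 := norm_cL p none
  have h2 := norm_cL p (some (Sum.inr v))
  have h3 : ‖∑ s ∈ pre v, cL p (some (Sum.inl s))‖ ≤ (v.length + 1 : ℝ) := by
    refine (norm_sum_le _ _).trans ?_
    refine (Finset.sum_le_card_nsmul _ _ 1 (fun s _ => norm_cL p _)).trans ?_
    rw [nsmul_eq_mul, mul_one]
    exact_mod_cast card_pre v
  rw [show ‖-(1/4 : ℝ)‖ = 1/4 by norm_num, show ‖(1/2 : ℝ)‖ = 1/2 by norm_num]
  nlinarith

end

/-- in `ℓ₁` the branch functionals are uniformly bounded -/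
lemma norm_hh_one (v : List ℕ) : ‖hh 1 v‖ ≤ 2 := by
  apply ContinuousLinearMap.opNorm_le_bound _ (by norm_num)
  intro a
  rw [hh_apply]
  have h1 : ∀ i, |cL 1 i a| ≤ ‖a‖ := by
    intro i
    rw [← Real.norm_eq_abs]
    exact ((cL 1 i).le_opNorm a).trans (by
      have := norm_cL 1 i
      nlinarith [norm_nonneg a])
  have h3 : |∑ s ∈ pre v, cL 1 (some (Sum.inl s)) a| ≤ ‖a‖ := by
    refine (Finset.abs_sum_le_sum_abs _ _).trans ?_
    have h4 := lp.sum_rpow_le_norm_rpow (p := 1) (by simp) a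
      ((pre v).image (fun s => code (some (Sum.inl s))))
    rw [Finset.sum_image] at h4
    · simpa [cL_apply] using h4
    · intro s _ s' _ hss
      have := code_inj hss
      simpa using this
  have e1 := abs_le.1 (h1 none)
  have e2 := abs_le.1 (h1 (some (Sum.inr v)))
  have e3 := abs_le.1 h3
  rw [Real.norm_eq_abs]
  refine abs_le.2 ⟨?_, ?_⟩ <;> linarith [e1.1, e1.2, e2.1, e2.2, e3.1, e3.2]

/-- A renorming of `ℓ₂` containing the configuration of height `N`. -/
theorem exists_l2 (N : ℕ) :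
    ∃ (Y : Type) (_ : NormedAddCommGroup Y) (_ : NormedSpace ℝ Y) (_ : CompleteSpace Y)
      (_ : lp (fun _ : ℕ => ℝ) 2 ≃L[ℝ] Y), ∃ x y z : List ℕ → Y,
        Conf (fun v => v.length = N) x y z := by
  refine exists_renorm (lconf 2 (fun v => v.length = N) (1/4 + 1/2 * (N + 1) + 1/2)
    (by positivity) ?_)
  intro v hv
  have := norm_hh_le 2 v
  rw [hv] at this
  exact this

/-- A renorming of `ℓ₁` containing the full configuration. -/
theorem exists_l1 :
    ∃ (Y : Type) (_ : NormedAddCommGroup Y) (_ : NormedSpace ℝ Y) (_ : CompleteSpace Y)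
      (_ : lp (fun _ : ℕ => ℝ) 1 ≃L[ℝ] Y), ∃ x y z : List ℕ → Y,
        Conf (fun _ => True) x y z :=
  exists_renorm (lconf 1 (fun _ => True) 2 (by norm_num) (fun v _ => norm_hh_one v))

end Pool.Agent.H76R3.LB
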