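import Pool.Agent.H76R3.CoreLB

set_option autoImplicit false

open Topology Filter Set

namespace Pool.Agent.H76R3.LB

/-- A family of vectors and functionals in a normed space, from which the renorming is made. -/
structure LConf {X : Type} [NormedAddCommGroup X] [NormedSpace ℝ X] (P : List ℕ → Prop)
    (u z : List ℕ → X) (h : List ℕ → (X →L[ℝ] ℝ)) (C E : ℝ) : Prop where
  hC : 0 < C
  hE : 0 < E
  bh : ∀ v, P v → ‖h v‖ ≤ C
  bu : ∀ v, ‖u v‖ ≤ E
  bz : ∀ s, ‖z s‖ ≤ E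
  uu : ∀ v, P v → h v (u v) = 1/2
  uv : ∀ v v', P v → P v' → v ≠ v' → h v (u v') = 0
  zle : ∀ v s, P v → |h v (z s)| ≤ 1/4
  z1 : ∀ v s m, P v → s ++ [m] <+: v → h v (z (s ++ [m])) = 1/4
  z2 : ∀ v s m m', P v → m < m' → s ++ [m, m'] <+: v → h v (z (s ++ [m'])) = -(1/4)

section
variable {X : Type} [NormedAddCommGroup X] [NormedSpace ℝ X]

/-- the functionals defining the new norm -/
def Phi (P : List ℕ → Prop) (u z : List ℕ → X) (C : ℝ) : Set (X →L[ℝ] ℝ) :=
  {φ | ‖φ‖ ≤ C ∧ (∀ v s m, P v → s ++ [m] <+: v → |φ (u v - z (s ++ [m]))| ≤ 1/4) ∧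
    (∀ v s m m', P v → m < m' → s ++ [m, m'] <+: v → |φ (-u v - z (s ++ [m']))| ≤ 1/4)}

/-- evaluation at the functionals -/
noncomputable def TT (P : List ℕ → Prop) (u z : List ℕ → X) (C : ℝ) (hC : 0 < C) :
    X →L[ℝ] lp (fun _ : Phi P u z C => ℝ) ⊤ :=
  LinearMap.mkContinuous
    { toFun := fun w => ⟨fun φ => φ.1 w, by
        apply memℓp_infty
        refine ⟨C * ‖w‖, ?_⟩
        rintro _ ⟨φ, rfl⟩
        exact (φ.1.le_opNorm w).trans (mul_le_mul_of_nonneg_right φ.2.1 (norm_nonneg _))⟩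
      map_add' := fun a b => by
        ext φ
        change φ.1 (a + b) = φ.1 a + φ.1 b
        rw [map_add]
      map_smul' := fun c a => by
        ext φ
        change φ.1 (c • a) = c * φ.1 a
        rw [map_smul, smul_eq_mul] } C
    (fun w => by
      apply lp.norm_le_of_forall_le (by positivity)
      intro φ
      exact (φ.1.le_opNorm w).trans (mul_le_mul_of_nonneg_right φ.2.1 (norm_nonneg _)))

@[simp] lemma TT_apply (P : List ℕ → Prop) (u z : List ℕ → X) (C : ℝ) (hC : 0 < C) (w : X)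
    (φ : Phi P u z C) : TT P u z C hC w φ = φ.1 w := rfl

lemma h_mem {P : List ℕ → Prop} {u z : List ℕ → X} {h : List ℕ → (X →L[ℝ] ℝ)} {C E : ℝ}
    (H : LConf P u z h C E) (v : List ℕ) (hv : P v) : h v ∈ Phi P u z C := by
  refine ⟨H.bh v hv, ?_, ?_⟩
  · intro v' s m hv' hs
    rw [map_sub]
    by_cases he : v = v'
    · subst he
      rw [H.uu v hv, H.z1 v s m hv hs]
      norm_num
    · rw [H.uv v v' hv hv' he, zero_sub, abs_neg]
      exact H.zle _ _ hv
  · intro v' s m m' hv' hm hs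
    rw [map_sub, map_neg]
    by_cases he : v = v'
    · subst he
      rw [H.uu v hv, H.z2 v s m m' hv hm hs]
      norm_num
    · rw [H.uv v v' hv hv' he, neg_zero, zero_sub, abs_neg]
      exact H.zle _ _ hv

lemma TT_lower {P : List ℕ → Prop} {u z : List ℕ → X} {h : List ℕ → (X →L[ℝ] ℝ)} {C E : ℝ}
    (H : LConf P u z h C E) : ∃ δ : ℝ, 0 < δ ∧ ∀ w, δ * ‖w‖ ≤ ‖TT P u z C H.hC w‖ := by
  have hC := H.hC
  have hE := H.hE
  refine ⟨min C (1 / (8 * E)), by positivity, ?_⟩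
  set δ := min C (1 / (8 * E)) with hδ
  have hδ0 : 0 < δ := by positivity
  intro w
  obtain ⟨g, hg1, hg2⟩ := exists_dual_vector'' ℝ w
  have hbd : ∀ a : X, ‖a‖ ≤ 2 * E → |(δ • g) a| ≤ 1/4 := by
    intro a ha
    have h1 : |(δ • g) a| ≤ δ * ‖a‖ := by
      have h2 : ‖g a‖ ≤ 1 * ‖a‖ := (g.le_opNorm a).trans (by gcongr)
      rw [smul_apply, smul_eq_mul, abs_mul, abs_of_pos hδ0]
      rw [Real.norm_eq_abs, one_mul] at h2
      gcongr
    have h3 : δ * ‖a‖ ≤ (1 / (8 * E)) * (2 * E) := by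
      apply mul_le_mul (min_le_right _ _) ha (norm_nonneg _) (by positivity)
    have h4 : (1 / (8 * E)) * (2 * E) = 1/4 := by field_simp; norm_num
    linarith
  have hmem : δ • g ∈ Phi P u z C := by
    refine ⟨?_, ?_, ?_⟩
    · rw [norm_smul, Real.norm_of_nonneg hδ0.le]
      calc δ * ‖g‖ ≤ δ * 1 := by gcongr
        _ ≤ C := by rw [mul_one]; exact min_le_left _ _
    · intro v s m _ _
      apply hbd
      calc ‖u v - z (s ++ [m])‖ ≤ ‖u v‖ + ‖z (s ++ [m])‖ := norm_sub_le _ _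
        _ ≤ 2 * E := by linarith [H.bu v, H.bz (s ++ [m])]
    · intro v s m m' _ _ _
      apply hbd
      calc ‖-u v - z (s ++ [m'])‖ ≤ ‖-u v‖ + ‖z (s ++ [m'])‖ := norm_sub_le _ _
        _ ≤ 2 * E := by rw [norm_neg]; linarith [H.bu v, H.bz (s ++ [m'])]
  have h5 := lp.norm_apply_le_norm (p := ⊤) ENNReal.top_ne_zero (TT P u z C H.hC w) ⟨_, hmem⟩
  rw [TT_apply] at h5
  have h6 : ‖(δ • g) w‖ = δ * ‖w‖ := by
    change ‖δ * g w‖ = _
    rw [hg2, norm_mul, Real.norm_of_nonneg hδ0.le]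
    simp
  rw [← h6]
  exact h5

/-- The renorming. -/
theorem exists_renorm [CompleteSpace X] {P : List ℕ → Prop} {u z : List ℕ → X}
    {h : List ℕ → (X →L[ℝ] ℝ)} {C E : ℝ} (H : LConf P u z h C E) :
    ∃ (Y : Type) (_ : NormedAddCommGroup Y) (_ : NormedSpace ℝ Y) (_ : CompleteSpace Y)
      (_ : X ≃L[ℝ] Y), ∃ x y z : List ℕ → Y, Conf P x y z := by
  obtain ⟨δ, hδ, hlow⟩ := TT_lower H
  set T := TT P u z C H.hC with hT
  have hanti : AntilipschitzWith ⟨δ⁻¹, by positivity⟩ T := by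
    apply ContinuousLinearMap.antilipschitz_of_bound
    intro w
    have := hlow w
    change ‖w‖ ≤ δ⁻¹ * ‖T w‖
    rw [inv_mul_eq_div, le_div_iff₀ hδ, mul_comm]
    exact this
  have hclo : IsClosed (Set.range T) := hanti.isClosed_range T.uniformContinuous
  have hinj : Function.Injective T := hanti.injective
  have hcomp : CompleteSpace T.range := by
    have : IsClosed (T.range : Set (lp (fun _ : Phi P u z C => ℝ) ⊤)) := by
      rw [LinearMap.coe_range]
      exact hclo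
    exact this.completeSpace_coe
  refine ⟨T.range, inferInstance, inferInstance, hcomp, T.equivRange hinj hclo,
    fun v => ⟨T (u v), ⟨_, rfl⟩⟩, fun v => ⟨T (- u v), ⟨_, rfl⟩⟩, fun s => ⟨T (z s), ⟨_, rfl⟩⟩, ?_⟩
  have hdist : ∀ a b : X, dist (⟨T a, ⟨_, rfl⟩⟩ : T.range) ⟨T b, ⟨_, rfl⟩⟩ = ‖T (a - b)‖ := by
    intro a b
    rw [Subtype.dist_eq, dist_eq_norm, map_sub]
  refine ⟨⟨C * (2 * E), ?_⟩, ?_, ?_, ?_⟩
  · intro s s'
    rw [hdist]
    have h1 : ‖T (z s - z s')‖ ≤ C * ‖z s - z s'‖ := by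
      apply lp.norm_le_of_forall_le
      · have := H.hC
        positivity
      · intro φ
        exact (φ.1.le_opNorm _).trans (mul_le_mul_of_nonneg_right φ.2.1 (norm_nonneg _))
    have h2 : ‖z s - z s'‖ ≤ 2 * E := (norm_sub_le _ _).trans (by linarith [H.bz s, H.bz s'])
    exact h1.trans (mul_le_mul_of_nonneg_left h2 H.hC.le)
  · intro s m v hv hs
    rw [hdist]
    apply lp.norm_le_of_forall_le (by norm_num)
    intro φ
    exact φ.2.2.1 v s m hv hs
  · intro s m m' v hv hm hs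
    rw [hdist]
    apply lp.norm_le_of_forall_le (by norm_num)
    intro φ
    exact φ.2.2.2 v s m m' hv hm hs
  · intro v hv
    rw [hdist]
    have h5 := lp.norm_apply_le_norm (p := ⊤) ENNReal.top_ne_zero (T (u v - -u v)) ⟨_, h_mem H v hv⟩
    refine le_trans ?_ h5
    rw [hT, TT_apply]
    simp only
    rw [map_sub, map_neg, H.uu v hv]
    norm_num

end

end Pool.Agent.H76R3.LB
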