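import Pool.Agent.H76R3.SRMain

set_option autoImplicit false

open Topology Filter Set

namespace Pool.Agent.H76R3.SR

open Pool.Agent.H76R3.OrdWalk Pool.Agent.H76R3.StepFun

lemma uc_additive (Y : Type) [NormedAddCommGroup Y] [NormedSpace ℝ Y] [UniformConvexSpace Y]
    (s B : ℝ) (hs : 0 < s) (hB : 0 < B) : ∃ c : ℝ, 0 < c ∧ ∀ u v : Y, ‖u‖ ≤ B → ‖v‖ ≤ B →
      s ≤ ‖u - v‖ → ‖(1/2 : ℝ) • (u + v)‖ ≤ max ‖u‖ ‖v‖ - c := by
  obtain ⟨δ, hδ, h⟩ := exists_forall_closed_ball_dist_add_le_two_sub Y (div_pos hs hB)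
  refine ⟨s * δ / 4, by positivity, ?_⟩
  intro u v hu hv hsep
  set M := max ‖u‖ ‖v‖ with hM
  have huM : ‖u‖ ≤ M := le_max_left _ _
  have hvM : ‖v‖ ≤ M := le_max_right _ _
  have hMB : M ≤ B := max_le hu hv
  have hMs : s / 2 ≤ M := by
    have := norm_sub_le u v
    linarith
  have hM0 : 0 < M := by linarith
  have hi : 0 < M⁻¹ := inv_pos.2 hM0
  have h1 : ‖M⁻¹ • u‖ ≤ 1 := by
    rw [norm_smul, Real.norm_of_nonneg hi.le, inv_mul_le_iff₀ hM0, mul_one]
    exact huM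
  have h2 : ‖M⁻¹ • v‖ ≤ 1 := by
    rw [norm_smul, Real.norm_of_nonneg hi.le, inv_mul_le_iff₀ hM0, mul_one]
    exact hvM
  have h3 : s / B ≤ ‖M⁻¹ • u - M⁻¹ • v‖ := by
    rw [← smul_sub, norm_smul, Real.norm_of_nonneg hi.le, ← div_eq_inv_mul]
    exact div_le_div₀ (norm_nonneg _) hsep hM0 hMB
  have h4 := h h1 h2 h3
  rw [← smul_add, norm_smul, Real.norm_of_nonneg hi.le, inv_mul_le_iff₀ hM0] at h4
  rw [norm_smul, Real.norm_of_nonneg (by norm_num)]
  nlinarith

variable {E : Type} [NormedAddCommGroup E] [NormedSpace ℝ E]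

/-- The potential coming from a uniformly convex renorming of the dual. -/
lemma exists_pot (Y : Type) [NormedAddCommGroup Y] [NormedSpace ℝ Y] [UniformConvexSpace Y]
    (e : StrongDual ℝ E ≃L[ℝ] Y) (s : ℝ) (hs : 0 < s) :
    ∃ κ Bd : ℝ, 0 < κ ∧ Pot (fun ψ : E →L[ℝ] ℝ => ‖e ψ‖) s κ Bd := by
  set B := ‖(e : StrongDual ℝ E →L[ℝ] Y)‖ + 1 with hB
  have hB0 : 0 < B := by positivity
  set K := ‖(e.symm : Y →L[ℝ] StrongDual ℝ E)‖ + 1 with hK
  have hK0 : 0 < K := by positivity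
  obtain ⟨c, hc, h⟩ := uc_additive Y (s / K) B (by positivity) hB0
  have hle : ∀ ψ : E →L[ℝ] ℝ, ‖ψ‖ ≤ 1 → ‖e ψ‖ ≤ B := by
    intro ψ hψ
    have h1 := (e : StrongDual ℝ E →L[ℝ] Y).le_opNorm ψ
    have h2 := norm_nonneg (e : StrongDual ℝ E →L[ℝ] Y)
    have h3 : ‖e ψ‖ ≤ ‖(e : StrongDual ℝ E →L[ℝ] Y)‖ * ‖ψ‖ := h1
    have h4 := norm_nonneg ψ
    nlinarith
  refine ⟨c / 2, B, by positivity, fun ψ => norm_nonneg _, hle, ?_⟩
  intro ψ ψ' hψ hψ' hsep
  have h1 : s / K ≤ ‖e ψ - e ψ'‖ := by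
    rw [← map_sub]
    have h2 := (e.symm : Y →L[ℝ] StrongDual ℝ E).le_opNorm (e (ψ - ψ'))
    have h3 : ‖ψ - ψ'‖ ≤ ‖(e.symm : Y →L[ℝ] StrongDual ℝ E)‖ * ‖e (ψ - ψ')‖ := by
      have h4 : (e.symm : Y →L[ℝ] StrongDual ℝ E) (e (ψ - ψ')) = ψ - ψ' := e.symm_apply_apply _
      rw [h4] at h2
      exact h2
    rw [div_le_iff₀ hK0]
    have h5 := norm_nonneg (e (ψ - ψ'))
    nlinarith
  have h2 := h (e ψ) (e ψ') (hle ψ hψ) (hle ψ' hψ') h1
  have h3 : e ((1/2 : ℝ) • (ψ + ψ')) = (1/2 : ℝ) • (e ψ + e ψ') := by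
    rw [map_smul, map_add]
  rw [h3]
  linarith

/-- subspaces -/
lemma exists_subSys [TopologicalSpace.SeparableSpace E] : ∃ V : ℕ → Submodule ℝ E, SubSys V := by
  classical
  let d := TopologicalSpace.denseSeq E
  refine ⟨fun p => Submodule.span ℝ (d '' (Set.Iio p)), ?_, ?_, ?_, ?_⟩
  · intro p q hpq
    apply Submodule.span_mono
    apply Set.image_mono
    exact Set.Iio_subset_Iio hpq
  · have : Set.Iio (0:ℕ) = ∅ := by
      ext x
      simp
    rw [this, Set.image_empty, Submodule.span_empty]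
  · intro p
    exact FiniteDimensional.span_of_finite ℝ ((Set.finite_Iio p).image d)
  · intro w ε hε
    obtain ⟨_, hy, ⟨n, rfl⟩⟩ := Metric.dense_iff.1 (TopologicalSpace.denseRange_denseSeq E) w ε hε
    refine ⟨n + 1, d n, Submodule.subset_span ⟨n, Nat.lt_succ_self n, rfl⟩, ?_⟩
    rw [Metric.mem_ball, dist_eq_norm, norm_sub_rev] at hy
    exact hy

theorem exists_netS (V : ℕ → Submodule ℝ E) (hV : SubSys V) (Θ : (E →L[ℝ] ℝ) → ℝ) (s κ Bd : ℝ)
    (hΘ : Pot Θ s κ Bd) (hκ : 0 < κ) (δ : ℕ → ℝ) (hδ : ∀ p, 0 < δ p) (δc : ℝ) (hδc : 0 < δc) :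
    ∃ net : ℤ → ℕ → ℕ → List (DB E × ℝ), ∀ (j : ℤ) (k : ℕ) (p : ℕ) (φ : E →L[ℝ] ℝ), ‖φ‖ ≤ 1 →
      ∃ ψ : DB E, Good V Θ δ κ p φ ψ.1 ∧ ∀ c : ℝ, |c| ≤ 4 * (32 * 2 ^ k * (2 : ℝ) ^ j) →
        ∃ c' : ℝ, (ψ, c') ∈ net j k p ∧ |c' - c| ≤ δc * (2 : ℝ) ^ j := by
  classical
  have key : ∀ (j : ℤ) (k : ℕ) (p : ℕ), ∃ L : List (DB E × ℝ), ∀ (φ : E →L[ℝ] ℝ), ‖φ‖ ≤ 1 →
      ∃ ψ : DB E, Good V Θ δ κ p φ ψ.1 ∧ ∀ c : ℝ, |c| ≤ 4 * (32 * 2 ^ k * (2 : ℝ) ^ j) →
        ∃ c' : ℝ, (ψ, c') ∈ L ∧ |c' - c| ≤ δc * (2 : ℝ) ^ j := by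
    intro j k p
    have hr : 0 < δc * (2 : ℝ) ^ j := by positivity
    obtain ⟨L, hL⟩ := exists_good V hV Θ s κ Bd hΘ hκ δ hδ p
    have hcomp : IsCompact (Set.Icc (-(4 * (32 * 2 ^ k * (2 : ℝ) ^ j)))
      (4 * (32 * 2 ^ k * (2 : ℝ) ^ j))) := isCompact_Icc
    obtain ⟨C, -, hCfin, hC⟩ := hcomp.finite_cover_balls hr
    refine ⟨(L.toFinset ×ˢ hCfin.toFinset).toList, fun φ hφ => ?_⟩
    obtain ⟨ψ, hψL, hψ⟩ := hL φ hφ
    refine ⟨ψ, hψ, fun c hc => ?_⟩
    have hc2 : c ∈ Set.Icc (-(4 * (32 * 2 ^ k * (2 : ℝ) ^ j)))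
      (4 * (32 * 2 ^ k * (2 : ℝ) ^ j)) := abs_le.1 hc
    obtain ⟨c', hc', hcc⟩ := mem_iUnion₂.1 (hC hc2)
    refine ⟨c', ?_, ?_⟩
    · rw [Finset.mem_toList, Finset.mem_product]
      exact ⟨List.mem_toFinset.2 hψL, hCfin.mem_toFinset.2 hc'⟩
    · rw [Metric.mem_ball, Real.dist_eq] at hcc
      rw [abs_sub_comm]
      exact hcc.le
  choose net hnet using key
  exact ⟨net, hnet⟩

theorem mainS [TopologicalSpace.SeparableSpace E]
    (hPot : ∀ s : ℝ, 0 < s → ∃ (Θ : (E →L[ℝ] ℝ) → ℝ) (κ Bd : ℝ), 0 < κ ∧ Pot Θ s κ Bd)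
    (ε : ℝ) (hε : 0 < ε) (hε1 : ε ≤ 1) :
    ∃ V : ℕ → Submodule ℝ E, SubSys V ∧
    ∃ F : E → Ordinal.{0} → ℝ, (∀ w, Continuous (F w)) ∧ (∀ w t, |F w t| ≤ ‖w‖) ∧
      (∀ w w' t, |F w t - F w' t| ≤ ‖w - w'‖) ∧
      ∀ N x y, x ∈ V N → y ∈ V N → x ≠ y →
        ∃ t ≤ (Ordinal.omega0 : Ordinal.{0}) ^ (Ordinal.omega0 : Ordinal.{0}),
          (1 - ε) * ‖x - y‖ ≤ |F x t - F y t| := by
  obtain ⟨V, hV⟩ := exists_subSys (E := E)
  refine ⟨V, hV, ?_⟩
  set η : ℝ := ε / 6 with hη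
  have hη0 : 0 < η := by positivity
  have hη1 : η ≤ 1 := by linarith
  set σ : ℝ := ε / 12 with hσ
  have hσ0 : 0 < σ := by positivity
  have hση : 2 * σ ≤ η := by rw [hσ, hη]; linarith
  obtain ⟨Θ, κ, Bd, hκ, hΘ⟩ := hPot (σ / 2) (by positivity)
  set δ : ℕ → ℝ := fun p => σ / 6 / 4 ^ p with hδdef
  have hδ0 : ∀ p, 0 < δ p := fun p => by simp only [hδdef]; positivity
  have hδ : ∀ p, δ (p + 1) ≤ δ p / 4 := fun p => by
    simp only [hδdef]
    rw [pow_succ]
    apply le_of_eq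
    field_simp
  have hδσ : ∀ p, 6 * δ p ≤ σ := fun p => by
    simp only [hδdef]
    have h1 : (1:ℝ) ≤ 4 ^ p := one_le_pow₀ (by norm_num)
    have h2 : σ / 6 / 4 ^ p ≤ σ / 6 := div_le_self (by positivity) h1
    linarith
  obtain ⟨n, hn⟩ := exists_nat_gt (Bd / κ)
  have hn' : (0 : ℝ) < (n : ℝ) + 1 := by positivity
  have hBdn : Bd < 0 + ((n : ℝ) + 1) * κ := by
    rw [div_lt_iff₀ hκ] at hn
    linarith
  set δc : ℝ := ε / (6 * (n + 1)) with hδc
  have hδc0 : 0 < δc := by positivity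
  obtain ⟨net, hnet⟩ := exists_netS V hV Θ (σ / 2) κ Bd hΘ hκ δ hδ0 δc hδc0
  refine ⟨fun w t => val η (walk (childS V η hη0.le hη1 net) (n + 2) St.root t) w, ?_, ?_, ?_, ?_⟩
  · intro w
    exact continuous_walk (childS V η hη0.le hη1 net) (fun s => val η s w)
      (fun s ε hε => finite_devS hV η hη0.le hη1 net hη0 w s ε hε) (n + 2) St.root
  · intro w t
    exact val_norm η hη0.le _ w
  · intro w w' t
    exact val_lip η _ w w'
  · intro N x y hx hy hxy
    have hpos : 0 < ‖x - y‖ := norm_pos_iff.2 (sub_ne_zero.2 hxy)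
    obtain ⟨j, hj1, hj2⟩ := exists_mem_Ico_zpow hpos (by norm_num : (1 : ℝ) < 2)
    have hr : (0 : ℝ) < (2 : ℝ) ^ j := by positivity
    have hj3 : ‖x - y‖ < 2 * (2 : ℝ) ^ j := by
      rw [zpow_add_one₀ (by norm_num)] at hj2
      linarith
    set r : ℝ := (2 : ℝ) ^ j with hrdef
    -- choice of k
    have hk : ∃ k : ℕ, ‖x‖ ≤ 32 * 2 ^ k * r ∧ ‖y‖ ≤ 32 * 2 ^ k * r ∧
        (k ≠ 0 → 16 * 2 ^ k * r < max ‖x‖ ‖y‖) := by
      have hex : ∃ k : ℕ, max ‖x‖ ‖y‖ ≤ 32 * 2 ^ k * r := by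
        obtain ⟨m, hm⟩ := exists_nat_gt (max ‖x‖ ‖y‖ / r)
        refine ⟨m, ?_⟩
        rw [div_lt_iff₀ hr] at hm
        have h1 : (m : ℝ) ≤ 2 ^ m := by exact_mod_cast (Nat.lt_two_pow_self (n := m)).le
        calc max ‖x‖ ‖y‖ ≤ m * r := hm.le
          _ ≤ (32 * 2 ^ m) * r := by
              gcongr
              have : (0 : ℝ) ≤ 2 ^ m := by positivity
              linarith
      classical
      refine ⟨Nat.find hex, ?_, ?_, ?_⟩
      · exact (le_max_left _ _).trans (Nat.find_spec hex)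
      · exact (le_max_right _ _).trans (Nat.find_spec hex)
      · intro hk0
        obtain ⟨k', hk'⟩ := Nat.exists_eq_succ_of_ne_zero hk0
        have hlt : k' < Nat.find hex := by omega
        have := not_le.1 (Nat.find_min hex hlt)
        rw [hk', Nat.succ_eq_add_one, pow_succ]
        calc 16 * (2 ^ k' * 2) * r = 32 * 2 ^ k' * r := by ring
          _ < _ := this
    obtain ⟨k, hxk, hyk, hkk⟩ := hk
    -- a norming functional
    obtain ⟨φ, hφ, hφxy⟩ := exists_dual_vector'' ℝ (x - y)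
    have hφxy' : φ (x - y) = ‖x - y‖ := by simpa using hφxy
    -- the initial estimate
    have hI0 : (1 - η) * ‖x - y‖ - 2 * σ * ‖x - y‖
        ≤ envP (zf (E := E)).1 (V 0) x - envM (zf (E := E)).1 (V 0) y := by
      have h1 : ‖x‖ ≤ envP (zf (E := E)).1 (V 0) x := by
        apply le_ciInf
        intro e'
        have he' : (e' : E) = 0 := by
          have h0 : ∀ w ∈ V 0, w = 0 := by
            rw [hV.zero]
            intro w hw
            exact (Submodule.mem_bot ℝ).1 hw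
          exact h0 _ e'.2
        rw [he']
        simp [zf]
      have h2 : envM (zf (E := E)).1 (V 0) y ≤ -‖y‖ := by
        apply ciSup_le
        intro e'
        have he' : (e' : E) = 0 := by
          have h0 : ∀ w ∈ V 0, w = 0 := by
            rw [hV.zero]
            intro w hw
            exact (Submodule.mem_bot ℝ).1 hw
          exact h0 _ e'.2
        rw [he']
        simp [zf]
      have h3 := norm_sub_le x y
      have h4 : 0 ≤ η * ‖x - y‖ := by positivity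
      have h5 : 0 ≤ 2 * σ * ‖x - y‖ := by positivity
      linarith
    -- apply the claim
    obtain ⟨f, q, hRS, hf⟩ := claimS hV η hη0.le hη1 net j k (θ := δc * r)
      (R := 32 * 2 ^ k * r) hσ0.le hση hΘ hκ hδ0 hδ hδσ
      (by positivity) (fun p φ' hφ' => hnet j k p φ' hφ') N x y hx hy hxk φ hφ hφxy' n 0
      (2 * σ * ‖x - y‖) zf 0 0 le_rfl (Nat.zero_le _) hI0 le_rfl (fun p _ ψ _ => hΘ.nonneg _) hBdn
    have hloss2 : 2 * ((n : ℝ) + 1) * (δc * r) ≤ ε / 3 * r := by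
      have h1 : 2 * ((n : ℝ) + 1) * δc = ε / 3 := by
        rw [hδc]
        field_simp
        norm_num
      calc 2 * ((n : ℝ) + 1) * (δc * r) = (2 * ((n : ℝ) + 1) * δc) * r := by ring
        _ ≤ ε / 3 * r := by rw [h1]
    have hgoal : (1 - ε) * ‖x - y‖ ≤ f.1 x - f.1 y - ε / 3 * r := by
      have h1 : (1 - η) * ‖x - y‖ - 2 * σ * ‖x - y‖ = (1 - ε / 3) * ‖x - y‖ := by
        rw [hη, hσ]; ring
      have h2 : ε / 3 * r ≤ ε / 3 * ‖x - y‖ := by gcongr
      linarith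
    have hfinal : ∃ b : ℤ, adm (j, k, b) ∧ f.1 x - f.1 y - ε / 3 * r
        ≤ |val η (St.node (j, k, b) f q) x - val η (St.node (j, k, b) f q) y| := by
      by_cases hk0 : k = 0
      · subst hk0
        refine ⟨0, ⟨fun _ => rfl, by simp⟩, ?_⟩
        have hB : bB ((j, 0, 0) : T) = 64 * r := by simp [bB, hrdef]
        have hK : bK η ((j, 0, 0) : T) = η * r := by simp [bK, hrdef]
        simp only [val, hB, hK, Int.cast_zero, zero_mul, sub_zero]
        have h1 : |f.1 x| ≤ ‖x‖ := f.2.abs_le_norm x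
        have h2 : |f.1 y| ≤ ‖y‖ := f.2.abs_le_norm y
        have hx' : ‖x‖ ≤ 32 * r := by simpa using hxk
        have hy' : ‖y‖ ≤ 32 * r := by simpa using hyk
        have e1 := cut_near (κ := η * r) (B := 64 * r) x (f.1 x) (by positivity) (by linarith) h1
        have e2 := cut_near (κ := η * r) (B := 64 * r) y (f.1 y) (by positivity) (by linarith) h2
        rw [abs_le] at e1 e2
        have h3 : η * r = ε / 6 * r := by rw [hη]
        refine le_trans ?_ (le_abs_self _)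
        linarith [e1.1, e1.2, e2.1, e2.2]
      · set b : ℤ := ⌊f.1 x / r⌋ with hb
        have hb1 : (b : ℝ) * r ≤ f.1 x := by
          have := Int.floor_le (f.1 x / r)
          rwa [le_div_iff₀ hr] at this
        have hb2 : f.1 x < (b : ℝ) * r + r := by
          have := Int.lt_floor_add_one (f.1 x / r)
          rw [div_lt_iff₀ hr] at this
          linarith
        have h1 : |f.1 x| ≤ ‖x‖ := f.2.abs_le_norm x
        have hpow : (1 : ℝ) ≤ 2 ^ k := one_le_pow₀ (by norm_num)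
        have hpow2 : (2 : ℝ) ≤ 2 ^ k := by
          calc (2 : ℝ) = 2 ^ 1 := by norm_num
            _ ≤ 2 ^ k := pow_le_pow_right₀ (by norm_num) (Nat.one_le_iff_ne_zero.2 hk0)
        have hadm : adm (j, k, b) := by
          refine ⟨fun h => absurd h hk0, ?_⟩
          have h4 := abs_le.1 (h1.trans hxk)
          have h5 : ((|b| : ℤ) : ℝ) ≤ ((64 * 2 ^ k : ℤ) : ℝ) := by
            push_cast
            rw [abs_le]
            constructor
            · by_contra hcon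
              rw [not_le] at hcon
              have : ((b : ℝ) + 1) * r < (-(64 * 2 ^ k) + 1) * r := by
                apply mul_lt_mul_of_pos_right _ hr
                linarith
              nlinarith [h4.1]
            · by_contra hcon
              rw [not_le] at hcon
              have : (64 * 2 ^ k) * r < (b : ℝ) * r := mul_lt_mul_of_pos_right hcon hr
              nlinarith [h4.2]
          exact_mod_cast h5
        refine ⟨b, hadm, ?_⟩
        have hB : bB ((j, k, b) : T) = 4 * r := by simp [bB, hk0, hrdef]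
        have hK : bK η ((j, k, b) : T) = 8 * 2 ^ k * r := by simp [bK, hk0, hrdef]
        simp only [val, hB, hK]
        have hmax := hkk hk0
        have hxy1 : ‖x‖ ≤ ‖y‖ + ‖x - y‖ := by
          have := norm_add_le y (x - y)
          simpa using this
        have hxy2 : ‖y‖ ≤ ‖x‖ + ‖x - y‖ := by
          have := norm_sub_le x (x - y)
          simpa using this
        have hxbig : 16 * 2 ^ k * r - 2 * r ≤ ‖x‖ := by
          rcases max_cases ‖x‖ ‖y‖ with h | h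
          · rw [h.1] at hmax; linarith
          · rw [h.1] at hmax; linarith
        have hybig : 16 * 2 ^ k * r - 2 * r ≤ ‖y‖ := by
          rcases max_cases ‖x‖ ‖y‖ with h | h
          · rw [h.1] at hmax; linarith
          · rw [h.1] at hmax; linarith
        have hkr : 2 * r ≤ 2 ^ k * r := by gcongr
        have hfxy := abs_le.1 (f.2.abs_le x y)
        have hux : |f.1 x - (b : ℝ) * r| ≤ 4 * r := by
          rw [abs_le]; constructor <;> linarith
        have huy : |f.1 y - (b : ℝ) * r| ≤ 4 * r := by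
          rw [abs_le]; constructor <;> linarith [hfxy.1, hfxy.2]
        rw [cut_eq x _ hux (by linarith), cut_eq y _ huy (by linarith)]
        refine le_trans ?_ (le_abs_self _)
        have : 0 ≤ ε / 3 * r := by positivity
        linarith
    obtain ⟨b, hadm, hb⟩ := hfinal
    have hRS' : RS (childS V η hη0.le hη1 net) (n + 2) St.root (St.node (j, k, b) f q) := by
      refine Or.inr ⟨Sum.inl (j, k, b), St.node (j, k, b) zf 0, ?_, hRS b⟩
      simp only [childS]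
      rw [if_pos hadm]
    obtain ⟨t, -, ht, hw⟩ := exists_walk (childS V η hη0.le hη1 net) hRS'
    refine ⟨t, ht.trans (W_le _), ?_⟩
    simp only [hw]
    linarith

/-- Almost isometric embeddings into the continuous functions on `[0, κ]`, `κ ≥ ω ^ ω`. -/
theorem sr_embed (E : Type) [NormedAddCommGroup E] [NormedSpace ℝ E]
    [TopologicalSpace.SeparableSpace E]
    (hPot : ∀ s : ℝ, 0 < s → ∃ (Θ : (E →L[ℝ] ℝ) → ℝ) (κ Bd : ℝ), 0 < κ ∧ Pot Θ s κ Bd)
    (κ : Ordinal.{0}) (hκ : (Ordinal.omega0 : Ordinal.{0}) ^ (Ordinal.omega0 : Ordinal.{0}) ≤ κ)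
    (ε : ℝ) (hε : 0 < ε) (hε1 : ε ≤ 1) :
    ∃ f : E → BoundedContinuousFunction (Set.Iic κ) ℝ, (∀ x y, dist (f x) (f y) ≤ dist x y) ∧
      (∀ x y, (1 - ε) * dist x y ≤ dist (f x) (f y)) := by
  obtain ⟨V, hV, F, hc, hb, hl, hlow⟩ := mainS hPot ε hε hε1
  set f : E → BoundedContinuousFunction (Set.Iic κ) ℝ :=
    fun w => BoundedContinuousFunction.ofNormedAddCommGroup
      (fun t : Set.Iic κ => F w t.1)
      ((hc w).comp continuous_subtype_val) ‖w‖ (fun t => hb w t.1) with hf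
  have hup : ∀ x y, dist (f x) (f y) ≤ dist x y := by
    intro x y
    rw [BoundedContinuousFunction.dist_le dist_nonneg]
    intro t
    rw [Real.dist_eq, dist_eq_norm]
    exact hl x y t.1
  refine ⟨f, hup, ?_⟩
  have hfin : ∀ N x y, x ∈ V N → y ∈ V N → (1 - ε) * dist x y ≤ dist (f x) (f y) := by
    intro N x y hx hy
    by_cases hxy : x = y
    · subst hxy
      simp
    · obtain ⟨t, ht, h⟩ := hlow N x y hx hy hxy
      rw [dist_eq_norm]
      apply h.trans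
      have := BoundedContinuousFunction.dist_coe_le_dist (f := f x) (g := f y) ⟨t, ht.trans hκ⟩
      rw [Real.dist_eq] at this
      exact this
  intro x y
  apply le_of_forall_pos_le_add
  intro δ hδ
  obtain ⟨p, x', hx', hxx⟩ := hV.dense x (δ / 4) (by positivity)
  obtain ⟨q, y', hy', hyy⟩ := hV.dense y (δ / 4) (by positivity)
  have h1 := hfin (max p q) x' y' (hV.mono (le_max_left _ _) hx') (hV.mono (le_max_right _ _) hy')
  have h2 := hup x x'
  have h3 := hup y y'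
  rw [dist_eq_norm x x'] at h2
  rw [dist_eq_norm y y'] at h3
  have h4 : dist x y ≤ dist x' y' + δ / 2 := by
    have e1 := dist_triangle x x' y
    have e2 := dist_triangle x' y' y
    rw [dist_eq_norm x x'] at e1
    rw [dist_comm y' y, dist_eq_norm y y'] at e2
    linarith
  have h5 : dist (f x') (f y') ≤ dist (f x) (f y) + δ / 2 := by
    have e1 := dist_triangle (f x') (f x) (f y')
    have e2 := dist_triangle (f x) (f y) (f y')
    rw [dist_comm (f x') (f x)] at e1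
    linarith
  have h6 : (1 - ε) * dist x y ≤ (1 - ε) * (dist x' y' + δ / 2) :=
    mul_le_mul_of_nonneg_left h4 (by linarith)
  have h7 : (1 - ε) * (δ / 2) ≤ δ / 2 := by nlinarith
  linarith

end Pool.Agent.H76R3.SR
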