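import Pool.Agent.H76R3.SRStep

set_option autoImplicit false

open Topology Filter Set

namespace Pool.Agent.H76R3.SR

open Pool.Agent.H76R3.OrdWalk Pool.Agent.H76R3.StepFun

variable {E : Type} [NormedAddCommGroup E] [NormedSpace ℝ E]

/-- A potential on the dual ball. -/
structure Pot (Θ : (E →L[ℝ] ℝ) → ℝ) (s κ Bd : ℝ) : Prop where
  nonneg : ∀ ψ, 0 ≤ Θ ψ
  le : ∀ ψ, ‖ψ‖ ≤ 1 → Θ ψ ≤ Bd
  mid : ∀ ψ ψ' : E →L[ℝ] ℝ, ‖ψ‖ ≤ 1 → ‖ψ'‖ ≤ 1 → s ≤ ‖ψ - ψ'‖ →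
    Θ ((1/2 : ℝ) • (ψ + ψ')) ≤ max (Θ ψ) (Θ ψ') - 2 * κ

/-- good approximations -/
structure Good (V : ℕ → Submodule ℝ E) (Θ : (E →L[ℝ] ℝ) → ℝ) (δ : ℕ → ℝ) (κ : ℝ) (p : ℕ)
    (φ ψ : E →L[ℝ] ℝ) : Prop where
  close : ∀ e ∈ V (p + 1), |φ e - ψ e| ≤ 3 * δ p * ‖e‖
  min : ∀ ψ' : E →L[ℝ] ℝ, ‖ψ'‖ ≤ 1 → (∀ e ∈ V (p + 1), |φ e - ψ' e| ≤ δ p * ‖e‖) →
    Θ ψ ≤ Θ ((1/2 : ℝ) • (ψ + ψ')) + κ

lemma exists_fun_net (W : Submodule ℝ E) [FiniteDimensional ℝ W] (δ : ℝ) (hδ : 0 < δ) :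
    ∃ A : Finset (E →L[ℝ] ℝ), (∀ a ∈ A, ‖a‖ ≤ 1) ∧ ∀ φ : E →L[ℝ] ℝ, ‖φ‖ ≤ 1 →
      ∃ a ∈ A, ∀ e ∈ W, |φ e - a e| ≤ δ * ‖e‖ := by
  classical
  have hfd : FiniteDimensional ℝ (W →L[ℝ] ℝ) :=
    (LinearMap.toContinuousLinearMap : (W →ₗ[ℝ] ℝ) ≃ₗ[ℝ] (W →L[ℝ] ℝ)).finiteDimensional
  have hpr : ProperSpace (W →L[ℝ] ℝ) := FiniteDimensional.proper ℝ (W →L[ℝ] ℝ)
  obtain ⟨C, hC1, hCfin, hC⟩ :=
    (isCompact_closedBall (0 : W →L[ℝ] ℝ) 1).finite_cover_balls hδ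
  choose ext hext1 hext2 using fun f : W →L[ℝ] ℝ => exists_extension_norm_eq (𝕜 := ℝ) W f
  refine ⟨hCfin.toFinset.image ext, ?_, ?_⟩
  · intro a ha
    rw [Finset.mem_image] at ha
    obtain ⟨f, hf, rfl⟩ := ha
    rw [hext2]
    have h1 : dist f 0 ≤ 1 := hC1 (hCfin.mem_toFinset.1 hf)
    have h2 : dist f 0 = ‖f‖ := dist_zero_right f
    exact h2 ▸ h1
  · intro φ hφ
    have hmem : φ.comp W.subtypeL ∈ Metric.closedBall (0 : W →L[ℝ] ℝ) 1 := by
      have h2 : dist (φ.comp W.subtypeL) 0 = ‖φ.comp W.subtypeL‖ :=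
        dist_zero_right (φ.comp W.subtypeL)
      change dist (φ.comp W.subtypeL) 0 ≤ 1
      rw [h2]
      refine (ContinuousLinearMap.opNorm_comp_le _ _).trans ?_
      have h1 : ‖W.subtypeL‖ ≤ 1 := W.norm_subtypeL_le
      nlinarith [norm_nonneg φ, norm_nonneg W.subtypeL]
    obtain ⟨f, hf, hfb⟩ := mem_iUnion₂.1 (hC hmem)
    refine ⟨ext f, Finset.mem_image_of_mem _ (hCfin.mem_toFinset.2 hf), ?_⟩
    intro e he
    have hfb1 : dist (φ.comp W.subtypeL) f < δ := hfb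
    have hfb2 : dist (φ.comp W.subtypeL) f = ‖φ.comp W.subtypeL - f‖ :=
      dist_eq_norm (φ.comp W.subtypeL) f
    rw [hfb2] at hfb1
    have h1 := ContinuousLinearMap.le_of_opNorm_le _ hfb1.le ⟨e, he⟩
    have h2 := hext1 f ⟨e, he⟩
    simp only at h2
    rw [h2, ← Real.norm_eq_abs]
    exact h1

lemma exists_good (V : ℕ → Submodule ℝ E) (hV : SubSys V) (Θ : (E →L[ℝ] ℝ) → ℝ) (s κ Bd : ℝ)
    (hΘ : Pot Θ s κ Bd) (hκ : 0 < κ) (δ : ℕ → ℝ) (hδ : ∀ p, 0 < δ p) (p : ℕ) :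
    ∃ L : List (DB E), ∀ φ : E →L[ℝ] ℝ, ‖φ‖ ≤ 1 → ∃ ψ ∈ L, Good V Θ δ κ p φ ψ.1 := by
  classical
  have := hV.fin (p + 1)
  obtain ⟨A, hA1, hA2⟩ := exists_fun_net (V (p + 1)) (δ p) (hδ p)
  have key : ∀ a : A, ∃ ψ : DB E, (∀ e ∈ V (p + 1), |a.1 e - ψ.1 e| ≤ 2 * δ p * ‖e‖) ∧
      ∀ χ : E →L[ℝ] ℝ, ‖χ‖ ≤ 1 → (∀ e ∈ V (p + 1), |a.1 e - χ e| ≤ 2 * δ p * ‖e‖) →
        Θ ψ.1 ≤ Θ χ + κ := by
    intro a
    let S : Set ℝ := {t | ∃ χ : E →L[ℝ] ℝ, ‖χ‖ ≤ 1 ∧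
      (∀ e ∈ V (p + 1), |a.1 e - χ e| ≤ 2 * δ p * ‖e‖) ∧ Θ χ = t}
    have hne : S.Nonempty := ⟨Θ a.1, a.1, hA1 _ a.2, fun e _ => by
      rw [sub_self, abs_zero]
      have := hδ p
      positivity, rfl⟩
    have hbdd : BddBelow S := ⟨0, by rintro _ ⟨χ, -, -, rfl⟩; exact hΘ.nonneg _⟩
    obtain ⟨t, ⟨χ, hχ1, hχ2, rfl⟩, ht⟩ := exists_lt_of_csInf_lt hne (lt_add_of_pos_right (sInf S) hκ)
    refine ⟨⟨χ, hχ1⟩, hχ2, fun χ' h1 h2 => ?_⟩
    have h3 : sInf S ≤ Θ χ' := csInf_le hbdd ⟨χ', h1, h2, rfl⟩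
    simp only
    linarith
  choose ψ hψ1 hψ2 using key
  refine ⟨(Finset.univ.image ψ).toList, ?_⟩
  intro φ hφ
  obtain ⟨a, ha, hclose⟩ := hA2 φ hφ
  refine ⟨ψ ⟨a, ha⟩, by simp, ?_, ?_⟩
  · intro e he
    have h1 := hclose e he
    have h2 := hψ1 ⟨a, ha⟩ e he
    have h3 := abs_sub_le (φ e) (a e) ((ψ ⟨a, ha⟩).1 e)
    simp only at h2
    linarith
  · intro ψ' hψ' hcl
    apply hψ2
    · rw [norm_smul]
      have h1 := norm_add_le (ψ ⟨a, ha⟩).1 ψ'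
      have h2 := (ψ ⟨a, ha⟩).2
      rw [Real.norm_of_nonneg (by norm_num)]
      linarith
    · intro e he
      have h1 := hclose e he
      have h2 := hψ1 ⟨a, ha⟩ e he
      have h3 := hcl e he
      simp only at h2 ⊢
      rw [smul_apply, smul_eq_mul, add_apply]
      rw [abs_le] at h1 h2 h3 ⊢
      have h4 : 0 ≤ δ p * ‖e‖ := by
        have := hδ p
        positivity
      constructor <;> nlinarith [h1.1, h1.2, h2.1, h2.2, h3.1, h3.2]

/-- the jump lemma -/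
lemma jump {V : ℕ → Submodule ℝ E} (hV : SubSys V) {Θ : (E →L[ℝ] ℝ) → ℝ} {σ κ Bd : ℝ}
    (hΘ : Pot Θ (σ / 2) κ Bd) (hκ : 0 < κ) {δ : ℕ → ℝ} (hδ0 : ∀ p, 0 < δ p)
    (hδ : ∀ p, δ (p + 1) ≤ δ p / 4) (hδσ : ∀ p, 6 * δ p ≤ σ) {q m p : ℕ} (hqm : q + 1 ≤ m)
    (hmp : m ≤ p) {φ : E →L[ℝ] ℝ} {ψ ψ' : DB E} (hψ : Good V Θ δ κ q φ ψ.1)
    (hψ' : Good V Θ δ κ p φ ψ'.1) (hfar : ∃ e ∈ V (m + 1), σ * ‖e‖ < |φ e - ψ.1 e|) :
    Θ ψ.1 + κ ≤ Θ ψ'.1 := by
  have hanti : Antitone δ := antitone_nat_of_succ_le fun n => by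
    have := hδ n
    have := hδ0 n
    linarith
  obtain ⟨e, he, hlt⟩ := hfar
  have he' : e ∈ V (p + 1) := hV.mono (by omega) he
  have h1 := hψ'.close e he'
  have hdp : δ p ≤ δ (q + 1) := hanti (by omega)
  have hdp2 : 3 * δ p ≤ δ q := by
    have := hδ q
    have := hδ0 q
    linarith
  have hepos : 0 < ‖e‖ := by
    rw [norm_pos_iff]
    rintro rfl
    simp at hlt
  have hsep : σ / 2 ≤ ‖ψ.1 - ψ'.1‖ := by
    have h2 : |(ψ.1 - ψ'.1) e| ≤ ‖ψ.1 - ψ'.1‖ * ‖e‖ := by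
      rw [← Real.norm_eq_abs]
      exact (ψ.1 - ψ'.1).le_opNorm e
    have h3 : σ / 2 * ‖e‖ ≤ |(ψ.1 - ψ'.1) e| := by
      have h4 := abs_sub_le (φ e) (ψ'.1 e) (ψ.1 e)
      rw [abs_sub_comm (ψ'.1 e) (ψ.1 e)] at h4
      have h5 := hδσ p
      rw [sub_apply]
      nlinarith
    exact le_of_mul_le_mul_right (h3.trans h2) hepos
  have hmid := hΘ.mid ψ.1 ψ'.1 ψ.2 ψ'.2 hsep
  have hmin := hψ.min ψ'.1 ψ'.2 (by
    intro e he
    have h6 := hψ'.close e (hV.mono (by omega) he)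
    refine h6.trans ?_
    gcongr)
  rcases max_cases (Θ ψ.1) (Θ ψ'.1) with h | h
  · rw [h.1] at hmid
    linarith
  · rw [h.1] at hmid
    linarith

lemma exists_nearest (W : Submodule ℝ E) [FiniteDimensional ℝ W] (x : E) :
    ∃ ex ∈ W, ∀ e ∈ W, ‖x - ex‖ ≤ ‖x - e‖ := by
  have hproper : ProperSpace W := FiniteDimensional.proper ℝ W
  have hcont : Continuous (fun e : W => ‖x - e‖) :=
    (continuous_const.sub continuous_subtype_val).norm
  have hlim : Tendsto (fun e : W => ‖x - e‖) (cocompact W) atTop := by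
    have h1 : Tendsto (fun e : W => ‖e‖ - ‖x‖) (cocompact W) atTop :=
      tendsto_atTop_add_const_right _ _ (tendsto_norm_cocompact_atTop)
    apply tendsto_atTop_mono _ h1
    intro e
    have := norm_sub_norm_le (e : E) x
    rw [norm_sub_rev] at this
    exact this
  obtain ⟨ex, hex⟩ := hcont.exists_forall_le hlim
  exact ⟨ex, ex.2, fun e he => hex ⟨e, he⟩⟩

section claim

variable {V : ℕ → Submodule ℝ E} (hV : SubSys V) (η : ℝ) (hη0 : 0 ≤ η) (hη1 : η ≤ 1)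
  (net : ℤ → ℕ → ℕ → List (DB E × ℝ))

include hV in
theorem claimS (j : ℤ) (k : ℕ) {Θ : (E →L[ℝ] ℝ) → ℝ} {σ κ Bd θ R : ℝ} (hσ : 0 ≤ σ) (hση : 2 * σ ≤ η)
    (hΘ : Pot Θ (σ / 2) κ Bd) (hκ : 0 < κ) {δ : ℕ → ℝ} (hδ0 : ∀ p, 0 < δ p)
    (hδ : ∀ p, δ (p + 1) ≤ δ p / 4) (hδσ : ∀ p, 6 * δ p ≤ σ) (hθ : 0 ≤ θ)
    (hnet : ∀ (p : ℕ) (φ : E →L[ℝ] ℝ), ‖φ‖ ≤ 1 → ∃ ψ : DB E, Good V Θ δ κ p φ ψ.1 ∧
      ∀ c : ℝ, |c| ≤ 4 * R → ∃ c' : ℝ, (ψ, c') ∈ net j k p ∧ |c' - c| ≤ θ)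
    (N : ℕ) (x y : E) (hx : x ∈ V N) (hy : y ∈ V N) (hxR : ‖x‖ ≤ R)
    (φ : E →L[ℝ] ℝ) (hφ : ‖φ‖ ≤ 1) (hφxy : φ (x - y) = ‖x - y‖) :
    ∀ (n : ℕ) (t s : ℝ) (f : {f : E → ℝ // Lip1 f}) (q0 q : ℕ), q0 ≤ q → q ≤ N →
      (1 - η) * ‖x - y‖ - s ≤ envP f.1 (V q) x - envM f.1 (V q) y →
      2 * σ * ‖x - y‖ ≤ s →
      (∀ p ≥ q, ∀ ψ : DB E, Good V Θ δ κ p φ ψ.1 → t ≤ Θ ψ.1) → Bd < t + (n + 1) * κ →
      ∃ (g : {f : E → ℝ // Lip1 f}) (qf : ℕ),
        (∀ b : ℤ, RS (childS V η hη0 hη1 net) (n + 1) (St.node (j, k, b) f q0)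
          (St.node (j, k, b) g qf)) ∧
        (1 - η) * ‖x - y‖ - (s + 2 * (n + 1) * θ) ≤ g.1 x - g.1 y := by
  intro n
  induction n with
  | zero =>
    intro t s f q0 q hq0 hqN hI hs hpot hBd
    rcases hqN.lt_or_eq with hlt | heq
    · -- one step is enough
      obtain ⟨ψ, hψ, hc⟩ := hnet q φ hφ
      have hclN : ∀ e ∈ V N, |φ e - ψ.1 e| ≤ σ * ‖e‖ := by
        by_contra hcon
        push Not at hcon
        classical
        have hex : ∃ p, ∃ e ∈ V p, σ * ‖e‖ < |φ e - ψ.1 e| := ⟨N, hcon⟩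
        set p1 := Nat.find hex with hp1
        have hp1s : ∃ e ∈ V p1, σ * ‖e‖ < |φ e - ψ.1 e| := Nat.find_spec hex
        have hgt : q + 1 < p1 := by
          by_contra hle
          rw [not_lt] at hle
          obtain ⟨e, he, hlt'⟩ := hp1s
          have h1 := hψ.close e (hV.mono hle he)
          have h2 := hδσ q
          have h3 := norm_nonneg e
          have h4 := hδ0 q
          nlinarith
        obtain ⟨m, hm⟩ : ∃ m, p1 = m + 1 := ⟨p1 - 1, by omega⟩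
        obtain ⟨ψ', hψ', -⟩ := hnet m φ hφ
        have hj := jump hV hΘ hκ hδ0 hδ hδσ (q := q) (m := m) (p := m) (by omega) le_rfl hψ hψ'
          (by rw [← hm]; exact hp1s)
        have h1 := hpot q le_rfl ψ hψ
        have h2 := hΘ.le ψ'.1 ψ'.2
        simp only [Nat.cast_zero, zero_add, one_mul] at hBd
        linarith
      have hfd := hV.fin N
      obtain ⟨ex, hexm, hex⟩ := exists_nearest (V N) x
      have hηx : 0 ≤ 1 - η := by linarith
      set cs := envP f.1 (V q) x - (1 - η) * φ x + (1 - η) * (φ ex - ψ.1 ex) with hcs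
      have hexx : ex = x := by
        have := hex x hx
        rw [sub_self, norm_zero] at this
        have h2 := norm_le_zero_iff.1 this
        exact (sub_eq_zero.1 h2).symm
      have hcsb : |cs| ≤ 4 * R := by
        have h1 : |envP f.1 (V q) x| ≤ ‖x‖ := by
          have e1 := f_le_envP f.2 (V q) x
          have e2 := f.2.abs_le_norm x
          have e3 := envP_le f.2 (V q) x (V q).zero_mem
          rw [f.2.2, sub_zero, zero_add] at e3
          rw [abs_le] at e2 ⊢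
          constructor <;> linarith [e2.1]
        have h2 : |φ x| ≤ ‖x‖ := by
          rw [← Real.norm_eq_abs]
          exact (φ.le_of_opNorm_le hφ _).trans (by rw [one_mul])
        have h3 : |φ ex - ψ.1 ex| ≤ σ * ‖ex‖ := hclN ex hexm
        rw [hexx] at h3
        rw [hcs, hexx]
        have hσ1 : σ ≤ 1 := by linarith
        have hxn := norm_nonneg x
        have e1 := abs_le.1 h1
        have e2 := abs_le.1 h2
        have e3 := abs_le.1 h3
        rw [abs_le]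
        constructor <;> nlinarith
      obtain ⟨c', hc'm, hc'⟩ := hc cs hcsb
      have hinv := step_inv f.2 (V q) (V N) φ ψ.1 hφ x y hφxy σ η θ s hσ hση hη1 hclN
        ex hexm hex c' hc' hs hI x hx y hy
      rw [sub_self, sub_self, norm_zero, sub_zero, sub_zero] at hinv
      obtain ⟨i, hi, hi2⟩ := List.getElem_of_mem hc'm
      refine ⟨⟨stepS η f.1 (V q) ψ.1 c', stepS_lip hη0 hη1 f.2 (V q) ψ.2 c'⟩, q, fun b => ?_, ?_⟩
      · refine Or.inr ⟨Sum.inr (q, i), _, ?_, RS_refl _ _ _⟩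
        simp only [childS]
        rw [if_pos hq0, List.getElem?_eq_getElem hi, hi2]
        rfl
      · simp only [Nat.cast_zero, zero_add, mul_one]
        exact hinv
    · subst heq
      refine ⟨f, q0, fun b => RS_refl _ _ _, ?_⟩
      rw [envP_eq f.2 _ hx, envM_eq f.2 _ hy] at hI
      have : 0 ≤ 2 * (((0:ℕ):ℝ) + 1) * θ := by positivity
      linarith
  | succ n ih =>
    intro t s f q0 q hq0 hqN hI hs hpot hBd
    rcases hqN.lt_or_eq with hlt | heq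
    · obtain ⟨ψ, hψ, hc⟩ := hnet q φ hφ
      -- the next level
      have hnext : ∃ m, q + 1 ≤ m ∧ m ≤ N ∧ (∀ e ∈ V m, |φ e - ψ.1 e| ≤ σ * ‖e‖) ∧
          (m = N ∨ ∃ e ∈ V (m + 1), σ * ‖e‖ < |φ e - ψ.1 e|) := by
        by_cases hall : ∀ e ∈ V N, |φ e - ψ.1 e| ≤ σ * ‖e‖
        · exact ⟨N, hlt, le_rfl, hall, Or.inl rfl⟩
        · push Not at hall
          classical
          have hex : ∃ p, ∃ e ∈ V p, σ * ‖e‖ < |φ e - ψ.1 e| := ⟨N, hall⟩
          set p1 := Nat.find hex with hp1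
          have hp1s : ∃ e ∈ V p1, σ * ‖e‖ < |φ e - ψ.1 e| := Nat.find_spec hex
          have hle : p1 ≤ N := Nat.find_min' hex hall
          have hgt : q + 1 < p1 := by
            by_contra hle
            rw [not_lt] at hle
            obtain ⟨e, he, hlt'⟩ := hp1s
            have h1 := hψ.close e (hV.mono hle he)
            have h2 := hδσ q
            have h3 := norm_nonneg e
            have h4 := hδ0 q
            nlinarith
          obtain ⟨m, hm⟩ : ∃ m, p1 = m + 1 := ⟨p1 - 1, by omega⟩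
          refine ⟨m, by omega, by omega, ?_, Or.inr (by rw [← hm]; exact hp1s)⟩
          intro e he
          have := Nat.find_min hex (m := m) (by omega)
          push Not at this
          exact this e he
      obtain ⟨m, hqm, hmN, hclm, hm⟩ := hnext
      have hfd := hV.fin m
      obtain ⟨ex, hexm, hex⟩ := exists_nearest (V m) x
      have hηx : 0 ≤ 1 - η := by linarith
      set cs := envP f.1 (V q) x - (1 - η) * φ x + (1 - η) * (φ ex - ψ.1 ex) with hcs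
      have hexn : ‖ex‖ ≤ 2 * ‖x‖ := by
        have h1 := hex 0 (V m).zero_mem
        rw [sub_zero] at h1
        have h2 := norm_sub_norm_le ex x
        rw [norm_sub_rev] at h2
        linarith
      have hcsb : |cs| ≤ 4 * R := by
        have h1 : |envP f.1 (V q) x| ≤ ‖x‖ := by
          have e1 := f_le_envP f.2 (V q) x
          have e2 := f.2.abs_le_norm x
          have e3 := envP_le f.2 (V q) x (V q).zero_mem
          rw [f.2.2, sub_zero, zero_add] at e3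
          rw [abs_le] at e2 ⊢
          constructor <;> linarith [e2.1]
        have h2 : |φ x| ≤ ‖x‖ := by
          rw [← Real.norm_eq_abs]
          exact (φ.le_of_opNorm_le hφ _).trans (by rw [one_mul])
        have h3 : |φ ex - ψ.1 ex| ≤ ‖ex‖ := by
          have := hclm ex hexm
          have hσ1 : σ ≤ 1 := by linarith
          have := norm_nonneg ex
          nlinarith
        have hxn := norm_nonneg x
        have h3' : |φ ex - ψ.1 ex| ≤ 2 * ‖x‖ := h3.trans hexn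
        have e1 := abs_le.1 h1
        have e2 := abs_le.1 h2
        have e3 := abs_le.1 h3'
        rw [hcs, abs_le]
        constructor <;> nlinarith
      obtain ⟨c', hc'm, hc'⟩ := hc cs hcsb
      have hinv := step_inv f.2 (V q) (V m) φ ψ.1 hφ x y hφxy σ η θ s hσ hση hη1 hclm
        ex hexm hex c' hc' hs hI
      set f' : {f : E → ℝ // Lip1 f} :=
        ⟨stepS η f.1 (V q) ψ.1 c', stepS_lip hη0 hη1 f.2 (V q) ψ.2 c'⟩ with hf'
      have hI' : (1 - η) * ‖x - y‖ - (s + 2 * θ) ≤ envP f'.1 (V m) x - envM f'.1 (V m) y := by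
        have h1 : ∀ e' ∈ V m, (1 - η) * ‖x - y‖ - (s + 2 * θ) + (f'.1 e' - ‖y - e'‖)
            ≤ envP f'.1 (V m) x := by
          intro e' he'
          apply le_ciInf
          intro e
          have := hinv e e.2 e' he'
          simp only [hf']
          linarith
        have h2 : envM f'.1 (V m) y ≤ envP f'.1 (V m) x - ((1 - η) * ‖x - y‖ - (s + 2 * θ)) := by
          apply ciSup_le
          intro e'
          have := h1 e' e'.2
          linarith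
        linarith
      obtain ⟨i, hi, hi2⟩ := List.getElem_of_mem hc'm
      have hchild : ∀ b : ℤ, childS V η hη0 hη1 net (St.node (j, k, b) f q0) (Sum.inr (q, i))
          = some (St.node (j, k, b) f' q) := by
        intro b
        simp only [childS]
        rw [if_pos hq0, List.getElem?_eq_getElem hi, hi2]
        rfl
      rcases hm with hmeq | hfar
      · refine ⟨f', q, fun b => Or.inr ⟨Sum.inr (q, i), _, hchild b, RS_refl _ _ _⟩, ?_⟩
        rw [hmeq, envP_eq f'.2 _ hx, envM_eq f'.2 _ hy] at hI'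
        have : 0 ≤ 2 * ((n : ℝ) + 1) * θ := by positivity
        push_cast
        linarith
      · obtain ⟨g, qf, h1, h2⟩ := ih (t + κ) (s + 2 * θ) f' q m (by omega) hmN hI' (by linarith)
          (by
            intro p hp ψ' hψ'
            have hj := jump hV hΘ hκ hδ0 hδ hδσ hqm hp hψ hψ' hfar
            have h1 := hpot q le_rfl ψ hψ
            linarith) (by
            push_cast at hBd
            linarith)
        refine ⟨g, qf, fun b => Or.inr ⟨Sum.inr (q, i), _, hchild b, h1 b⟩, ?_⟩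
        push_cast
        linarith
    · subst heq
      refine ⟨f, q0, fun b => RS_refl _ _ _, ?_⟩
      rw [envP_eq f.2 _ hx, envM_eq f.2 _ hy] at hI
      have : 0 ≤ 2 * (((n + 1 : ℕ) : ℝ) + 1) * θ := by positivity
      linarith

end claim

end Pool.Agent.H76R3.SR
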