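import Mathlib
import Pool.Agent.H76R3.StepFun

set_option autoImplicit false

open Topology Filter Set

namespace Pool.Agent.H76R3.SR

open Pool.Agent.H76R3.OrdWalk Pool.Agent.H76R3.StepFun

variable {E : Type} [NormedAddCommGroup E] [NormedSpace ℝ E]

/-- lower envelope -/
noncomputable def envM (f : E → ℝ) (W : Submodule ℝ E) (w : E) : ℝ := ⨆ e : W, (f e - ‖w - e‖)

/-- upper envelope -/
noncomputable def envP (f : E → ℝ) (W : Submodule ℝ E) (w : E) : ℝ := ⨅ e : W, (f e + ‖w - e‖)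

section env
variable {f : E → ℝ} (hf : Lip1 f) (W : Submodule ℝ E)
include hf

lemma bddM (w : E) : BddAbove (Set.range (fun e : W => f e - ‖w - e‖)) := by
  refine ⟨f w, ?_⟩
  rintro _ ⟨e, rfl⟩
  have := hf.1 e w
  rw [norm_sub_rev] at this
  simp only
  linarith

lemma bddP (w : E) : BddBelow (Set.range (fun e : W => f e + ‖w - e‖)) := by
  refine ⟨f w, ?_⟩
  rintro _ ⟨e, rfl⟩
  exact hf.1 w e

lemma le_envM (w : E) {e : E} (he : e ∈ W) : f e - ‖w - e‖ ≤ envM f W w :=
  le_ciSup (bddM hf W w) ⟨e, he⟩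

lemma envP_le (w : E) {e : E} (he : e ∈ W) : envP f W w ≤ f e + ‖w - e‖ :=
  ciInf_le (bddP hf W w) ⟨e, he⟩

lemma envM_le_f (w : E) : envM f W w ≤ f w := by
  apply ciSup_le
  intro e
  have := hf.1 e w
  rw [norm_sub_rev] at this
  linarith

lemma f_le_envP (w : E) : f w ≤ envP f W w := by
  apply le_ciInf
  intro e
  exact hf.1 w e

lemma envM_lip (x y : E) : envM f W x ≤ envM f W y + ‖x - y‖ := by
  apply ciSup_le
  intro e
  have h1 := le_envM hf W y e.2
  have h2 := norm_sub_le_norm_sub_add_norm_sub y x (e : E)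
  rw [norm_sub_rev y x] at h2
  linarith

lemma envP_lip (x y : E) : envP f W x ≤ envP f W y + ‖x - y‖ := by
  rw [← sub_le_iff_le_add]
  apply le_ciInf
  intro e
  have h1 := envP_le hf W x e.2
  have h2 := norm_sub_le_norm_sub_add_norm_sub x y (e : E)
  linarith

lemma envM_eq {e : E} (he : e ∈ W) : envM f W e = f e := by
  apply le_antisymm (envM_le_f hf W e)
  have := le_envM hf W e he
  simpa using this

lemma envP_eq {e : E} (he : e ∈ W) : envP f W e = f e := by
  apply le_antisymm _ (f_le_envP hf W e)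
  have := envP_le hf W e he
  simpa using this

end env

/-- the basic step -/
noncomputable def stepS (η : ℝ) (f : E → ℝ) (W : Submodule ℝ E) (ψ : E →L[ℝ] ℝ) (c : ℝ) (w : E) : ℝ :=
  max (envM f W w) (min ((1 - η) * ψ w + c) (envP f W w))

lemma stepS_eq {η : ℝ} {f : E → ℝ} (hf : Lip1 f) {W : Submodule ℝ E} (ψ : E →L[ℝ] ℝ) (c : ℝ)
    {w : E} (hw : w ∈ W) : stepS η f W ψ c w = f w := by
  unfold stepS
  rw [envM_eq hf W hw, envP_eq hf W hw]
  exact max_eq_left (min_le_right _ _)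

lemma stepS_lip {η : ℝ} (hη0 : 0 ≤ η) (hη1 : η ≤ 1) {f : E → ℝ} (hf : Lip1 f) (W : Submodule ℝ E)
    {ψ : E →L[ℝ] ℝ} (hψ : ‖ψ‖ ≤ 1) (c : ℝ) : Lip1 (stepS η f W ψ c) := by
  constructor
  · intro x y
    unfold stepS
    apply max_le_add (envM_lip hf W x y)
    apply min_le_add _ (envP_lip hf W x y)
    have h1 : ψ x - ψ y ≤ ‖x - y‖ := by
      rw [← map_sub]
      refine (le_abs_self _).trans ?_
      rw [← Real.norm_eq_abs]
      exact (ψ.le_of_opNorm_le hψ _).trans (by rw [one_mul])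
    have h2 := norm_nonneg (x - y)
    nlinarith
  · rw [stepS_eq hf ψ c W.zero_mem, hf.2]

lemma step_inv {f : E → ℝ} (hf : Lip1 f) (W W' : Submodule ℝ E) (φ ψ : E →L[ℝ] ℝ)
    (hφ : ‖φ‖ ≤ 1) (x y : E) (hxy : φ (x - y) = ‖x - y‖) (σ η θ s : ℝ)
    (hσ : 0 ≤ σ) (hση : 2 * σ ≤ η) (hη1 : η ≤ 1) (hclose : ∀ e ∈ W', |φ e - ψ e| ≤ σ * ‖e‖)
    (ex : E) (hexm : ex ∈ W') (hex : ∀ e ∈ W', ‖x - ex‖ ≤ ‖x - e‖) (c : ℝ)
    (hc : |c - (envP f W x - (1 - η) * φ x + (1 - η) * (φ ex - ψ ex))| ≤ θ)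
    (hs : 2 * σ * ‖x - y‖ ≤ s) (hI : (1 - η) * ‖x - y‖ - s ≤ envP f W x - envM f W y) :
    ∀ e ∈ W', ∀ e' ∈ W', (1 - η) * ‖x - y‖ - (s + 2 * θ) - ‖x - e‖ - ‖y - e'‖
      ≤ stepS η f W ψ c e - stepS η f W ψ c e' := by
  intro e he e' he'
  have hθ : 0 ≤ θ := (abs_nonneg _).trans hc
  have hc' := abs_le.1 hc
  have h1η : 0 ≤ 1 - η := by linarith
  set A := envP f W x with hA
  set B := envM f W y with hB
  have hφn : ∀ w, |φ w| ≤ ‖w‖ := by
    intro w
    rw [← Real.norm_eq_abs]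
    exact (φ.le_of_opNorm_le hφ _).trans (by rw [one_mul])
  -- value of `g`
  have hg : ∀ w ∈ W', |((1 - η) * ψ w + c) - (A - (1 - η) * φ (x - w))| ≤ 2 * σ * ‖x - w‖ + θ := by
    intro w hw
    have e1 : ((1 - η) * ψ w + c) - (A - (1 - η) * φ (x - w))
        = (c - (A - (1 - η) * φ x + (1 - η) * (φ ex - ψ ex)))
          + (1 - η) * (φ (ex - w) - ψ (ex - w)) := by
      simp only [map_sub]
      ring
    rw [e1]
    have e2 := hclose (ex - w) (W'.sub_mem hexm hw)
    have e3 : ‖ex - w‖ ≤ 2 * ‖x - w‖ := by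
      have h1 := hex w hw
      have h2 := norm_sub_le_norm_sub_add_norm_sub ex x w
      rw [norm_sub_rev ex x] at h2
      linarith
    have e4 : |(1 - η) * (φ (ex - w) - ψ (ex - w))| ≤ 2 * σ * ‖x - w‖ := by
      rw [abs_mul, abs_of_nonneg h1η]
      have h5 : |φ (ex - w) - ψ (ex - w)| ≤ σ * (2 * ‖x - w‖) := e2.trans (by gcongr)
      have h6 := abs_nonneg (φ (ex - w) - ψ (ex - w))
      nlinarith
    calc _ ≤ _ := abs_add_le _ _
      _ ≤ θ + 2 * σ * ‖x - w‖ := add_le_add hc e4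
      _ = _ := by ring
  -- lower bound
  have hlow : A - ‖x - e‖ - θ ≤ stepS η f W ψ c e := by
    unfold stepS
    apply le_max_of_le_right
    apply le_min
    · have h1 := (abs_le.1 (hg e he)).1
      have h2 := (abs_le.1 (hφn (x - e))).2
      have h3 := norm_nonneg (x - e)
      nlinarith
    · have := envP_lip hf W x e
      linarith
  have hup : stepS η f W ψ c e' ≤ max (B + ‖y - e'‖)
      (A - (1 - η) * ‖x - y‖ + ‖y - e'‖ + 2 * σ * ‖x - y‖ + θ) := by
    unfold stepS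
    apply max_le_max
    · have := envM_lip hf W e' y
      rw [norm_sub_rev] at this
      exact this
    · apply (min_le_left _ _).trans
      have h1 := (abs_le.1 (hg e' he')).2
      have h2 : φ (x - e') = ‖x - y‖ + φ (y - e') := by
        rw [← hxy, ← map_add]
        congr 1
        abel
      have h3 := (abs_le.1 (hφn (y - e'))).1
      have h4 := norm_sub_le_norm_sub_add_norm_sub x y e'
      have h5 := norm_nonneg (y - e')
      rw [h2] at h1
      nlinarith [mul_le_mul_of_nonneg_left h4 hσ, mul_le_mul_of_nonneg_left h3 h1η]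
  rcases max_cases (B + ‖y - e'‖)
      (A - (1 - η) * ‖x - y‖ + ‖y - e'‖ + 2 * σ * ‖x - y‖ + θ) with h | h
  · rw [h.1] at hup
    linarith
  · rw [h.1] at hup
    linarith

/-! ### The tree -/

/-- The system of subspaces. -/
structure SubSys (V : ℕ → Submodule ℝ E) : Prop where
  mono : Monotone V
  zero : V 0 = ⊥
  fin : ∀ p, FiniteDimensional ℝ (V p)
  dense : ∀ (w : E) (ε : ℝ), 0 < ε → ∃ p, ∃ e ∈ V p, ‖w - e‖ < ε

/-- functionals in the dual ball -/
abbrev DB (E : Type) [NormedAddCommGroup E] [NormedSpace ℝ E] : Type := {ψ : E →L[ℝ] ℝ // ‖ψ‖ ≤ 1}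

section tree

variable {V : ℕ → Submodule ℝ E} (hV : SubSys V) (η : ℝ) (hη0 : 0 ≤ η) (hη1 : η ≤ 1)
  (net : ℤ → ℕ → ℕ → List (DB E × ℝ))

open Classical in
/-- children -/
noncomputable def childS (V : ℕ → Submodule ℝ E) (η : ℝ) (hη0 : 0 ≤ η) (hη1 : η ≤ 1)
    (net : ℤ → ℕ → ℕ → List (DB E × ℝ)) : St E → Lab → Option (St E)
  | St.root, Sum.inl τ => if adm τ then some (St.node τ zf 0) else none
  | St.root, Sum.inr _ => none
  | St.node _ _ _, Sum.inl _ => none
  | St.node τ f q, Sum.inr (p, j) =>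
      if q ≤ p then
        ((net τ.1 τ.2.1 p)[j]?).map
          (fun ac => St.node τ ⟨stepS η f.1 (V p) ac.1.1 ac.2,
            stepS_lip hη0 hη1 f.2 (V p) ac.1.2 ac.2⟩ p)
      else none

include hV in
/-- Invariants along the tree. -/
lemma reach_nodeS {τ : T} {f : {f : E → ℝ // Lip1 f}} {q : ℕ} {d : St E}
    (h : Reach (childS V η hη0 hη1 net) (St.node τ f q) d) :
    ∃ g q', d = St.node τ g q' ∧ q ≤ q' ∧ ∀ x ∈ V q, g.1 x = f.1 x := by
  induction h with
  | refl => exact ⟨f, q, rfl, le_rfl, fun x _ => rfl⟩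
  | tail _ h2 ih =>
    obtain ⟨g, q', rfl, hq, hx⟩ := ih
    obtain ⟨j, hj⟩ := h2
    rcases j with τ' | ⟨p, j⟩
    · simp [childS] at hj
    · simp only [childS] at hj
      split_ifs at hj with hqp
      obtain ⟨ac, -, hac⟩ := Option.map_eq_some_iff.1 hj
      refine ⟨_, p, hac.symm, hq.trans hqp, fun x hx' => ?_⟩
      change stepS η g.1 (V p) ac.1.1 ac.2 x = f.1 x
      rw [stepS_eq g.2 _ _ (hV.mono (hq.trans hqp) hx'), hx x hx']

lemma dev_boundS {f g : {f : E → ℝ // Lip1 f}} {e : E} (h : g.1 e = f.1 e) (w : E) :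
    |g.1 w - f.1 w| ≤ 2 * ‖w - e‖ := by
  have h1 := g.2.abs_le w e
  have h2 := f.2.abs_le w e
  rw [abs_le] at h1 h2 ⊢
  constructor <;> linarith [h1.1, h1.2, h2.1, h2.2]

include hV in
theorem finite_devS (hη : 0 < η) (w : E) (s : St E) (ε : ℝ) (hε : 0 < ε) :
    {j : Lab | ∃ s', childS V η hη0 hη1 net s j = some s' ∧
      ∃ d, Reach (childS V η hη0 hη1 net) s' d ∧ ε ≤ |val η d w - val η s w|}.Finite := by
  rcases s with _ | ⟨τ, f, q⟩
  · apply Set.Finite.subset ((finite_params η hη hε ‖w‖).image Sum.inl)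
    rintro (τ | pj) ⟨s', h1, d, h2, h3⟩
    · simp only [childS] at h1
      split_ifs at h1 with hadm
      have h1' : s' = St.node τ zf 0 := by simpa using h1.symm
      subst h1'
      obtain ⟨g, q', rfl, -, -⟩ := reach_nodeS hV η hη0 hη1 net h2
      refine ⟨τ, ⟨hadm, ?_, ?_⟩, rfl⟩
      · simp only [val, sub_zero] at h3
        exact h3.trans (cut_le_B (bB_pos τ).le _ _)
      · simp only [val, sub_zero] at h3
        have h4 := h3.trans (cut_le_chi _ _)
        rcases le_max_iff.1 h4 with h5 | h5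
        · linarith
        · linarith
    · simp [childS] at h1
  · obtain ⟨M, e, he, hM⟩ := hV.dense w (ε / 2) (by positivity)
    apply Set.Finite.subset (((Set.finite_Iio M).biUnion (fun p _ =>
      (Set.finite_Iio (net τ.1 τ.2.1 p).length).image
        (fun j => (Sum.inr (p, j) : Lab)))))
    rintro (τ' | ⟨p, j⟩) ⟨s', h1, d, h2, h3⟩
    · simp [childS] at h1
    · simp only [childS] at h1
      split_ifs at h1 with hqp
      obtain ⟨ac, hac1, hac⟩ := Option.map_eq_some_iff.1 h1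
      rw [← hac] at h2
      obtain ⟨g, q', rfl, -, hg⟩ := reach_nodeS hV η hη0 hη1 net h2
      have h5 : |val η (St.node τ g q') w - val η (St.node τ f q) w| ≤ |g.1 w - f.1 w| := by
        simp only [val]
        apply (cut_sub _ _).trans
        have : g.1 w - (τ.2.2 : ℝ) * (2 : ℝ) ^ τ.1 - (f.1 w - (τ.2.2 : ℝ) * (2 : ℝ) ^ τ.1)
          = g.1 w - f.1 w := by ring
        rw [this]
      have hp : p < M := by
        by_contra hcon
        rw [not_lt] at hcon
        have hep : e ∈ V p := hV.mono hcon he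
        have hdev : g.1 e = f.1 e := by
          rw [hg e hep]
          exact stepS_eq f.2 _ _ hep
        have h4 := dev_boundS hdev w
        linarith
      have hj : j < (net τ.1 τ.2.1 p).length := by
        rw [List.getElem?_eq_some_iff] at hac1
        exact hac1.1
      simp only [mem_iUnion, mem_image, mem_Iio, exists_prop]
      exact ⟨p, hp, j, hj, rfl⟩

end tree

end Pool.Agent.H76R3.SR
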