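import Mathlib

set_option autoImplicit false

open Topology Filter Set

namespace Pool.Agent.H76R3.TC

/-- The average of `F` over all choices of `n` signs (`true` is `+`, `false` is `-`). -/
noncomputable def avg {n : ℕ} (F : (Fin n → Bool) → ℝ) : ℝ := (∑ ε, F ε) / 2 ^ n

/-- The signed sum `∑ ± x i`. -/
def ssum {X : Type*} [AddCommGroup X] {n : ℕ} (ε : Fin n → Bool) (x : Fin n → X) : X :=
  ∑ i, if ε i then x i else - x i

lemma avg_zero (F : (Fin 0 → Bool) → ℝ) : avg F = F default := by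
  simp only [avg, Finset.univ_unique, Finset.sum_singleton, pow_zero, div_one]
  exact congrArg F (Subsingleton.elim _ _)

lemma avg_succ {n : ℕ} (F : (Fin (n+1) → Bool) → ℝ) :
    avg F = (avg (fun ε => F (Fin.cons true ε)) + avg (fun ε => F (Fin.cons false ε))) / 2 := by
  unfold avg
  have h : ∑ ε : Fin (n+1) → Bool, F ε
      = ∑ q : Bool × (Fin n → Bool), F (Fin.cons q.1 q.2) := by
    refine (Fintype.sum_equiv (Fin.consEquiv (fun _ => Bool)) _ _ ?_).symm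
    intro q
    rfl
  rw [h, Fintype.sum_prod_type, Fintype.sum_bool, pow_succ]
  field_simp

lemma ssum_zero {X : Type*} [AddCommGroup X] (ε : Fin 0 → Bool) (x : Fin 0 → X) :
    ssum ε x = 0 := by simp [ssum]

lemma ssum_cons_true {X : Type*} [AddCommGroup X] {n : ℕ} (ε : Fin n → Bool) (x : Fin (n+1) → X) :
    ssum (Fin.cons true ε) x = x 0 + ssum ε (fun i => x i.succ) := by
  simp [ssum, Fin.sum_univ_succ]

lemma ssum_cons_false {X : Type*} [AddCommGroup X] {n : ℕ} (ε : Fin n → Bool) (x : Fin (n+1) → X) :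
    ssum (Fin.cons false ε) x = - x 0 + ssum ε (fun i => x i.succ) := by
  simp [ssum, Fin.sum_univ_succ]

lemma avg_mono {n : ℕ} {F G : (Fin n → Bool) → ℝ} (h : ∀ ε, F ε ≤ G ε) : avg F ≤ avg G := by
  unfold avg
  gcongr
  exact h _

lemma avg_add {n : ℕ} (F G : (Fin n → Bool) → ℝ) : avg (fun ε => F ε + G ε) = avg F + avg G := by
  unfold avg
  rw [Finset.sum_add_distrib, add_div]

lemma avg_const_mul {n : ℕ} (c : ℝ) (F : (Fin n → Bool) → ℝ) :
    avg (fun ε => c * F ε) = c * avg F := by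
  unfold avg
  rw [← Finset.mul_sum, mul_div_assoc]

lemma avg_const {n : ℕ} (c : ℝ) : avg (fun _ : Fin n → Bool => c) = c := by
  unfold avg
  simp [Finset.sum_const]

lemma avg_sum {n : ℕ} {ι : Type*} (s : Finset ι) (F : ι → (Fin n → Bool) → ℝ) :
    avg (fun ε => ∑ i ∈ s, F i ε) = ∑ i ∈ s, avg (F i) := by
  unfold avg
  rw [Finset.sum_comm, Finset.sum_div]

lemma avg_nonneg {n : ℕ} {F : (Fin n → Bool) → ℝ} (h : ∀ ε, 0 ≤ F ε) : 0 ≤ avg F := by
  unfold avg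
  exact div_nonneg (Finset.sum_nonneg fun ε _ => h ε) (by positivity)

/-- second moment in an inner product space -/
lemma avg_sq_inner {H : Type*} [NormedAddCommGroup H] [InnerProductSpace ℝ H] {n : ℕ}
    (x : Fin n → H) (a : H) :
    avg (fun ε => ‖a + ssum ε x‖ ^ 2) = ‖a‖ ^ 2 + ∑ i, ‖x i‖ ^ 2 := by
  induction n generalizing a with
  | zero => simp [avg_zero, ssum_zero]
  | succ n ih =>
    rw [avg_succ]
    simp only [ssum_cons_true, ssum_cons_false, ← add_assoc]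
    rw [ih, ih, Fin.sum_univ_succ]
    have := parallelogram_law_with_norm ℝ a (x 0)
    rw [← sub_eq_add_neg]
    nlinarith

lemma avg_sq_real {n : ℕ} (c : Fin n → ℝ) : avg (fun ε => (ssum ε c) ^ 2) = ∑ i, (c i) ^ 2 := by
  have := avg_sq_inner c 0
  simpa using this

/-- fourth moment bound -/
lemma avg_four {n : ℕ} (c : Fin n → ℝ) :
    avg (fun ε => (ssum ε c) ^ 4) ≤ 3 * (∑ i, (c i) ^ 2) ^ 2 := by
  induction n with
  | zero => simp [avg_zero, ssum_zero]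
  | succ n ih =>
    rw [avg_succ]
    simp only [ssum_cons_true, ssum_cons_false]
    have h2 := avg_sq_real (fun i : Fin n => c i.succ)
    have h4 := ih (fun i : Fin n => c i.succ)
    rw [Fin.sum_univ_succ]
    set s := ∑ i : Fin n, (c i.succ) ^ 2 with hs
    have e : (avg (fun ε => (c 0 + ssum ε (fun i : Fin n => c i.succ)) ^ 4)
        + avg (fun ε => (-c 0 + ssum ε (fun i : Fin n => c i.succ)) ^ 4)) / 2
        = (c 0) ^ 4 + 6 * (c 0) ^ 2 * avg (fun ε => (ssum ε (fun i : Fin n => c i.succ)) ^ 2)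
          + avg (fun ε => (ssum ε (fun i : Fin n => c i.succ)) ^ 4) := by
      rw [← avg_add]
      have : ∀ ε : Fin n → Bool, (c 0 + ssum ε (fun i : Fin n => c i.succ)) ^ 4
          + (-c 0 + ssum ε (fun i : Fin n => c i.succ)) ^ 4
          = 2 * ((c 0) ^ 4 + (6 * (c 0) ^ 2 * (ssum ε (fun i : Fin n => c i.succ)) ^ 2
            + (ssum ε (fun i : Fin n => c i.succ)) ^ 4)) := by
        intro ε; ring
      simp only [this]
      rw [avg_const_mul, avg_add, avg_add, avg_const, avg_const_mul]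
      ring
    rw [e, h2]
    have hs0 : 0 ≤ s := Finset.sum_nonneg fun i _ => sq_nonneg _
    nlinarith [sq_nonneg ((c 0)^2)]

/-- lower Khintchine inequality -/
lemma avg_abs_ge {n : ℕ} (c : Fin n → ℝ) :
    Real.sqrt (∑ i, (c i) ^ 2) ≤ 2 * avg (fun ε => |ssum ε c|) := by
  set s := ∑ i, (c i) ^ 2 with hs
  have hs0 : 0 ≤ s := Finset.sum_nonneg fun i _ => sq_nonneg _
  rcases hs0.eq_or_lt with h0 | hpos
  · rw [← h0, Real.sqrt_zero]
    exact mul_nonneg (by norm_num) (avg_nonneg fun ε => abs_nonneg _)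
  set l := Real.sqrt s with hl
  have hl0 : 0 < l := Real.sqrt_pos.2 hpos
  have hl2 : l ^ 2 = s := Real.sq_sqrt hs0
  have hpt : ∀ t : ℝ, l ^ 2 * t ^ 2 - 1/6 * t ^ 4 ≤ l ^ 3 * |t| := by
    intro t
    set y := |t| with hy
    have hy0 : 0 ≤ y := abs_nonneg t
    have ht2 : t ^ 2 = y ^ 2 := (sq_abs t).symm
    have ht4 : t ^ 4 = y ^ 4 := by
      calc t ^ 4 = (t ^ 2) ^ 2 := by ring
        _ = (y ^ 2) ^ 2 := by rw [ht2]
        _ = y ^ 4 := by ring
    rw [ht2, ht4]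
    -- y (l^3 - l^2 y + y^3/6) ≥ 0
    have h1 : 0 ≤ l ^ 3 - l ^ 2 * y + 1/6 * y ^ 3 := by
      nlinarith [mul_nonneg hy0 (sq_nonneg (y - 7/5 * l)), mul_nonneg hl0.le (sq_nonneg (y - 7/5 * l)),
        mul_pos hl0 (mul_pos hl0 hl0), mul_nonneg hl0.le (mul_nonneg hl0.le hy0)]
    nlinarith [mul_nonneg hy0 h1]
  have h1 : avg (fun ε => l ^ 2 * (ssum ε c) ^ 2 + (-(1/6)) * (ssum ε c) ^ 4)
      ≤ avg (fun ε => l ^ 3 * |ssum ε c|) := by
    apply avg_mono
    intro ε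
    have := hpt (ssum ε c)
    linarith
  rw [avg_add, avg_const_mul, avg_const_mul, avg_const_mul, avg_sq_real] at h1
  have h4 := avg_four c
  rw [← hs] at h1 h4
  have h5 : l ^ 3 * (l / 2) ≤ l ^ 3 * avg (fun ε => |ssum ε c|) := by
    nlinarith
  have h6 := le_of_mul_le_mul_left h5 (by positivity)
  linarith

/-- `X` has Rademacher type `p`. -/
def HasType (X : Type) [NormedAddCommGroup X] (p : ℝ) : Prop :=
  ∃ C : ℝ, ∀ (n : ℕ) (x : Fin n → X),
    Real.sqrt (avg (fun ε => ‖ssum ε x‖ ^ 2)) ≤ C * (∑ i, ‖x i‖ ^ p) ^ (1 / p)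

/-- `X` has Rademacher cotype `q`. -/
def HasCotype (X : Type) [NormedAddCommGroup X] (q : ℝ) : Prop :=
  ∃ C : ℝ, ∀ (n : ℕ) (x : Fin n → X),
    (∑ i, ‖x i‖ ^ q) ^ (1 / q) ≤ C * Real.sqrt (avg (fun ε => ‖ssum ε x‖ ^ 2))

lemma map_ssum {X Y : Type} [NormedAddCommGroup X] [NormedSpace ℝ X] [NormedAddCommGroup Y]
    [NormedSpace ℝ Y] (e : X →L[ℝ] Y) {n : ℕ} (ε : Fin n → Bool) (x : Fin n → X) :
    e (ssum ε x) = ssum ε (fun i => e (x i)) := by
  simp only [ssum, map_sum]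
  refine Finset.sum_congr rfl fun i _ => ?_
  split_ifs <;> simp

lemma lq_mono {n : ℕ} {q c : ℝ} (hq : 0 < q) (hc : 0 ≤ c) {a b : Fin n → ℝ} (ha : ∀ i, 0 ≤ a i)
    (hb : ∀ i, 0 ≤ b i) (h : ∀ i, a i ≤ c * b i) :
    (∑ i, a i ^ q) ^ (1 / q) ≤ c * (∑ i, b i ^ q) ^ (1 / q) := by
  have h1 : ∑ i, a i ^ q ≤ c ^ q * ∑ i, b i ^ q := by
    rw [Finset.mul_sum]
    refine Finset.sum_le_sum fun i _ => ?_
    rw [← Real.mul_rpow hc (hb i)]
    exact Real.rpow_le_rpow (ha i) (h i) hq.le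
  have h2 : (∑ i, a i ^ q) ^ (1 / q) ≤ (c ^ q * ∑ i, b i ^ q) ^ (1 / q) :=
    Real.rpow_le_rpow (Finset.sum_nonneg fun i _ => Real.rpow_nonneg (ha i) _) h1 (by positivity)
  rw [Real.mul_rpow (Real.rpow_nonneg hc _)
    (Finset.sum_nonneg fun i _ => Real.rpow_nonneg (hb i) _), ← Real.rpow_mul hc,
    mul_one_div_cancel hq.ne', Real.rpow_one] at h2
  exact h2

lemma sqrt_avg_mono {n : ℕ} {X Y : Type} [NormedAddCommGroup X] [NormedSpace ℝ X]
    [NormedAddCommGroup Y] [NormedSpace ℝ Y] (e : X →L[ℝ] Y) (x : Fin n → X) :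
    Real.sqrt (avg (fun ε => ‖ssum ε (fun i => e (x i))‖ ^ 2))
      ≤ ‖e‖ * Real.sqrt (avg (fun ε => ‖ssum ε x‖ ^ 2)) := by
  have h1 : avg (fun ε => ‖ssum ε (fun i => e (x i))‖ ^ 2)
      ≤ ‖e‖ ^ 2 * avg (fun ε => ‖ssum ε x‖ ^ 2) := by
    rw [← avg_const_mul]
    apply avg_mono
    intro ε
    rw [← map_ssum, ← mul_pow]
    gcongr
    exact e.le_opNorm _
  calc Real.sqrt (avg (fun ε => ‖ssum ε (fun i => e (x i))‖ ^ 2))
      ≤ Real.sqrt (‖e‖ ^ 2 * avg (fun ε => ‖ssum ε x‖ ^ 2)) := Real.sqrt_le_sqrt h1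
    _ = ‖e‖ * Real.sqrt (avg (fun ε => ‖ssum ε x‖ ^ 2)) := by
      rw [Real.sqrt_mul (by positivity), Real.sqrt_sq (norm_nonneg _)]

lemma HasCotype.transfer {X Y : Type} [NormedAddCommGroup X] [NormedSpace ℝ X]
    [NormedAddCommGroup Y] [NormedSpace ℝ Y] (e : X ≃L[ℝ] Y) {q : ℝ} (hq : 0 < q)
    (h : HasCotype X q) : HasCotype Y q := by
  obtain ⟨C, hC⟩ := h
  refine ⟨‖(e : X →L[ℝ] Y)‖ * (|C| * ‖(e.symm : Y →L[ℝ] X)‖), fun n y => ?_⟩
  have h1 := hC n (fun i => e.symm (y i))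
  have h2 := sqrt_avg_mono (e.symm : Y →L[ℝ] X) y
  have h3 : (∑ i, ‖y i‖ ^ q) ^ (1 / q)
      ≤ ‖(e : X →L[ℝ] Y)‖ * (∑ i, ‖e.symm (y i)‖ ^ q) ^ (1 / q) := by
    apply lq_mono hq (norm_nonneg _) (fun i => norm_nonneg _) (fun i => norm_nonneg _)
    intro i
    have := (e : X →L[ℝ] Y).le_opNorm (e.symm (y i))
    simpa using this
  calc (∑ i, ‖y i‖ ^ q) ^ (1 / q)
      ≤ ‖(e : X →L[ℝ] Y)‖ * (∑ i, ‖e.symm (y i)‖ ^ q) ^ (1 / q) := h3
    _ ≤ ‖(e : X →L[ℝ] Y)‖ * (|C| * (‖(e.symm : Y →L[ℝ] X)‖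
          * Real.sqrt (avg (fun ε => ‖ssum ε y‖ ^ 2)))) := by
        apply mul_le_mul_of_nonneg_left _ (norm_nonneg _)
        refine h1.trans ?_
        refine (mul_le_mul_of_nonneg_right (le_abs_self C) (Real.sqrt_nonneg _)).trans ?_
        exact mul_le_mul_of_nonneg_left h2 (abs_nonneg _)
    _ = _ := by ring

lemma HasType.transfer {X Y : Type} [NormedAddCommGroup X] [NormedSpace ℝ X]
    [NormedAddCommGroup Y] [NormedSpace ℝ Y] (e : X ≃L[ℝ] Y) {p : ℝ} (hp : 0 < p)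
    (h : HasType X p) : HasType Y p := by
  obtain ⟨C, hC⟩ := h
  refine ⟨‖(e : X →L[ℝ] Y)‖ * (|C| * ‖(e.symm : Y →L[ℝ] X)‖), fun n y => ?_⟩
  have h1 := hC n (fun i => e.symm (y i))
  have h2 := sqrt_avg_mono (e : X →L[ℝ] Y) (fun i => e.symm (y i))
  have h3 : (∑ i, ‖e.symm (y i)‖ ^ p) ^ (1 / p)
      ≤ ‖(e.symm : Y →L[ℝ] X)‖ * (∑ i, ‖y i‖ ^ p) ^ (1 / p) := by
    apply lq_mono hp (norm_nonneg _) (fun i => norm_nonneg _) (fun i => norm_nonneg _)
    intro i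
    exact (e.symm : Y →L[ℝ] X).le_opNorm (y i)
  simp only [ContinuousLinearEquiv.coe_coe, ContinuousLinearEquiv.apply_symm_apply] at h2
  calc Real.sqrt (avg (fun ε => ‖ssum ε y‖ ^ 2))
      ≤ ‖(e : X →L[ℝ] Y)‖ * Real.sqrt (avg (fun ε => ‖ssum ε (fun i => e.symm (y i))‖ ^ 2)) := h2
    _ ≤ ‖(e : X →L[ℝ] Y)‖ * (|C| * (‖(e.symm : Y →L[ℝ] X)‖ * (∑ i, ‖y i‖ ^ p) ^ (1 / p))) := by
        apply mul_le_mul_of_nonneg_left _ (norm_nonneg _)
        refine h1.trans ?_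
        have hnn : 0 ≤ (∑ i, ‖e.symm (y i)‖ ^ p) ^ (1 / p) :=
          Real.rpow_nonneg (Finset.sum_nonneg fun i _ => Real.rpow_nonneg (norm_nonneg _) _) _
        refine (mul_le_mul_of_nonneg_right (le_abs_self C) hnn).trans ?_
        exact mul_le_mul_of_nonneg_left h3 (abs_nonneg _)
    _ = _ := by ring

lemma sqrt_avg_inner {H : Type} [NormedAddCommGroup H] [InnerProductSpace ℝ H] {n : ℕ}
    (x : Fin n → H) :
    Real.sqrt (avg (fun ε => ‖ssum ε x‖ ^ 2)) = (∑ i, ‖x i‖ ^ (2 : ℝ)) ^ (1 / (2 : ℝ)) := by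
  have := avg_sq_inner x 0
  simp only [zero_add, norm_zero] at this
  rw [this, Real.sqrt_eq_rpow]
  norm_num

lemma hasType_inner (H : Type) [NormedAddCommGroup H] [InnerProductSpace ℝ H] : HasType H 2 :=
  ⟨1, fun n x => by rw [sqrt_avg_inner, one_mul]⟩

lemma hasCotype_inner (H : Type) [NormedAddCommGroup H] [InnerProductSpace ℝ H] : HasCotype H 2 :=
  ⟨1, fun n x => by rw [sqrt_avg_inner, one_mul]⟩

lemma avg_le_sqrt {n : ℕ} (F : (Fin n → Bool) → ℝ) :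
    avg F ≤ Real.sqrt (avg (fun ε => F ε ^ 2)) := by
  apply Real.le_sqrt_of_sq_le
  set m := avg F with hm
  have h : 0 ≤ avg (fun ε => (F ε - m) ^ 2) := avg_nonneg fun ε => sq_nonneg _
  have e : avg (fun ε => (F ε - m) ^ 2) = avg (fun ε => F ε ^ 2) - m ^ 2 := by
    have : ∀ ε, (F ε - m) ^ 2 = F ε ^ 2 + ((-(2 * m)) * F ε + m ^ 2) := fun ε => by ring
    simp only [this]
    rw [avg_add, avg_add, avg_const_mul, avg_const, ← hm]
    ring
  linarith

lemma norm_l1 (x : lp (fun _ : ℕ => ℝ) 1) : HasSum (fun j => |x j|) ‖x‖ := by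
  have h1 := lp.norm_eq_tsum_rpow (p := 1) (by simp) x
  simp only [ENNReal.toReal_one, Real.rpow_one, Real.norm_eq_abs, ne_eq, one_ne_zero,
    not_false_eq_true, div_self] at h1
  have h2 := (lp.memℓp x).summable (p := 1) (by simp)
  simp only [ENNReal.toReal_one, Real.rpow_one, Real.norm_eq_abs] at h2
  rw [h1]
  exact h2.hasSum

lemma hasCotype_l1 : HasCotype (lp (fun _ : ℕ => ℝ) 1) 2 := by
  refine ⟨2, fun n x => ?_⟩
  set N := (∑ i, ‖x i‖ ^ (2:ℝ)) ^ (1 / (2:ℝ)) with hN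
  have hN2 : N = Real.sqrt (∑ i, ‖x i‖ ^ 2) := by
    rw [hN, Real.sqrt_eq_rpow]
    norm_num
  have hs0 : 0 ≤ ∑ i, ‖x i‖ ^ 2 := Finset.sum_nonneg fun i _ => sq_nonneg _
  have hN0 : 0 ≤ N := by rw [hN2]; exact Real.sqrt_nonneg _
  have hNs : N ^ 2 = ∑ i, ‖x i‖ ^ 2 := by rw [hN2]; exact Real.sq_sqrt hs0
  have hmain : N ≤ 2 * avg (fun ε => ‖ssum ε x‖) := by
    rcases hN0.eq_or_lt with h0 | hpos
    · rw [← h0]
      exact mul_nonneg (by norm_num) (avg_nonneg fun ε => norm_nonneg _)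
    -- pointwise inequality
    have hpt : ∀ j : ℕ, ∑ i, (‖x i‖ / N) * |x i j| ≤ 2 * avg (fun ε => |ssum ε (fun i => x i j)|) := by
      intro j
      refine le_trans ?_ (avg_abs_ge (fun i => x i j))
      have h1 := Real.sum_mul_le_sqrt_mul_sqrt Finset.univ (fun i => ‖x i‖ / N) (fun i => |x i j|)
      refine h1.trans ?_
      have h2 : ∑ i, (‖x i‖ / N) ^ 2 = 1 := by
        simp only [div_pow]
        rw [← Finset.sum_div, ← hNs]
        field_simp
      rw [h2, Real.sqrt_one, one_mul]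
      simp
    have hL : HasSum (fun j => ∑ i, (‖x i‖ / N) * |x i j|) (∑ i, (‖x i‖ / N) * ‖x i‖) :=
      hasSum_sum fun i _ => (norm_l1 (x i)).mul_left _
    have hLv : ∑ i, (‖x i‖ / N) * ‖x i‖ = N := by
      have : ∀ i, (‖x i‖ / N) * ‖x i‖ = ‖x i‖ ^ 2 / N := fun i => by ring
      simp only [this]
      rw [← Finset.sum_div, ← hNs]
      field_simp
    have hcoe : ∀ (ε : Fin n → Bool) (j : ℕ), (ssum ε x) j = ssum ε (fun i => x i j) := by
      intro ε j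
      have := map_ssum (lp.evalCLM ℝ (fun _ : ℕ => ℝ) 1 j) ε x
      exact this
    have hR : HasSum (fun j => 2 * avg (fun ε => |ssum ε (fun i => x i j)|))
        (2 * avg (fun ε => ‖ssum ε x‖)) := by
      apply HasSum.mul_left
      unfold avg
      apply HasSum.div_const
      apply hasSum_sum
      intro ε _
      have := norm_l1 (ssum ε x)
      simpa only [hcoe] using this
    rw [hLv] at hL
    exact hasSum_le hpt hL hR
  refine hmain.trans ?_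
  have := avg_le_sqrt (fun ε => ‖ssum ε x‖)
  linarith

end Pool.Agent.H76R3.TC
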