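import Mathlib

set_option autoImplicit false

open Filter Topology

namespace Pool.Agent.H76R3.UN

lemma norm_l1 (x : lp (fun _ : ℕ => ℝ) 1) : HasSum (fun j => |x j|) ‖x‖ := by
  have h1 := lp.norm_eq_tsum_rpow (p := 1) (by simp) x
  simp only [ENNReal.toReal_one, Real.rpow_one, Real.norm_eq_abs, ne_eq, one_ne_zero,
    not_false_eq_true, div_self] at h1
  have h2 := (lp.memℓp x).summable (p := 1) (by simp)
  simp only [ENNReal.toReal_one, Real.rpow_one, Real.norm_eq_abs] at h2
  rw [h1]
  exact h2.hasSum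

variable {E : Type} [Fintype E] [DecidableEq E]

lemma AIs_summable (t : ℕ → E) (e : E) (u : lp (fun _ : ℕ => ℝ) 1) :
    Summable (fun n => if t n = e then u n else 0) := by
  refine Summable.of_norm_bounded (norm_l1 u).summable fun n => ?_
  split_ifs <;> simp

/-- sum of the coordinates in a pattern class -/
noncomputable def AIs (t : ℕ → E) (e : E) : lp (fun _ : ℕ => ℝ) 1 →ₗ[ℝ] ℝ where
  toFun u := ∑' n, if t n = e then u n else 0
  map_add' u v := by
    rw [← Summable.tsum_add (AIs_summable t e u) (AIs_summable t e v)]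
    congr 1
    funext n
    split_ifs <;> simp
  map_smul' c u := by
    rw [smul_eq_mul, ← tsum_mul_left, RingHom.id_apply]
    congr 1
    funext n
    split_ifs <;> simp

lemma AIs_hasSum (t : ℕ → E) (e : E) (u : lp (fun _ : ℕ => ℝ) 1) :
    HasSum (fun n => if t n = e then u n else 0) (AIs t e u) := (AIs_summable t e u).hasSum

lemma sum_AIs_le (t : ℕ → E) (u : lp (fun _ : ℕ => ℝ) 1) : ∑ e, |AIs t e u| ≤ ‖u‖ := by
  have h1 : ∀ e, Summable (fun n => if t n = e then |u n| else 0) := by
    intro e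
    refine Summable.of_norm_bounded (norm_l1 u).summable fun n => ?_
    split_ifs <;> simp
  have h2 : ∀ e, |AIs t e u| ≤ ∑' n, if t n = e then |u n| else 0 := by
    intro e
    have h3 : |∑' n, if t n = e then u n else 0| ≤ ∑' n, ‖if t n = e then u n else 0‖ :=
      norm_tsum_le_tsum_norm (AIs_summable t e u).norm
    refine h3.trans (le_of_eq ?_)
    congr 1
    funext n
    split_ifs <;> simp
  refine (Finset.sum_le_sum fun e _ => h2 e).trans (le_of_eq ?_)
  rw [← Summable.tsum_finsetSum (fun e _ => h1 e), ← (norm_l1 u).tsum_eq]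
  congr 1
  funext n
  rw [Finset.sum_ite_eq]
  simp

lemma le_sum_AIs (t : ℕ → E) (u : lp (fun _ : ℕ => ℝ) 1) (σ : E → ℝ) (hσ : ∀ e, |σ e| ≤ 1)
    (h : ∀ n, σ (t n) * u n = |u n|) : ‖u‖ ≤ ∑ e, |AIs t e u| := by
  have h1 : HasSum (fun n => ∑ e, σ e * (if t n = e then u n else 0)) (∑ e, σ e * AIs t e u) :=
    hasSum_sum fun e _ => (AIs_hasSum t e u).mul_left _
  have h2 : (fun n => ∑ e, σ e * (if t n = e then u n else 0)) = fun n => |u n| := by
    funext n
    rw [← h n]
    simp only [mul_ite, mul_zero]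
    rw [Finset.sum_ite_eq]
    simp
  rw [h2] at h1
  rw [(norm_l1 u).unique h1]
  refine Finset.sum_le_sum fun e _ => ?_
  refine (le_abs_self _).trans ?_
  rw [abs_mul]
  exact mul_le_of_le_one_left (abs_nonneg _) (hσ e)

lemma emb_mem (M : ℕ) (a : Fin M → ℝ) :
    Memℓp (fun n : ℕ => if h : n < M then a ⟨n, h⟩ else 0) (1 : ENNReal) := by
  apply memℓp_gen
  simp only [ENNReal.toReal_one, Real.rpow_one]
  apply summable_of_ne_finset_zero (s := Finset.range M)
  intro n hn
  rw [Finset.mem_range] at hn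
  simp [hn]

/-- isometric embedding of a finite-dimensional `ℓ_1` -/
noncomputable def emb (M : ℕ) (a : Fin M → ℝ) : lp (fun _ : ℕ => ℝ) 1 :=
  ⟨fun n => if h : n < M then a ⟨n, h⟩ else 0, emb_mem M a⟩

lemma emb_apply (M : ℕ) (a : Fin M → ℝ) (n : ℕ) :
    emb M a n = if h : n < M then a ⟨n, h⟩ else 0 := rfl

lemma emb_norm_sub (M : ℕ) (a b : Fin M → ℝ) : ‖emb M a - emb M b‖ = ∑ c, |a c - b c| := by
  have h1 := norm_l1 (emb M a - emb M b)
  have h2 : HasSum (fun j => |(emb M a - emb M b) j|) (∑ j ∈ Finset.range M,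
      |(emb M a - emb M b) j|) := by
    apply hasSum_sum_of_ne_finset_zero
    intro n hn
    rw [Finset.mem_range] at hn
    simp [emb_apply, hn]
  rw [h1.unique h2, Finset.sum_range]
  refine Finset.sum_congr rfl fun c _ => ?_
  simp [emb_apply]

end Pool.Agent.H76R3.UN
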