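import Pool.Agent.H76R3.USide
import Pool.Agent.H76R3.U1L1

set_option autoImplicit false

open Filter Topology

namespace Pool.Agent.H76R3.UN

open Pool.Agent.H799R2.Union

variable {N' M : ℕ}

/-- vector-valued averaged difference quotient -/
noncomputable def UV (g : Fin M → Fin (N' + 1) → ℤ) (F : (Fin M → ℝ) → lp (fun _ : ℕ => ℝ) 1)
    (z : Fin (N' + 1) → ℤ) (s : ℕ) (x : Fin (N' + 1)) : lp (fun _ : ℕ => ℝ) 1 :=
  ((s : ℝ) * (s : ℝ) ^ N')⁻¹ • ∑ i : Fin N' → Fin s, (F (mr g (ipos (z + insZ x (s : ℤ) i))) -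
    F (mr g (ipos (z + insZ x 0 i))))

lemma AIs_UV {E : Type} [Fintype E] [DecidableEq E] (t : ℕ → E) (e : E)
    (g : Fin M → Fin (N' + 1) → ℤ) (F : (Fin M → ℝ) → lp (fun _ : ℕ => ℝ) 1)
    (z : Fin (N' + 1) → ℤ) (s : ℕ) (x : Fin (N' + 1)) :
    AIs t e (UV g F z s x) = UA g (fun a => AIs t e (F a)) z s x := by
  unfold UV UA
  rw [map_smul, map_sum, smul_eq_mul, div_eq_inv_mul]
  congr 1
  exact Finset.sum_congr rfl fun i _ => map_sub _ _ _

lemma key_e (D : ℝ) (hD : 1 ≤ D) (g h : Fin M → Fin (N' + 1) → ℤ)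
    (hg : ∀ c x, |(g c x : ℝ)| ≤ 1)
    (hinc : ∀ a b, |∑ x, (g a x : ℝ) * (h b x : ℝ)| ≤ ((N' : ℝ) + 1) / (64 * D ^ 2))
    (φ ψ : Fin M → ℝ) :
    ∑ x, |∑ c, (g c x : ℝ) * φ c| ≤ ((N' : ℝ) + 1) / (16 * D) * (∑ c, |φ c| + ∑ c, |ψ c|) +
      ((N' : ℝ) + 1) / (8 * D) * ∑ c, |φ c| +
      2 * D * ∑ x, |∑ c, (g c x : ℝ) * φ c - ∑ c, (h c x : ℝ) * ψ c| := by
  have hD0 : 0 < D := by linarith
  set N : ℝ := (N' : ℝ) + 1 with hN
  have hN0 : 0 < N := by rw [hN]; positivity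
  set α := ∑ c, |φ c| with hα
  set β := ∑ c, |ψ c| with hβ
  set r := ∑ x, |∑ c, (g c x : ℝ) * φ c - ∑ c, (h c x : ℝ) * ψ c| with hr
  have hα0 : 0 ≤ α := Finset.sum_nonneg fun _ _ => abs_nonneg _
  have hβ0 : 0 ≤ β := Finset.sum_nonneg fun _ _ => abs_nonneg _
  have hr0 : 0 ≤ r := Finset.sum_nonneg fun _ _ => abs_nonneg _
  have h1 : (∑ x, |∑ c, (g c x : ℝ) * φ c|) ^ 2 ≤ N * ∑ x, (∑ c, (g c x : ℝ) * φ c) ^ 2 := by
    have h2 := sq_sum_le_card_mul_sum_sq (s := Finset.univ)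
      (f := fun x : Fin (N' + 1) => |∑ c, (g c x : ℝ) * φ c|)
    simp only [sq_abs, Finset.card_univ, Fintype.card_fin] at h2
    rw [hN]
    push_cast at h2
    exact h2
  have hΘ : ∀ x, |∑ c, (g c x : ℝ) * φ c| ≤ α := by
    intro x
    refine (Finset.abs_sum_le_sum_abs _ _).trans (Finset.sum_le_sum fun c _ => ?_)
    rw [abs_mul]
    exact mul_le_of_le_one_left (abs_nonneg _) (hg c x)
  have h2 : ∑ x, (∑ c, (g c x : ℝ) * φ c) * (∑ c, (h c x : ℝ) * ψ c) ≤
      N / (64 * D ^ 2) * (α * β) := by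
    have e1 : ∑ x, (∑ c, (g c x : ℝ) * φ c) * (∑ c, (h c x : ℝ) * ψ c) =
        ∑ c, ∑ c', φ c * ψ c' * ∑ x, (g c x : ℝ) * (h c' x : ℝ) := by
      simp_rw [Finset.sum_mul_sum]
      rw [Finset.sum_comm]
      refine Finset.sum_congr rfl fun c _ => ?_
      rw [Finset.sum_comm]
      refine Finset.sum_congr rfl fun c' _ => ?_
      rw [Finset.mul_sum]
      exact Finset.sum_congr rfl fun x _ => by ring
    rw [e1]
    calc ∑ c, ∑ c', φ c * ψ c' * ∑ x, (g c x : ℝ) * (h c' x : ℝ)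
        ≤ ∑ c, ∑ c', |φ c| * |ψ c'| * (N / (64 * D ^ 2)) := by
          refine Finset.sum_le_sum fun c _ => Finset.sum_le_sum fun c' _ => ?_
          refine (le_abs_self _).trans ?_
          rw [abs_mul, abs_mul]
          exact mul_le_mul_of_nonneg_left (hinc c c') (by positivity)
      _ = N / (64 * D ^ 2) * (α * β) := by
          rw [hα, hβ, Finset.sum_mul_sum, Finset.mul_sum]
          refine Finset.sum_congr rfl fun c _ => ?_
          rw [Finset.mul_sum]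
          exact Finset.sum_congr rfl fun c' _ => by ring
  have h3 : ∑ x, (∑ c, (g c x : ℝ) * φ c) * (∑ c, (g c x : ℝ) * φ c - ∑ c, (h c x : ℝ) * ψ c) ≤
      α * r := by
    rw [hr, Finset.mul_sum]
    refine Finset.sum_le_sum fun x _ => ?_
    refine (le_abs_self _).trans ?_
    rw [abs_mul]
    exact mul_le_mul_of_nonneg_right (hΘ x) (abs_nonneg _)
  have h4 : ∑ x, (∑ c, (g c x : ℝ) * φ c) ^ 2 ≤ N / (64 * D ^ 2) * (α * β) + α * r := by
    have e1 : ∑ x, (∑ c, (g c x : ℝ) * φ c) ^ 2 =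
        ∑ x, (∑ c, (g c x : ℝ) * φ c) * (∑ c, (h c x : ℝ) * ψ c) +
        ∑ x, (∑ c, (g c x : ℝ) * φ c) * (∑ c, (g c x : ℝ) * φ c - ∑ c, (h c x : ℝ) * ψ c) := by
      rw [← Finset.sum_add_distrib]
      exact Finset.sum_congr rfl fun x _ => by ring
    rw [e1]
    exact add_le_add h2 h3
  have h5 : (∑ x, |∑ c, (g c x : ℝ) * φ c|) ^ 2 ≤
      (N / (16 * D) * (α + β) + N / (8 * D) * α + 2 * D * r) ^ 2 := by
    refine h1.trans ((mul_le_mul_of_nonneg_left h4 hN0.le).trans ?_)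
    have a1 : 0 ≤ N / (16 * D) * (α + β) := by positivity
    have a2 : 0 ≤ N / (8 * D) * α := by positivity
    have a3 : 0 ≤ 2 * D * r := by positivity
    have b1 : N * (N / (64 * D ^ 2) * (α * β)) ≤ (N / (16 * D) * (α + β)) ^ 2 := by
      have e1 : N * (N / (64 * D ^ 2) * (α * β)) = (N / (16 * D)) ^ 2 * (4 * (α * β)) := by
        field_simp
        ring
      rw [e1, mul_pow]
      apply mul_le_mul_of_nonneg_left _ (sq_nonneg _)
      nlinarith [sq_nonneg (α - β)]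
    have b2 : N * (α * r) ≤ (N / (8 * D) * α + 2 * D * r) ^ 2 := by
      have e1 : N * (α * r) = 4 * ((N / (8 * D) * α) * (2 * D * r)) := by
        field_simp
        ring
      rw [e1]
      nlinarith [sq_nonneg (N / (8 * D) * α - 2 * D * r)]
    have b3 : (N / (16 * D) * (α + β)) ^ 2 + (N / (8 * D) * α + 2 * D * r) ^ 2 ≤
        (N / (16 * D) * (α + β) + (N / (8 * D) * α + 2 * D * r)) ^ 2 := by
      have a4 : 0 ≤ N / (8 * D) * α + 2 * D * r := by linarith
      nlinarith [mul_nonneg a1 a4]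
    rw [mul_add]
    rw [← add_assoc] at b3
    linarith
  have h6 := abs_le_of_sq_le_sq h5 (by positivity)
  exact (le_abs_self _).trans h6

lemma core_ineq (D : ℝ) (hD : 1 ≤ D) (s : ℕ) (hs : (s : ℝ) = 128 * D ^ 2 * ((N' : ℝ) + 1))
    (hM : 0 < M) (g h : Fin M → Fin (N' + 1) → ℤ)
    (hg : ∀ c x, |(g c x : ℝ)| ≤ 1) (hh : ∀ c x, |(h c x : ℝ)| ≤ 1)
    (hinc : ∀ a b, |∑ x, (g a x : ℝ) * (h b x : ℝ)| ≤ ((N' : ℝ) + 1) / (64 * D ^ 2))
    (FA FB : (Fin M → ℝ) → lp (fun _ : ℕ => ℝ) 1)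
    (hA : ∀ a a', ‖FA a - FA a'‖ ≤ D * ∑ c, |a c - a' c|)
    (hB : ∀ a a', ‖FB a - FB a'‖ ≤ D * ∑ c, |a c - a' c|)
    (z : Fin (N' + 1) → ℤ)
    (hc : ∀ x, ‖UV g FA z s x - UV h FB z s x‖ ≤ 2 * D * (2 * ((N' : ℝ) + 1) * M) / s) :
    ∑ x, ‖UV g FA z s x‖ < ((N' : ℝ) + 1) * M / 2 := by
  classical
  have hD0 : 0 < D := by linarith
  have hspos : 0 < s := by
    have : (0 : ℝ) < s := by rw [hs]; positivity
    exact_mod_cast this
  have hs0 : (0 : ℝ) < s := by exact_mod_cast hspos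
  have hM0 : (0 : ℝ) < M := by exact_mod_cast hM
  let t : ℕ → (Fin (N' + 1) → Bool) := fun n x => decide (0 ≤ UV g FA z s x n)
  have hfA : ∀ a a', ∑ e, |AIs t e (FA a) - AIs t e (FA a')| ≤ D * ∑ c, |a c - a' c| := by
    intro a a'
    have h1 := sum_AIs_le t (FA a - FA a')
    simp only [map_sub] at h1
    exact h1.trans (hA a a')
  have hfB : ∀ a a', ∑ e, |AIs t e (FB a) - AIs t e (FB a')| ≤ D * ∑ c, |a c - a' c| := by
    intro a a'
    have h1 := sum_AIs_le t (FB a - FB a')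
    simp only [map_sub] at h1
    exact h1.trans (hB a a')
  obtain ⟨φ, hφ1, hφ2⟩ := side' g hg D hD0.le (fun e a => AIs t e (FA a)) hfA z s hspos
  obtain ⟨ψ, hψ1, hψ2⟩ := side' h hh D hD0.le (fun e a => AIs t e (FB a)) hfB z s hspos
  set N : ℝ := (N' : ℝ) + 1 with hN
  have hN0 : 0 < N := by rw [hN]; positivity
  have hε : 2 * D * M * N / s = M / (64 * D) := by
    rw [hs]
    field_simp
    ring
  have hε2 : 2 * D * (2 * N * M) / s = M / (32 * D) := by
    rw [hs]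
    field_simp
    ring
  have hnorm : ∀ x, ‖UV g FA z s x‖ ≤ ∑ e, |∑ c, (g c x : ℝ) * φ e c| + M / (64 * D) := by
    intro x
    have h1 := le_sum_AIs t (UV g FA z s x) (fun e => if e x then 1 else -1)
      (by intro e; split_ifs <;> simp) (by
        intro n
        simp only [t]
        by_cases hn : 0 ≤ UV g FA z s x n
        · simp [hn, abs_of_nonneg hn]
        · have hn' := not_le.1 hn
          simp [hn, abs_of_neg hn'])
    refine h1.trans ?_
    rw [← hε]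
    refine le_trans ?_ (add_le_add_right (hφ2 x) _)
    rw [← Finset.sum_add_distrib]
    refine Finset.sum_le_sum fun e _ => ?_
    rw [AIs_UV]
    have h3 := abs_sub_abs_le_abs_sub (UA g (fun a => AIs t e (FA a)) z s x)
      (∑ c, (g c x : ℝ) * φ e c)
    rw [abs_sub_comm] at h3
    linarith
  have hr : ∀ x, ∑ e, |∑ c, (g c x : ℝ) * φ e c - ∑ c, (h c x : ℝ) * ψ e c| ≤ M / (16 * D) := by
    intro x
    have h1 := sum_AIs_le t (UV g FA z s x - UV h FB z s x)
    simp only [map_sub, AIs_UV] at h1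
    have h2 := h1.trans (hc x)
    have h3 := hφ2 x
    have h4 := hψ2 x
    rw [hε] at h3 h4
    rw [hε2] at h2
    have h5 : ∑ e, |∑ c, (g c x : ℝ) * φ e c - ∑ c, (h c x : ℝ) * ψ e c| ≤
        ∑ e, (|(∑ c, (g c x : ℝ) * φ e c) - UA g (fun a => AIs t e (FA a)) z s x| +
          |UA g (fun a => AIs t e (FA a)) z s x - UA h (fun a => AIs t e (FB a)) z s x| +
          |(∑ c, (h c x : ℝ) * ψ e c) - UA h (fun a => AIs t e (FB a)) z s x|) := by
      refine Finset.sum_le_sum fun e _ => ?_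
      have a1 := abs_sub_le (∑ c, (g c x : ℝ) * φ e c) (UA g (fun a => AIs t e (FA a)) z s x)
        (∑ c, (h c x : ℝ) * ψ e c)
      have a2 := abs_sub_le (UA g (fun a => AIs t e (FA a)) z s x)
        (UA h (fun a => AIs t e (FB a)) z s x) (∑ c, (h c x : ℝ) * ψ e c)
      rw [abs_sub_comm (UA h (fun a => AIs t e (FB a)) z s x) (∑ c, (h c x : ℝ) * ψ e c)] at a2
      linarith
    rw [Finset.sum_add_distrib, Finset.sum_add_distrib] at h5
    have h6 : M / (64 * D) + M / (32 * D) + M / (64 * D) = M / (16 * D) := by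
      field_simp
      ring
    linarith
  have hsumφ : ∑ e, ∑ c, |φ e c| ≤ M * D := by
    rw [Finset.sum_comm]
    calc ∑ c, ∑ e, |φ e c| ≤ ∑ _c : Fin M, D := Finset.sum_le_sum fun c _ => hφ1 c
      _ = M * D := by simp
  have hsumψ : ∑ e, ∑ c, |ψ e c| ≤ M * D := by
    rw [Finset.sum_comm]
    calc ∑ c, ∑ e, |ψ e c| ≤ ∑ _c : Fin M, D := Finset.sum_le_sum fun c _ => hψ1 c
      _ = M * D := by simp
  have hsumr : ∑ e, ∑ x, |∑ c, (g c x : ℝ) * φ e c - ∑ c, (h c x : ℝ) * ψ e c| ≤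
      N * (M / (16 * D)) := by
    rw [Finset.sum_comm]
    calc _ ≤ ∑ _x : Fin (N' + 1), (M : ℝ) / (16 * D) := Finset.sum_le_sum fun x _ => hr x
      _ = N * (M / (16 * D)) := by
        rw [Finset.sum_const, nsmul_eq_mul, Finset.card_univ, Fintype.card_fin, hN]
        push_cast
        ring
  have hkey := Finset.sum_le_sum fun e (_ : e ∈ (Finset.univ : Finset (Fin (N' + 1) → Bool))) =>
    key_e D hD g h hg hinc (φ e) (ψ e)
  rw [Finset.sum_add_distrib, Finset.sum_add_distrib, ← Finset.mul_sum, ← Finset.mul_sum,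
    ← Finset.mul_sum, Finset.sum_add_distrib, ← hN] at hkey
  have hT : ∑ e, ∑ x, |∑ c, (g c x : ℝ) * φ e c| ≤ 3 * (N * M / 8) := by
    refine hkey.trans ?_
    calc _ ≤ N / (16 * D) * (M * D + M * D) + N / (8 * D) * (M * D) +
          2 * D * (N * (M / (16 * D))) := by gcongr
      _ = 3 * (N * M / 8) := by
        field_simp
        ring
  calc ∑ x, ‖UV g FA z s x‖ ≤ ∑ x, (∑ e, |∑ c, (g c x : ℝ) * φ e c| + M / (64 * D)) :=
        Finset.sum_le_sum fun x _ => hnorm x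
    _ = ∑ e, ∑ x, |∑ c, (g c x : ℝ) * φ e c| + N * (M / (64 * D)) := by
        rw [Finset.sum_add_distrib, Finset.sum_comm, Finset.sum_const, nsmul_eq_mul,
          Finset.card_univ, Fintype.card_fin, hN]
        push_cast
        ring
    _ ≤ 3 * (N * M / 8) + N * M / 64 := by
        have : N * (M / (64 * D)) ≤ N * M / 64 := by
          rw [mul_div_assoc]
          gcongr
          linarith
        linarith
    _ < N * M / 2 := by
        have : 0 < N * M := by positivity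
        linarith

end Pool.Agent.H76R3.UN
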