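import Mathlib

set_option autoImplicit false

open Filter Topology

namespace Pool.Agent.H76R3.UN

/-- uniform average over a finite type -/
noncomputable def av {T : Type} [Fintype T] (f : T → ℝ) : ℝ := (∑ t, f t) / Fintype.card T

lemma av_mono {T : Type} [Fintype T] {f g : T → ℝ} (h : ∀ t, f t ≤ g t) : av f ≤ av g := by
  unfold av
  gcongr
  exact h _

lemma av_const {T : Type} [Fintype T] [Nonempty T] (c : ℝ) : av (fun _ : T => c) = c := by
  unfold av
  rw [Finset.sum_const, nsmul_eq_mul, Finset.card_univ]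
  field_simp

lemma av_add {T : Type} [Fintype T] (f g : T → ℝ) : av (fun t => f t + g t) = av f + av g := by
  unfold av
  rw [Finset.sum_add_distrib, add_div]

lemma av_sum {T ι : Type} [Fintype T] (s : Finset ι) (f : ι → T → ℝ) :
    av (fun t => ∑ i ∈ s, f i t) = ∑ i ∈ s, av (f i) := by
  unfold av
  rw [Finset.sum_comm, Finset.sum_div]

lemma av_mul_const {T : Type} [Fintype T] (f : T → ℝ) (c : ℝ) :
    av (fun t => f t * c) = av f * c := by
  unfold av
  rw [← Finset.sum_mul]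
  ring

lemma av_const_mul {T : Type} [Fintype T] (f : T → ℝ) (c : ℝ) :
    av (fun t => c * f t) = c * av f := by
  unfold av
  rw [← Finset.mul_sum]
  ring

lemma av_nonneg {T : Type} [Fintype T] {f : T → ℝ} (h : ∀ t, 0 ≤ f t) : 0 ≤ av f :=
  div_nonneg (Finset.sum_nonneg fun t _ => h t) (by positivity)

lemma exists_lt_of_av {T : Type} [Fintype T] [Nonempty T] {f : T → ℝ} {c : ℝ} (h : av f < c) :
    ∃ t, f t < c := by
  by_contra hcon
  push Not at hcon
  have := av_mono hcon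
  rw [av_const] at this
  linarith

lemma av_pi {n : ℕ} {T : Type} [Fintype T] (f : Fin n → T → ℝ) :
    av (fun ω : Fin n → T => ∏ c, f c (ω c)) = ∏ c, av (f c) := by
  classical
  unfold av
  rw [Finset.prod_div_distrib, Finset.prod_univ_sum, Fintype.piFinset_univ]
  simp

/-- sign -/
def sgn (b : Bool) : ℤ := if b then 1 else -1

lemma sgn_cases (b : Bool) : sgn b = 1 ∨ sgn b = -1 := by cases b <;> simp [sgn]

lemma sgn_abs (b : Bool) : |(sgn b : ℝ)| = 1 := by cases b <;> simp [sgn]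

/-- `|∑ x, sgn (t x) * d x|` -/
noncomputable def XX {N : ℕ} (d : Fin N → ℤ) (t : Fin N → Bool) : ℝ :=
  |∑ x, (sgn (t x) : ℝ) * (d x : ℝ)|

lemma XX_nonneg {N : ℕ} (d : Fin N → ℤ) (t : Fin N → Bool) : 0 ≤ XX d t := abs_nonneg _

lemma XX_le {N : ℕ} (d : Fin N → ℤ) (L : ℝ) (hd : ∀ x, |(d x : ℝ)| ≤ L) (t : Fin N → Bool) :
    XX d t ≤ N * L := by
  unfold XX
  refine (Finset.abs_sum_le_sum_abs _ _).trans ?_
  calc ∑ x, |(sgn (t x) : ℝ) * (d x : ℝ)| ≤ ∑ _x : Fin N, L := by
        refine Finset.sum_le_sum fun x _ => ?_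
        rw [abs_mul, sgn_abs, one_mul]
        exact hd x
    _ = N * L := by simp

lemma mgf_bound {T : Type} [Fintype T] [Nonempty T] (X : T → ℝ) (B θ : ℝ) (h0 : ∀ t, 0 ≤ X t)
    (h1 : ∀ t, X t ≤ B) :
    av (fun t => Real.exp (θ * X t)) * av (fun t => Real.exp (-θ * X t)) ≤
      Real.exp (θ ^ 2 * B ^ 2 / 2) := by
  have hc : (0 : ℝ) < Fintype.card T := by exact_mod_cast Fintype.card_pos
  have e1 : (∑ t, Real.exp (θ * X t)) * (∑ t, Real.exp (-θ * X t)) =
      ∑ t, ∑ t', Real.exp (θ * (X t - X t')) := by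
    rw [Finset.sum_mul_sum]
    refine Finset.sum_congr rfl fun t _ => Finset.sum_congr rfl fun t' _ => ?_
    rw [← Real.exp_add]
    congr 1
    ring
  have e2 : ∑ t, ∑ t', Real.exp (θ * (X t - X t')) =
      ∑ t, ∑ t', Real.cosh (θ * (X t - X t')) := by
    have e3 : ∑ t, ∑ t', Real.exp (θ * (X t - X t')) =
        ∑ t, ∑ t', Real.exp (-(θ * (X t - X t'))) := by
      rw [Finset.sum_comm]
      refine Finset.sum_congr rfl fun t _ => Finset.sum_congr rfl fun t' _ => ?_
      congr 1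
      ring
    have e4 : ∑ t, ∑ t', Real.cosh (θ * (X t - X t')) =
        (∑ t, ∑ t', Real.exp (θ * (X t - X t')) +
          ∑ t, ∑ t', Real.exp (-(θ * (X t - X t')))) / 2 := by
      rw [← Finset.sum_add_distrib, Finset.sum_div]
      refine Finset.sum_congr rfl fun t _ => ?_
      rw [← Finset.sum_add_distrib, Finset.sum_div]
      refine Finset.sum_congr rfl fun t' _ => ?_
      exact Real.cosh_eq _
    rw [e4, ← e3]
    ring
  unfold av
  rw [div_mul_div_comm, e1, e2, div_le_iff₀ (by positivity)]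
  calc ∑ t, ∑ t', Real.cosh (θ * (X t - X t')) ≤ ∑ _t : T, ∑ _t' : T,
        Real.exp (θ ^ 2 * B ^ 2 / 2) := by
        refine Finset.sum_le_sum fun t _ => Finset.sum_le_sum fun t' _ => ?_
        refine (Real.cosh_le_exp_half_sq _).trans (Real.exp_le_exp.2 ?_)
        have h2 : (X t - X t') ^ 2 ≤ B ^ 2 := by
          apply sq_le_sq'
          · linarith [h0 t, h1 t']
          · linarith [h0 t', h1 t]
        have h3 : θ ^ 2 * (X t - X t') ^ 2 ≤ θ ^ 2 * B ^ 2 :=
          mul_le_mul_of_nonneg_left h2 (sq_nonneg θ)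
        calc (θ * (X t - X t')) ^ 2 / 2 = θ ^ 2 * (X t - X t') ^ 2 / 2 := by ring
          _ ≤ _ := by linarith
    _ = _ := by
        simp only [Finset.sum_const, Finset.card_univ, nsmul_eq_mul]
        ring

lemma av_exp_sign (v : ℝ) (hv : |v| = 1) (τ : ℝ) :
    av (fun b : Bool => Real.exp (τ * (v * (sgn b : ℝ)))) ≤ Real.exp (τ ^ 2 / 2) := by
  unfold av
  rw [Fintype.sum_bool]
  have e1 : (Real.exp (τ * (v * (sgn true : ℝ))) + Real.exp (τ * (v * (sgn false : ℝ)))) /
      (Fintype.card Bool : ℝ) = Real.cosh (τ * v) := by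
    rw [Real.cosh_eq]
    simp [sgn]
  rw [e1]
  refine (Real.cosh_le_exp_half_sq _).trans (Real.exp_le_exp.2 ?_)
  rw [mul_pow, ← sq_abs v, hv]
  simp

lemma av_exp_inner {N : ℕ} (v : Fin N → ℝ) (hv : ∀ x, |v x| = 1) (τ : ℝ) :
    av (fun t : Fin N → Bool => Real.exp (τ * ∑ x, v x * (sgn (t x) : ℝ))) ≤
      Real.exp (N * (τ ^ 2 / 2)) := by
  have e1 : (fun t : Fin N → Bool => Real.exp (τ * ∑ x, v x * (sgn (t x) : ℝ))) =
      fun t => ∏ x, Real.exp (τ * (v x * (sgn (t x) : ℝ))) := by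
    funext t
    rw [← Real.exp_sum, Finset.mul_sum]
  rw [e1, av_pi (fun x b => Real.exp (τ * (v x * (sgn b : ℝ))))]
  calc ∏ x, av (fun b : Bool => Real.exp (τ * (v x * (sgn b : ℝ))))
      ≤ ∏ _x : Fin N, Real.exp (τ ^ 2 / 2) := by
        refine Finset.prod_le_prod (fun x _ => av_nonneg fun b => (Real.exp_pos _).le)
          fun x _ => av_exp_sign (v x) (hv x) τ
    _ = _ := by rw [Finset.prod_const, Finset.card_univ, Fintype.card_fin, ← Real.exp_nat_mul]

lemma av_eval {M : ℕ} {T : Type} [Fintype T] [Nonempty T] (b : Fin M) (f : T → ℝ) :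
    av (fun H : Fin M → T => f (H b)) = av f := by
  classical
  have e1 : (fun H : Fin M → T => f (H b)) =
      fun H => ∏ c, (if c = b then f (H c) else 1) := by
    funext H
    rw [Finset.prod_ite_eq']
    simp
  rw [e1, av_pi (fun c t => if c = b then f t else 1)]
  rw [Finset.prod_eq_single b]
  · simp
  · intro c _ hc
    simp only [hc, if_false]
    exact av_const 1
  · simp

lemma av_exp_A {N M : ℕ} (d : Fin N → ℤ) (θ : ℝ) :
    av (fun G : Fin M → (Fin N → Bool) => Real.exp (θ * ∑ c, XX d (G c))) =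
      (av (fun t => Real.exp (θ * XX d t))) ^ M := by
  have e1 : (fun G : Fin M → (Fin N → Bool) => Real.exp (θ * ∑ c, XX d (G c))) =
      fun G => ∏ c, Real.exp (θ * XX d (G c)) := by
    funext G
    rw [← Real.exp_sum, Finset.mul_sum]
  rw [e1, av_pi (fun _ t => Real.exp (θ * XX d t))]
  simp

/-- first family of bad events -/
lemma term1 {N M : ℕ} (d : Fin N → ℤ) (L : ℝ) (hd : ∀ x, |(d x : ℝ)| ≤ L) (θ r : ℝ) :
    av (fun G : Fin M → (Fin N → Bool) => av (fun H : Fin M → (Fin N → Bool) =>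
      Real.exp (θ * (∑ c, XX d (G c) - ∑ c, XX d (H c)) - r))) ≤
      Real.exp (M * (θ ^ 2 * (N * L) ^ 2 / 2) - r) := by
  have e1 : (fun G : Fin M → (Fin N → Bool) => av (fun H : Fin M → (Fin N → Bool) =>
      Real.exp (θ * (∑ c, XX d (G c) - ∑ c, XX d (H c)) - r))) =
      fun G => Real.exp (θ * ∑ c, XX d (G c)) *
        ((av (fun t => Real.exp (-θ * XX d t))) ^ M * Real.exp (-r)) := by
    funext G
    rw [← av_exp_A, ← av_mul_const, ← av_const_mul]
    congr 1
    funext H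
    rw [← Real.exp_add, ← Real.exp_add]
    congr 1
    ring
  rw [e1, av_mul_const, av_exp_A, ← mul_assoc, ← mul_pow, sub_eq_add_neg, Real.exp_add,
    Real.exp_nat_mul]
  gcongr
  · exact mul_nonneg (av_nonneg fun _ => (Real.exp_pos _).le) (av_nonneg fun _ => (Real.exp_pos _).le)
  · exact mgf_bound (XX d) (N * L) θ (XX_nonneg d) (XX_le d L hd)

/-- second family of bad events -/
lemma term2 {N M : ℕ} (a b : Fin M) (τ r : ℝ) :
    av (fun G : Fin M → (Fin N → Bool) => av (fun H : Fin M → (Fin N → Bool) =>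
      Real.exp (τ * (∑ x, (sgn (G a x) : ℝ) * (sgn (H b x) : ℝ)) - r))) ≤
      Real.exp (N * (τ ^ 2 / 2) - r) := by
  have h1 : ∀ G : Fin M → (Fin N → Bool), av (fun H : Fin M → (Fin N → Bool) =>
      Real.exp (τ * (∑ x, (sgn (G a x) : ℝ) * (sgn (H b x) : ℝ)) - r)) ≤
      Real.exp (N * (τ ^ 2 / 2) - r) := by
    intro G
    have e1 : (fun H : Fin M → (Fin N → Bool) =>
      Real.exp (τ * (∑ x, (sgn (G a x) : ℝ) * (sgn (H b x) : ℝ)) - r)) = fun H =>
      Real.exp (τ * ∑ x, (sgn (G a x) : ℝ) * (sgn (H b x) : ℝ)) * Real.exp (-r) := by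
      funext H
      rw [← Real.exp_add]
      congr 1
    have e2 := av_eval (M := M) b (fun t : Fin N → Bool =>
      Real.exp (τ * ∑ x, (sgn (G a x) : ℝ) * (sgn (t x) : ℝ)))
    have e3 := av_mul_const (fun H : Fin M → (Fin N → Bool) =>
      Real.exp (τ * ∑ x, (sgn (G a x) : ℝ) * (sgn (H b x) : ℝ))) (Real.exp (-r))
    rw [e1, e3, e2, sub_eq_add_neg, Real.exp_add]
    gcongr
    exact av_exp_inner (fun x => (sgn (G a x) : ℝ)) (fun x => sgn_abs _) τ
  refine (av_mono h1).trans ?_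
  rw [av_const]

end Pool.Agent.H76R3.UN
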