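import Pool.Agent.H76R3.U1Exist

set_option autoImplicit false

open Filter Topology

namespace Pool.Agent.H76R3.UN

lemma exists_large (D : ℕ) (hD : 1 ≤ D) : ∃ N' : ℕ,
    2 * (((512 * D ^ 3 * (N' + 1) ^ 2) ^ 3 * (N' + 1) : ℕ) : ℝ) ^ 2 *
      Real.exp (-((N' + 1 : ℝ) / (8192 * (D : ℝ) ^ 4))) < 1 / 2 := by
  have hD0 : (0 : ℝ) < D := by exact_mod_cast hD
  set c : ℝ := 8192 * (D : ℝ) ^ 4 with hc
  have hc0 : 0 < c := by positivity
  have h1 := Real.tendsto_pow_mul_exp_neg_atTop_nhds_zero 14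
  have h2 : Tendsto (fun n : ℕ => ((n : ℝ) + 1) / c) atTop atTop := by
    apply Tendsto.atTop_div_const hc0
    exact tendsto_atTop_add_const_right _ _ tendsto_natCast_atTop_atTop
  have h3 := (h1.comp h2).const_mul (2 * (512 : ℝ) ^ 6 * D ^ 18 * c ^ 14)
  rw [mul_zero] at h3
  obtain ⟨n, hn⟩ := (h3.eventually (gt_mem_nhds (show (0 : ℝ) < 1 / 2 by norm_num))).exists
  refine ⟨n, lt_of_eq_of_lt ?_ hn⟩
  change _ = 2 * (512 : ℝ) ^ 6 * (D : ℝ) ^ 18 * c ^ 14 * ((((n : ℝ) + 1) / c) ^ 14 *
    Real.exp (-(((n : ℝ) + 1) / c)))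
  push_cast
  rw [div_pow]
  field_simp

/-- existence of the two sign families -/
lemma exists_fam (D : ℕ) (hD : 1 ≤ D) : ∃ (N' M : ℕ) (g h : Fin M → Fin (N' + 1) → ℤ),
    0 < M ∧ (∀ c x, g c x = 1 ∨ g c x = -1) ∧ (∀ c x, h c x = 1 ∨ h c x = -1) ∧
    (∀ a b, |∑ x, (g a x : ℝ) * (h b x : ℝ)| ≤ ((N' : ℝ) + 1) / (64 * (D : ℝ) ^ 2)) ∧
    (∀ d : Fin (N' + 1) → ℤ, (∀ x, |(d x : ℝ)| ≤ 512 * (D : ℝ) ^ 3 * ((N' : ℝ) + 1) ^ 2) →
      |(∑ c, |∑ x, (g c x : ℝ) * (d x : ℝ)|) - (∑ c, |∑ x, (h c x : ℝ) * (d x : ℝ)|)| ≤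
        4 * ((N' : ℝ) + 1) * M) := by
  classical
  obtain ⟨N', hN'⟩ := exists_large D hD
  set L : ℕ := 512 * D ^ 3 * (N' + 1) ^ 2 with hL
  set M : ℕ := L ^ 3 * (N' + 1) with hM
  have hD0 : (0 : ℝ) < D := by exact_mod_cast hD
  have hLpos : 0 < L := by rw [hL]; positivity
  have hL0 : (0 : ℝ) < L := by exact_mod_cast hLpos
  have hL1 : (1 : ℝ) ≤ L := by exact_mod_cast hLpos
  have hMpos : 0 < M := by rw [hM]; positivity
  have hM0 : (0 : ℝ) < M := by exact_mod_cast hMpos
  have hLcast : (L : ℝ) = 512 * (D : ℝ) ^ 3 * ((N' : ℝ) + 1) ^ 2 := by rw [hL]; push_cast; ring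
  have hMcast : (M : ℝ) = (L : ℝ) ^ 3 * ((N' : ℝ) + 1) := by rw [hM]; push_cast; ring
  set N : ℝ := (N' : ℝ) + 1 with hN
  have hN0 : (0 : ℝ) < N := by rw [hN]; positivity
  have hN1 : (1 : ℝ) ≤ N := by rw [hN]; linarith [Nat.cast_nonneg (α := ℝ) N']
  let θ : ℝ := 4 / (N * (L : ℝ) ^ 2)
  have hθ : 0 < θ := by positivity
  let r1 : ℝ := θ * (4 * N * M)
  let τ : ℝ := 1 / (64 * (D : ℝ) ^ 2)
  have hτ : 0 < τ := by positivity
  let r2 : ℝ := τ * (N / (64 * (D : ℝ) ^ 2))
  let Ds : Finset (Fin (N' + 1) → ℤ) := Fintype.piFinset (fun _ => Finset.Icc (-(L : ℤ)) L)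
  let Fn := Fin M → (Fin (N' + 1) → Bool)
  let A : (Fin (N' + 1) → ℤ) → Fn → ℝ := fun d G => ∑ c, XX d (G c)
  let I : Fin M → Fin M → Fn → Fn → ℝ := fun a b G H =>
    ∑ x, (sgn (G a x) : ℝ) * (sgn (H b x) : ℝ)
  let P1 : Fn → Fn → ℝ := fun G H => ∑ d ∈ Ds, (Real.exp (θ * (A d G - A d H) - r1) +
    Real.exp (-θ * (A d G - A d H) - r1))
  let P2 : Fn → Fn → ℝ := fun G H => ∑ a, ∑ b, (Real.exp (τ * I a b G H - r2) +
    Real.exp (-τ * I a b G H - r2))
  have hcard : (Ds.card : ℝ) ≤ Real.exp (2 * L * N) := by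
    have h1 : Ds.card = (2 * L + 1) ^ (N' + 1) := by
      simp only [Ds, Fintype.card_piFinset, Finset.prod_const, Finset.card_univ, Fintype.card_fin,
        Int.card_Icc]
      congr 1
      omega
    rw [h1]
    push_cast
    have h2 : (2 * (L : ℝ) + 1) ≤ Real.exp (2 * L) := Real.add_one_le_exp _
    calc (2 * (L : ℝ) + 1) ^ (N' + 1) ≤ (Real.exp (2 * L)) ^ (N' + 1) := by gcongr
      _ = Real.exp (2 * L * N) := by
        rw [← Real.exp_nat_mul]
        congr 1
        rw [hN]; push_cast; ring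
  have hdL : ∀ d ∈ Ds, ∀ x, |(d x : ℝ)| ≤ L := by
    intro d hd x
    have h1 := Finset.mem_Icc.1 (Fintype.mem_piFinset.1 hd x)
    rw [abs_le]
    constructor
    · have := h1.1
      exact_mod_cast this
    · exact_mod_cast h1.2
  have hE1 : ∀ θ' : ℝ, θ' ^ 2 = θ ^ 2 → ∀ d ∈ Ds, av (fun G : Fn => av (fun H : Fn =>
      Real.exp (θ' * (A d G - A d H) - r1))) ≤ Real.exp (-(8 * L * N)) := by
    intro θ' hθ' d hd
    refine (term1 (M := M) d (L : ℝ) (hdL d hd) θ' r1).trans (Real.exp_le_exp.2 ?_)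
    rw [hθ']
    apply le_of_eq
    simp only [r1, θ]
    push_cast
    rw [← hN, hMcast]
    field_simp
    ring
  have hE2 : ∀ τ' : ℝ, τ' ^ 2 = τ ^ 2 → ∀ a b : Fin M, av (fun G : Fn => av (fun H : Fn =>
      Real.exp (τ' * I a b G H - r2))) ≤ Real.exp (-(N / (8192 * (D : ℝ) ^ 4))) := by
    intro τ' hτ' a b
    refine (term2 (N := N' + 1) a b τ' r2).trans (Real.exp_le_exp.2 ?_)
    rw [hτ']
    apply le_of_eq
    simp only [r2, τ]
    push_cast
    rw [← hN]
    field_simp
    ring
  have hP1 : av (fun G : Fn => av (fun H : Fn => P1 G H)) ≤ 2 / 7 := by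
    have e1 : av (fun G : Fn => av (fun H : Fn => P1 G H)) =
        ∑ d ∈ Ds, (av (fun G : Fn => av (fun H : Fn => Real.exp (θ * (A d G - A d H) - r1))) +
          av (fun G : Fn => av (fun H : Fn => Real.exp (-θ * (A d G - A d H) - r1)))) := by
      have e2 : ∀ G : Fn, av (fun H : Fn => P1 G H) =
          ∑ d ∈ Ds, (av (fun H : Fn => Real.exp (θ * (A d G - A d H) - r1)) +
          av (fun H : Fn => Real.exp (-θ * (A d G - A d H) - r1))) := by
        intro G
        simp only [P1]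
        rw [av_sum]
        exact Finset.sum_congr rfl fun d _ => av_add _ _
      simp_rw [e2]
      rw [av_sum]
      exact Finset.sum_congr rfl fun d _ => av_add _ _
    rw [e1]
    calc _ ≤ ∑ _d ∈ Ds, 2 * Real.exp (-(8 * L * N)) := by
          refine Finset.sum_le_sum fun d hd => ?_
          have a1 := hE1 θ rfl d hd
          have a2 := hE1 (-θ) (by ring) d hd
          linarith
      _ = Ds.card * (2 * Real.exp (-(8 * L * N))) := by rw [Finset.sum_const, nsmul_eq_mul]
      _ ≤ Real.exp (2 * L * N) * (2 * Real.exp (-(8 * L * N))) := by gcongr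
      _ = 2 * Real.exp (-(6 * L * N)) := by
          rw [mul_left_comm, ← Real.exp_add]
          congr 2
          ring
      _ ≤ 2 * (1 / 7) := by
          gcongr
          rw [Real.exp_neg, ← one_div]
          apply one_div_le_one_div_of_le (by norm_num)
          have h1 : (6 : ℝ) ≤ 6 * L * N := by nlinarith
          have h2 := Real.add_one_le_exp (6 * (L : ℝ) * N)
          linarith
      _ = 2 / 7 := by ring
  have hP2 : av (fun G : Fn => av (fun H : Fn => P2 G H)) < 1 / 2 := by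
    have e1 : av (fun G : Fn => av (fun H : Fn => P2 G H)) =
        ∑ a : Fin M, ∑ b : Fin M, (av (fun G : Fn => av (fun H : Fn =>
          Real.exp (τ * I a b G H - r2))) +
          av (fun G : Fn => av (fun H : Fn => Real.exp (-τ * I a b G H - r2)))) := by
      have e2 : ∀ G : Fn, av (fun H : Fn => P2 G H) =
          ∑ a : Fin M, ∑ b : Fin M, (av (fun H : Fn => Real.exp (τ * I a b G H - r2)) +
          av (fun H : Fn => Real.exp (-τ * I a b G H - r2))) := by
        intro G
        simp only [P2]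
        rw [av_sum]
        refine Finset.sum_congr rfl fun a _ => ?_
        rw [av_sum]
        exact Finset.sum_congr rfl fun d _ => av_add _ _
      simp_rw [e2]
      rw [av_sum]
      refine Finset.sum_congr rfl fun a _ => ?_
      rw [av_sum]
      exact Finset.sum_congr rfl fun d _ => av_add _ _
    rw [e1]
    refine lt_of_le_of_lt ?_ hN'
    calc _ ≤ ∑ _a : Fin M, ∑ _b : Fin M, 2 * Real.exp (-(N / (8192 * (D : ℝ) ^ 4))) := by
          refine Finset.sum_le_sum fun a _ => Finset.sum_le_sum fun b _ => ?_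
          have a1 := hE2 τ rfl a b
          have a2 := hE2 (-τ) (by ring) a b
          linarith
      _ = _ := by
          simp only [Finset.sum_const, Finset.card_univ, Fintype.card_fin, nsmul_eq_mul]
          ring
  have htot : av (fun G : Fn => av (fun H : Fn => P1 G H + P2 G H)) < 1 := by
    have e1 : (fun G : Fn => av (fun H : Fn => P1 G H + P2 G H)) =
        fun G => av (fun H : Fn => P1 G H) + av (fun H : Fn => P2 G H) := by
      funext G
      exact av_add _ _
    rw [e1, av_add]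
    linarith
  obtain ⟨G, hG⟩ := exists_lt_of_av htot
  obtain ⟨H, hH⟩ := exists_lt_of_av hG
  have hP1pos : 0 ≤ P1 G H := Finset.sum_nonneg fun d _ => by positivity
  have hP2pos : 0 ≤ P2 G H := Finset.sum_nonneg fun a _ => Finset.sum_nonneg fun b _ => by positivity
  refine ⟨N', M, fun c x => sgn (G c x), fun c x => sgn (H c x), hMpos, fun c x => sgn_cases _,
    fun c x => sgn_cases _, ?_, ?_⟩
  · intro a b
    have h1 : Real.exp (τ * I a b G H - r2) + Real.exp (-τ * I a b G H - r2) ≤ P2 G H := by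
      have h2 : ∑ b, (Real.exp (τ * I a b G H - r2) + Real.exp (-τ * I a b G H - r2)) ≤
          P2 G H := Finset.single_le_sum (f := fun a => ∑ b, (Real.exp (τ * I a b G H - r2) +
            Real.exp (-τ * I a b G H - r2))) (fun _ _ => Finset.sum_nonneg fun b _ => by positivity)
          (Finset.mem_univ a)
      refine le_trans ?_ h2
      exact Finset.single_le_sum (f := fun b => (Real.exp (τ * I a b G H - r2) +
            Real.exp (-τ * I a b G H - r2))) (fun _ _ => by positivity)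
          (Finset.mem_univ b)
    have p1 := Real.exp_pos (τ * I a b G H - r2)
    have p2 := Real.exp_pos (-τ * I a b G H - r2)
    have q1 : Real.exp (τ * I a b G H - r2) < 1 := by linarith
    have q2 : Real.exp (-τ * I a b G H - r2) < 1 := by linarith
    rw [Real.exp_lt_one_iff] at q1 q2
    change |I a b G H| ≤ _
    rw [abs_le]
    constructor
    · have : τ * (-(N / (64 * (D : ℝ) ^ 2))) ≤ τ * I a b G H := by
        have e : r2 = τ * (N / (64 * (D : ℝ) ^ 2)) := rfl
        linarith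
      exact le_of_mul_le_mul_left this hτ
    · have : τ * I a b G H ≤ τ * (N / (64 * (D : ℝ) ^ 2)) := by
        have e : r2 = τ * (N / (64 * (D : ℝ) ^ 2)) := rfl
        linarith
      exact le_of_mul_le_mul_left this hτ
  · intro d hd
    have hdDs : d ∈ Ds := by
      refine Fintype.mem_piFinset.2 fun x => Finset.mem_Icc.2 ?_
      have h1 := hd x
      rw [← hLcast, abs_le] at h1
      constructor
      · have := h1.1
        exact_mod_cast this
      · exact_mod_cast h1.2
    have h1 : Real.exp (θ * (A d G - A d H) - r1) + Real.exp (-θ * (A d G - A d H) - r1) ≤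
        P1 G H := Finset.single_le_sum (f := fun d => (Real.exp (θ * (A d G - A d H) - r1) +
            Real.exp (-θ * (A d G - A d H) - r1))) (fun _ _ => by positivity) hdDs
    have p1 := Real.exp_pos (θ * (A d G - A d H) - r1)
    have p2 := Real.exp_pos (-θ * (A d G - A d H) - r1)
    have q1 : Real.exp (θ * (A d G - A d H) - r1) < 1 := by linarith
    have q2 : Real.exp (-θ * (A d G - A d H) - r1) < 1 := by linarith
    rw [Real.exp_lt_one_iff] at q1 q2
    change |A d G - A d H| ≤ _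
    rw [abs_le]
    constructor
    · have : θ * (-(4 * N * M)) ≤ θ * (A d G - A d H) := by
        have e : r1 = θ * (4 * N * M) := rfl
        linarith
      exact le_of_mul_le_mul_left this hθ
    · have : θ * (A d G - A d H) ≤ θ * (4 * N * M) := by
        have e : r1 = θ * (4 * N * M) := rfl
        linarith
      exact le_of_mul_le_mul_left this hθ

end Pool.Agent.H76R3.UN
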