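import Mathlib

set_option autoImplicit false

open Filter Topology

namespace Pool.Agent.H76R3.UN

/-- `ℓ_1` distance on `Fin M → ℝ` -/
def n1 {M : ℕ} (a b : Fin M → ℝ) : ℝ := ∑ c, |a c - b c|

lemma n1_self {M : ℕ} (a : Fin M → ℝ) : n1 a a = 0 := by simp [n1]

lemma n1_comm {M : ℕ} (a b : Fin M → ℝ) : n1 a b = n1 b a := by
  unfold n1
  exact Finset.sum_congr rfl fun c _ => abs_sub_comm _ _

lemma n1_nonneg {M : ℕ} (a b : Fin M → ℝ) : 0 ≤ n1 a b :=
  Finset.sum_nonneg fun _ _ => abs_nonneg _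

lemma n1_tri {M : ℕ} (a b c : Fin M → ℝ) : n1 a c ≤ n1 a b + n1 b c := by
  unfold n1
  rw [← Finset.sum_add_distrib]
  exact Finset.sum_le_sum fun i _ => abs_sub_le _ _ _

lemma n1_eq {M : ℕ} {a b : Fin M → ℝ} (h : n1 a b = 0) : a = b := by
  unfold n1 at h
  rw [Finset.sum_eq_zero_iff_of_nonneg (fun _ _ => abs_nonneg _)] at h
  funext c
  have := h c (Finset.mem_univ c)
  rw [abs_eq_zero, sub_eq_zero] at this
  exact this

variable {M : ℕ} {Y : Type} [Fintype Y] [Nonempty Y]

/-- cross distance -/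
noncomputable def cd (u v : Y → Fin M → ℝ) (δ : ℝ) (a b : Fin M → ℝ) : ℝ :=
  Finset.univ.inf' Finset.univ_nonempty (fun y => n1 a (u y) + δ + n1 (v y) b)

lemma cd_le (u v : Y → Fin M → ℝ) (δ : ℝ) (a b : Fin M → ℝ) (y : Y) :
    cd u v δ a b ≤ n1 a (u y) + δ + n1 (v y) b :=
  Finset.inf'_le _ (Finset.mem_univ y)

lemma cd_ex (u v : Y → Fin M → ℝ) (δ : ℝ) (a b : Fin M → ℝ) :
    ∃ y, cd u v δ a b = n1 a (u y) + δ + n1 (v y) b := by
  obtain ⟨y, _, h⟩ := Finset.exists_mem_eq_inf' Finset.univ_nonempty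
    (fun y => n1 a (u y) + δ + n1 (v y) b)
  exact ⟨y, h⟩

/-- the disjoint union of two copies of `Fin M → ℝ` -/
inductive GX (M : ℕ) : Type
  | inA : (Fin M → ℝ) → GX M
  | inB : (Fin M → ℝ) → GX M

/-- the glued distance -/
noncomputable def gd (u v : Y → Fin M → ℝ) (δ : ℝ) : GX M → GX M → ℝ
  | .inA a, .inA a' => n1 a a'
  | .inB b, .inB b' => n1 b b'
  | .inA a, .inB b => cd u v δ a b
  | .inB b, .inA a => cd u v δ a b

/-- the glued metric space -/
@[reducible] noncomputable def glue (u v : Y → Fin M → ℝ) (δ : ℝ) (hδ : 0 < δ)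
    (h : ∀ y y', |n1 (u y) (u y') - n1 (v y) (v y')| ≤ 2 * δ) : MetricSpace (GX M) where
  dist := gd u v δ
  dist_self := by
    rintro (a | b) <;> simp [gd, n1_self]
  dist_comm := by
    rintro (a | b) (a' | b')
    · exact n1_comm _ _
    · rfl
    · rfl
    · exact n1_comm _ _
  dist_triangle := by
    rintro (a | a) (b | b) (c | c)
    · exact n1_tri _ _ _
    · change cd u v δ a c ≤ n1 a b + cd u v δ b c
      obtain ⟨y, hy⟩ := cd_ex u v δ b c
      have h1 := cd_le u v δ a c y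
      have h2 := n1_tri a b (u y)
      linarith
    · change n1 a c ≤ cd u v δ a b + cd u v δ c b
      obtain ⟨y, hy⟩ := cd_ex u v δ a b
      obtain ⟨y', hy'⟩ := cd_ex u v δ c b
      have h1 := n1_tri a (u y) c
      have h2 := n1_tri (u y) (u y') c
      have h3 := n1_tri (v y) b (v y')
      have h4 := abs_le.1 (h y y')
      rw [n1_comm b (v y')] at h3
      rw [n1_comm (u y') c] at h2
      linarith [h4.1, h4.2]
    · change cd u v δ a c ≤ cd u v δ a b + n1 b c
      obtain ⟨y, hy⟩ := cd_ex u v δ a b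
      have h1 := cd_le u v δ a c y
      have h2 := n1_tri (v y) b c
      linarith
    · change cd u v δ c a ≤ cd u v δ b a + n1 b c
      obtain ⟨y, hy⟩ := cd_ex u v δ b a
      have h1 := cd_le u v δ c a y
      have h2 := n1_tri c b (u y)
      rw [n1_comm c b] at h2
      linarith
    · change n1 a c ≤ cd u v δ b a + cd u v δ b c
      obtain ⟨y, hy⟩ := cd_ex u v δ b a
      obtain ⟨y', hy'⟩ := cd_ex u v δ b c
      have h1 := n1_tri a (v y) c
      have h2 := n1_tri (v y) (v y') c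
      have h3 := n1_tri (u y) b (u y')
      have h4 := abs_le.1 (h y y')
      rw [n1_comm a (v y)] at h1
      rw [n1_comm (u y) b] at h3
      linarith [h4.1, h4.2]
    · change cd u v δ c a ≤ n1 a b + cd u v δ c b
      obtain ⟨y, hy⟩ := cd_ex u v δ c b
      have h1 := cd_le u v δ c a y
      have h2 := n1_tri (v y) b a
      rw [n1_comm b a] at h2
      linarith
    · exact n1_tri _ _ _
  eq_of_dist_eq_zero := by
    rintro (a | a) (b | b) hab
    · rw [n1_eq hab]
    · exfalso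
      change cd u v δ a b = 0 at hab
      obtain ⟨y, hy⟩ := cd_ex u v δ a b
      have h1 := n1_nonneg a (u y)
      have h2 := n1_nonneg (v y) b
      linarith
    · exfalso
      change cd u v δ b a = 0 at hab
      obtain ⟨y, hy⟩ := cd_ex u v δ b a
      have h1 := n1_nonneg b (u y)
      have h2 := n1_nonneg (v y) a
      linarith
    · rw [n1_eq hab]

end Pool.Agent.H76R3.UN
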