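import Pool.Agent.H76R3.U1Tele
import Pool.Agent.H76R3.U1Glue
import Pool.Agent.H76R3.U1Fam

set_option autoImplicit false

open Filter Topology

namespace Pool.Agent.H76R3.UN

open Pool.Agent.H799R2.Union

variable {N' M : ℕ}

lemma cross_UV (s K : ℕ) (hs : 0 < s) (g h : Fin M → Fin (N' + 1) → ℤ)
    (FA FB : (Fin M → ℝ) → lp (fun _ : ℕ => ℝ) 1) (R : ℝ)
    (hcross : ∀ w : Fin (N' + 1) → ℤ, (∀ x, 0 ≤ w x ∧ w x ≤ (s : ℤ) * K) →
      ‖FA (mr g (ipos w)) - FB (mr h (ipos w))‖ ≤ R)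
    (j : Fin (N' + 1) → Fin K) (x : Fin (N' + 1)) :
    ‖UV g FA (cor s (fun y => ((j y : ℕ) : ℤ))) s x -
      UV h FB (cor s (fun y => ((j y : ℕ) : ℤ))) s x‖ ≤ 2 * R / s := by
  have hs0 : (0 : ℝ) < s := by exact_mod_cast hs
  set z := cor s (fun y => ((j y : ℕ) : ℤ)) with hz
  have hrange : ∀ (t : ℤ) (ht0 : 0 ≤ t) (hts : t ≤ s) (i : Fin N' → Fin s) (y : Fin (N' + 1)),
      0 ≤ (z + insZ x t i) y ∧ (z + insZ x t i) y ≤ (s : ℤ) * K := by
    intro t ht0 hts i y
    have h1 : 0 ≤ insZ x t i y ∧ insZ x t i y ≤ s := by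
      rcases Fin.eq_self_or_eq_succAbove x y with rfl | ⟨m, rfl⟩
      · simp only [insZ, Fin.insertNth_apply_same]
        exact ⟨ht0, hts⟩
      · simp only [insZ, Fin.insertNth_apply_succAbove]
        have : (i m : ℕ) ≤ s := (i m).2.le
        constructor
        · positivity
        · exact_mod_cast this
    have h2 : ((j y : ℕ) : ℤ) + 1 ≤ K := by
      have := (j y).2
      exact_mod_cast this
    have h3 : (s : ℤ) * (((j y : ℕ) : ℤ) + 1) ≤ s * K :=
      mul_le_mul_of_nonneg_left h2 (by positivity)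
    have h4 : z y = (s : ℤ) * ((j y : ℕ) : ℤ) := rfl
    have h5 : 0 ≤ (s : ℤ) * ((j y : ℕ) : ℤ) := by positivity
    rw [Pi.add_apply, h4]
    constructor
    · linarith [h1.1]
    · linarith [h1.2]
  have e1 : UV g FA z s x - UV h FB z s x = ((s : ℝ) * (s : ℝ) ^ N')⁻¹ •
      ∑ i : Fin N' → Fin s, ((FA (mr g (ipos (z + insZ x (s : ℤ) i))) -
        FB (mr h (ipos (z + insZ x (s : ℤ) i)))) -
        (FA (mr g (ipos (z + insZ x 0 i))) - FB (mr h (ipos (z + insZ x 0 i))))) := by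
    unfold UV
    rw [← smul_sub, ← Finset.sum_sub_distrib]
    congr 1
    refine Finset.sum_congr rfl fun i _ => ?_
    abel
  rw [e1, norm_smul, norm_inv, Real.norm_of_nonneg (by positivity), ← div_eq_inv_mul,
    div_le_div_iff₀ (by positivity) hs0]
  have h6 : ‖∑ i : Fin N' → Fin s, ((FA (mr g (ipos (z + insZ x (s : ℤ) i))) -
        FB (mr h (ipos (z + insZ x (s : ℤ) i)))) -
        (FA (mr g (ipos (z + insZ x 0 i))) - FB (mr h (ipos (z + insZ x 0 i)))))‖ ≤
        (s : ℝ) ^ N' * (2 * R) := by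
    refine (norm_sum_le _ _).trans ?_
    calc _ ≤ ∑ _i : Fin N' → Fin s, 2 * R := by
          refine Finset.sum_le_sum fun i _ => ?_
          refine (norm_sub_le _ _).trans ?_
          have a1 := hcross (z + insZ x (s : ℤ) i) (hrange s (by positivity) le_rfl i)
          have a2 := hcross (z + insZ x 0 i) (hrange 0 le_rfl (by positivity) i)
          linarith
      _ = _ := by
          rw [Finset.sum_const, Finset.card_univ, Fintype.card_pi, nsmul_eq_mul]
          simp only [Fintype.card_fin, Finset.prod_const, Finset.card_univ]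
          push_cast
          ring
  calc _ ≤ ((s : ℝ) ^ N' * (2 * R)) * s := mul_le_mul_of_nonneg_right h6 hs0.le
    _ = _ := by ring

theorem main (C : ℝ) : ∃ (X : Type) (_ : MetricSpace X) (A B : Set X),
    A ∪ B = Set.univ ∧
    (∃ f : A → lp (fun _ : ℕ => ℝ) 1, Isometry f) ∧
    (∃ f : B → lp (fun _ : ℕ => ℝ) 1, Isometry f) ∧
    ¬ ∃ (f : X → lp (fun _ : ℕ => ℝ) 1) (s : ℝ), 0 < s ∧
      ∀ x y, s * dist x y ≤ dist (f x) (f y) ∧ dist (f x) (f y) ≤ s * C * dist x y := by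
  classical
  obtain ⟨D, hDC⟩ := exists_nat_ge (max C 1)
  have hCD : C ≤ D := (le_max_left _ _).trans hDC
  have hD1 : (1 : ℝ) ≤ D := (le_max_right _ _).trans hDC
  have hD : 1 ≤ D := by exact_mod_cast hD1
  have hD0 : (0 : ℝ) < D := by linarith
  obtain ⟨N', M, g, h, hM, hg, hh, hinc, hdisc⟩ := exists_fam D hD
  have hg1 : ∀ c x, |(g c x : ℝ)| = 1 := by
    intro c x
    rcases hg c x with h1 | h1 <;> simp [h1]
  have hh1 : ∀ c x, |(h c x : ℝ)| = 1 := by
    intro c x
    rcases hh c x with h1 | h1 <;> simp [h1]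
  set s : ℕ := 128 * D ^ 2 * (N' + 1) with hs
  set K : ℕ := 4 * D * (N' + 1) with hK
  have hspos : 0 < s := by rw [hs]; positivity
  have hs0 : (0 : ℝ) < s := by exact_mod_cast hspos
  have hscast : (s : ℝ) = 128 * (D : ℝ) ^ 2 * ((N' : ℝ) + 1) := by rw [hs]; push_cast; ring
  have hKcast : (K : ℝ) = 4 * (D : ℝ) * ((N' : ℝ) + 1) := by rw [hK]; push_cast; ring
  have hM0 : (0 : ℝ) < M := by exact_mod_cast hM
  let δ : ℝ := 2 * ((N' : ℝ) + 1) * M
  have hδ : 0 < δ := by positivity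
  let Y := Fin (N' + 1) → Fin (s * K + 1)
  let u : Y → Fin M → ℝ := fun y => mr g (fun x => ((y x : ℕ) : ℝ))
  let v : Y → Fin M → ℝ := fun y => mr h (fun x => ((y x : ℕ) : ℝ))
  have huv : ∀ y y', |n1 (u y) (u y') - n1 (v y) (v y')| ≤ 2 * δ := by
    intro y y'
    have h1 := hdisc (fun x => ((y x : ℕ) : ℤ) - ((y' x : ℕ) : ℤ)) (by
      intro x
      have a1 : ((y x : ℕ) : ℝ) ≤ s * K := by
        have := (y x).2
        have : (y x : ℕ) ≤ s * K := by omega
        exact_mod_cast this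
      have a2 : ((y' x : ℕ) : ℝ) ≤ s * K := by
        have := (y' x).2
        have : (y' x : ℕ) ≤ s * K := by omega
        exact_mod_cast this
      have a3 : (0 : ℝ) ≤ ((y x : ℕ) : ℝ) := by positivity
      have a4 : (0 : ℝ) ≤ ((y' x : ℕ) : ℝ) := by positivity
      have a5 : (s : ℝ) * K = 512 * (D : ℝ) ^ 3 * ((N' : ℝ) + 1) ^ 2 := by
        rw [hscast, hKcast]; ring
      rw [← a5, abs_le]
      push_cast
      constructor <;> linarith)
    have e1 : ∀ (k : Fin M → Fin (N' + 1) → ℤ),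
        n1 (mr k (fun x => ((y x : ℕ) : ℝ))) (mr k (fun x => ((y' x : ℕ) : ℝ))) =
        ∑ c, |∑ x, (k c x : ℝ) * (((((y x : ℕ) : ℤ) - ((y' x : ℕ) : ℤ) : ℤ)) : ℝ)| := by
      intro k
      unfold n1 mr
      refine Finset.sum_congr rfl fun c _ => ?_
      rw [← Finset.sum_sub_distrib]
      congr 1
      refine Finset.sum_congr rfl fun x _ => ?_
      push_cast
      ring
    have e2 : n1 (u y) (u y') = _ := e1 g
    have e3 : n1 (v y) (v y') = _ := e1 h
    rw [e2, e3]
    refine h1.trans (le_of_eq ?_)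
    simp only [δ]
    ring
  let _inst : MetricSpace (GX M) := glue u v δ hδ huv
  have hdA : ∀ a a' : Fin M → ℝ, dist (GX.inA a) (GX.inA a') = ∑ c, |a c - a' c| :=
    fun _ _ => rfl
  have hdB : ∀ a a' : Fin M → ℝ, dist (GX.inB a) (GX.inB a') = ∑ c, |a c - a' c| :=
    fun _ _ => rfl
  have hdC : ∀ w : Fin (N' + 1) → ℤ, (∀ x, 0 ≤ w x ∧ w x ≤ (s : ℤ) * K) →
      dist (GX.inA (mr g (ipos w))) (GX.inB (mr h (ipos w))) ≤ δ := by
    intro w hw
    let y : Y := fun x => ⟨(w x).toNat, by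
      have h1 := hw x
      have h2 : ((w x).toNat : ℤ) = w x := Int.toNat_of_nonneg h1.1
      have h3 : ((w x).toNat : ℤ) < ((s * K + 1 : ℕ) : ℤ) := by
        rw [h2]
        push_cast
        linarith [h1.2]
      exact_mod_cast h3⟩
    have hy : (fun x => ((y x : ℕ) : ℝ)) = ipos w := by
      funext x
      have h2 : ((w x).toNat : ℤ) = w x := Int.toNat_of_nonneg (hw x).1
      change (((w x).toNat : ℕ) : ℝ) = (w x : ℝ)
      have h3 : ((((w x).toNat : ℕ) : ℤ) : ℝ) = (w x : ℝ) := by rw [h2]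
      rw [Int.cast_natCast] at h3
      exact h3
    have h1 := cd_le u v δ (mr g (ipos w)) (mr h (ipos w)) y
    have h2 : u y = mr g (ipos w) := by simp only [u]; rw [hy]
    have h3 : v y = mr h (ipos w) := by simp only [v]; rw [hy]
    rw [h2, h3, n1_self, n1_self, zero_add, add_zero] at h1
    exact h1
  refine ⟨GX M, inferInstance, Set.range GX.inA, Set.range GX.inB, ?_, ?_, ?_, ?_⟩
  · ext p
    rcases p with a | b
    · simp
    · simp
  · refine ⟨fun p => emb M p.2.choose, ?_⟩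
    refine Isometry.of_dist_eq fun p q => ?_
    have hp : GX.inA p.2.choose = (p : GX M) := p.2.choose_spec
    have hq : GX.inA q.2.choose = (q : GX M) := q.2.choose_spec
    rw [dist_eq_norm, emb_norm_sub, Subtype.dist_eq, ← hdA, hp, hq]
  · refine ⟨fun p => emb M p.2.choose, ?_⟩
    refine Isometry.of_dist_eq fun p q => ?_
    have hp : GX.inB p.2.choose = (p : GX M) := p.2.choose_spec
    have hq : GX.inB q.2.choose = (q : GX M) := q.2.choose_spec
    rw [dist_eq_norm, emb_norm_sub, Subtype.dist_eq, ← hdB, hp, hq]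
  · rintro ⟨f, s0, hs00, hf⟩
    have hup : ∀ p q, dist (f p) (f q) ≤ s0 * D * dist p q := fun p q =>
      (hf p q).2.trans (by gcongr)
    let FA : (Fin M → ℝ) → lp (fun _ : ℕ => ℝ) 1 := fun a => s0⁻¹ • f (GX.inA a)
    let FB : (Fin M → ℝ) → lp (fun _ : ℕ => ℝ) 1 := fun a => s0⁻¹ • f (GX.inB a)
    have hnorm : ∀ p q, ‖s0⁻¹ • f p - s0⁻¹ • f q‖ = s0⁻¹ * dist (f p) (f q) := by
      intro p q
      rw [← smul_sub, norm_smul, norm_inv, Real.norm_of_nonneg hs00.le, dist_eq_norm]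
    have hup' : ∀ p q, ‖s0⁻¹ • f p - s0⁻¹ • f q‖ ≤ D * dist p q := by
      intro p q
      rw [hnorm, ← div_eq_inv_mul, div_le_iff₀ hs00]
      refine (hup p q).trans (le_of_eq ?_)
      ring
    have hlow' : ∀ p q, dist p q ≤ ‖s0⁻¹ • f p - s0⁻¹ • f q‖ := by
      intro p q
      rw [hnorm, ← div_eq_inv_mul, le_div_iff₀ hs00]
      refine le_trans (le_of_eq ?_) (hf p q).1
      ring
    have hlowA : ∀ a a', ∑ c, |a c - a' c| ≤ ‖FA a - FA a'‖ := by
      intro a a'
      rw [← hdA]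
      exact hlow' _ _
    have hupA : ∀ a a', ‖FA a - FA a'‖ ≤ D * ∑ c, |a c - a' c| := by
      intro a a'
      rw [← hdA]
      exact hup' _ _
    have hupB : ∀ a a', ‖FB a - FB a'‖ ≤ D * ∑ c, |a c - a' c| := by
      intro a a'
      rw [← hdB]
      exact hup' _ _
    obtain ⟨j, hj⟩ := exists_z (D : ℝ) hD1 s K hspos hKcast g hg1 FA hlowA hupA
    have hcr := cross_UV s K hspos g h FA FB (D * δ) (by
      intro w hw
      refine (hup' _ _).trans ?_
      exact mul_le_mul_of_nonneg_left (hdC w hw) hD0.le) j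
    have hfin := core_ineq (D : ℝ) hD1 s hscast hM g h (fun c x => (hg1 c x).le)
      (fun c x => (hh1 c x).le) hinc FA FB hupA hupB
      (cor s (fun y => ((j y : ℕ) : ℤ))) (by
        intro x
        refine (hcr x).trans (le_of_eq ?_)
        simp only [δ]
        ring)
    exact absurd hj (not_le.2 hfin)

end Pool.Agent.H76R3.UN
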