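import Pool.Agent.H76R3.U1Core

set_option autoImplicit false

open Filter Topology

namespace Pool.Agent.H76R3.UN

open Pool.Agent.H799R2.Union

variable {N' M : ℕ}

lemma abs_mr_sub_le' (g : Fin M → Fin (N' + 1) → ℤ) (hg : ∀ c x, |(g c x : ℝ)| ≤ 1) (R : ℝ)
    (y y' : Fin (N' + 1) → ℝ) (hy : ∀ x, |y x - y' x| ≤ R) :
    ∑ c, |mr g y c - mr g y' c| ≤ M * ((N' + 1) * R) := by
  have h1 : ∀ c, |mr g y c - mr g y' c| ≤ ((N' : ℝ) + 1) * R := by
    intro c
    have : mr g y c - mr g y' c = ∑ x, (g c x : ℝ) * (y x - y' x) := by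
      simp [mr, mul_sub]
    rw [this]
    refine (Finset.abs_sum_le_sum_abs _ _).trans ?_
    calc ∑ x, |(g c x : ℝ) * (y x - y' x)| ≤ ∑ _x : Fin (N' + 1), R := by
          refine Finset.sum_le_sum fun x _ => ?_
          rw [abs_mul]
          exact (mul_le_of_le_one_left (abs_nonneg _) (hg c x)).trans (hy x)
      _ = _ := by
          rw [Finset.sum_const, Finset.card_univ, Fintype.card_fin, nsmul_eq_mul]
          push_cast
          ring
  calc ∑ c, |mr g y c - mr g y' c| ≤ ∑ _c : Fin M, ((N' : ℝ) + 1) * R :=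
        Finset.sum_le_sum fun c _ => h1 c
    _ = _ := by rw [Finset.sum_const, Finset.card_univ, Fintype.card_fin, nsmul_eq_mul]

/-- scaled corner -/
def cor (s : ℕ) (w : Fin (N' + 1) → ℤ) : Fin (N' + 1) → ℤ := fun y => (s : ℤ) * w y

lemma cor_insZ (s K : ℕ) (x : Fin (N' + 1)) (t : ℤ) (j : Fin N' → Fin K)
    (i : Fin N' → Fin s) :
    cor s (insZ x t j) + insZ x (s : ℤ) i = cor s (insZ x (t + 1) j) + insZ x 0 i := by
  funext y
  rcases Fin.eq_self_or_eq_succAbove x y with rfl | ⟨m, rfl⟩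
  · simp only [cor, insZ, Pi.add_apply, Fin.insertNth_apply_same]
    ring
  · simp only [cor, insZ, Pi.add_apply, Fin.insertNth_apply_succAbove]

lemma tele_line (D : ℝ) (hD : 1 ≤ D) (s K : ℕ) (hs : 0 < s)
    (hK : (K : ℝ) = 4 * D * ((N' : ℝ) + 1))
    (g : Fin M → Fin (N' + 1) → ℤ) (hg : ∀ c x, |(g c x : ℝ)| = 1)
    (FA : (Fin M → ℝ) → lp (fun _ : ℕ => ℝ) 1)
    (hlow : ∀ a a', ∑ c, |a c - a' c| ≤ ‖FA a - FA a'‖)
    (hup : ∀ a a', ‖FA a - FA a'‖ ≤ D * ∑ c, |a c - a' c|)
    (x : Fin (N' + 1)) (j : Fin N' → Fin K) :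
    (K : ℝ) * M / 2 ≤ ∑ i : Fin K, ‖UV g FA (cor s (insZ x ((i : ℕ) : ℤ) j)) s x‖ := by
  have hD0 : 0 < D := by linarith
  have hs0 : (0 : ℝ) < s := by exact_mod_cast hs
  let G : ℤ → lp (fun _ : ℕ => ℝ) 1 := fun t =>
    ∑ i : Fin N' → Fin s, FA (mr g (ipos (cor s (insZ x t j) + insZ x 0 i)))
  have hUV : ∀ t : ℤ, UV g FA (cor s (insZ x t j)) s x =
      ((s : ℝ) * (s : ℝ) ^ N')⁻¹ • (G (t + 1) - G t) := by
    intro t
    unfold UV
    congr 1
    simp only [G]
    rw [← Finset.sum_sub_distrib]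
    refine Finset.sum_congr rfl fun i _ => ?_
    rw [cor_insZ]
  have hsum : ∑ i : Fin K, UV g FA (cor s (insZ x ((i : ℕ) : ℤ) j)) s x =
      ((s : ℝ) * (s : ℝ) ^ N')⁻¹ • (G K - G 0) := by
    simp only [hUV]
    rw [← Finset.smul_sum]
    congr 1
    have h1 := Fin.sum_univ_eq_sum_range (fun i : ℕ => G ((i : ℤ) + 1) - G (i : ℤ)) K
    rw [h1]
    have h2 := Finset.sum_range_sub (fun i : ℕ => G (i : ℤ)) K
    simp only [Nat.cast_add, Nat.cast_one, Nat.cast_zero] at h2
    exact h2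
  have hle : ‖((s : ℝ) * (s : ℝ) ^ N')⁻¹ • (G K - G 0)‖ ≤
      ∑ i : Fin K, ‖UV g FA (cor s (insZ x ((i : ℕ) : ℤ) j)) s x‖ := by
    rw [← hsum]
    exact norm_sum_le _ _
  refine le_trans ?_ hle
  -- lower bound for the total difference
  let q : ℤ → (Fin M → ℝ) := fun t => mr g (ipos (cor s (insZ x t j)))
  let v0 : lp (fun _ : ℕ => ℝ) 1 := FA (q K) - FA (q 0)
  have hv0 : (M : ℝ) * (K * s) ≤ ‖v0‖ := by
    refine le_trans (le_of_eq ?_) (hlow (q K) (q 0))
    have h1 : ∀ c, |q K c - q 0 c| = K * s := by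
      intro c
      have h2 : q K c - q 0 c = (g c x : ℝ) * (K * s) := by
        simp only [q, mr]
        rw [← Finset.sum_sub_distrib, Finset.sum_eq_single x]
        · simp only [ipos, cor, insZ, Fin.insertNth_apply_same]
          push_cast
          ring
        · intro y _ hy
          obtain ⟨m, rfl⟩ : ∃ m, y = x.succAbove m := by
            rcases Fin.eq_self_or_eq_succAbove x y with h | h
            · exact absurd h hy
            · exact h
          simp only [ipos, cor, insZ, Fin.insertNth_apply_succAbove, sub_self]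
        · simp
      rw [h2, abs_mul, hg, one_mul, abs_of_nonneg (by positivity)]
    simp only [h1, Finset.sum_const, Finset.card_univ, Fintype.card_fin, nsmul_eq_mul]
  have hclose : ∀ (t : ℤ) (i : Fin N' → Fin s),
      ‖FA (mr g (ipos (cor s (insZ x t j) + insZ x 0 i))) - FA (q t)‖ ≤
        D * (M * ((N' + 1) * s)) := by
    intro t i
    refine (hup _ _).trans ?_
    apply mul_le_mul_of_nonneg_left _ hD0.le
    apply abs_mr_sub_le' g (fun c x => (hg c x).le)
    intro y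
    rcases Fin.eq_self_or_eq_succAbove x y with rfl | ⟨m, rfl⟩
    · simp only [ipos, Pi.add_apply, insZ, Fin.insertNth_apply_same]
      push_cast
      rw [add_zero, sub_self, abs_zero]
      exact hs0.le
    · simp only [ipos, Pi.add_apply, insZ, Fin.insertNth_apply_succAbove]
      push_cast
      rw [add_sub_cancel_left, abs_of_nonneg (by positivity)]
      have : (i m : ℕ) ≤ s := (i m).2.le
      exact_mod_cast this
  have hG : G K - G 0 = (s ^ N' : ℕ) • v0 - ∑ i : Fin N' → Fin s,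
      (v0 - (FA (mr g (ipos (cor s (insZ x K j) + insZ x 0 i))) -
        FA (mr g (ipos (cor s (insZ x 0 j) + insZ x 0 i))))) := by
    rw [Finset.sum_sub_distrib, Finset.sum_const, Finset.card_univ, Fintype.card_pi]
    simp only [Fintype.card_fin, Finset.prod_const, Finset.card_univ, G]
    rw [Finset.sum_sub_distrib]
    abel
  have hrest : ‖∑ i : Fin N' → Fin s,
      (v0 - (FA (mr g (ipos (cor s (insZ x K j) + insZ x 0 i))) -
        FA (mr g (ipos (cor s (insZ x 0 j) + insZ x 0 i)))))‖ ≤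
        (s : ℝ) ^ N' * (2 * (D * (M * ((N' + 1) * s)))) := by
    refine (norm_sum_le _ _).trans ?_
    calc _ ≤ ∑ _i : Fin N' → Fin s, 2 * (D * (M * ((N' + 1) * (s : ℝ)))) := by
          refine Finset.sum_le_sum fun i _ => ?_
          have e1 : v0 - (FA (mr g (ipos (cor s (insZ x K j) + insZ x 0 i))) -
              FA (mr g (ipos (cor s (insZ x 0 j) + insZ x 0 i)))) =
              (FA (mr g (ipos (cor s (insZ x 0 j) + insZ x 0 i))) - FA (q 0)) -
              (FA (mr g (ipos (cor s (insZ x K j) + insZ x 0 i))) - FA (q K)) := by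
            simp only [v0]
            abel
          rw [e1]
          refine (norm_sub_le _ _).trans ?_
          linarith [hclose 0 i, hclose K i]
      _ = _ := by
          rw [Finset.sum_const, Finset.card_univ, Fintype.card_pi, nsmul_eq_mul]
          simp only [Fintype.card_fin, Finset.prod_const, Finset.card_univ]
          push_cast
          ring
  have hlowG : (s : ℝ) ^ N' * (M * (K * s)) - (s : ℝ) ^ N' * (2 * (D * (M * ((N' + 1) * s)))) ≤
      ‖G K - G 0‖ := by
    rw [hG]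
    have h1 := norm_sub_norm_le ((s ^ N' : ℕ) • v0) (∑ i : Fin N' → Fin s,
      (v0 - (FA (mr g (ipos (cor s (insZ x K j) + insZ x 0 i))) -
        FA (mr g (ipos (cor s (insZ x 0 j) + insZ x 0 i))))))
    have h2 : ‖(s ^ N' : ℕ) • v0‖ = (s : ℝ) ^ N' * ‖v0‖ := by
      rw [← Nat.cast_smul_eq_nsmul ℝ, norm_smul]
      simp
    have h3 : (s : ℝ) ^ N' * (M * (K * s)) ≤ (s : ℝ) ^ N' * ‖v0‖ :=
      mul_le_mul_of_nonneg_left hv0 (by positivity)
    linarith
  rw [norm_smul, norm_inv, Real.norm_of_nonneg (by positivity), ← div_eq_inv_mul,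
    le_div_iff₀ (by positivity)]
  refine le_trans (le_of_eq ?_) hlowG
  rw [hK]
  ring

lemma exists_z (D : ℝ) (hD : 1 ≤ D) (s K : ℕ) (hs : 0 < s)
    (hK : (K : ℝ) = 4 * D * ((N' : ℝ) + 1))
    (g : Fin M → Fin (N' + 1) → ℤ) (hg : ∀ c x, |(g c x : ℝ)| = 1)
    (FA : (Fin M → ℝ) → lp (fun _ : ℕ => ℝ) 1)
    (hlow : ∀ a a', ∑ c, |a c - a' c| ≤ ‖FA a - FA a'‖)
    (hup : ∀ a a', ‖FA a - FA a'‖ ≤ D * ∑ c, |a c - a' c|) :
    ∃ j : Fin (N' + 1) → Fin K, ((N' : ℝ) + 1) * M / 2 ≤
      ∑ x, ‖UV g FA (cor s (fun y => ((j y : ℕ) : ℤ))) s x‖ := by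
  have hD0 : 0 < D := by linarith
  have hKpos : 0 < K := by
    have : (0 : ℝ) < K := by rw [hK]; positivity
    exact_mod_cast this
  have : Nonempty (Fin K) := ⟨⟨0, hKpos⟩⟩
  have h1 : ∑ _j : Fin (N' + 1) → Fin K, ((N' : ℝ) + 1) * M / 2 ≤
      ∑ j : Fin (N' + 1) → Fin K, ∑ x, ‖UV g FA (cor s (fun y => ((j y : ℕ) : ℤ))) s x‖ := by
    rw [Finset.sum_comm]
    have h2 : ∀ x : Fin (N' + 1), (K : ℝ) ^ N' * (K * M / 2) ≤
        ∑ j : Fin (N' + 1) → Fin K, ‖UV g FA (cor s (fun y => ((j y : ℕ) : ℤ))) s x‖ := by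
      intro x
      have h3 := S_split K (fun w => ‖UV g FA (cor s w) s x‖) x
      unfold S at h3
      rw [h3]
      calc (K : ℝ) ^ N' * (K * M / 2) = ∑ _j : Fin N' → Fin K, (K : ℝ) * M / 2 := by
            rw [Finset.sum_const, Finset.card_univ, Fintype.card_pi, nsmul_eq_mul]
            simp only [Fintype.card_fin, Finset.prod_const, Finset.card_univ]
            push_cast
            ring
        _ ≤ _ := Finset.sum_le_sum fun j _ => tele_line D hD s K hs hK g hg FA hlow hup x j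
    calc ∑ _j : Fin (N' + 1) → Fin K, ((N' : ℝ) + 1) * M / 2
        = ∑ _x : Fin (N' + 1), (K : ℝ) ^ N' * (K * M / 2) := by
          rw [Finset.sum_const, Finset.card_univ, Fintype.card_pi, nsmul_eq_mul,
            Finset.sum_const, Finset.card_univ, nsmul_eq_mul]
          simp only [Fintype.card_fin, Finset.prod_const, Finset.card_univ]
          push_cast
          ring
      _ ≤ _ := Finset.sum_le_sum fun x _ => h2 x
  obtain ⟨j, _, hj⟩ := Finset.exists_le_of_sum_le Finset.univ_nonempty h1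
  exact ⟨j, hj⟩

end Pool.Agent.H76R3.UN
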