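import Pool.Agent.H76R3.SRMain

set_option autoImplicit false

open Topology Filter Set

namespace Pool.Agent.H76R3.SR

/-! ### Averages over doubling trees -/

/-- index types: `Om k` has depth `2 ^ k` -/
def Om : ℕ → Type
  | 0 => Bool
  | k + 1 => Om k × Om k

/-- average -/
noncomputable def av : (k : ℕ) → (Om k → ℝ) → ℝ
  | 0, F => (F true + F false) / 2
  | k + 1, F => av k (fun ω => av k (fun ω' => F (ω, ω')))

lemma av_mono : ∀ (k : ℕ) {F G : Om k → ℝ}, (∀ ω, F ω ≤ G ω) → av k F ≤ av k G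
  | 0, F, G, h => by
    have h1 := h true
    have h2 := h false
    simp only [av]
    linarith
  | k + 1, F, G, h => by
    simp only [av]
    exact av_mono k fun ω => av_mono k fun ω' => h (ω, ω')

lemma av_add : ∀ (k : ℕ) (F G : Om k → ℝ), av k (fun ω => F ω + G ω) = av k F + av k G
  | 0, F, G => by simp only [av]; ring
  | k + 1, F, G => by
    simp only [av]
    simp_rw [av_add k]

lemma av_const_mul : ∀ (k : ℕ) (c : ℝ) (F : Om k → ℝ), av k (fun ω => c * F ω) = c * av k F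
  | 0, c, F => by simp only [av]; ring
  | k + 1, c, F => by
    simp only [av]
    simp_rw [av_const_mul k]

lemma av_const : ∀ (k : ℕ) (c : ℝ), av k (fun _ => c) = c
  | 0, c => by simp only [av]; ring
  | k + 1, c => by
    simp only [av]
    simp_rw [av_const k]

lemma av_sq : ∀ (k : ℕ) (F : Om k → ℝ), (av k F) ^ 2 ≤ av k (fun ω => F ω ^ 2)
  | 0, F => by
    simp only [av]
    nlinarith [sq_nonneg (F true - F false)]
  | k + 1, F => by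
    simp only [av]
    refine (av_sq k _).trans ?_
    exact av_mono k fun ω => av_sq k _

section Mart
variable {X : Type} [NormedAddCommGroup X] [NormedSpace ℝ X]

/-- dyadic martingales of length `2 ^ k` with differences of norm at most `B` -/
def Mart (B : ℝ) : (k : ℕ) → (Om k → X) → Prop
  | 0, F => ∃ e : X, ‖e‖ ≤ B ∧ F true = e ∧ F false = -e
  | k + 1, F => ∃ (G : Om k → X) (H : Om k → Om k → X), Mart B k G ∧ (∀ ω, Mart B k (H ω)) ∧
      ∀ ω ω', F (ω, ω') = G ω + H ω ω'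

lemma Mart.jensen {B : ℝ} : ∀ (k : ℕ) {F : Om k → X}, Mart B k F → ∀ u : X,
    ‖u‖ ^ 2 ≤ av k (fun ω => ‖u - F ω‖ ^ 2)
  | 0, F, h, u => by
    obtain ⟨e, -, h1, h2⟩ := h
    simp only [av, h1, h2, sub_neg_eq_add]
    have h3 : ‖u‖ ≤ (‖u - e‖ + ‖u + e‖) / 2 := by
      have h4 := norm_add_le (u - e) (u + e)
      have h5 : (u - e) + (u + e) = (2:ℝ) • u := by
        rw [two_smul]; abel
      rw [h5, norm_smul, Real.norm_of_nonneg (by norm_num)] at h4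
      linarith
    have h4 := norm_nonneg u
    nlinarith [sq_nonneg (‖u - e‖ - ‖u + e‖)]
  | k + 1, F, h, u => by
    obtain ⟨G, H, hG, hH, hF⟩ := h
    simp only [av]
    refine (Mart.jensen k hG u).trans ?_
    apply av_mono
    intro ω
    have := Mart.jensen k (hH ω) (u - G ω)
    simp only [hF]
    simpa only [sub_sub] using this

/-- the quadratic form of uniform convexity -/
lemma uc_quad (Y : Type) [NormedAddCommGroup Y] [NormedSpace ℝ Y] [UniformConvexSpace Y] :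
    ∃ τ : ℝ, 0 < τ ∧ τ ≤ 1 ∧ ∀ u v : Y,
      ‖u + v‖ ^ 2 ≤ 2 * (‖u‖ ^ 2 + ‖v‖ ^ 2) - τ * (‖u - v‖ ^ 2 - 1/4 * (‖u‖ ^ 2 + ‖v‖ ^ 2)) := by
  obtain ⟨δ0, hδ0, h⟩ := exists_forall_closed_ball_dist_add_le_two_sub Y (show (0:ℝ) < 1/2 by norm_num)
  set δ := min δ0 1 with hδ
  have hδpos : 0 < δ := lt_min hδ0 one_pos
  have hδ1 : δ ≤ 1 := min_le_right _ _
  refine ⟨δ ^ 2 / 64, by positivity, by nlinarith, ?_⟩
  -- the essential case
  have key : ∀ u v : Y, ‖v‖ ≤ ‖u‖ →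
      ‖u + v‖ ^ 2 ≤ 2 * (‖u‖ ^ 2 + ‖v‖ ^ 2) - δ ^ 2 / 64 * (‖u - v‖ ^ 2 - 1/4 * (‖u‖ ^ 2 + ‖v‖ ^ 2)) := by
    intro u v hvu
    have hu0 := norm_nonneg u
    have hv0 := norm_nonneg v
    have hadd := norm_add_le u v
    have hsub := norm_sub_le u v
    have hA0 := norm_nonneg (u + v)
    have hS0 := norm_nonneg (u - v)
    have hsub2 : ‖u - v‖ ^ 2 ≤ 2 * (‖u‖ ^ 2 + ‖v‖ ^ 2) := by
      nlinarith [sq_nonneg (‖u‖ - ‖v‖)]
    have hadd2 : ‖u + v‖ ^ 2 ≤ 2 * (‖u‖ ^ 2 + ‖v‖ ^ 2) - (‖u‖ - ‖v‖) ^ 2 := by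
      nlinarith [sq_nonneg (‖u‖ - ‖v‖)]
    by_cases hA : 1/4 * (‖u‖ ^ 2 + ‖v‖ ^ 2) ≤ ‖u - v‖ ^ 2
    · -- far apart
      suffices hs : ‖u + v‖ ^ 2 ≤ (1 - δ ^ 2 / 64) * (2 * (‖u‖ ^ 2 + ‖v‖ ^ 2)) by
        have h1 : 0 ≤ δ ^ 2 / 64 := by positivity
        have h2 := mul_le_mul_of_nonneg_left hsub2 h1
        have h3 : 0 ≤ δ ^ 2 / 64 * (1/4 * (‖u‖ ^ 2 + ‖v‖ ^ 2)) := mul_nonneg h1 (by positivity)
        have h4 : (1 - δ ^ 2 / 64) * (2 * (‖u‖ ^ 2 + ‖v‖ ^ 2))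
          = 2 * (‖u‖ ^ 2 + ‖v‖ ^ 2) - δ ^ 2 / 64 * (2 * (‖u‖ ^ 2 + ‖v‖ ^ 2)) := by ring
        rw [h4] at hs
        rw [mul_sub]
        linarith
      rcases hu0.eq_or_lt with hz | hupos
      · have hv : ‖v‖ = 0 := le_antisymm (by linarith) hv0
        have : ‖u + v‖ = 0 := le_antisymm (by linarith) hA0
        rw [this, ← hz, hv]
        norm_num
      by_cases hm : ‖v‖ ≤ (1 - δ / 4) * ‖u‖
      · have h1 : δ / 4 * ‖u‖ ≤ ‖u‖ - ‖v‖ := by linarith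
        have h2 : (δ / 4 * ‖u‖) ^ 2 ≤ (‖u‖ - ‖v‖) ^ 2 := by
          apply pow_le_pow_left₀ (by positivity) h1
        have h3 : ‖v‖ ^ 2 ≤ ‖u‖ ^ 2 := by gcongr
        have h4 : δ ^ 2 / 64 * (2 * (‖u‖ ^ 2 + ‖v‖ ^ 2)) ≤ (δ / 4 * ‖u‖) ^ 2 := by
          have h5 : 0 ≤ δ ^ 2 / 64 := by positivity
          nlinarith [mul_le_mul_of_nonneg_left h3 h5]
        linarith
      · rw [not_le] at hm
        -- apply uniform convexity to the normalised vectors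
        have hi : 0 < ‖u‖⁻¹ := inv_pos.2 hupos
        have n1 : ‖‖u‖⁻¹ • u‖ ≤ 1 := by
          rw [norm_smul, Real.norm_of_nonneg hi.le, inv_mul_cancel₀ hupos.ne']
        have n2 : ‖‖u‖⁻¹ • v‖ ≤ 1 := by
          rw [norm_smul, Real.norm_of_nonneg hi.le, inv_mul_le_iff₀ hupos, mul_one]
          exact hvu
        have n3 : (1:ℝ)/2 ≤ ‖‖u‖⁻¹ • u - ‖u‖⁻¹ • v‖ := by
          rw [← smul_sub, norm_smul, Real.norm_of_nonneg hi.le, ← div_eq_inv_mul,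
            le_div_iff₀ hupos]
          have h1 : (1/2 * ‖u‖) ^ 2 ≤ ‖u - v‖ ^ 2 := by nlinarith [sq_nonneg ‖v‖]
          exact (pow_le_pow_iff_left₀ (by positivity) hS0 (by norm_num)).1 h1
        have n4 := h n1 n2 n3
        rw [← smul_add, norm_smul, Real.norm_of_nonneg hi.le, inv_mul_le_iff₀ hupos] at n4
        have n5 : ‖u + v‖ ≤ ‖u‖ * (2 - δ) := by
          have := min_le_left δ0 1
          rw [← hδ] at this
          nlinarith
        have n6 : ‖u + v‖ ^ 2 ≤ (‖u‖ * (2 - δ)) ^ 2 := by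
          apply pow_le_pow_left₀ hA0 n5
        have n7 : ((1 - δ / 4) * ‖u‖) ^ 2 ≤ ‖v‖ ^ 2 := by
          apply pow_le_pow_left₀ _ hm.le
          have : 0 ≤ 1 - δ / 4 := by linarith
          positivity
        have n8 : (2 - δ) ^ 2 ≤ (1 - δ ^ 2 / 64) * (2 * (1 + (1 - δ / 4) ^ 2)) := by
          have e1 : 0 ≤ δ ^ 2 := sq_nonneg _
          have e2 : δ ^ 2 ≤ δ := by nlinarith
          have e3 : δ ^ 2 * δ ≤ δ ^ 2 := by nlinarith
          nlinarith [mul_nonneg e1 hδpos.le, mul_nonneg (mul_nonneg e1 hδpos.le) hδpos.le]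
        have n9 : (‖u‖ * (2 - δ)) ^ 2 ≤ (1 - δ ^ 2 / 64) * (2 * (‖u‖ ^ 2 + ((1 - δ / 4) * ‖u‖) ^ 2)) := by
          have : (‖u‖ * (2 - δ)) ^ 2 = ‖u‖ ^ 2 * (2 - δ) ^ 2 := by ring
          rw [this]
          have e4 : (1 - δ ^ 2 / 64) * (2 * (‖u‖ ^ 2 + ((1 - δ / 4) * ‖u‖) ^ 2))
            = ‖u‖ ^ 2 * ((1 - δ ^ 2 / 64) * (2 * (1 + (1 - δ / 4) ^ 2))) := by ring
          rw [e4]
          gcongr
        have e5 : 0 ≤ 1 - δ ^ 2 / 64 := by nlinarith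
        calc ‖u + v‖ ^ 2 ≤ _ := n6
          _ ≤ _ := n9
          _ ≤ (1 - δ ^ 2 / 64) * (2 * (‖u‖ ^ 2 + ‖v‖ ^ 2)) := by gcongr
    · rw [not_le] at hA
      have h1 : 0 ≤ δ ^ 2 / 64 := by positivity
      have h2 : 0 ≤ δ ^ 2 / 64 * (1/4 * (‖u‖ ^ 2 + ‖v‖ ^ 2) - ‖u - v‖ ^ 2) :=
        mul_nonneg h1 (by linarith)
      have h3 : δ ^ 2 / 64 * (‖u - v‖ ^ 2 - 1/4 * (‖u‖ ^ 2 + ‖v‖ ^ 2))
          = -(δ ^ 2 / 64 * (1/4 * (‖u‖ ^ 2 + ‖v‖ ^ 2) - ‖u - v‖ ^ 2)) := by ring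
      rw [h3]
      have h4 := sq_nonneg (‖u‖ - ‖v‖)
      linarith
  intro u v
  rcases le_total ‖v‖ ‖u‖ with h1 | h1
  · exact key u v h1
  · have := key v u h1
    rw [add_comm v u, norm_sub_rev v u] at this
    linarith

lemma Mart.upper (Y : Type) [NormedAddCommGroup Y] [NormedSpace ℝ Y] {B τ : ℝ}
    (hτ0 : 0 < τ) (hτ1 : τ ≤ 1) (hq : ∀ u v : Y,
      ‖u + v‖ ^ 2 ≤ 2 * (‖u‖ ^ 2 + ‖v‖ ^ 2) - τ * (‖u - v‖ ^ 2 - 1/4 * (‖u‖ ^ 2 + ‖v‖ ^ 2))) :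
    ∀ (k : ℕ) {F : Om k → Y}, Mart B k F →
      av k (fun ω => ‖F ω‖ ^ 2) ≤ (4 - τ / 2) ^ k * B ^ 2
  | 0, F, h => by
    obtain ⟨e, he, h1, h2⟩ := h
    simp only [av, h1, h2, norm_neg, pow_zero, one_mul]
    have := norm_nonneg e
    nlinarith
  | k + 1, F, h => by
    obtain ⟨G, H, hG, hH, hF⟩ := h
    have ihG := Mart.upper Y hτ0 hτ1 hq k hG
    have ihH := fun ω => Mart.upper Y hτ0 hτ1 hq k (hH ω)
    simp only [av, hF]
    have h1 : ∀ ω, av k (fun ω' => ‖G ω + H ω ω'‖ ^ 2)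
        ≤ (2 - 3/4 * τ) * ‖G ω‖ ^ 2 + (2 + τ / 4) * ((4 - τ / 2) ^ k * B ^ 2) := by
      intro ω
      calc av k (fun ω' => ‖G ω + H ω ω'‖ ^ 2)
          ≤ av k (fun ω' => (2 + τ / 4) * ‖G ω‖ ^ 2 + ((2 + τ / 4) * ‖H ω ω'‖ ^ 2
            + (-τ) * ‖G ω - H ω ω'‖ ^ 2)) := by
            apply av_mono
            intro ω'
            have := hq (G ω) (H ω ω')
            linarith
        _ = (2 + τ / 4) * ‖G ω‖ ^ 2 + ((2 + τ / 4) * av k (fun ω' => ‖H ω ω'‖ ^ 2)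
            + (-τ) * av k (fun ω' => ‖G ω - H ω ω'‖ ^ 2)) := by
            rw [av_add, av_add, av_const_mul, av_const_mul, av_const_mul, av_const]
        _ ≤ _ := by
            have e1 := ihH ω
            have e2 := Mart.jensen k (hH ω) (G ω)
            nlinarith
    refine (av_mono k h1).trans ?_
    rw [av_add, av_const_mul, av_const]
    have e3 : (2 - 3/4 * τ) * av k (fun ω => ‖G ω‖ ^ 2)
        ≤ (2 - 3/4 * τ) * ((4 - τ / 2) ^ k * B ^ 2) := by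
      apply mul_le_mul_of_nonneg_left ihG
      linarith
    have e5 : (4 - τ / 2) ^ (k + 1) * B ^ 2 = (4 - τ / 2) * ((4 - τ / 2) ^ k * B ^ 2) := by
      rw [pow_succ (4 - τ / 2) k]
      ring
    rw [e5]
    linarith

lemma Mart.map {Y : Type} [NormedAddCommGroup Y] [NormedSpace ℝ Y] (T : X →L[ℝ] Y) :
    ∀ (k : ℕ) {F : Om k → X}, Mart 1 k F → Mart ‖T‖ k (fun ω => T (F ω))
  | 0, F, h => by
    obtain ⟨e, he, h1, h2⟩ := h
    refine ⟨T e, ?_, by simp only [h1], by simp only [h2, map_neg]⟩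
    have := T.le_opNorm e
    have h3 := norm_nonneg T
    nlinarith
  | k + 1, F, h => by
    obtain ⟨G, H, hG, hH, hF⟩ := h
    exact ⟨fun ω => T (G ω), fun ω ω' => T (H ω ω'), Mart.map T k hG,
      fun ω => Mart.map T k (hH ω), fun ω ω' => by simp only [hF, map_add]⟩

/-! ### Trees in the dual ball -/

/-- `HT s n ψ`: there is a dyadic tree of height `n` with root `ψ` in the dual ball whose sibling
nodes are at distance at least `s`. -/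
def HT (s : ℝ) : ℕ → (X →L[ℝ] ℝ) → Prop
  | 0, ψ => ‖ψ‖ ≤ 1
  | n + 1, ψ => ∃ ψ1 ψ0 : X →L[ℝ] ℝ, ψ = (1/2 : ℝ) • (ψ1 + ψ0) ∧ s ≤ ‖ψ1 - ψ0‖ ∧
      HT s n ψ1 ∧ HT s n ψ0

lemma HT.norm_le {s : ℝ} : ∀ (n : ℕ) {ψ : X →L[ℝ] ℝ}, HT s n ψ → ‖ψ‖ ≤ 1
  | 0, _, h => h
  | n + 1, ψ, h => by
    obtain ⟨ψ1, ψ0, rfl, -, h1, h0⟩ := h
    have e1 := HT.norm_le n h1
    have e0 := HT.norm_le n h0
    rw [norm_smul, Real.norm_of_nonneg (by norm_num)]
    have := norm_add_le ψ1 ψ0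
    linarith

lemma HT.pred {s : ℝ} : ∀ (n : ℕ) {ψ : X →L[ℝ] ℝ}, HT s (n + 1) ψ → HT s n ψ
  | 0, _, h => HT.norm_le 1 h
  | n + 1, ψ, h => by
    obtain ⟨ψ1, ψ0, hψ, hs, h1, h0⟩ := h
    exact ⟨ψ1, ψ0, hψ, hs, HT.pred n h1, HT.pred n h0⟩

lemma HT.mono {s : ℝ} {m n : ℕ} (h : m ≤ n) {ψ : X →L[ℝ] ℝ} (hψ : HT s n ψ) : HT s m ψ := by
  induction n, h using Nat.le_induction with
  | base => exact hψ
  | succ n _ ih => exact ih hψ.pred

lemma exists_dir {s : ℝ} (hs : 0 < s) (ψ : X →L[ℝ] ℝ) (h : s ≤ ‖ψ‖) :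
    ∃ e : X, ‖e‖ ≤ 1 ∧ s / 2 ≤ ψ e := by
  obtain ⟨e, he1, he2⟩ := ContinuousLinearMap.exists_lt_apply_of_lt_opNorm ψ
    (show s / 2 < ‖ψ‖ by linarith)
  rw [Real.norm_eq_abs] at he2
  rcases le_total 0 (ψ e) with h0 | h0
  · rw [abs_of_nonneg h0] at he2
    exact ⟨e, he1.le, he2.le⟩
  · rw [abs_of_nonpos h0] at he2
    refine ⟨-e, by rw [norm_neg]; exact he1.le, ?_⟩
    rw [map_neg]
    exact he2.le

lemma HT.mart {s : ℝ} (hs : 0 < s) : ∀ (k n : ℕ) {ψ : X →L[ℝ] ℝ}, HT s (2 ^ k + n) ψ →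
    ∃ (Ψ : Om k → (X →L[ℝ] ℝ)) (F : Om k → X), Mart 1 k F ∧ (∀ ω, HT s n (Ψ ω)) ∧
      ∀ w, ψ w + 2 ^ k * (s / 4) ≤ av k (fun ω => Ψ ω (w + F ω))
  | 0, n, ψ, h => by
    rw [pow_zero, add_comm] at h
    obtain ⟨ψ1, ψ0, rfl, hsep, h1, h0⟩ := h
    obtain ⟨e, he1, he2⟩ := exists_dir hs (ψ1 - ψ0) hsep
    refine ⟨fun b => Bool.rec ψ0 ψ1 b, fun b => Bool.rec (-e) e b, ⟨e, he1, rfl, rfl⟩, ?_, ?_⟩
    · rintro (_ | _)
      · exact h0
      · exact h1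
    · intro w
      rw [sub_apply] at he2
      simp only [av, map_add, map_neg, smul_apply, add_apply, smul_eq_mul, pow_zero, one_mul]
      linarith
  | k + 1, n, ψ, h => by
    have h' : HT s (2 ^ k + (2 ^ k + n)) ψ := by
      have : 2 ^ (k + 1) + n = 2 ^ k + (2 ^ k + n) := by ring
      rwa [this] at h
    obtain ⟨Ψ, F, hF, hΨ, hav⟩ := HT.mart hs k (2 ^ k + n) h'
    choose Ψ' F' hF' hΨ' hav' using fun ω => HT.mart hs k n (hΨ ω)
    refine ⟨fun q => Ψ' q.1 q.2, fun q => F q.1 + F' q.1 q.2, ⟨F, F', hF, hF', fun _ _ => rfl⟩,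
      fun q => hΨ' q.1 q.2, ?_⟩
    intro w
    simp only [av]
    have h1 : ∀ ω, Ψ ω (w + F ω) + 2 ^ k * (s / 4)
        ≤ av k (fun ω' => Ψ' ω ω' (w + (F ω + F' ω ω'))) := by
      intro ω
      have := hav' ω (w + F ω)
      simpa only [add_assoc] using this
    refine le_trans ?_ (av_mono k h1)
    rw [av_add, av_const]
    have := hav w
    rw [pow_succ]
    linarith

end Mart

/-- In a space isomorphic to a uniformly convex one, trees in the dual ball have bounded height. -/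
theorem exists_height {X : Type} [NormedAddCommGroup X] [NormedSpace ℝ X] (Y : Type)
    [NormedAddCommGroup Y] [NormedSpace ℝ Y] [UniformConvexSpace Y] (e : X ≃L[ℝ] Y) {s : ℝ}
    (hs : 0 < s) : ∃ N : ℕ, ∀ ψ : X →L[ℝ] ℝ, ¬ HT s N ψ := by
  obtain ⟨τ, hτ0, hτ1, hq⟩ := uc_quad Y
  set K := ‖(e.symm : Y →L[ℝ] X)‖ + 1 with hK
  have hK0 : 0 < K := by positivity
  set B := ‖(e : X →L[ℝ] Y)‖ with hB
  -- choose the size
  have hr1 : (4 - τ / 2) / 4 < 1 := by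
    rw [div_lt_one (by norm_num)]
    linarith
  have hr0 : 0 ≤ (4 - τ / 2) / 4 := by
    apply div_nonneg _ (by norm_num)
    linarith
  have hlim := (tendsto_pow_atTop_nhds_zero_of_lt_one hr0 hr1).const_mul (B ^ 2)
  rw [mul_zero] at hlim
  have hpos : 0 < (s / (4 * K)) ^ 2 := by positivity
  obtain ⟨k, hk⟩ := (hlim.eventually (gt_mem_nhds hpos)).exists
  refine ⟨2 ^ k, fun ψ hψ => ?_⟩
  obtain ⟨Ψ, F, hF, hΨ, hav⟩ := HT.mart hs k 0 (ψ := ψ) (by rw [add_zero]; exact hψ)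
  have h0 := hav 0
  rw [map_zero, zero_add] at h0
  have h1 : av k (fun ω => Ψ ω (0 + F ω)) ≤ av k (fun ω => K * ‖e (F ω)‖) := by
    apply av_mono
    intro ω
    rw [zero_add]
    have e1 : Ψ ω (F ω) ≤ ‖F ω‖ := by
      refine (le_abs_self _).trans ?_
      rw [← Real.norm_eq_abs]
      exact ((Ψ ω).le_of_opNorm_le (HT.norm_le 0 (hΨ ω)) _).trans (by rw [one_mul])
    have e2 : ‖F ω‖ ≤ K * ‖e (F ω)‖ := by
      have h2 := (e.symm : Y →L[ℝ] X).le_opNorm (e (F ω))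
      have h3 : (e.symm : Y →L[ℝ] X) (e (F ω)) = F ω := e.symm_apply_apply _
      rw [h3] at h2
      have h4 := norm_nonneg (e (F ω))
      nlinarith
    exact e1.trans e2
  rw [av_const_mul] at h1
  have h2 : 2 ^ k * (s / (4 * K)) ≤ av k (fun ω => ‖e (F ω)‖) := by
    have h3 := h0.trans h1
    have h4 : 2 ^ k * (s / 4) = K * (2 ^ k * (s / (4 * K))) := by
      field_simp
    rw [h4] at h3
    exact le_of_mul_le_mul_left h3 hK0
  have h3 : (2 ^ k * (s / (4 * K))) ^ 2 ≤ (4 - τ / 2) ^ k * B ^ 2 := by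
    calc (2 ^ k * (s / (4 * K))) ^ 2 ≤ (av k (fun ω => ‖e (F ω)‖)) ^ 2 := by
          apply pow_le_pow_left₀ (by positivity) h2
      _ ≤ av k (fun ω => ‖e (F ω)‖ ^ 2) := av_sq k _
      _ ≤ _ := Mart.upper Y hτ0 hτ1 hq k (Mart.map (e : X →L[ℝ] Y) k hF)
  have h4 : (2 ^ k * (s / (4 * K))) ^ 2 = 4 ^ k * (s / (4 * K)) ^ 2 := by
    rw [mul_pow, ← pow_mul, mul_comm k 2, pow_mul]
    norm_num
  rw [h4] at h3
  have h5 : (4 - τ / 2) ^ k * B ^ 2 = 4 ^ k * (B ^ 2 * ((4 - τ / 2) / 4) ^ k) := by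
    rw [div_pow]
    field_simp
  rw [h5] at h3
  have h6 := le_of_mul_le_mul_left h3 (by positivity)
  linarith

open Classical in
/-- The potential coming from a uniformly convex renorming of the space. -/
lemma exists_pot' {X : Type} [NormedAddCommGroup X] [NormedSpace ℝ X] (Y : Type)
    [NormedAddCommGroup Y] [NormedSpace ℝ Y] [UniformConvexSpace Y] (e : X ≃L[ℝ] Y) (s : ℝ)
    (hs : 0 < s) :
    ∃ (Θ : (X →L[ℝ] ℝ) → ℝ) (κ Bd : ℝ), 0 < κ ∧ Pot Θ s κ Bd := by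
  obtain ⟨N, hN⟩ := exists_height Y e hs
  refine ⟨fun ψ => (N : ℝ) - (Nat.findGreatest (fun n => HT s n ψ) N : ℕ), 1/2, N, by norm_num, ?_⟩
  refine ⟨?_, ?_, ?_⟩
  · intro ψ
    have : Nat.findGreatest (fun n => HT s n ψ) N ≤ N := Nat.findGreatest_le N
    have h2 : ((Nat.findGreatest (fun n => HT s n ψ) N : ℕ) : ℝ) ≤ N := by exact_mod_cast this
    linarith
  · intro ψ _
    have : (0:ℝ) ≤ (Nat.findGreatest (fun n => HT s n ψ) N : ℕ) := Nat.cast_nonneg _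
    linarith
  · intro ψ ψ' hψ hψ' hsep
    set g := Nat.findGreatest (fun n => HT s n ψ) N with hg
    set g' := Nat.findGreatest (fun n => HT s n ψ') N with hg'
    have h1 : HT s g ψ := Nat.findGreatest_spec (P := fun n => HT s n ψ) (Nat.zero_le N) hψ
    have h2 : HT s g' ψ' := Nat.findGreatest_spec (P := fun n => HT s n ψ') (Nat.zero_le N) hψ'
    have h3 : HT s (min g g' + 1) ((1/2 : ℝ) • (ψ + ψ')) :=
      ⟨ψ, ψ', rfl, hsep, h1.mono (min_le_left _ _), h2.mono (min_le_right _ _)⟩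
    have h4 : min g g' + 1 ≤ N := by
      by_contra hcon
      rw [not_le] at hcon
      exact hN _ (h3.mono hcon.le)
    have h5 : min g g' + 1 ≤ Nat.findGreatest (fun n => HT s n ((1/2 : ℝ) • (ψ + ψ'))) N :=
      Nat.le_findGreatest h4 h3
    have h6 : ((min g g' : ℕ) : ℝ) + 1
        ≤ (Nat.findGreatest (fun n => HT s n ((1/2 : ℝ) • (ψ + ψ'))) N : ℕ) := by
      exact_mod_cast h5
    have h7 : max ((N : ℝ) - g) ((N : ℝ) - g') = (N : ℝ) - ((min g g' : ℕ) : ℝ) := by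
      rw [Nat.cast_min]
      rcases le_total g g' with h | h
      · have h' : (g : ℝ) ≤ g' := by exact_mod_cast h
        rw [min_eq_left h', max_eq_left (by linarith)]
      · have h' : (g' : ℝ) ≤ g := by exact_mod_cast h
        rw [min_eq_right h', max_eq_right (by linarith)]
    rw [h7]
    linarith

end Pool.Agent.H76R3.SR
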