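import Pool.Agent.H799R2.UCore

set_option autoImplicit false

open Filter Topology

namespace Pool.Agent.H76R3.UN

open Pool.Agent.H799R2.Union

variable {N' : ℕ}

/-- sum over the box `[0,n)^N` -/
noncomputable def S (n : ℕ) (q : (Fin (N' + 1) → ℤ) → ℝ) : ℝ :=
  ∑ j : Fin (N' + 1) → Fin n, q (fun x => ((j x : ℕ) : ℤ))

/-- insertion of a coordinate -/
def insZ (x : Fin (N' + 1)) (t : ℤ) {n : ℕ} (j : Fin N' → Fin n) : Fin (N' + 1) → ℤ :=
  x.insertNth t (fun m => ((j m : ℕ) : ℤ))

lemma insZ_add (x : Fin (N' + 1)) (t : ℤ) {n : ℕ} (j : Fin N' → Fin n) :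
    insZ x t j + Pi.single x 1 = insZ x (t + 1) j := by
  funext y
  rcases Fin.eq_self_or_eq_succAbove x y with rfl | ⟨m, rfl⟩
  · simp [insZ]
  · simp [insZ]

lemma S_split (n : ℕ) (q : (Fin (N' + 1) → ℤ) → ℝ) (x : Fin (N' + 1)) :
    S n q = ∑ j : Fin N' → Fin n, ∑ i : Fin n, q (insZ x ((i : ℕ) : ℤ) j) := by
  unfold S
  rw [← (Fin.insertNthEquiv (fun _ => Fin n) x).sum_comp, Fintype.sum_prod_type, Finset.sum_comm]
  refine Finset.sum_congr rfl fun j _ => Finset.sum_congr rfl fun i _ => ?_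
  congr 1
  funext y
  rcases Fin.eq_self_or_eq_succAbove x y with rfl | ⟨m, rfl⟩
  · simp [insZ, Fin.insertNthEquiv]
  · simp [insZ, Fin.insertNthEquiv]

lemma S_shift (n : ℕ) (q : (Fin (N' + 1) → ℤ) → ℝ) (x : Fin (N' + 1)) :
    S n (fun j => q (j + Pi.single x 1)) - S n q =
      ∑ j : Fin N' → Fin n, (q (insZ x (n : ℤ) j) - q (insZ x 0 j)) := by
  rw [S_split n _ x, S_split n q x, ← Finset.sum_sub_distrib]
  refine Finset.sum_congr rfl fun j _ => ?_
  rw [← Finset.sum_sub_distrib]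
  simp only [insZ_add]
  have h1 := Fin.sum_univ_eq_sum_range
    (fun i : ℕ => q (insZ x ((i : ℤ) + 1) j) - q (insZ x (i : ℤ) j)) n
  rw [h1]
  have h2 := Finset.sum_range_sub (fun i : ℕ => q (insZ x (i : ℤ) j)) n
  simp only [Nat.cast_add, Nat.cast_one, Nat.cast_zero] at h2
  exact h2

/-- asymptotic shift invariance -/
lemma shift_lim (s : ℕ) (hs : 0 < s) (w : Fin (N' + 1) → ℤ) (q : ℕ → (Fin (N' + 1) → ℤ) → ℝ)
    (B : ℝ) (hq : ∀ k j, |q k j| ≤ B) :
    Tendsto (fun k : ℕ => (S (s * (k + 1)) (fun j => q k (j + w)) - S (s * (k + 1)) (q k)) /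
      ((s * (k + 1) : ℕ) : ℝ) ^ (N' + 1)) atTop (𝓝 0) := by
  let W : AddSubgroup (Fin (N' + 1) → ℤ) :=
    { carrier := {w | ∀ (q : ℕ → (Fin (N' + 1) → ℤ) → ℝ) (B : ℝ), (∀ k j, |q k j| ≤ B) →
        Tendsto (fun k : ℕ => (S (s * (k + 1)) (fun j => q k (j + w)) - S (s * (k + 1)) (q k)) /
          ((s * (k + 1) : ℕ) : ℝ) ^ (N' + 1)) atTop (𝓝 0)}
      zero_mem' := by
        intro q B hq
        simp
      add_mem' := by
        intro w w' hw hw' q B hq
        have h1 := hw (fun k j => q k (j + w')) B (fun k j => hq k _)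
        have h2 := (hw' q B hq)
        have h3 := h1.add h2
        rw [add_zero] at h3
        refine h3.congr fun k => ?_
        rw [← add_div]
        congr 1
        simp only [add_assoc]
        ring
      neg_mem' := by
        intro w hw q B hq
        have h1 := hw (fun k j => q k (j + -w)) B (fun k j => hq k _)
        have h2 := h1.neg
        rw [neg_zero] at h2
        refine h2.congr fun k => ?_
        rw [← neg_div]
        congr 1
        simp only [add_neg_cancel_right]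
        ring }
  have hsing : ∀ x : Fin (N' + 1), Pi.single x (1 : ℤ) ∈ W := by
    intro x q B hq
    have hB : 0 ≤ B := (abs_nonneg _).trans (hq 0 0)
    have hb : ∀ k : ℕ, |(S (s * (k + 1)) (fun j => q k (j + Pi.single x 1)) -
        S (s * (k + 1)) (q k)) / ((s * (k + 1) : ℕ) : ℝ) ^ (N' + 1)| ≤ 2 * B / ((k : ℝ) + 1) := by
      intro k
      rw [S_shift]
      set n := s * (k + 1) with hn
      have hn1 : (1 : ℝ) ≤ (n : ℝ) := by
        have : 1 ≤ n := Nat.one_le_iff_ne_zero.2 (by positivity)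
        exact_mod_cast this
      have hnk : (k : ℝ) + 1 ≤ n := by
        have : k + 1 ≤ n := by rw [hn]; exact Nat.le_mul_of_pos_left _ hs
        exact_mod_cast this
      have h1 : |∑ j : Fin N' → Fin n, (q k (insZ x (n : ℤ) j) - q k (insZ x 0 j))| ≤
          (n : ℝ) ^ N' * (2 * B) := by
        refine (Finset.abs_sum_le_sum_abs _ _).trans ?_
        calc ∑ j : Fin N' → Fin n, |q k (insZ x (n : ℤ) j) - q k (insZ x 0 j)|
            ≤ ∑ _j : Fin N' → Fin n, 2 * B := by
              refine Finset.sum_le_sum fun j _ => ?_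
              have := abs_sub (q k (insZ x (n : ℤ) j)) (q k (insZ x 0 j))
              linarith [hq k (insZ x (n : ℤ) j), hq k (insZ x 0 j)]
          _ = _ := by simp
      rw [abs_div, abs_of_pos (show (0:ℝ) < (n : ℝ) ^ (N' + 1) by positivity),
        div_le_div_iff₀ (by positivity) (by positivity)]
      calc |∑ j : Fin N' → Fin n, (q k (insZ x (n : ℤ) j) - q k (insZ x 0 j))| * ((k : ℝ) + 1)
          ≤ ((n : ℝ) ^ N' * (2 * B)) * n := by gcongr
        _ = 2 * B * (n : ℝ) ^ (N' + 1) := by ring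
    have hz : Tendsto (fun k : ℕ => 2 * B / ((k : ℝ) + 1)) atTop (𝓝 0) :=
      (tendsto_const_div_atTop_nhds_zero_nat (2 * B)).comp (tendsto_add_atTop_nat 1)
        |>.congr (by intro k; simp)
    exact squeeze_zero_norm hb hz
  have hw : w ∈ W := by
    have e : w = ∑ x, w x • Pi.single x (1 : ℤ) := by
      funext y
      simp [Finset.sum_apply, Pi.single_apply]
    rw [e]
    exact sum_mem fun x _ => zsmul_mem (hsing x) _
  exact hw q B hq

end Pool.Agent.H76R3.UN
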