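import Pool.Agent.H76R3.US

set_option autoImplicit false

open Filter Topology

namespace Pool.Agent.H76R3.UN

open Pool.Agent.H799R2.Union

variable {N' M : ℕ} {E : Type} [Fintype E]

/-- grid point of fineness `k + 1` -/
noncomputable def pos (z : Fin (N' + 1) → ℤ) (k : ℕ) (y : Fin (N' + 1) → ℤ) :
    Fin (N' + 1) → ℝ := fun x => (z x : ℝ) + (y x : ℝ) / ((k : ℝ) + 1)

/-- integer point -/
def ipos (z : Fin (N' + 1) → ℤ) : Fin (N' + 1) → ℝ := fun x => (z x : ℝ)

/-- the averaged difference quotient at the unit scale -/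
noncomputable def UA (g : Fin M → Fin (N' + 1) → ℤ) (f : (Fin M → ℝ) → ℝ)
    (z : Fin (N' + 1) → ℤ) (s : ℕ) (x : Fin (N' + 1)) : ℝ :=
  (∑ i : Fin N' → Fin s, (f (mr g (ipos (z + insZ x (s : ℤ) i))) -
    f (mr g (ipos (z + insZ x 0 i))))) / ((s : ℝ) * (s : ℝ) ^ N')

lemma mr_pos_add (g : Fin M → Fin (N' + 1) → ℤ) (z : Fin (N' + 1) → ℤ) (k : ℕ)
    (j y : Fin (N' + 1) → ℤ) :
    mr g (pos z k j) + ((k : ℝ) + 1)⁻¹ • (fun c => ((mz g y c : ℤ) : ℝ)) =
      mr g (pos z k (j + y)) := by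
  rw [← mr_cast, ← mr_smul, ← mr_add]
  congr 1
  funext x
  simp only [pos, Pi.add_apply, Pi.smul_apply, smul_eq_mul, Int.cast_add]
  field_simp
  ring

lemma abs_mr_sub_le (g : Fin M → Fin (N' + 1) → ℤ) (hg : ∀ c x, |(g c x : ℝ)| ≤ 1)
    (y y' : Fin (N' + 1) → ℝ) (hy : ∀ x, |y x - y' x| ≤ 1) :
    ∑ c, |mr g y c - mr g y' c| ≤ M * (N' + 1) := by
  have h1 : ∀ c, |mr g y c - mr g y' c| ≤ (N' + 1 : ℝ) := by
    intro c
    have : mr g y c - mr g y' c = ∑ x, (g c x : ℝ) * (y x - y' x) := by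
      simp [mr, mul_sub]
    rw [this]
    refine (Finset.abs_sum_le_sum_abs _ _).trans ?_
    calc ∑ x, |(g c x : ℝ) * (y x - y' x)| ≤ ∑ _x : Fin (N' + 1), (1 : ℝ) := by
          refine Finset.sum_le_sum fun x _ => ?_
          rw [abs_mul]
          exact mul_le_one₀ (hg c x) (abs_nonneg _) (hy x)
      _ = _ := by simp
  calc ∑ c, |mr g y c - mr g y' c| ≤ ∑ _c : Fin M, (N' + 1 : ℝ) :=
        Finset.sum_le_sum fun c _ => h1 c
    _ = _ := by rw [Finset.sum_const, Finset.card_univ, Fintype.card_fin, nsmul_eq_mul]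

/-- grid refinement -/
def refi (N' s k : ℕ) : (Fin N' → Fin s) × (Fin N' → Fin (k + 1)) ≃ (Fin N' → Fin (s * (k + 1))) :=
  (Equiv.arrowProdEquivProdArrow (Fin N') (fun _ => Fin s) (fun _ => Fin (k + 1))).symm.trans
    (Equiv.piCongrRight fun _ => finProdFinEquiv)

lemma refi_val (s k : ℕ) (i : Fin N' → Fin s) (r : Fin N' → Fin (k + 1)) (m : Fin N') :
    ((refi N' s k (i, r) m : ℕ)) = (r m : ℕ) + (k + 1) * (i m : ℕ) := rfl

lemma pos_close (z : Fin (N' + 1) → ℤ) (s k : ℕ) (x : Fin (N' + 1)) (t : ℤ)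
    (i : Fin N' → Fin s) (r : Fin N' → Fin (k + 1)) (y : Fin (N' + 1)) :
    |pos z k (insZ x (t * (k + 1)) (refi N' s k (i, r))) y - ipos (z + insZ x t i) y| ≤ 1 := by
  have hk : (0 : ℝ) < (k : ℝ) + 1 := by positivity
  rcases Fin.eq_self_or_eq_succAbove x y with rfl | ⟨m, rfl⟩
  · simp only [pos, ipos, insZ, Fin.insertNth_apply_same, Pi.add_apply]
    push_cast
    rw [mul_div_assoc, div_self hk.ne', mul_one, sub_self, abs_zero]
    exact zero_le_one
  · simp only [pos, ipos, insZ, Fin.insertNth_apply_succAbove, Pi.add_apply, refi_val]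
    push_cast
    have h1 : (z (x.succAbove m) : ℝ) + ((r m : ℕ) + ((k : ℝ) + 1) * (i m : ℕ)) / ((k : ℝ) + 1) -
        ((z (x.succAbove m) : ℝ) + (i m : ℕ)) = ((r m : ℕ) : ℝ) / ((k : ℝ) + 1) := by
      field_simp
      ring
    rw [h1, abs_of_nonneg (by positivity), div_le_one hk]
    have : (r m : ℕ) ≤ k + 1 := (r m).2.le
    exact_mod_cast this

/-- One side of the argument, averaged version. -/
lemma side' (g : Fin M → Fin (N' + 1) → ℤ) (hg : ∀ c x, |(g c x : ℝ)| ≤ 1) (C : ℝ) (hC : 0 ≤ C)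
    (f : E → (Fin M → ℝ) → ℝ) (hf : ∀ a a', ∑ e, |f e a - f e a'| ≤ C * ∑ c, |a c - a' c|)
    (z : Fin (N' + 1) → ℤ) (s : ℕ) (hs : 0 < s) :
    ∃ φ : E → Fin M → ℝ, (∀ c, ∑ e, |φ e c| ≤ C) ∧
      ∀ x, ∑ e, |(∑ c, (g c x : ℝ) * φ e c) - UA g (f e) z s x| ≤
        2 * C * M * (N' + 1) / s := by
  classical
  let qq : E → ℕ → (Fin M → ℤ) → (Fin (N' + 1) → ℤ) → ℝ := fun e k a j =>
    ((k : ℝ) + 1) * (f e (mr g (pos z k j) + ((k : ℝ) + 1)⁻¹ • fun c => (a c : ℝ)) -
      f e (mr g (pos z k j)))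
  have hq1 : ∀ k a a' j, ∑ e, |qq e k a j - qq e k a' j| ≤ C * ∑ c, |((a - a') c : ℝ)| := by
    intro k a a' j
    have hk : (0 : ℝ) < (k : ℝ) + 1 := by positivity
    have e1 : ∀ e, |qq e k a j - qq e k a' j| = ((k : ℝ) + 1) *
        |f e (mr g (pos z k j) + ((k : ℝ) + 1)⁻¹ • fun c => (a c : ℝ)) -
          f e (mr g (pos z k j) + ((k : ℝ) + 1)⁻¹ • fun c => (a' c : ℝ))| := by
      intro e
      rw [← abs_of_pos hk, ← abs_mul, abs_of_pos hk]
      congr 1
      simp only [qq]
      ring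
    simp_rw [e1]
    rw [← Finset.mul_sum]
    have h2 := hf (mr g (pos z k j) + ((k : ℝ) + 1)⁻¹ • fun c => (a c : ℝ))
      (mr g (pos z k j) + ((k : ℝ) + 1)⁻¹ • fun c => (a' c : ℝ))
    have e2 : ∀ c, |(mr g (pos z k j) + ((k : ℝ) + 1)⁻¹ • fun c => (a c : ℝ)) c -
        (mr g (pos z k j) + ((k : ℝ) + 1)⁻¹ • fun c => (a' c : ℝ)) c| =
        ((k : ℝ) + 1)⁻¹ * |((a - a') c : ℝ)| := by
      intro c
      simp only [Pi.add_apply, Pi.smul_apply, smul_eq_mul, Pi.sub_apply, Int.cast_sub]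
      rw [add_sub_add_left_eq_sub, ← mul_sub, abs_mul, abs_of_pos (inv_pos.2 hk)]
    simp_rw [e2] at h2
    rw [← Finset.mul_sum] at h2
    calc ((k : ℝ) + 1) * _ ≤ ((k : ℝ) + 1) * (C * (((k : ℝ) + 1)⁻¹ * ∑ c, |((a - a') c : ℝ)|)) :=
          mul_le_mul_of_nonneg_left h2 hk.le
      _ = C * ∑ c, |((a - a') c : ℝ)| := by field_simp
  have hq0 : ∀ e k j, qq e k 0 j = 0 := by
    intro e k j
    have : (((k : ℝ) + 1)⁻¹ • fun c : Fin M => (((0 : Fin M → ℤ) c : ℤ) : ℝ)) = 0 := by
      funext c; simp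
    simp only [qq]
    rw [this, add_zero, sub_self, mul_zero]
  have hqb : ∀ e k a j, |qq e k a j| ≤ C * ∑ c, |(a c : ℝ)| := by
    intro e k a j
    have h1 := hq1 k a 0 j
    have h2 : |qq e k a j - qq e k 0 j| ≤ ∑ e, |qq e k a j - qq e k 0 j| :=
      Finset.single_le_sum (f := fun e => |qq e k a j - qq e k 0 j|) (fun _ _ => abs_nonneg _)
        (Finset.mem_univ e)
    rw [hq0, sub_zero] at h2
    simp only [sub_zero] at h1
    exact h2.trans h1
  have hqadd : ∀ e k y w j, qq e k (mz g (y + w)) j = qq e k (mz g y) (j + w) +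
      qq e k (mz g w) j := by
    intro e k y w j
    simp only [qq]
    rw [mr_pos_add, mr_pos_add, mr_pos_add]
    have : j + (y + w) = j + w + y := by abel
    rw [this]
    ring
  let V : E → (Fin M → ℤ) → ℕ → ℝ := fun e a k =>
    S (s * (k + 1)) (qq e k a) / ((s * (k + 1) : ℕ) : ℝ) ^ (N' + 1)
  have hnpos : ∀ k : ℕ, (0 : ℝ) < ((s * (k + 1) : ℕ) : ℝ) := by
    intro k
    have : 0 < s * (k + 1) := by positivity
    exact_mod_cast this
  have hV : ∀ a a' k, ∑ e, |V e a k - V e a' k| ≤ C * ∑ c, |((a - a') c : ℝ)| := by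
    intro a a' k
    have hn := hnpos k
    set n := s * (k + 1) with hn'
    have e1 : ∀ e, |V e a k - V e a' k| ≤
        (∑ j : Fin (N' + 1) → Fin n, |qq e k a (fun x => ((j x : ℕ) : ℤ)) -
          qq e k a' (fun x => ((j x : ℕ) : ℤ))|) / (n : ℝ) ^ (N' + 1) := by
      intro e
      change |S n (qq e k a) / (n : ℝ) ^ (N' + 1) - S n (qq e k a') / (n : ℝ) ^ (N' + 1)| ≤ _
      rw [← sub_div, abs_div, abs_of_pos (show (0:ℝ) < (n : ℝ) ^ (N' + 1) by positivity)]
      gcongr
      unfold S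
      rw [← Finset.sum_sub_distrib]
      exact Finset.abs_sum_le_sum_abs _ _
    refine (Finset.sum_le_sum fun e _ => e1 e).trans ?_
    rw [← Finset.sum_div, div_le_iff₀ (by positivity), Finset.sum_comm]
    calc ∑ j : Fin (N' + 1) → Fin n, ∑ e, |qq e k a (fun x => ((j x : ℕ) : ℤ)) -
          qq e k a' (fun x => ((j x : ℕ) : ℤ))| ≤ ∑ _j : Fin (N' + 1) → Fin n,
          C * ∑ c, |((a - a') c : ℝ)| := Finset.sum_le_sum fun j _ => hq1 k a a' _
      _ = C * (∑ c, |((a - a') c : ℝ)|) * (n : ℝ) ^ (N' + 1) := by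
        rw [Finset.sum_const, nsmul_eq_mul, Finset.card_univ, Fintype.card_pi]
        simp only [Fintype.card_fin, Finset.prod_const, Finset.card_univ]
        push_cast
        ring
  have hV0 : ∀ e k, V e 0 k = 0 := by
    intro e k
    simp only [V]
    have : qq e k 0 = fun _ => 0 := funext (hq0 e k)
    rw [this]
    simp [S]
  have hVb : ∀ e a, Bd (V e a) := by
    intro e a
    refine ⟨C * ∑ c, |(a c : ℝ)|, fun k => ?_⟩
    have h1 := hV a 0 k
    have h2 : |V e a k - V e 0 k| ≤ ∑ e, |V e a k - V e 0 k| :=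
      Finset.single_le_sum (f := fun e => |V e a k - V e 0 k|) (fun _ _ => abs_nonneg _)
        (Finset.mem_univ e)
    rw [hV0, sub_zero] at h2
    simp only [sub_zero] at h1
    exact h2.trans h1
  let U : E → (Fin M → ℤ) → ℝ := fun e a => ulim (V e a)
  have hU : ∀ a a', ∑ e, |U e a - U e a'| ≤ C * ∑ c, |((a - a') c : ℝ)| := by
    intro a a'
    have h1 : Tendsto (fun k => ∑ e, |V e a k - V e a' k|) (hyperfilter ℕ : Filter ℕ)
        (𝓝 (∑ e, |U e a - U e a'|)) := by
      apply tendsto_finsetSum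
      intro e _
      exact ((tendsto_ulim _ (hVb e a)).sub (tendsto_ulim _ (hVb e a'))).abs
    exact le_of_tendsto' h1 (hV a a')
  have hUadd : ∀ e y w, U e (mz g (y + w)) = U e (mz g y) + U e (mz g w) := by
    intro e y w
    apply ulim_eq
    have h1 := (tendsto_ulim _ (hVb e (mz g y))).add (tendsto_ulim _ (hVb e (mz g w)))
    have h2 := (shift_lim s hs w (fun k => qq e k (mz g y)) _ (fun k j => hqb e k _ j)).mono_left
      hyper_le
    have h3 := h1.add h2
    rw [add_zero] at h3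
    refine h3.congr fun k => ?_
    simp only [V]
    have e1 : S (s * (k + 1)) (qq e k (mz g (y + w))) =
        S (s * (k + 1)) (fun j => qq e k (mz g y) (j + w)) + S (s * (k + 1)) (qq e k (mz g w)) := by
      unfold S
      rw [← Finset.sum_add_distrib]
      exact Finset.sum_congr rfl fun j _ => hqadd e k y w _
    rw [e1]
    ring
  let D : E → (Fin (N' + 1) → ℤ) →+ ℝ := fun e =>
    AddMonoidHom.mk' (fun y => U e (mz g y)) (fun y w => hUadd e y w)
  obtain ⟨T, hT1, hT2⟩ := extend (mz g) U (fun a => C * ∑ c, |(a c : ℝ)|) hU D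
    (fun e y => rfl)
  refine ⟨fun e c => T e (Pi.single c 1), ?_, ?_⟩
  · intro c
    refine (hT2 (Pi.single c 1)).trans ?_
    have : ∑ c', |((Pi.single c 1 : Fin M → ℤ) c' : ℝ)| = 1 := by
      rw [Finset.sum_eq_single c]
      · simp
      · intro b _ hb; simp [Pi.single_eq_of_ne hb]
      · simp
    rw [this, mul_one]
  · intro x
    have hφ : ∀ e, ∑ c, (g c x : ℝ) * T e (Pi.single c 1) = U e (mz g (Pi.single x 1)) := by
      intro e
      have h1 : D e (Pi.single x 1) = U e (mz g (Pi.single x 1)) := rfl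
      rw [← h1, ← hT1]
      have h2 := LinearMap.pi_apply_eq_sum_univ (T e).toIntLinearMap (mz g (Pi.single x 1))
      simp only [AddMonoidHom.coe_toIntLinearMap] at h2
      rw [h2]
      refine Finset.sum_congr rfl fun c _ => ?_
      have e1 : mz g (Pi.single x 1) c = g c x := by
        simp [mz, Pi.single_apply]
      have e2 : (fun j => if c = j then (1 : ℤ) else 0) = Pi.single c 1 := by
        funext j
        by_cases h : c = j
        · subst h; simp
        · simp [h, Pi.single_eq_of_ne (Ne.symm h)]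
      rw [e1, e2, zsmul_eq_mul]
    simp only [hφ]
    have h1 : Tendsto (fun k => ∑ e, |V e (mz g (Pi.single x 1)) k - UA g (f e) z s x|)
        (hyperfilter ℕ : Filter ℕ)
        (𝓝 (∑ e, |U e (mz g (Pi.single x 1)) - UA g (f e) z s x|)) := by
      apply tendsto_finsetSum
      intro e _
      exact ((tendsto_ulim _ (hVb e _)).sub tendsto_const_nhds).abs
    refine le_of_tendsto' h1 fun k => ?_
    -- comparison of the fine average with the unit average
    have hn := hnpos k
    have hk : (0 : ℝ) < (k : ℝ) + 1 := by positivity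
    have hs' : (0 : ℝ) < s := by exact_mod_cast hs
    set n := s * (k + 1) with hn'
    have hncast : (n : ℝ) = s * ((k : ℝ) + 1) := by rw [hn']; push_cast; ring
    let Q : E → (Fin (N' + 1) → ℤ) → ℝ := fun e y => f e (mr g (pos z k y))
    have hVform : ∀ e, V e (mz g (Pi.single x 1)) k =
        (((k : ℝ) + 1) * ∑ i : Fin N' → Fin s, ∑ r : Fin N' → Fin (k + 1),
          (Q e (insZ x (n : ℤ) (refi N' s k (i, r))) - Q e (insZ x 0 (refi N' s k (i, r))))) /
          (n : ℝ) ^ (N' + 1) := by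
      intro e
      change S n (qq e k (mz g (Pi.single x 1))) / (n : ℝ) ^ (N' + 1) = _
      congr 1
      have e1 : S n (qq e k (mz g (Pi.single x 1))) = ((k : ℝ) + 1) *
          (S n (fun j => Q e (j + Pi.single x 1)) - S n (Q e)) := by
        unfold S
        rw [← Finset.sum_sub_distrib, Finset.mul_sum]
        refine Finset.sum_congr rfl fun j _ => ?_
        simp only [qq, Q]
        rw [mr_pos_add]
      rw [e1, S_shift]
      congr 1
      rw [← (refi N' s k).sum_comp, Fintype.sum_prod_type]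
    have hUA : ∀ e, UA g (f e) z s x = (((k : ℝ) + 1) * ∑ i : Fin N' → Fin s,
        ∑ _r : Fin N' → Fin (k + 1), (f e (mr g (ipos (z + insZ x (s : ℤ) i))) -
          f e (mr g (ipos (z + insZ x 0 i))))) / (n : ℝ) ^ (N' + 1) := by
      intro e
      unfold UA
      rw [div_eq_div_iff (by positivity) (by positivity)]
      simp only [Finset.sum_const, Finset.card_univ, Fintype.card_pi, Fintype.card_fin,
        Finset.prod_const, nsmul_eq_mul]
      rw [← Finset.mul_sum, hncast, mul_pow]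
      push_cast
      ring
    have hdiff : ∀ e, |V e (mz g (Pi.single x 1)) k - UA g (f e) z s x| ≤
        (((k : ℝ) + 1) * ∑ i : Fin N' → Fin s, ∑ r : Fin N' → Fin (k + 1),
          (|Q e (insZ x (n : ℤ) (refi N' s k (i, r))) - f e (mr g (ipos (z + insZ x (s : ℤ) i)))| +
           |Q e (insZ x 0 (refi N' s k (i, r))) - f e (mr g (ipos (z + insZ x 0 i)))|)) /
          (n : ℝ) ^ (N' + 1) := by
      intro e
      rw [hVform, hUA, ← sub_div, abs_div,
        abs_of_pos (show (0:ℝ) < (n : ℝ) ^ (N' + 1) by positivity)]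
      gcongr
      rw [← mul_sub, abs_mul, abs_of_pos hk, ← Finset.sum_sub_distrib]
      gcongr
      refine (Finset.abs_sum_le_sum_abs _ _).trans (Finset.sum_le_sum fun i _ => ?_)
      rw [← Finset.sum_sub_distrib]
      refine (Finset.abs_sum_le_sum_abs _ _).trans (Finset.sum_le_sum fun r _ => ?_)
      rw [sub_sub_sub_comm]
      exact abs_sub _ _
    refine (Finset.sum_le_sum fun e _ => hdiff e).trans ?_
    rw [← Finset.sum_div, ← Finset.mul_sum, Finset.sum_comm]
    have hstep : ∀ (t : ℤ) (i : Fin N' → Fin s) (r : Fin N' → Fin (k + 1)),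
        ∑ e, |Q e (insZ x (t * (k + 1)) (refi N' s k (i, r))) -
          f e (mr g (ipos (z + insZ x t i)))| ≤ C * (M * (N' + 1)) := by
      intro t i r
      refine (hf _ _).trans ?_
      gcongr
      exact abs_mr_sub_le g hg _ _ (pos_close z s k x t i r)
    have hn2 : (n : ℤ) = (s : ℤ) * (k + 1) := by rw [hn']; push_cast; ring
    have h02 : (0 : ℤ) = 0 * (k + 1) := by ring
    calc ((k : ℝ) + 1) * (∑ i : Fin N' → Fin s, ∑ e, ∑ r : Fin N' → Fin (k + 1),
          (|Q e (insZ x (n : ℤ) (refi N' s k (i, r))) - f e (mr g (ipos (z + insZ x (s : ℤ) i)))| +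
           |Q e (insZ x 0 (refi N' s k (i, r))) - f e (mr g (ipos (z + insZ x 0 i)))|)) /
          (n : ℝ) ^ (N' + 1)
        ≤ ((k : ℝ) + 1) * (∑ _i : Fin N' → Fin s, ∑ _r : Fin N' → Fin (k + 1),
          2 * (C * (M * (N' + 1)))) / (n : ℝ) ^ (N' + 1) := by
          gcongr with i _
          rw [Finset.sum_comm]
          refine Finset.sum_le_sum fun r _ => ?_
          rw [Finset.sum_add_distrib]
          have a1 := hstep s i r
          have a2 := hstep 0 i r
          rw [← hn2] at a1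
          rw [← h02] at a2
          linarith
      _ = 2 * C * M * (N' + 1) / s := by
          simp only [Finset.sum_const, Finset.card_univ, Fintype.card_pi, Fintype.card_fin,
            Finset.prod_const, nsmul_eq_mul]
          rw [hncast, mul_pow]
          push_cast
          have h1 : (s : ℝ) ^ (N' + 1) = s ^ N' * s := pow_succ _ _
          have h2 : ((k : ℝ) + 1) ^ (N' + 1) = (k + 1) ^ N' * (k + 1) := pow_succ _ _
          rw [h1, h2]
          have h3 : (s : ℝ) ^ N' ≠ 0 := by positivity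
          have h4 : ((k : ℝ) + 1) ^ N' ≠ 0 := by positivity
          field_simp

end Pool.Agent.H76R3.UN
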